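import Mathlib

set_option autoImplicit false

namespace Pool.Agent.helper38.Lac

open Filter Topology

/-- `f` is the sum of the everywhere convergent power series `∑ a k * z ^ ν k`, where all `a k` are
positive and the exponents `ν k` are strictly increasing. -/
def IsLac (f : ℂ → ℂ) (a : ℕ → ℝ) (ν : ℕ → ℕ) : Prop :=
  StrictMono ν ∧ (∀ k, 0 < a k) ∧ ∀ z : ℂ, HasSum (fun k => (a k : ℂ) * z ^ ν k) (f z)

/-- `limsup (ν (k+1) - ν k)`, an element of `{0, 1, 2, ..., ∞}`. -/
noncomputable def gapLimsup (ν : ℕ → ℕ) : ℕ∞ :=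
  limsup (fun k => ((ν (k + 1) - ν k : ℕ) : ℕ∞)) atTop

/-- the class `G(n)`: entire functions with infinitely many zeros, given by such a series, with
`limsup (ν (k+1) - ν k) = n`. -/
def G (n : ℕ) : Set (ℂ → ℂ) :=
  {f | {z : ℂ | f z = 0}.Infinite ∧ ∃ a ν, IsLac f a ν ∧ gapLimsup ν = n}

/-- maximum modulus `M(r, f)` -/
noncomputable def maxMod (f : ℂ → ℂ) (r : ℝ) : ℝ :=
  sSup ((fun z => ‖f z‖) '' Metric.sphere (0 : ℂ) r)

/-- the order `limsup log log M(r, f) / log r` -/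
noncomputable def order (f : ℂ → ℂ) : EReal :=
  limsup (fun r : ℝ => ((Real.log (Real.log (maxMod f r)) / Real.log r : ℝ) : EReal)) atTop

/-- `δ(f)`: the lower limit of `|arg z|` as `z` runs through the zeros of `f`. -/
noncomputable def delta (f : ℂ → ℂ) : ℝ :=
  liminf (fun z : {z : ℂ // f z = 0} => |Complex.arg z|) cofinite

/-- the class `G_ρ(n)` of functions of `G(n)` of order `ρ`. -/
def Gord (ρ : EReal) (n : ℕ) : Set (ℂ → ℂ) := {f | f ∈ G n ∧ order f = ρ}

/-- `g_ρ(n)`: the supremum of `δ(f)` over `G_ρ(n)`. -/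
noncomputable def g (ρ : EReal) (n : ℕ) : ℝ := sSup (delta '' Gord ρ n)

end Pool.Agent.helper38.Lac
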