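import Pool.Agent.helper38.NNLimit
import Pool.Agent.helper38.LacDefs

set_option autoImplicit false

namespace Pool.Agent.helper38.Lac

open Finset Filter Topology Complex Pool.Agent.helper38.NNF
open scoped ComplexOrder Nat

theorem delta_le_pi {f : ℂ → ℂ} (h : {z : ℂ | f z = 0}.Infinite) : delta f ≤ Real.pi := by
  have : Infinite {z : ℂ // f z = 0} := h.to_subtype
  unfold delta
  have h1 : ∃ᶠ z : {z : ℂ // f z = 0} in cofinite, |Complex.arg z| ≤ Real.pi :=
    (Eventually.of_forall (fun z : {z : ℂ // f z = 0} => Complex.abs_arg_le_pi (z:ℂ))).frequently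
  exact liminf_le_of_frequently_le h1 (isBoundedUnder_of ⟨0, fun z => abs_nonneg _⟩)

theorem delta_eq_pi {f : ℂ → ℂ} (h : {z : ℂ | f z = 0}.Infinite)
    (h2 : ∀ z, f z = 0 → z.re < 0 ∧ z.im = 0) : delta f = Real.pi := by
  have : Infinite {z : ℂ // f z = 0} := h.to_subtype
  unfold delta
  have h3 : (fun z : {z : ℂ // f z = 0} => |Complex.arg z|) = fun _ => Real.pi := by
    funext z
    rw [Complex.arg_eq_pi_iff.mpr (h2 z z.2), abs_of_pos Real.pi_pos]
  rw [h3]
  exact liminf_const _

theorem val_le_maxMod {F : ℂ → ℂ} (hF : NN F) {r : ℝ} (hr : 0 ≤ r) : val F r ≤ maxMod F r := by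
  have hmem : ‖F (r:ℂ)‖ ∈ (fun z => ‖F z‖) '' Metric.sphere (0 : ℂ) r := by
    refine ⟨(r:ℂ), ?_, rfl⟩
    rw [mem_sphere_zero_iff_norm, Complex.norm_real, Real.norm_eq_abs, abs_of_nonneg hr]
  have hbdd : BddAbove ((fun z => ‖F z‖) '' Metric.sphere (0 : ℂ) r) := by
    refine ⟨val F r, ?_⟩
    rintro x ⟨z, hz, rfl⟩
    rw [mem_sphere_zero_iff_norm] at hz
    exact norm_le_val' hF hz.le
  refine le_trans ?_ (le_csSup hbdd hmem)
  exact Complex.re_le_norm _

theorem order_top {F : ℂ → ℂ} (hF : NN F)
    (h : ∀ j : ℕ, ∃ r : ℝ, (j:ℝ) ≤ r ∧ Real.exp (r ^ j) < val F r) : order F = ⊤ := by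
  rw [EReal.eq_top_iff_forall_lt]
  intro y
  obtain ⟨m, hm⟩ := exists_nat_gt y
  have hy : (y : EReal) < ((m:ℝ) : EReal) := EReal.coe_lt_coe_iff.mpr hm
  refine hy.trans_le ?_
  unfold order
  refine le_limsup_of_frequently_le ?_ (by isBoundedDefault)
  rw [frequently_atTop]
  intro b
  obtain ⟨j0, hj0⟩ := exists_nat_gt b
  set j : ℕ := max j0 (max m 2) with hj
  obtain ⟨r, hr1, hr2⟩ := h j
  have hjb : (j0:ℝ) ≤ j := by exact_mod_cast le_max_left _ _
  have hjm : (m:ℝ) ≤ j := by exact_mod_cast le_trans (le_max_left _ _) (le_max_right _ _)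
  have hj2 : ((2:ℕ):ℝ) ≤ j := by exact_mod_cast le_trans (le_max_right _ _) (le_max_right _ _)
  push_cast at hj2
  refine ⟨r, by linarith, ?_⟩
  have hr1' : 1 < r := by linarith
  have hlog : 0 < Real.log r := Real.log_pos hr1'
  have hM : Real.exp (r ^ j) ≤ maxMod F r := hr2.le.trans (val_le_maxMod hF (by linarith))
  have h1 : r ^ j ≤ Real.log (maxMod F r) := by
    rw [← Real.log_exp (r ^ j)]
    exact Real.log_le_log (Real.exp_pos _) hM
  have h2 : (j:ℝ) * Real.log r ≤ Real.log (Real.log (maxMod F r)) := by
    rw [← Real.log_pow]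
    exact Real.log_le_log (by positivity) h1
  apply EReal.coe_le_coe_iff.mpr
  rw [le_div_iff₀ hlog]
  refine le_trans ?_ h2
  exact mul_le_mul_of_nonneg_right hjm hlog.le

theorem exists_infinite_order {n : ℕ} (hn : 1 ≤ n) :
    ∃ f ∈ Gord ⊤ n, ∀ z, f z = 0 → z.re < 0 ∧ z.im = 0 := by
  classical
  obtain ⟨F, p, R, hNN, hp, hR, hR0, hz, hgap, hpos, hgrow⟩ := main_construction hn
  have hRmono : StrictMono R := strictMono_nat_of_lt_succ (fun j => by have := hR j; linarith)
  have hpm : Monotone p := monotone_nat_of_le_succ (fun j => by have := hp j; omega)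
  have hpj : ∀ j, j ≤ p j := by
    intro j
    induction j with
    | zero => exact Nat.zero_le _
    | succ j ih => have := hp j; omega
  have hinf : {z : ℂ | F z = 0}.Infinite := by
    have hinj : Function.Injective (fun j : ℕ => (-(R j : ℂ))) := by
      intro i j hij
      simp only [neg_inj, Complex.ofReal_inj] at hij
      exact hRmono.injective hij
    refine (Set.infinite_range_of_injective hinj).mono ?_
    rintro z ⟨j, rfl⟩
    exact (hz _).mpr ⟨j, rfl⟩
  refine ⟨F, ⟨⟨hinf, ?_⟩, order_top hNN hgrow⟩, ?_⟩
  · -- the series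
    set P : ℕ → Prop := fun k => 0 < tc F k with hP
    -- endpoints are in the support
    have hPp : ∀ j, P (p j) := by
      intro j
      apply hpos
      rintro i ⟨h1, h2⟩
      rcases lt_or_ge i j with h | h
      · have h3 : p (i + 1) ≤ p j := hpm (by omega)
        have := hp i
        omega
      · have h3 : p j ≤ p i := hpm h
        omega
    have hPn : ∀ j, P (p j + n) := by
      intro j
      apply hpos
      rintro i ⟨h1, h2⟩
      rcases lt_or_ge i j with h | h
      · have h3 : p (i + 1) ≤ p j := hpm (by omega)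
        have := hp i
        omega
      · rcases Nat.eq_or_lt_of_le h with h' | h'
        · rw [← h'] at h2; omega
        · have h3 : p (j + 1) ≤ p i := hpm (by omega)
          have := hp j
          omega
    have hPinf : {k | P k}.Infinite := by
      rw [Set.infinite_iff_exists_gt]
      intro a
      exact ⟨p (a + 1), hPp _, by have := hpj (a + 1); omega⟩
    have hnotP : ∀ k, ¬ P k → ∃ j, p j < k ∧ k < p j + n := by
      intro k hk
      by_contra hcon
      push Not at hcon
      exact hk (hpos k (fun j hj => absurd hj.2 (not_lt.mpr (hcon j hj.1))))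
    have hPnot : ∀ j k, p j < k → k < p j + n → ¬ P k := by
      intro j k h1 h2 h3
      have := hgap j k h1 h2
      simp only [hP] at h3
      rw [this] at h3
      exact lt_irrefl _ h3
    set ν : ℕ → ℕ := Nat.nth P with hν
    have hmono : StrictMono ν := Nat.nth_strictMono hPinf
    have hmem : ∀ k, P (ν k) := fun k => Nat.nth_mem_of_infinite hPinf k
    have hnext : ∀ k t, P t → ν k < t → ν (k + 1) ≤ t := by
      intro k t ht hlt
      have h1 : ν (Nat.count P t) = t := Nat.nth_count ht
      have h2 : k < Nat.count P t := by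
        by_contra hcon
        have : ν (Nat.count P t) ≤ ν k := hmono.monotone (not_lt.mp hcon)
        omega
      calc ν (k + 1) ≤ ν (Nat.count P t) := hmono.monotone h2
        _ = t := h1
    have hgaple : ∀ k, ν (k + 1) - ν k ≤ n := by
      intro k
      by_cases h1 : P (ν k + 1)
      · have := hnext k _ h1 (by omega); omega
      · obtain ⟨j, hj1, hj2⟩ := hnotP _ h1
        have h3 : p j = ν k := by
          by_contra hne
          exact hPnot j (ν k) (by omega) (by omega) (hmem k)
        have h4 := hnext k _ (hPn j) (by omega)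
        omega
    have hgapge : ∃ᶠ k in atTop, n ≤ ν (k + 1) - ν k := by
      rw [frequently_atTop]
      intro b
      set j := ν b with hj
      refine ⟨Nat.count P (p j), ?_, ?_⟩
      · have h1 : ν (Nat.count P (p j)) = p j := Nat.nth_count (hPp j)
        by_contra hcon
        have h2 : ν (Nat.count P (p j)) < ν b := hmono (not_le.mp hcon)
        have := hpj j
        omega
      · have h1 : ν (Nat.count P (p j)) = p j := Nat.nth_count (hPp j)
        rw [h1]
        have h2 : p j < ν (Nat.count P (p j) + 1) := by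
          rw [← h1]
          exact hmono (by rw [h1]; omega)
        by_contra hcon
        exact hPnot j _ h2 (by omega) (hmem _)
    refine ⟨fun k => (tc F (ν k)).re, ν, ⟨hmono, ?_, ?_⟩, ?_⟩
    · intro k
      have := hmem k
      simp only [hP] at this
      exact (Complex.pos_iff.mp this).1
    · intro z
      have h1 := hasSum_tc hNN.1 z
      have h2 : ∀ x, x ∉ Set.range ν → tc F x * z ^ x = 0 := by
        intro x hx
        have h3 : ¬ P x := by
          intro hPx
          exact hx ⟨Nat.count P x, Nat.nth_count hPx⟩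
        obtain ⟨j, hj1, hj2⟩ := hnotP x h3
        rw [hgap j x hj1 hj2, zero_mul]
      have h4 := (hmono.injective.hasSum_iff h2).mpr h1
      refine h4.congr_fun ?_ |> fun h => h
      intro k
      show (((tc F (ν k)).re : ℝ) : ℂ) * z ^ ν k = tc F (ν k) * z ^ ν k
      rw [← tc_re hNN]
    · unfold gapLimsup
      apply le_antisymm
      · apply limsup_le_of_le
        · isBoundedDefault
        · filter_upwards with k
          exact_mod_cast hgaple k
      · apply le_limsup_of_frequently_le
        · refine hgapge.mono (fun k hk => ?_)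
          exact_mod_cast hk
        · isBoundedDefault
  · intro z hz0
    obtain ⟨j, hj⟩ := (hz z).mp hz0
    rw [hj]
    constructor
    · simp only [Complex.neg_re, Complex.ofReal_re]; have := hR0 j; linarith
    · simp

end Pool.Agent.helper38.Lac
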