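import Pool.Agent.helper38.LacEx

set_option autoImplicit false

namespace Pool.Agent.helper38.Lac

open Filter Topology Complex Finset Pool.Agent.helper38.NNF Pool.Agent.helper38.LacA
open scoped ComplexOrder Nat

theorem maxMod_eq {F : ℂ → ℂ} (hF : NN F) {R : ℝ} (hR : 0 ≤ R) : maxMod F R = NNF.val F R := by
  apply le_antisymm _ (val_le_maxMod hF hR)
  apply Real.sSup_le
  · rintro x ⟨z, hz, rfl⟩
    rw [mem_sphere_zero_iff_norm] at hz
    exact norm_le_val' hF hz.le
  · exact val_nonneg hF hR

theorem arg_ge_of_pow_neg {n : ℕ} (hn : 1 ≤ n) {z : ℂ} {r : ℝ} (hr : 0 < r) (h : z ^ n = -(r : ℂ)) :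
    Real.pi / n ≤ |Complex.arg z| := by
  by_contra hcon
  push Not at hcon
  have hpi := Real.pi_pos
  have hn0 : (0:ℝ) < n := by exact_mod_cast (by omega : 0 < n)
  set θ := Complex.arg z with hθ
  have hz : z = (‖z‖ : ℂ) * Complex.exp (θ * I) := (Complex.norm_mul_exp_arg_mul_I z).symm
  have hzn : z ^ n = ((‖z‖ ^ n : ℝ) : ℂ) * Complex.exp ((n * θ : ℝ) * I) := by
    nth_rewrite 1 [hz]
    rw [mul_pow, ← Complex.exp_nat_mul]
    push_cast
    congr 2
    ring
  rw [hzn] at h
  have hre := congrArg Complex.re h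
  have him := congrArg Complex.im h
  rw [Complex.re_ofReal_mul, Complex.exp_ofReal_mul_I_re] at hre
  rw [Complex.im_ofReal_mul, Complex.exp_ofReal_mul_I_im] at him
  simp only [Complex.neg_re, Complex.ofReal_re, Complex.neg_im, Complex.ofReal_im, neg_zero] at hre him
  have hzpos : 0 ≤ ‖z‖ ^ n := by positivity
  have hzne : ‖z‖ ^ n ≠ 0 := by
    intro h0; rw [h0, zero_mul] at hre; linarith
  have hsin : Real.sin (n * θ) = 0 := by
    rcases mul_eq_zero.mp him with h1 | h1
    · exact absurd h1 hzne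
    · exact h1
  have habs : |(n:ℝ) * θ| < Real.pi := by
    rw [abs_mul, abs_of_pos hn0]
    have : (n:ℝ) * |θ| < n * (Real.pi / n) := mul_lt_mul_of_pos_left hcon hn0
    have e : (n:ℝ) * (Real.pi / n) = Real.pi := by field_simp
    linarith
  rw [abs_lt] at habs
  have h0 := (Real.sin_eq_zero_iff_of_lt_of_lt habs.1 habs.2).mp hsin
  rw [h0, Real.cos_zero, mul_one] at hre
  linarith

theorem exists_seq {n : ℕ} (hn : 1 ≤ n) {ρ : ℝ} (hρ0 : 0 ≤ ρ) (hρn : ρ < n) :
    ∃ r : ℕ → ℝ, (∀ k, 0 < r k) ∧
      (∀ s : ℝ, ρ / n < s → s ≤ 1 → Summable (fun k => (r k) ^ (-s))) ∧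
      ∀ R : ℝ, 1 ≤ R → ∃ N : ℕ, (∀ k < N, r k ≤ R ^ n) ∧ R ^ ρ / 2 ≤ N := by
  have hn0 : (0:ℝ) < n := by exact_mod_cast (by omega : 0 < n)
  rcases hρ0.eq_or_lt with h0 | h0
  · subst h0
    refine ⟨fun k => 2 ^ k, fun k => by positivity, ?_, ?_⟩
    · intro s hs _
      rw [zero_div] at hs
      have h1 : (fun k : ℕ => ((2:ℝ) ^ k) ^ (-s)) = fun k : ℕ => ((2:ℝ) ^ (-s)) ^ k := by
        funext k
        rw [← Real.rpow_natCast, ← Real.rpow_natCast, ← Real.rpow_mul (by norm_num),
          ← Real.rpow_mul (by norm_num)]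
        congr 1; ring
      rw [h1]
      apply summable_geometric_of_lt_one (by positivity)
      exact Real.rpow_lt_one_of_one_lt_of_neg (by norm_num) (by linarith)
    · intro R hR
      refine ⟨1, ?_, ?_⟩
      · intro k hk
        have : k = 0 := by omega
        subst this
        simpa using one_le_pow₀ hR
      · rw [Real.rpow_zero]; norm_num
  · refine ⟨fun k => ((k:ℝ) + 1) ^ ((n:ℝ) / ρ), fun k => by positivity, ?_, ?_⟩
    · intro s hs _
      have h1 : (fun k : ℕ => (((k:ℝ) + 1) ^ ((n:ℝ) / ρ)) ^ (-s)) =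
          fun k : ℕ => (((k + 1 : ℕ) : ℝ)) ^ (-(n * s / ρ)) := by
        funext k
        rw [← Real.rpow_mul (by positivity)]
        push_cast
        congr 1
        field_simp
      rw [h1]
      apply (summable_nat_add_iff (f := fun k : ℕ => ((k:ℝ)) ^ (-(n * s / ρ))) 1).mpr
      rw [Real.summable_nat_rpow]
      have h2 : 1 < n * s / ρ := by
        rw [lt_div_iff₀ h0, one_mul]
        rw [div_lt_iff₀ hn0] at hs
        linarith
      linarith
    · intro R hR
      have hRρ : 1 ≤ R ^ ρ := Real.one_le_rpow hR hρ0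
      refine ⟨⌊R ^ ρ⌋₊, ?_, ?_⟩
      · intro k hk
        have h1 : ((k:ℝ) + 1) ≤ R ^ ρ := by
          have h2 : ((k + 1 : ℕ) : ℝ) ≤ ((⌊R ^ ρ⌋₊ : ℕ) : ℝ) := by exact_mod_cast hk
          have h3 := Nat.floor_le (by linarith : 0 ≤ R ^ ρ)
          push_cast at h2
          linarith
        calc ((k:ℝ) + 1) ^ ((n:ℝ) / ρ) ≤ (R ^ ρ) ^ ((n:ℝ) / ρ) :=
              Real.rpow_le_rpow (by positivity) h1 (by positivity)
          _ = R ^ n := by
              rw [← Real.rpow_mul (by linarith), ← Real.rpow_natCast]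
              congr 1; field_simp
      · have h1 := Nat.lt_floor_add_one (R ^ ρ)
        have h2 : (1:ℕ) ≤ ⌊R ^ ρ⌋₊ := Nat.le_floor (by simpa using hRρ)
        have h3 : (1:ℝ) ≤ ((⌊R ^ ρ⌋₊ : ℕ) : ℝ) := by exact_mod_cast h2
        linarith

theorem exists_finite_order {n : ℕ} (hn : 1 ≤ n) {ρ : ℝ} (hρ0 : 0 ≤ ρ) (hρn : ρ < n) :
    ∃ f ∈ Gord (ρ : EReal) n, ∀ z, f z = 0 → Real.pi / n ≤ |Complex.arg z| := by
  obtain ⟨r, hr, H1, H2⟩ := exists_seq hn hρ0 hρn
  have hn0 : (0:ℝ) < n := by exact_mod_cast (by omega : 0 < n)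
  have hρ1 : ρ / n < 1 := by rw [div_lt_one hn0]; exact hρn
  have hs : Summable (fun k => (r k)⁻¹) := by
    refine (H1 1 hρ1 le_rfl).congr ?_
    intro k
    rw [Real.rpow_neg_one]
  set f : ℂ → ℂ := fun z => hh r (z ^ n) with hf
  have hNN : NN f := (nn_hh hr hs).comp (NN.pow_id n)
  have hval : ∀ R : ℝ, NNF.val f R = NNF.val (hh r) (R ^ n) := by
    intro R
    unfold NNF.val
    simp only [hf]
    push_cast; rfl
  have hlow : ∀ R : ℝ, 1 ≤ R → Real.log 2 / 2 * R ^ ρ ≤ Real.log (maxMod f R) := by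
    intro R hR
    obtain ⟨N, hN1, hN2⟩ := H2 R hR
    rw [maxMod_eq hNN (by linarith), hval]
    have h1 : (2:ℝ) ^ N ≤ ∏ k ∈ range N, (1 + R ^ n / r k) := by
      have : (2:ℝ) ^ N = ∏ _k ∈ range N, (2:ℝ) := by simp
      rw [this]
      apply Finset.prod_le_prod
      · intro k _; norm_num
      · intro k hk
        have h2 : 1 ≤ R ^ n / r k := by
          rw [le_div_iff₀ (hr k), one_mul]; exact hN1 k (Finset.mem_range.mp hk)
        linarith
    have h2 : (2:ℝ) ^ N ≤ NNF.val (hh r) (R ^ n) := h1.trans (val_hh_ge hr hs (by positivity) N)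
    have h3 : (N:ℝ) * Real.log 2 ≤ Real.log (NNF.val (hh r) (R ^ n)) := by
      rw [← Real.log_pow]
      exact Real.log_le_log (by positivity) h2
    have h4 : 0 < Real.log 2 := Real.log_pos (by norm_num)
    nlinarith
  have hmpos : ∀ R : ℝ, 1 ≤ R → 0 < Real.log (maxMod f R) := by
    intro R hR
    refine lt_of_lt_of_le ?_ (hlow R hR)
    have h4 : 0 < Real.log 2 := Real.log_pos (by norm_num)
    have : 0 < R ^ ρ := Real.rpow_pos_of_pos (by linarith) _
    positivity
  refine ⟨f, ⟨⟨?_, ?_⟩, ?_⟩, ?_⟩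
  · -- infinitely many zeros
    intro hfin
    have h1 : (Set.range (fun k => -(r k : ℂ))) ⊆ (fun z : ℂ => z ^ n) '' {z : ℂ | f z = 0} := by
      rintro w ⟨k, rfl⟩
      obtain ⟨z, hz⟩ := IsAlgClosed.exists_pow_nat_eq (-(r k : ℂ)) (show 0 < n by omega)
      refine ⟨z, ?_, hz⟩
      show hh r (z ^ n) = 0
      rw [hh_zero hr hs]
      exact ⟨k, hz⟩
    have h2 : (Set.range (fun k => -(r k : ℂ))).Finite := (hfin.image _).subset h1
    obtain ⟨B, hB⟩ := h2.isBounded.exists_norm_le
    have h3 : ∀ k, r k ≤ B := by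
      intro k
      have := hB _ ⟨k, rfl⟩
      rw [norm_neg, Complex.norm_real, Real.norm_eq_abs, abs_of_pos (hr k)] at this
      exact this
    have hB0 : 0 < B := (hr 0).trans_le (h3 0)
    have h4 := hs.tendsto_atTop_zero
    have h5 : B⁻¹ ≤ 0 := ge_of_tendsto h4 (Eventually.of_forall (fun k =>
      inv_anti₀ (hr k) (h3 k)))
    have : 0 < B⁻¹ := by positivity
    linarith
  · refine ⟨fun j => (tc (hh r) j).re, fun j => n * j, ⟨?_, ?_, ?_⟩, ?_⟩
    · intro i j hij
      exact Nat.mul_lt_mul_of_pos_left hij (by omega)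
    · intro k
      exact (Complex.pos_iff.mp (tc_hh_pos hr hs k)).1
    · intro z
      have h1 := hasSum_tc (hh_differentiable hr hs) (z ^ n)
      refine h1.congr_fun ?_ |> fun h => h
      intro j
      rw [← tc_re (nn_hh hr hs), pow_mul]
    · unfold gapLimsup
      have : (fun k : ℕ => ((n * (k + 1) - n * k : ℕ) : ℕ∞)) = fun _ => (n : ℕ∞) := by
        funext k
        congr 1
        rw [mul_add, mul_one, Nat.add_sub_cancel_left]
      rw [this]
      exact limsup_const _
  · -- the order
    apply le_antisymm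
    · by_contra hcon
      push Not at hcon
      obtain ⟨q, hq1, hq2⟩ := EReal.lt_iff_exists_real_btwn.mp hcon
      have hρq : ρ < q := by exact_mod_cast hq1
      set s : ℝ := min 1 ((ρ + q) / 2 / n) with hsdef
      have hs1 : s ≤ 1 := min_le_left _ _
      have hs2 : ρ / n < s := by
        rw [hsdef]
        apply lt_min hρ1
        exact div_lt_div_of_pos_right (by linarith) hn0
      have hs0 : 0 < s := lt_of_le_of_lt (by positivity) hs2
      have hns : n * s < q := by
        have h1 : s ≤ (ρ + q) / 2 / n := min_le_right _ _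
        rw [le_div_iff₀ hn0] at h1
        linarith
      set C : ℝ := 1 / s * ∑' k, (r k) ^ (-s) with hC
      have hCpos : 0 < C := by
        rw [hC]
        apply mul_pos (by positivity)
        have h1 := (H1 s hs2 hs1)
        exact h1.tsum_pos (fun k => Real.rpow_nonneg (hr k).le _) 0 (Real.rpow_pos_of_pos (hr 0) _)
      have hev : ∀ᶠ R : ℝ in atTop,
          ((Real.log (Real.log (maxMod f R)) / Real.log R : ℝ) : EReal) ≤ (q : EReal) := by
        have h1 : Tendsto (fun R : ℝ => (q - n * s) * Real.log R) atTop atTop :=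
          Tendsto.const_mul_atTop (by linarith) Real.tendsto_log_atTop
        filter_upwards [h1.eventually_ge_atTop (Real.log C), eventually_gt_atTop (1:ℝ)] with R hR1 hR2
        have hlR : 0 < Real.log R := Real.log_pos hR2
        have h2 : Real.log (maxMod f R) ≤ C * R ^ (n * s) := by
          have h3 := val_hh_le hr hs (x := R ^ n) (s := s) (by positivity) hs0 hs1 (H1 s hs2 hs1)
          rw [maxMod_eq hNN (by linarith), hval]
          have h4 : 0 < NNF.val (hh r) (R ^ n) := by
            have h5 := val_hh_ge hr hs (x := R ^ n) (by positivity) 0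
            simp only [Finset.range_zero, Finset.prod_empty] at h5
            linarith
          have h5 := Real.log_le_log h4 h3
          rw [Real.log_exp] at h5
          refine h5.trans (le_of_eq ?_)
          rw [hC, ← Real.rpow_natCast, ← Real.rpow_mul (by linarith)]
          ring
        have h3 := Real.log_le_log (hmpos R hR2.le) h2
        rw [Real.log_mul hCpos.ne' (Real.rpow_pos_of_pos (by linarith) _).ne',
          Real.log_rpow (by linarith)] at h3
        have h4 : Real.log (Real.log (maxMod f R)) / Real.log R ≤ q := by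
          rw [div_le_iff₀ hlR]
          linarith
        exact_mod_cast h4
      have h2 : order f ≤ (q : EReal) := limsup_le_of_le (by isBoundedDefault) hev
      exact absurd hq2 (not_lt.mpr h2)
    · by_contra hcon
      push Not at hcon
      obtain ⟨q, hq1, hq2⟩ := EReal.lt_iff_exists_real_btwn.mp hcon
      have hρq : q < ρ := by exact_mod_cast hq2
      have hl2 : 0 < Real.log 2 / 2 := by
        have := Real.log_pos (show (1:ℝ) < 2 by norm_num)
        positivity
      have hev : ∀ᶠ R : ℝ in atTop,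
          (q : EReal) ≤ ((Real.log (Real.log (maxMod f R)) / Real.log R : ℝ) : EReal) := by
        have h1 : Tendsto (fun R : ℝ => (ρ - q) * Real.log R) atTop atTop :=
          Tendsto.const_mul_atTop (by linarith) Real.tendsto_log_atTop
        filter_upwards [h1.eventually_ge_atTop (-Real.log (Real.log 2 / 2)),
          eventually_gt_atTop (1:ℝ)] with R hR1 hR2
        have hlR : 0 < Real.log R := Real.log_pos hR2
        have hRρ : 0 < R ^ ρ := Real.rpow_pos_of_pos (by linarith) _
        have h3 := Real.log_le_log (by positivity) (hlow R hR2.le)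
        rw [Real.log_mul hl2.ne' hRρ.ne', Real.log_rpow (by linarith)] at h3
        have h4 : q ≤ Real.log (Real.log (maxMod f R)) / Real.log R := by
          rw [le_div_iff₀ hlR]
          linarith
        exact_mod_cast h4
      have h2 : (q : EReal) ≤ order f :=
        le_limsup_of_frequently_le hev.frequently (by isBoundedDefault)
      exact absurd hq1 (not_lt.mpr h2)
  · intro z hz
    obtain ⟨k, hk⟩ := (hh_zero hr hs (z ^ n)).mp hz
    exact arg_ge_of_pow_neg hn (hr k) hk

theorem le_delta {f : ℂ → ℂ} (h : {z : ℂ | f z = 0}.Infinite) {x : ℝ}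
    (h2 : ∀ z, f z = 0 → x ≤ |Complex.arg z|) : x ≤ delta f := by
  have : Infinite {z : ℂ // f z = 0} := h.to_subtype
  unfold delta
  apply le_liminf_of_le
  · exact (isBoundedUnder_of ⟨Real.pi, fun z => Complex.abs_arg_le_pi _⟩).isCoboundedUnder_ge
  · exact Eventually.of_forall (fun z : {z : ℂ // f z = 0} => h2 z z.2)

end Pool.Agent.helper38.Lac
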