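import Pool.Agent.helper38.NullSeriesPair

set_option autoImplicit false

namespace Pool.Agent.helper38.NullSeries

open Finset Filter Topology MeasureTheory
open scoped Real ENNReal

/-- points on the circle -/
noncomputable def TT (j : ℕ) : AddCircle (2 * π) := ((tt j : ℝ) : AddCircle (2 * π))

/-- the closed set -/
def FF : Set (AddCircle (2 * π)) := insert 0 (Set.range TT) ∪ insert 0 (Set.range (fun j => - TT j))

theorem TT_tendsto : Tendsto TT atTop (𝓝 0) := by
  have h : Continuous (fun x : ℝ => (x : AddCircle (2 * π))) := AddCircle.continuous_mk' _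
  have h2 := (h.tendsto 0).comp tt_tendsto
  have h3 : ((0:ℝ) : AddCircle (2 * π)) = 0 := rfl
  rw [h3] at h2
  exact h2

theorem FF_closed : IsClosed FF := by
  have h1 := TT_tendsto.isCompact_insert_range
  have h2 : Tendsto (fun j => - TT j) atTop (𝓝 0) := by simpa using TT_tendsto.neg
  exact (h1.union h2.isCompact_insert_range).isClosed

/-- the measure -/
noncomputable def mu : Measure (AddCircle (2 * π)) :=
  Measure.sum (fun j : ℕ => ((2:ℝ≥0∞)⁻¹ ^ j) • (Measure.dirac (TT j) + Measure.dirac (- TT j)))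

instance : IsFiniteMeasure mu := by
  constructor
  unfold mu
  rw [Measure.sum_apply _ MeasurableSet.univ]
  simp only [Measure.smul_apply, Measure.add_apply, measure_univ, smul_eq_mul]
  rw [ENNReal.tsum_mul_right, ENNReal.tsum_geometric]
  norm_num

theorem mu_compl : mu FFᶜ = 0 := by
  unfold mu
  have hm : MeasurableSet (FFᶜ) := FF_closed.measurableSet.compl
  rw [Measure.sum_apply _ hm, ENNReal.tsum_eq_zero]
  intro j
  rw [Measure.smul_apply, Measure.add_apply, Measure.dirac_apply' _ hm, Measure.dirac_apply' _ hm]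
  have h1 : TT j ∉ FFᶜ := by
    rw [Set.notMem_compl_iff]
    exact Or.inl (Or.inr ⟨j, rfl⟩)
  have h2 : - TT j ∉ FFᶜ := by
    rw [Set.notMem_compl_iff]
    exact Or.inr (Or.inr ⟨j, rfl⟩)
  rw [Set.indicator_of_notMem h1, Set.indicator_of_notMem h2]
  simp

theorem fourier_TT (n : ℤ) (j : ℕ) : (fourier n (TT j) : ℂ) = Complex.exp (n * tt j * Complex.I) := by
  unfold TT
  rw [fourier_coe_apply]
  congr 1
  push_cast
  have : (π:ℂ) ≠ 0 := by exact_mod_cast Real.pi_ne_zero
  field_simp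

theorem fourier_neg_TT (n : ℤ) (j : ℕ) :
    (fourier n (- TT j) : ℂ) = Complex.exp (-(n * tt j * Complex.I)) := by
  have h1 : (- TT j) = ((-(tt j) : ℝ) : AddCircle (2 * π)) := by
    unfold TT; rw [AddCircle.coe_neg]
  rw [h1, fourier_coe_apply]
  congr 1
  push_cast
  have : (π:ℂ) ≠ 0 := by exact_mod_cast Real.pi_ne_zero
  field_simp

theorem fourier_add_TT (n : ℤ) (j : ℕ) :
    (fourier n (TT j) : ℂ) + fourier n (- TT j) = ((2 * Real.cos (n * tt j) : ℝ) : ℂ) := by
  rw [fourier_TT, fourier_neg_TT]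
  push_cast
  rw [Complex.cos]
  ring_nf

theorem cos_natAbs (n : ℤ) (x : ℝ) : Real.cos (n * x) = Real.cos ((n.natAbs : ℕ) * x) := by
  have h : ((n.natAbs : ℕ) : ℝ) = |(n:ℝ)| := by
    rw [Nat.cast_natAbs]; push_cast; rfl
  rw [h]
  rcases abs_cases (n:ℝ) with ⟨h1, _⟩ | ⟨h1, _⟩
  · rw [h1]
  · rw [h1, neg_mul, Real.cos_neg]

theorem integral_mu (n : ℤ) : ∫ t, (fourier n t : ℂ) ∂mu = ((2 * mm n.natAbs : ℝ) : ℂ) := by
  have : Fact (0 < 2 * π) := ⟨by positivity⟩
  have hint : Integrable (fun t => (fourier n t : ℂ)) mu := by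
    apply Integrable.of_bound (map_continuous (fourier n)).aestronglyMeasurable 1
    exact Filter.Eventually.of_forall (fun t => by
      rw [fourier_apply]; exact (Circle.norm_coe _).le)
  have h1 := hasSum_integral_measure (μ := fun j : ℕ => ((2:ℝ≥0∞)⁻¹ ^ j) •
    (Measure.dirac (TT j) + Measure.dirac (- TT j))) (f := fun t => (fourier n t : ℂ)) hint
  have h2 : ∀ j : ℕ, ∫ t, (fourier n t : ℂ) ∂(((2:ℝ≥0∞)⁻¹ ^ j) •
      (Measure.dirac (TT j) + Measure.dirac (- TT j))) =
      (((1 / 2 : ℝ) ^ j * (2 * Real.cos (n.natAbs * tt j)) : ℝ) : ℂ) := by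
    intro j
    rw [integral_smul_measure, integral_add_measure (integrable_dirac (by simp))
      (integrable_dirac (by simp)), integral_dirac, integral_dirac, fourier_add_TT, cos_natAbs]
    rw [ENNReal.toReal_pow, ENNReal.toReal_inv]
    simp
  have h3 : HasSum (fun j : ℕ => (((1 / 2 : ℝ) ^ j * (2 * Real.cos (n.natAbs * tt j)) : ℝ) : ℂ))
      (((2 * mm n.natAbs : ℝ)) : ℂ) := by
    rw [Complex.hasSum_ofReal]
    have h4 : Summable (fun j : ℕ => (1 / 2 : ℝ) ^ j * Real.cos (n.natAbs * tt j)) :=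
      summable_geo_bdd _ 1 (fun j => Real.abs_cos_le_one _)
    have h5 := h4.hasSum.mul_left 2
    have h6 : (fun j : ℕ => (1 / 2 : ℝ) ^ j * (2 * Real.cos (n.natAbs * tt j))) =
        (fun j : ℕ => 2 * ((1 / 2 : ℝ) ^ j * Real.cos (n.natAbs * tt j))) := by
      funext j; ring
    rw [h6]
    exact h5
  have h4 : HasSum (fun j : ℕ => ∫ t, (fourier n t : ℂ) ∂(((2:ℝ≥0∞)⁻¹ ^ j) •
      (Measure.dirac (TT j) + Measure.dirac (- TT j)))) (((2 * mm n.natAbs : ℝ)) : ℂ) := by
    have : (fun j : ℕ => ∫ t, (fourier n t : ℂ) ∂(((2:ℝ≥0∞)⁻¹ ^ j) •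
      (Measure.dirac (TT j) + Measure.dirac (- TT j)))) =
      (fun j : ℕ => (((1 / 2 : ℝ) ^ j * (2 * Real.cos (n.natAbs * tt j)) : ℝ) : ℂ)) := funext h2
    rw [this]; exact h3
  exact h1.unique h4

end Pool.Agent.helper38.NullSeries
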