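import Mathlib

set_option autoImplicit false

namespace Pool.Agent.helper38.NullSeries

open Finset Filter Topology

/-- the factorial-base digit terms -/
noncomputable def uu (θ : ℕ → ℝ) (i : ℕ) : ℝ := (⌊((i:ℝ) + 1) * θ i⌋₊ : ℝ) / ((i + 1).factorial : ℝ)

theorem uu_nonneg (θ : ℕ → ℝ) (i : ℕ) : 0 ≤ uu θ i := by unfold uu; positivity

theorem uu_le (θ : ℕ → ℝ) (hθ : ∀ i, 0 ≤ θ i ∧ θ i < 1) (i : ℕ) :
    uu θ i ≤ 1 / (i.factorial : ℝ) - 1 / ((i + 1).factorial : ℝ) := by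
  unfold uu
  have h1 : ⌊((i:ℝ) + 1) * θ i⌋₊ ≤ i := by
    have h2 : ⌊((i:ℝ) + 1) * θ i⌋₊ < i + 1 := by
      rw [Nat.floor_lt (mul_nonneg (by positivity) (hθ i).1)]
      push_cast
      have := (hθ i).2
      nlinarith
    omega
  have h3 : (⌊((i:ℝ) + 1) * θ i⌋₊ : ℝ) ≤ i := by exact_mod_cast h1
  have h4 : (0:ℝ) < (i.factorial : ℝ) := by exact_mod_cast Nat.factorial_pos i
  have h5 : ((i + 1).factorial : ℝ) = (i + 1) * (i.factorial : ℝ) := by
    rw [Nat.factorial_succ]; push_cast; ring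
  rw [h5, div_le_iff₀ (by positivity)]
  have h6 : (1 / (i.factorial : ℝ) - 1 / ((i + 1) * (i.factorial : ℝ))) * ((i + 1) * (i.factorial : ℝ))
      = i := by field_simp; ring
  rw [h6]; exact h3

theorem uu_sum_le (θ : ℕ → ℝ) (hθ : ∀ i, 0 ≤ θ i ∧ θ i < 1) (m N : ℕ) :
    ∑ i ∈ range N, uu θ (i + m) ≤ 1 / (m.factorial : ℝ) := by
  have h : ∑ i ∈ range N, uu θ (i + m) ≤ 1 / (m.factorial : ℝ) - 1 / ((N + m).factorial : ℝ) := by
    induction N with
    | zero => simp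
    | succ N ih =>
      rw [Finset.sum_range_succ]
      have h1 := uu_le θ hθ (N + m)
      have h2 : N + 1 + m = N + m + 1 := by omega
      rw [h2]; linarith
  have h2 : (0:ℝ) < 1 / ((N + m).factorial : ℝ) := by
    have : (0:ℝ) < ((N + m).factorial : ℝ) := by exact_mod_cast Nat.factorial_pos _
    positivity
  linarith

theorem uu_summable (θ : ℕ → ℝ) (hθ : ∀ i, 0 ≤ θ i ∧ θ i < 1) : Summable (uu θ) :=
  summable_of_sum_range_le (uu_nonneg θ) (fun n => by simpa using uu_sum_le θ hθ 0 n)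

theorem uu_tail_le (θ : ℕ → ℝ) (hθ : ∀ i, 0 ≤ θ i ∧ θ i < 1) (m : ℕ) :
    ∑' i, uu θ (i + m) ≤ 1 / (m.factorial : ℝ) :=
  Real.tsum_le_of_sum_range_le (fun _ => uu_nonneg θ _) (fun n => uu_sum_le θ hθ m n)

/-- the real number with prescribed factorial digits -/
noncomputable def xx (θ : ℕ → ℝ) : ℝ := ∑' i, uu θ i

theorem xx_spec (θ : ℕ → ℝ) (hθ : ∀ i, 0 ≤ θ i ∧ θ i < 1) (m : ℕ) :
    ∃ K : ℤ, |(m.factorial : ℝ) * xx θ - K - θ m| ≤ 1 / ((m:ℝ) + 1) := by
  have h0 : xx θ = ∑ i ∈ range m, uu θ i + uu θ m + ∑' i, uu θ (i + (m + 1)) := by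
    unfold xx
    rw [← (uu_summable θ hθ).sum_add_tsum_nat_add (m + 1), Finset.sum_range_succ]
  have hm : (0:ℝ) < (m.factorial : ℝ) := by exact_mod_cast Nat.factorial_pos m
  -- the integer part
  have h1 : ∃ K : ℤ, (m.factorial : ℝ) * ∑ i ∈ range m, uu θ i = K := by
    refine ⟨((∑ i ∈ range m, ⌊((i:ℝ) + 1) * θ i⌋₊ * (m.factorial / (i + 1).factorial) : ℕ) : ℤ), ?_⟩
    rw [Int.cast_natCast, Nat.cast_sum, Finset.mul_sum]
    apply Finset.sum_congr rfl
    intro i hi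
    rw [Finset.mem_range] at hi
    have h2 : (i + 1).factorial ∣ m.factorial := Nat.factorial_dvd_factorial (by omega)
    obtain ⟨q, hq⟩ := h2
    have h3 : 0 < (i + 1).factorial := Nat.factorial_pos _
    have h4 : m.factorial / (i + 1).factorial = q := by
      rw [hq]; exact Nat.mul_div_cancel_left q h3
    have h5 : (0:ℝ) < ((i + 1).factorial : ℝ) := by exact_mod_cast h3
    rw [Nat.cast_mul, h4]
    unfold uu
    rw [hq]
    push_cast
    field_simp
  obtain ⟨K, hK⟩ := h1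
  refine ⟨K, ?_⟩
  have h2 : (m.factorial : ℝ) * xx θ - K - θ m =
      ((m.factorial : ℝ) * uu θ m - θ m) + (m.factorial : ℝ) * ∑' i, uu θ (i + (m + 1)) := by
    rw [h0, mul_add, mul_add, hK]; ring
  rw [h2]
  have h3 : (m.factorial : ℝ) * uu θ m = (⌊((m:ℝ) + 1) * θ m⌋₊ : ℝ) / (m + 1) := by
    unfold uu
    rw [Nat.factorial_succ]; push_cast; field_simp
  have h4 : (⌊((m:ℝ) + 1) * θ m⌋₊ : ℝ) ≤ ((m:ℝ) + 1) * θ m :=
    Nat.floor_le (mul_nonneg (by positivity) (hθ m).1)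
  have h5 : ((m:ℝ) + 1) * θ m < (⌊((m:ℝ) + 1) * θ m⌋₊ : ℝ) + 1 := Nat.lt_floor_add_one _
  have hm1 : (0:ℝ) < (m:ℝ) + 1 := by positivity
  have h6 : (m.factorial : ℝ) * uu θ m - θ m ≤ 0 := by
    rw [h3, sub_nonpos, div_le_iff₀ hm1]; linarith
  have h7 : -(1 / ((m:ℝ) + 1)) ≤ (m.factorial : ℝ) * uu θ m - θ m := by
    rw [h3, neg_le_sub_iff_le_add]
    have : ((⌊((m:ℝ) + 1) * θ m⌋₊ : ℝ) + 1) / (m + 1) ≥ θ m := by
      rw [ge_iff_le, le_div_iff₀ hm1]; linarith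
    rw [add_div] at this
    linarith
  have h8 : 0 ≤ (m.factorial : ℝ) * ∑' i, uu θ (i + (m + 1)) :=
    mul_nonneg hm.le (tsum_nonneg (fun i => uu_nonneg θ _))
  have h9 : (m.factorial : ℝ) * ∑' i, uu θ (i + (m + 1)) ≤ 1 / ((m:ℝ) + 1) := by
    have h10 := uu_tail_le θ hθ (m + 1)
    calc (m.factorial : ℝ) * ∑' i, uu θ (i + (m + 1)) ≤ (m.factorial : ℝ) * (1 / ((m + 1).factorial : ℝ)) :=
          mul_le_mul_of_nonneg_left h10 hm.le
      _ = 1 / ((m:ℝ) + 1) := by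
          rw [Nat.factorial_succ]; push_cast; field_simp
  rw [abs_le]
  constructor <;> linarith

theorem xx_nonneg (θ : ℕ → ℝ) : 0 ≤ xx θ := tsum_nonneg (uu_nonneg θ)

theorem xx_le (θ : ℕ → ℝ) (hθ : ∀ i, 0 ≤ θ i ∧ θ i < 1) (j : ℕ) (hj : ∀ i < j, θ i = 0) :
    xx θ ≤ 1 / (j.factorial : ℝ) := by
  unfold xx
  rw [← (uu_summable θ hθ).sum_add_tsum_nat_add j]
  have h1 : ∑ i ∈ range j, uu θ i = 0 := by
    apply Finset.sum_eq_zero
    intro i hi
    rw [Finset.mem_range] at hi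
    unfold uu
    rw [hj i hi]; simp
  rw [h1, zero_add]
  exact uu_tail_le θ hθ j

/-- a dense sequence in `ℕ → ℝ` -/
noncomputable def ww : ℕ → (ℕ → ℝ) := TopologicalSpace.denseSeq (ℕ → ℝ)

/-- the array of targets -/
noncomputable def thth (j : ℕ) (m : ℕ) : ℝ := if j < m then Int.fract (ww (Nat.unpair m).1 j) else 0

theorem thth_mem (j m : ℕ) : 0 ≤ thth j m ∧ thth j m < 1 := by
  unfold thth
  split_ifs
  · exact ⟨Int.fract_nonneg _, Int.fract_lt_one _⟩
  · exact ⟨le_rfl, one_pos⟩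

/-- the points -/
noncomputable def tt (j : ℕ) : ℝ := 2 * Real.pi * xx (thth j)

theorem tt_nonneg (j : ℕ) : 0 ≤ tt j := by
  unfold tt
  have := xx_nonneg (thth j)
  positivity

theorem tt_tendsto : Tendsto tt atTop (𝓝 0) := by
  have h1 : ∀ j, tt j ≤ 2 * Real.pi * (1 / (j.factorial : ℝ)) := by
    intro j
    unfold tt
    apply mul_le_mul_of_nonneg_left _ (by positivity)
    apply xx_le _ (thth_mem j) j
    intro i hi
    unfold thth
    rw [if_neg (by omega)]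
  have h2 : Tendsto (fun j : ℕ => 2 * Real.pi * (1 / (j.factorial : ℝ))) atTop (𝓝 0) := by
    have h3 : Tendsto (fun j : ℕ => (1 / (j.factorial : ℝ))) atTop (𝓝 0) := by
      have := FloorSemiring.tendsto_pow_div_factorial_atTop (1:ℝ)
      simpa using this
    simpa using h3.const_mul (2 * Real.pi)
  exact squeeze_zero tt_nonneg h1 h2

theorem kronecker (J : ℕ) (z : ℕ → ℝ) (hz : ∀ j, |z j| ≤ 1) (ε : ℝ) (hε : 0 < ε) (N : ℕ) :
    ∃ n : ℕ, N ≤ n ∧ ∀ j < J, |Real.cos (n * tt j) - z j| ≤ ε := by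
  set τ : ℕ → ℝ := fun j => Real.arccos (z j) / (2 * Real.pi) with hτ
  have hcosτ : ∀ j, Real.cos (2 * Real.pi * τ j) = z j := by
    intro j
    have h1 := hz j
    rw [abs_le] at h1
    have h2 : 2 * Real.pi * τ j = Real.arccos (z j) := by
      simp only [hτ]
      have := Real.pi_pos
      field_simp
    rw [h2, Real.cos_arccos h1.1 h1.2]
  have hpi := Real.pi_pos
  set η : ℝ := ε / (4 * Real.pi) with hη
  have hηpos : 0 < η := by positivity
  obtain ⟨k, hk⟩ : ∃ k, ww k ∈ Set.pi (↑(Finset.range J)) (fun j => Metric.ball (τ j) η) := by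
    apply (TopologicalSpace.denseRange_denseSeq (ℕ → ℝ)).exists_mem_open
    · exact isOpen_set_pi (Finset.finite_toSet _) (fun _ _ => Metric.isOpen_ball)
    · exact ⟨τ, fun j _ => Metric.mem_ball_self hηpos⟩
  obtain ⟨l₀, hl₀⟩ := exists_nat_gt (4 * Real.pi / ε)
  set l := max (max J N) l₀ with hl
  set m := Nat.pair k l with hm
  have hml : l ≤ m := Nat.right_le_pair k l
  have hmJ : J ≤ m := (le_trans (le_max_left _ _) (le_max_left _ _)).trans hml
  have hmN : N ≤ m := (le_trans (le_max_right _ _) (le_max_left _ _)).trans hml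
  have hml₀ : l₀ ≤ m := (le_max_right _ _).trans hml
  refine ⟨m.factorial, hmN.trans (Nat.self_le_factorial m), ?_⟩
  intro j hj
  obtain ⟨K, hK⟩ := xx_spec (thth j) (thth_mem j) m
  have h1 : thth j m = Int.fract (ww k j) := by
    unfold thth
    rw [if_pos (by omega), hm, Nat.unpair_pair]
  have h2 : |ww k j - τ j| < η := by
    have := hk j (by simpa using hj)
    rwa [Metric.mem_ball, Real.dist_eq] at this
  have h3 : (↑(m.factorial) : ℝ) * tt j = 2 * Real.pi * ((m.factorial : ℝ) * xx (thth j)) := by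
    unfold tt; ring
  have h4 : Real.cos ((m.factorial : ℝ) * tt j) =
      Real.cos (2 * Real.pi * ((m.factorial : ℝ) * xx (thth j) - K)) := by
    rw [h3, mul_sub]
    have : 2 * Real.pi * (K:ℝ) = K * (2 * Real.pi) := by ring
    rw [this, Real.cos_sub_int_mul_two_pi]
  have h5 : z j = Real.cos (2 * Real.pi * (τ j - ⌊ww k j⌋)) := by
    rw [mul_sub]
    have : 2 * Real.pi * ((⌊ww k j⌋ : ℤ) : ℝ) = (⌊ww k j⌋ : ℤ) * (2 * Real.pi) := by ring
    rw [this, Real.cos_sub_int_mul_two_pi, hcosτ]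
  rw [h4, h5]
  refine (Real.abs_cos_sub_cos_le _ _).trans ?_
  have h6 : 2 * Real.pi * ((m.factorial : ℝ) * xx (thth j) - K) - 2 * Real.pi * (τ j - ⌊ww k j⌋) =
      2 * Real.pi * (((m.factorial : ℝ) * xx (thth j) - K - thth j m) +
        (ww k j - τ j)) := by
    rw [h1, Int.fract]; ring
  rw [h6, abs_mul, abs_of_pos (by positivity : (0:ℝ) < 2 * Real.pi)]
  have h7 : 1 / ((m:ℝ) + 1) ≤ η := by
    rw [hη, div_le_div_iff₀ (by positivity) (by positivity)]
    rw [div_lt_iff₀ hε] at hl₀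
    have : (l₀:ℝ) ≤ m := by exact_mod_cast hml₀
    nlinarith
  have h8 := abs_add_le ((m.factorial : ℝ) * xx (thth j) - K - thth j m) (ww k j - τ j)
  have h9 : |((m.factorial : ℝ) * xx (thth j) - K - thth j m) + (ww k j - τ j)| ≤ 2 * η := by
    linarith
  calc 2 * Real.pi * |((m.factorial : ℝ) * xx (thth j) - K - thth j m) + (ww k j - τ j)|
      ≤ 2 * Real.pi * (2 * η) := mul_le_mul_of_nonneg_left h9 (by positivity)
    _ = ε := by rw [hη]; field_simp; ring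

end Pool.Agent.helper38.NullSeries
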