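import Mathlib

set_option autoImplicit false

namespace Pool.Agent.helper38.LacA

/-- `u` alternates in sign `M` times along an increasing sequence of points of `P` starting at `x`
with sign `ε`. -/
def Alt {α : Type*} [LT α] (P : α → Prop) (u : α → ℝ) : ℕ → ℝ → α → Prop
  | 0, ε, x => P x ∧ 0 < ε * u x
  | (M + 1), ε, x => P x ∧ 0 < ε * u x ∧ ∃ y, x < y ∧ Alt P u M (-ε) y

theorem Alt.head {α : Type*} [LT α] {P : α → Prop} {u : α → ℝ} {M : ℕ} {ε : ℝ} {x : α}
    (h : Alt P u M ε x) : P x ∧ 0 < ε * u x := by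
  cases M with
  | zero => exact h
  | succ M => exact ⟨h.1, h.2.1⟩

/-- pointwise limits preserve alternation -/
theorem Alt.eventually {α : Type*} [LT α] {P : α → Prop} {u : α → ℝ} {v : ℕ → α → ℝ}
    (hv : ∀ x, P x → Filter.Tendsto (fun L => v L x) Filter.atTop (nhds (u x))) :
    ∀ (M : ℕ) (ε : ℝ) (x : α), Alt P u M ε x → ∀ᶠ L in Filter.atTop, Alt P (v L) M ε x := by
  intro M
  induction M with
  | zero =>
    intro ε x h
    have h1 := (hv x h.1).const_mul ε
    filter_upwards [h1.eventually (lt_mem_nhds h.2)] with L hL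
    exact ⟨h.1, hL⟩
  | succ M ih =>
    intro ε x h
    obtain ⟨h1, h2, y, hy, h3⟩ := h
    have h4 := (hv x h1).const_mul ε
    filter_upwards [h4.eventually (lt_mem_nhds h2), ih _ _ h3] with L hL hL2
    exact ⟨h1, hL, y, hy, hL2⟩

theorem rolle_step {h hx : ℝ → ℝ} (hd : ∀ x, 0 < x → HasDerivAt h (hx x) x) (α ε : ℝ) {y y' : ℝ}
    (hy0 : 0 < y) (hy : y < y') (h1 : 0 < ε * h y) (h2 : 0 < -ε * h y') :
    ∃ ξ, y < ξ ∧ ξ < y' ∧ 0 < ε * (α * h ξ - ξ * hx ξ) := by
  have hG : ∀ x, 0 < x → HasDerivAt (fun x => ε * (x ^ (-α) * h x))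
      (ε * ((-α) * x ^ (-α - 1) * h x + x ^ (-α) * hx x)) x := by
    intro x hx0
    exact ((Real.hasDerivAt_rpow_const (Or.inl hx0.ne')).fun_mul (hd x hx0)).const_mul ε
  obtain ⟨ξ, hξ, hξ2⟩ := exists_hasDerivAt_eq_slope (fun x => ε * (x ^ (-α) * h x))
    (fun x => ε * ((-α) * x ^ (-α - 1) * h x + x ^ (-α) * hx x)) hy
    (fun x hx => (hG x (lt_of_lt_of_le hy0 hx.1)).continuousAt.continuousWithinAt)
    (fun x hx => hG x (hy0.trans hx.1))
  refine ⟨ξ, hξ.1, hξ.2, ?_⟩
  have hξ0 : 0 < ξ := hy0.trans hξ.1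
  have e1 : 0 < ε * (y ^ (-α) * h y) := by
    have : 0 < y ^ (-α) := Real.rpow_pos_of_pos hy0 _
    have := mul_pos this h1
    linarith
  have e2 : ε * (y' ^ (-α) * h y') < 0 := by
    have : 0 < y' ^ (-α) := Real.rpow_pos_of_pos (hy0.trans hy) _
    have := mul_pos this h2
    linarith
  have e3 : (ε * (y' ^ (-α) * h y') - ε * (y ^ (-α) * h y)) / (y' - y) < 0 :=
    div_neg_of_neg_of_pos (by linarith) (by linarith)
  rw [← hξ2] at e3
  have e4 : ξ ^ (-α) = ξ ^ (-α - 1) * ξ := by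
    rw [← Real.rpow_add_one hξ0.ne']; congr 1; ring
  have e5 : ε * ((-α) * ξ ^ (-α - 1) * h ξ + ξ ^ (-α) * hx ξ) =
      -(ξ ^ (-α - 1) * (ε * (α * h ξ - ξ * hx ξ))) := by rw [e4]; ring
  rw [e5] at e3
  have e6 : 0 < ξ ^ (-α - 1) := Real.rpow_pos_of_pos hξ0 _
  have e7 : 0 < ξ ^ (-α - 1) * (ε * (α * h ξ - ξ * hx ξ)) := by linarith
  exact (mul_pos_iff_of_pos_left e6).mp e7

theorem rolle_alt {h hx : ℝ → ℝ} (hd : ∀ x, 0 < x → HasDerivAt h (hx x) x) (α : ℝ) :
    ∀ (M : ℕ) (ε y : ℝ), Alt (fun x : ℝ => 0 < x ∧ x < 1) h (M + 1) ε y →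
      ∃ ξ, y < ξ ∧ Alt (fun x : ℝ => 0 < x ∧ x < 1) (fun x => α * h x - x * hx x) M ε ξ := by
  intro M
  induction M with
  | zero =>
    intro ε y hA
    obtain ⟨hP, h1, y', hy, hP', h2⟩ := hA
    obtain ⟨ξ, hξ1, hξ2, hξ3⟩ := rolle_step hd α ε hP.1 hy h1 h2
    exact ⟨ξ, hξ1, ⟨by linarith [hP.1], by linarith [hP'.2]⟩, hξ3⟩
  | succ M ih =>
    intro ε y hA
    obtain ⟨hP, h1, y', hy, hA'⟩ := hA
    obtain ⟨hP', h2⟩ := hA'.head
    obtain ⟨ξ, hξ1, hξ2, hξ3⟩ := rolle_step hd α ε hP.1 hy h1 h2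
    obtain ⟨ξ', hξ', hA''⟩ := ih _ _ hA'
    exact ⟨ξ, hξ1, ⟨by linarith [hP.1], by linarith [hP'.2]⟩, hξ3, ξ', by linarith, hA''⟩

/-- beyond the first sign change the modified coefficients have the opposite sign -/
theorem tail_sign {L m₁ : ℕ} {c : ℕ → ℝ} :
    ∀ (M : ℕ) (ε : ℝ) (j : ℕ), m₁ ≤ j →
      Alt (fun j => j < L) (fun m => (((m₁:ℝ) - 1 / 2) - m) * c m) M ε j →
      Alt (fun j => j < L) c M (-ε) j := by
  intro M
  have key : ∀ (ε : ℝ) (j : ℕ), m₁ ≤ j → 0 < ε * ((((m₁:ℝ) - 1 / 2) - j) * c j) → 0 < -ε * c j := by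
    intro ε j hj h
    have h1 : ((m₁:ℝ)) ≤ j := by exact_mod_cast hj
    have h2 : 0 < ((j:ℝ) - ((m₁:ℝ) - 1 / 2)) := by linarith
    have h3 : ε * ((((m₁:ℝ) - 1 / 2) - j) * c j) = ((j:ℝ) - ((m₁:ℝ) - 1 / 2)) * (-ε * c j) := by ring
    rw [h3] at h
    exact (mul_pos_iff_of_pos_left h2).mp h
  induction M with
  | zero =>
    intro ε j hj h
    exact ⟨h.1, key ε j hj h.2⟩
  | succ M ih =>
    intro ε j hj h
    obtain ⟨h1, h2, j', hj', h3⟩ := h
    exact ⟨h1, key ε j hj h2, j', hj', ih _ _ (by omega) h3⟩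

/-- Descartes rule of signs for polynomials, in terms of alternation -/
theorem descartes (L : ℕ) :
    ∀ (M : ℕ) (c : ℕ → ℝ) (ε y : ℝ), (ε = 1 ∨ ε = -1) →
      Alt (fun x : ℝ => 0 < x ∧ x < 1) (fun x => ∑ m ∈ Finset.range L, c m * x ^ m) M ε y →
      ∃ ε' : ℝ, (ε' = 1 ∨ ε' = -1) ∧ ∃ j, Alt (fun j => j < L) c M ε' j := by
  intro M
  induction M with
  | zero =>
    intro c ε y hε hA
    have h1 : ∃ m ∈ Finset.range L, c m ≠ 0 := by
      by_contra hcon
      push Not at hcon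
      have : ∑ m ∈ Finset.range L, c m * y ^ m = 0 := by
        apply Finset.sum_eq_zero
        intro m hm
        rw [hcon m hm, zero_mul]
      have h2 := hA.2
      simp only [this, mul_zero, lt_irrefl] at h2
    obtain ⟨m, hm, hc⟩ := h1
    rw [Finset.mem_range] at hm
    rcases lt_or_gt_of_ne hc with h | h
    · exact ⟨-1, Or.inr rfl, m, hm, by linarith⟩
    · exact ⟨1, Or.inl rfl, m, hm, by linarith⟩
  | succ M ih =>
    intro c ε y hε hA
    obtain ⟨hP, h1, y', hy, hA'⟩ := id hA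
    obtain ⟨hP', h2⟩ := hA'.head
    -- first nonzero coefficient
    have hex : ∃ m, m < L ∧ c m ≠ 0 := by
      by_contra hcon
      push Not at hcon
      have : ∑ m ∈ Finset.range L, c m * y ^ m = 0 := by
        apply Finset.sum_eq_zero
        intro m hm
        rw [hcon m (Finset.mem_range.mp hm), zero_mul]
      simp only [this, mul_zero, lt_irrefl] at h1
    classical
    set m₀ := Nat.find hex with hm₀
    obtain ⟨hm₀L, hcm₀⟩ := Nat.find_spec hex
    rw [← hm₀] at hm₀L hcm₀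
    have hbelow : ∀ m < m₀, c m = 0 := by
      intro m hm
      have := Nat.find_min hex hm
      by_contra h0
      exact this ⟨by omega, h0⟩
    obtain ⟨σ, hσ, hσc⟩ : ∃ σ : ℝ, (σ = 1 ∨ σ = -1) ∧ 0 < σ * c m₀ := by
      rcases lt_or_gt_of_ne hcm₀ with h | h
      · exact ⟨-1, Or.inr rfl, by linarith⟩
      · exact ⟨1, Or.inl rfl, by linarith⟩
    have hσ2 : σ * σ = 1 := by rcases hσ with h | h <;> rw [h] <;> norm_num
    have hex2 : ∃ m, m < L ∧ σ * c m < 0 := by
      by_contra hcon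
      push Not at hcon
      have hnn : ∀ x : ℝ, 0 < x → 0 ≤ σ * ∑ m ∈ Finset.range L, c m * x ^ m := by
        intro x hx
        rw [Finset.mul_sum]
        apply Finset.sum_nonneg
        intro m hm
        have := hcon m (Finset.mem_range.mp hm)
        rw [← mul_assoc]
        exact mul_nonneg this (pow_nonneg hx.le m)
      have e1 := hnn y hP.1
      have e2 := hnn y' hP'.1
      rcases hσ with h | h <;> rcases hε with h' | h' <;> rw [h] at e1 e2 <;> rw [h'] at h1 h2 <;>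
        linarith
    set m₁ := Nat.find hex2 with hm₁
    obtain ⟨hm₁L, hcm₁⟩ := Nat.find_spec hex2
    rw [← hm₁] at hm₁L hcm₁
    have hbelow2 : ∀ m < m₁, 0 ≤ σ * c m := by
      intro m hm
      have := Nat.find_min hex2 hm
      by_contra h0
      push Not at h0
      exact this ⟨by omega, h0⟩
    have hm₀₁ : m₀ < m₁ := by
      rcases Nat.lt_trichotomy m₀ m₁ with h | h | h
      · exact h
      · rw [← h] at hcm₁; linarith
      · rw [hbelow m₁ h] at hcm₁; simp at hcm₁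
    set α : ℝ := (m₁:ℝ) - 1 / 2 with hα
    have hd : ∀ x : ℝ, 0 < x → HasDerivAt (fun x => ∑ m ∈ Finset.range L, c m * x ^ m)
        (∑ m ∈ Finset.range L, c m * ((m:ℝ) * x ^ (m - 1))) x := by
      intro x _
      apply HasDerivAt.fun_sum
      intro m _
      exact (hasDerivAt_pow m x).const_mul (c m)
    obtain ⟨ξ, _, hξ⟩ := rolle_alt hd α M ε y hA
    have hfun : (fun x : ℝ => α * (∑ m ∈ Finset.range L, c m * x ^ m) -
        x * ∑ m ∈ Finset.range L, c m * ((m:ℝ) * x ^ (m - 1))) =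
        fun x : ℝ => ∑ m ∈ Finset.range L, ((α - m) * c m) * x ^ m := by
      funext x
      rw [Finset.mul_sum, Finset.mul_sum, ← Finset.sum_sub_distrib]
      apply Finset.sum_congr rfl
      intro m _
      rcases Nat.eq_zero_or_pos m with h | h
      · subst h; simp
      · have : x ^ m = x * x ^ (m - 1) := by
          rw [← pow_succ']; congr 1; omega
        rw [this]; ring
    rw [hfun] at hξ
    obtain ⟨ε'', hε'', j, hj⟩ := ih (fun m => (α - m) * c m) ε ξ hε hξ
    have hc1 : ∀ m < m₁, 0 ≤ σ * ((α - m) * c m) := by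
      intro m hm
      have h3 : ((m:ℝ)) + 1 ≤ m₁ := by exact_mod_cast hm
      have h4 := hbelow2 m hm
      have : σ * ((α - m) * c m) = (α - m) * (σ * c m) := by ring
      rw [this]
      exact mul_nonneg (by rw [hα]; linarith) h4
    have hc2 : 0 < σ * ((α - m₁) * c m₁) := by
      have : σ * ((α - m₁) * c m₁) = (1 / 2) * -(σ * c m₁) := by rw [hα]; ring
      rw [this]; linarith
    have hsame : ∀ (τ : ℝ) (m : ℕ), (τ = 1 ∨ τ = -1) → m ≤ m₁ → 0 < τ * ((α - m) * c m) → τ = σ := by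
      intro τ m hτ hm hpos
      have h5 : 0 ≤ σ * ((α - m) * c m) := by
        rcases Nat.lt_or_ge m m₁ with h | h
        · exact hc1 m h
        · have : m = m₁ := by omega
          rw [this]; exact hc2.le
      rcases hσ with h | h <;> rcases hτ with h' | h' <;> rw [h] at h5 ⊢ <;> rw [h'] at hpos ⊢ <;>
        linarith
    rcases Nat.lt_or_ge j m₁ with hjm | hjm
    · have hεσ : ε'' = σ := hsame ε'' j hε'' hjm.le hj.head.2
      subst hεσ
      cases M with
      | zero =>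
        refine ⟨ε'', hε'', m₀, hm₀L, hσc, m₁, hm₀₁, hm₁L, ?_⟩
        linarith
      | succ M =>
        obtain ⟨_, _, j', hj', hA2⟩ := hj
        have hj'm : m₁ < j' := by
          by_contra hle
          push Not at hle
          have h6 := hsame (-ε'') j' (by rcases hε'' with h | h <;> rw [h] <;> simp) hle hA2.head.2
          have : ε'' = 0 := by linarith
          rcases hε'' with h | h <;> rw [h] at this <;> norm_num at this
        have hA3 := tail_sign M (-ε'') j' hj'm.le hA2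
        rw [neg_neg] at hA3
        refine ⟨ε'', hε'', m₀, hm₀L, hσc, m₁, hm₀₁, hm₁L, by linarith, j', hj'm, ?_⟩
        rw [neg_neg]; exact hA3
    · have hA3 := tail_sign M ε'' j hjm hj
      by_cases hεσ : ε'' = σ
      · subst hεσ
        exact ⟨ε'', hε'', m₀, hm₀L, hσc, j, by omega, hA3⟩
      · have hεσ' : ε'' = -σ := by
          rcases hσ with h | h <;> rcases hε'' with h' | h' <;> rw [h, h'] at hεσ ⊢ <;> simp at hεσ ⊢
        have hjne : m₁ < j := by
          rcases Nat.lt_or_ge m₁ j with h | h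
          · exact h
          · exfalso
            have h7 : j = m₁ := by omega
            exact hεσ (hsame ε'' j hε'' h hj.head.2)
        refine ⟨-σ, by rcases hσ with h | h <;> rw [h] <;> simp, m₁, hm₁L, by linarith, j, hjne, ?_⟩
        rw [hεσ', neg_neg] at hA3
        rw [neg_neg]; exact hA3

end Pool.Agent.helper38.LacA
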