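import Pool.Agent.helper38.LacW

set_option autoImplicit false

namespace Pool.Agent.helper38.LacA

open Filter Topology Complex Metric Pool.Agent.helper38.NNF MeasureTheory
open scoped ComplexOrder Nat ComplexConjugate

theorem WW_abs_le {n T a θ : ℝ} (hα : a ^ 2 ≤ n ^ 2 / 4) (ha : 0 < a) (h0 : 0 ≤ θ) (h1 : θ ≤ T) :
    |WW n T a θ| ≤ (n ^ 2 / 4 - a ^ 2) / 2 * T + (n ^ 2 / (4 * a) + a) / 2 := by
  unfold WW
  refine (abs_add_le _ _).trans ?_
  have hc := Real.abs_cos_le_one (a * θ)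
  have hs := Real.abs_sin_le_one (a * θ)
  rw [abs_mul, abs_mul, abs_mul, abs_of_nonneg (show 0 ≤ (n ^ 2 / 4 - a ^ 2) / 2 by linarith),
    abs_of_nonneg (show 0 ≤ T - θ by linarith),
    abs_of_nonneg (show 0 ≤ (n ^ 2 / (4 * a) + a) / 2 by positivity)]
  have e1 : (T - θ) * |Real.cos (a * θ)| ≤ T := by
    calc (T - θ) * |Real.cos (a * θ)| ≤ (T - θ) * 1 := mul_le_mul_of_nonneg_left hc (by linarith)
      _ ≤ T := by linarith
  have e2 : (n ^ 2 / 4 - a ^ 2) / 2 * ((T - θ) * |Real.cos (a * θ)|) ≤ (n ^ 2 / 4 - a ^ 2) / 2 * T :=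
    mul_le_mul_of_nonneg_left e1 (by linarith)
  have e3 : (n ^ 2 / (4 * a) + a) / 2 * |Real.sin (a * θ)| ≤ (n ^ 2 / (4 * a) + a) / 2 := by
    calc _ ≤ (n ^ 2 / (4 * a) + a) / 2 * 1 := mul_le_mul_of_nonneg_left hs (by positivity)
      _ = _ := mul_one _
  linarith

theorem FF_rot_re {f : ℂ → ℂ} (hf : NN f) (s c θ : ℝ) :
    HasSum (fun k : ℕ => (tc f k).re * Real.exp (k * s) * Real.cos ((k - c) * θ))
      (FF f (s + θ * I) * Complex.exp (-(c * θ * I))).re := by
  have h1 := hasSum_tc hf.1 (Complex.exp (s + θ * I))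
  have h2 := h1.mul_right (Complex.exp (-(c * θ * I)))
  have h3 := Complex.hasSum_re h2
  refine h3.congr_fun ?_ |> fun h => h
  intro k
  have e1 : tc f k * Complex.exp (s + θ * I) ^ k * Complex.exp (-(c * θ * I)) =
      (((tc f k).re * Real.exp (k * s) : ℝ) : ℂ) * Complex.exp ((((k:ℝ) - c) * θ : ℝ) * I) := by
    rw [← Complex.exp_nat_mul, mul_assoc (tc f k), ← Complex.exp_add]
    push_cast
    rw [← tc_re hf k, mul_assoc (tc f k), ← Complex.exp_add]
    congr 2
    ring
  rw [e1, Complex.re_ofReal_mul, Complex.exp_ofReal_mul_I_re]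

theorem gap_integral {f : ℂ → ℂ} (hf : NN f) (s : ℝ) {N n : ℕ}
    (hgap : ∀ k, N < k → k < N + n → tc f k = 0) {T : ℝ} (hT : 0 < T) (hn : 2 * Real.pi < n * T) :
    ∫ θ in (0:ℝ)..T, WW n T (Real.pi / T) θ *
      (FF f (s + θ * I) * Complex.exp (-((N + n / 2 : ℝ) * θ * I))).re ≤ 0 := by
  set a : ℝ := Real.pi / T with ha
  have hpi := Real.pi_pos
  have ha0 : 0 < a := by positivity
  have haT : a * T = Real.pi := by rw [ha]; field_simp
  have han : a ^ 2 ≤ (n:ℝ) ^ 2 / 4 := by
    have h1 : 2 * a < n := by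
      have : 2 * (a * T) < n * T := by rw [haT]; exact hn
      nlinarith
    nlinarith
  set Wm : ℝ := ((n:ℝ) ^ 2 / 4 - a ^ 2) / 2 * T + ((n:ℝ) ^ 2 / (4 * a) + a) / 2 with hWm
  have hWc : Continuous (WW n T a) := by unfold WW; fun_prop
  have hsum := hasSum_VV hf s
  have key : HasSum (fun k : ℕ => ∫ θ in (0:ℝ)..T, WW n T a θ *
      ((tc f k).re * Real.exp (k * s) * Real.cos ((k - (N + n / 2 : ℝ)) * θ)))
      (∫ θ in (0:ℝ)..T, WW n T a θ *
        (FF f (s + θ * I) * Complex.exp (-((N + n / 2 : ℝ) * θ * I))).re) := by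
    apply intervalIntegral.hasSum_integral_of_dominated_convergence
      (fun k _ => Wm * ((tc f k).re * Real.exp (k * s)))
    · intro k
      apply Continuous.aestronglyMeasurable
      fun_prop
    · intro k
      refine Filter.Eventually.of_forall ?_
      intro θ hθ
      rw [Set.uIoc_of_le hT.le] at hθ
      have e1 := WW_abs_le (n := (n:ℝ)) han ha0 hθ.1.le hθ.2
      have e2 := Real.abs_cos_le_one ((k - (N + n / 2 : ℝ)) * θ)
      have e3 : 0 ≤ (tc f k).re * Real.exp (k * s) :=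
        mul_nonneg (tc_re_nonneg hf k) (Real.exp_pos _).le
      rw [Real.norm_eq_abs, abs_mul, abs_mul, abs_of_nonneg e3]
      have e4 : (tc f k).re * Real.exp (k * s) * |Real.cos ((k - (N + n / 2 : ℝ)) * θ)| ≤
          (tc f k).re * Real.exp (k * s) := by
        calc _ ≤ (tc f k).re * Real.exp (k * s) * 1 := mul_le_mul_of_nonneg_left e2 e3
          _ = _ := mul_one _
      exact mul_le_mul e1 e4 (by positivity) ((abs_nonneg _).trans e1)
    · exact Filter.Eventually.of_forall (fun _ _ => (hsum.mul_left Wm).summable)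
    · exact intervalIntegrable_const
    · refine Filter.Eventually.of_forall ?_
      intro θ _
      exact (FF_rot_re hf s (N + n / 2 : ℝ) θ).mul_left _
  have hneg : ∀ k : ℕ, (∫ θ in (0:ℝ)..T, WW n T a θ *
      ((tc f k).re * Real.exp (k * s) * Real.cos ((k - (N + n / 2 : ℝ)) * θ))) ≤ 0 := by
    intro k
    by_cases hk : N < k ∧ k < N + n
    · rw [hgap k hk.1 hk.2]; simp
    · have e1 : (fun θ => WW n T a θ *
        ((tc f k).re * Real.exp (k * s) * Real.cos ((k - (N + n / 2 : ℝ)) * θ))) =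
        (fun θ => ((tc f k).re * Real.exp (k * s)) *
          (WW n T a θ * Real.cos ((k - (N + n / 2 : ℝ)) * θ))) := by
        funext θ; ring
      rw [e1, intervalIntegral.integral_const_mul]
      apply mul_nonpos_of_nonneg_of_nonpos
      · exact mul_nonneg (tc_re_nonneg hf k) (Real.exp_pos _).le
      · apply WW_integral hT hn
        push Not at hk
        have h2 : (0:ℝ) ≤ n := Nat.cast_nonneg n
        rcases Nat.lt_or_ge N k with h1 | h1
        · have h3 : ((N:ℝ) + n) ≤ k := by exact_mod_cast hk h1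
          nlinarith
        · have h3 : (k:ℝ) ≤ N := by exact_mod_cast h1
          nlinarith
  exact hasSum_le hneg key hasSum_zero

end Pool.Agent.helper38.LacA
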