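import Pool.Agent.helper38.LacB

set_option autoImplicit false

namespace Pool.Agent.helper38.LacA

open Filter Topology Complex Metric Pool.Agent.helper38.NNF MeasureTheory
open scoped ComplexOrder Nat ComplexConjugate

/-- local expansion of `log F` on a vertical segment -/
theorem Hyp.local_q {f : ℂ → ℂ} {s₀ b c : ℝ} (h : Hyp f s₀ b c) {β : ℝ} (hβ0 : 0 < β) (hβ : β < b)
    {s B : ℝ} (hs : s₀ + b ≤ s) (hB : 1 ≤ B) (hBd : (deriv (KK f) (s:ℂ)).re = B)
    {P : ℂ → ℂ} (hP : DifferentiableOn ℂ P (ball 0 1))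
    (hre : ∀ ζ : ℂ, ‖ζ‖ < 1 → 0 ≤ (P ζ).re)
    (hP0 : P 0 = ((β * (deriv (KK f) s).re + 2 * (1 / 2) : ℝ) : ℂ))
    (hspec : ∀ ζ : ℂ, ζ * (P ζ - 2 * ((1 / 2 : ℝ) : ℂ)) =
      (1 - ζ ^ 2) * (KK f (s + β * ζ) - KK f (s + β * 0))) :
    ∀ θ : ℝ, 0 ≤ θ → θ ≤ β / 2 → ∃ G : ℂ, ‖G + ((B * θ ^ 2 / 2 : ℝ) : ℂ)‖ ≤ 6 * (β + 1) / β ^ 2 * B * θ ^ 3 ∧
      FF f (s + θ * I) * Complex.exp (-(((KK f (s:ℂ)).re : ℝ) * θ * I)) = (VV f s : ℂ) * Complex.exp G := by
  intro θ hθ0 hθβ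
  obtain ⟨Λ, h0, hΛ, hexp, _⟩ := h.lift hs
  have hb := h.bpos
  have hV : 0 < VV f s := VV_pos h (by linarith)
  set cN : ℝ := (KK f (s:ℂ)).re with hcN
  have hKs : KK f (s:ℂ) = (cN : ℂ) := by
    apply Complex.ext
    · simp [hcN]
    · simp [KK_real h.nn s]
  set A : ℝ := β * (deriv (KK f) s).re + 2 * (1 / 2) with hA
  have hA1 : A = β * B + 1 := by rw [hA, hBd]; ring
  have hA0 : 0 < A := by rw [hA1]; positivity
  have hmem : ∀ t : ℝ, 0 ≤ t → t ≤ β / 2 → (s:ℂ) + t * I ∈ ball (s:ℂ) b := by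
    intro t ht0 ht1
    rw [Metric.mem_ball, dist_eq_norm, add_sub_cancel_left, norm_mul, Complex.norm_I, mul_one,
      Complex.norm_real, Real.norm_eq_abs, abs_of_nonneg ht0]
    linarith
  set g : ℝ → ℂ := fun t => Λ (s + t * I) - Λ s - (cN * t * I : ℂ) + ((B * t ^ 2 / 2 : ℝ) : ℂ) with hg
  have hd : ∀ t : ℝ, 0 ≤ t → t ≤ β / 2 →
      HasDerivAt g (KK f (s + t * I) * I - cN * I + ((B * t : ℝ) : ℂ)) t := by
    intro t ht0 ht1
    have h1 : HasDerivAt (fun t : ℝ => (s:ℂ) + t * I) I t := by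
      have := ((hasDerivAt_id (t:ℂ)).mul_const I).const_add (s:ℂ)
      simpa using this.comp_ofReal
    have h2 := (hΛ _ (hmem t ht0 ht1)).scomp t h1
    have h3 : HasDerivAt (fun t : ℝ => (cN * t * I : ℂ)) (cN * I) t := by
      have := (((hasDerivAt_id (t:ℂ)).const_mul (cN:ℂ)).mul_const I)
      simpa using this.comp_ofReal
    have h4 : HasDerivAt (fun t : ℝ => ((B * t ^ 2 / 2 : ℝ) : ℂ)) ((B * t : ℝ) : ℂ) t := by
      have h5 : HasDerivAt (fun t : ℝ => B * t ^ 2 / 2) (B * t) t := by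
        have := (((hasDerivAt_id t).pow 2).const_mul B).div_const 2
        refine this.congr_deriv ?_
        simp; ring
      exact h5.ofReal_comp
    have h6 := ((h2.sub_const (Λ s)).sub h3).add h4
    refine h6.congr_deriv ?_
    simp only [smul_eq_mul]; ring
  have hbound : ∀ t : ℝ, 0 ≤ t → t ≤ θ →
      ‖KK f (s + t * I) * I - cN * I + ((B * t : ℝ) : ℂ)‖ ≤ 6 * A * (θ / β) ^ 2 := by
    intro t ht0 htθ
    have hz : ‖((t / β : ℝ) : ℂ) * I‖ = t / β := by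
      rw [norm_mul, Complex.norm_I, mul_one, Complex.norm_real, Real.norm_eq_abs,
        abs_of_nonneg (by positivity)]
    have hz2 : t / β ≤ 1 / 2 := by rw [div_le_iff₀ hβ0]; linarith
    have h1 := disk_taylor (T := fun ζ => KK f (s + β * ζ)) (η := 1 / 2) hP hre hA0 (by norm_num)
      (by rw [hA1]; nlinarith [mul_pos hβ0 (show (0:ℝ) < B by linarith)]) hP0 hspec
      (ζ := ((t / β : ℝ) : ℂ) * I) (by rw [hz]; exact hz2)
    rw [hz] at h1
    have e1 : (β:ℂ) * (((t / β : ℝ) : ℂ) * I) = t * I := by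
      push_cast
      have : (β:ℂ) ≠ 0 := by exact_mod_cast hβ0.ne'
      field_simp
    simp only [mul_zero, add_zero] at h1
    rw [e1, hKs] at h1
    have e2 : ((t / β : ℝ) : ℂ) * I * ((A:ℂ) - 2 * ((1 / 2 : ℝ) : ℂ)) = ((B * t : ℝ) : ℂ) * I := by
      rw [hA1]
      push_cast
      have : (β:ℂ) ≠ 0 := by exact_mod_cast hβ0.ne'
      field_simp
      ring
    rw [e2] at h1
    have e3 : KK f (s + t * I) * I - cN * I + ((B * t : ℝ) : ℂ) =
        (KK f (s + t * I) - cN - ((B * t : ℝ) : ℂ) * I) * I := by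
      linear_combination ((B * t : ℝ) : ℂ) * Complex.I_mul_I
    rw [e3, norm_mul, Complex.norm_I, mul_one]
    refine h1.trans ?_
    apply mul_le_mul_of_nonneg_left _ (by positivity)
    apply pow_le_pow_left₀ (by positivity)
    exact div_le_div_of_nonneg_right htθ hβ0.le
  have hmv := norm_image_sub_le_of_norm_deriv_le_segment' (f := g) (a := 0) (b := θ)
    (f' := fun t => KK f (s + t * I) * I - cN * I + ((B * t : ℝ) : ℂ)) (C := 6 * A * (θ / β) ^ 2)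
    (fun x hx => (hd x hx.1 (by linarith [hx.2])).hasDerivWithinAt)
    (fun x hx => hbound x hx.1 hx.2.le) θ ⟨hθ0, le_rfl⟩
  have hg0 : g 0 = 0 := by simp [hg]
  rw [hg0, sub_zero, sub_zero] at hmv
  refine ⟨Λ (s + θ * I) - Λ s - (cN * θ * I : ℂ), ?_, ?_⟩
  · refine hmv.trans ?_
    have e1 : 6 * A * (θ / β) ^ 2 * θ = 6 * A / β ^ 2 * θ ^ 3 := by field_simp
    rw [e1]
    apply mul_le_mul_of_nonneg_right _ (by positivity)
    rw [div_mul_eq_mul_div]
    apply div_le_div_of_nonneg_right _ (by positivity)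
    rw [hA1]; nlinarith
  · rw [← hexp _ (hmem θ hθ0 hθβ), ← Complex.exp_add]
    have e2 : (VV f s : ℂ) = Complex.exp (Λ s) := by
      rw [h0, ← Complex.ofReal_exp, Real.exp_log hV]
    rw [e2, ← Complex.exp_add]
    congr 1
    ring

end Pool.Agent.helper38.LacA
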