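import Pool.Agent.helper38.LacB2

set_option autoImplicit false

namespace Pool.Agent.helper38.LacA

open Filter Topology Complex Metric Pool.Agent.helper38.NNF MeasureTheory
open scoped ComplexOrder Nat ComplexConjugate

/-- choice of the large parameter -/
theorem exists_large (K e : ℝ) (he : 0 < e) :
    ∃ Y : ℝ, 1 ≤ Y ∧ ∀ y : ℝ, Y ≤ y → K * (y ^ 4 * Real.exp (-(y ^ 2 / 4))) < e := by
  have h1 := Real.tendsto_pow_mul_exp_neg_atTop_nhds_zero 4
  have h2 : Tendsto (fun y : ℝ => y / 4) atTop atTop := tendsto_id.atTop_div_const (by norm_num)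
  have h3 := (h1.comp h2).const_mul (256 * |K|)
  rw [mul_zero] at h3
  have h4 := h3.eventually (gt_mem_nhds he)
  obtain ⟨Y, hY⟩ := Filter.eventually_atTop.mp h4
  refine ⟨max Y 1, le_max_right _ _, ?_⟩
  intro y hy
  have hy1 : 1 ≤ y := (le_max_right _ _).trans hy
  have h5 := hY y ((le_max_left _ _).trans hy)
  simp only [Function.comp] at h5
  refine lt_of_le_of_lt ?_ h5
  have e1 : Real.exp (-(y ^ 2 / 4)) ≤ Real.exp (-(y / 4)) := by
    apply Real.exp_le_exp.mpr; nlinarith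
  have e2 : K * (y ^ 4 * Real.exp (-(y ^ 2 / 4))) ≤ |K| * (y ^ 4 * Real.exp (-(y ^ 2 / 4))) :=
    mul_le_mul_of_nonneg_right (le_abs_self K) (by positivity)
  refine e2.trans ?_
  have e3 : |K| * (y ^ 4 * Real.exp (-(y ^ 2 / 4))) ≤ |K| * (y ^ 4 * Real.exp (-(y / 4))) := by
    apply mul_le_mul_of_nonneg_left _ (abs_nonneg K)
    exact mul_le_mul_of_nonneg_left e1 (by positivity)
  refine e3.trans (le_of_eq ?_)
  ring

theorem Hyp.b_bounded {f : ℂ → ℂ} {s₀ b c : ℝ} (h : Hyp f s₀ b c) {β : ℝ} (hβ : β < b)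
    (hcβ : c * β < Real.pi) {n : ℕ} (hn : 2 ≤ n) (hnβ : Real.pi / n < β) :
    ∃ S Bm : ℝ, ∀ s : ℝ, S ≤ s → ∀ N : ℕ, (∀ k, N < k → k < N + n → tc f k = 0) →
      (KK f (s:ℂ)).re = N + n / 2 → (deriv (KK f) (s:ℂ)).re ≤ Bm := by
  have hpi := Real.pi_pos
  have hpi3 := Real.pi_gt_three
  have hn0 : (0:ℝ) < n := by exact_mod_cast (by omega : 0 < n)
  have hn2 : (2:ℝ) ≤ n := by exact_mod_cast hn
  have hβ0 : 0 < β := lt_trans (by positivity) hnβ
  have hκβ : 1 * β < Real.pi := by rw [one_mul]; exact hβ.trans_le h.bpi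
  obtain ⟨S₁, hS₁, hdisk⟩ := h.disk hβ0 hβ hcβ one_pos hκβ (η := 1 / 2) (by norm_num)
  obtain ⟨C, hC0, hC⟩ := h.refl_ineq hβ hcβ one_pos hκβ
  have hb := h.bpos
  set C₂ : ℝ := 6 * (β + 1) / β ^ 2 with hC₂
  have hC₂0 : 0 < C₂ := by positivity
  set ϑ : ℝ := min (min (β / 2) (β - Real.pi / n)) (1 / (4 * C₂)) with hϑ
  have hϑ0 : 0 < ϑ := by
    rw [hϑ]; apply lt_min (lt_min (by linarith) (by linarith)) (by positivity)
  have hϑ1 : ϑ ≤ β / 2 := (min_le_left _ _).trans (min_le_left _ _)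
  have hϑ2 : ϑ ≤ β - Real.pi / n := (min_le_left _ _).trans (min_le_right _ _)
  have hϑ3 : C₂ * ϑ ≤ 1 / 4 := by
    have h1 : ϑ ≤ 1 / (4 * C₂) := min_le_right _ _
    calc C₂ * ϑ ≤ C₂ * (1 / (4 * C₂)) := mul_le_mul_of_nonneg_left h1 hC₂0.le
      _ = 1 / 4 := by field_simp
  set T : ℝ := 2 * β - ϑ with hT
  have hT0 : 0 < T := by rw [hT]; linarith
  have hnT : 2 * Real.pi < n * T := by
    have h1 : 2 * (Real.pi / n) < T := by rw [hT]; linarith
    have h2 : n * (2 * (Real.pi / n)) < n * T := mul_lt_mul_of_pos_left h1 hn0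
    have h3 : (n:ℝ) * (2 * (Real.pi / n)) = 2 * Real.pi := by field_simp
    linarith
  set a : ℝ := Real.pi / T with ha
  have ha0 : 0 < a := by positivity
  have haT : a * T = Real.pi := by rw [ha]; field_simp
  have han : a ^ 2 < (n:ℝ) ^ 2 / 4 := by
    have h1 : 2 * a < n := by
      have : 2 * (a * T) < n * T := by rw [haT]; exact hnT
      nlinarith
    nlinarith
  set α : ℝ := ((n:ℝ) ^ 2 / 4 - a ^ 2) / 2 with hα
  have hα0 : 0 < α := by rw [hα]; linarith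
  set Wm : ℝ := ((n:ℝ) ^ 2 / 4 - a ^ 2) / 2 * T + ((n:ℝ) ^ 2 / (4 * a) + a) / 2 with hWm
  have hWm0 : 0 ≤ Wm := by
    rw [hWm]
    have : 0 ≤ ((n:ℝ) ^ 2 / 4 - a ^ 2) / 2 * T := mul_nonneg (by linarith) hT0.le
    positivity
  obtain ⟨Y₀, hY₀1, hY₀⟩ := exists_large (12 * Wm * Real.exp C) α hα0
  set Y : ℝ := max (max Y₀ (4 * C₂)) (max (1 / ϑ) (2 * Real.pi / T)) with hY
  refine ⟨max S₁ (max (s₀ + b) 0), Y ^ 8, ?_⟩
  intro s hs N hgap hKs
  by_contra hcon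
  push Not at hcon
  have hs1 : S₁ ≤ s := (le_max_left _ _).trans hs
  have hs2 : s₀ + b ≤ s := ((le_max_left _ _).trans (le_max_right _ _)).trans hs
  have hs3 : 0 ≤ s := ((le_max_right _ _).trans (le_max_right _ _)).trans hs
  set B : ℝ := (deriv (KK f) (s:ℂ)).re with hB
  have hY1 : 1 ≤ Y := hY₀1.trans ((le_max_left _ _).trans (le_max_left _ _))
  have hB1 : 1 ≤ B := by
    have : (1:ℝ) ≤ Y ^ 8 := one_le_pow₀ hY1
    linarith
  set y : ℝ := B ^ (((8:ℕ):ℝ)⁻¹) with hy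
  have hy0 : 0 ≤ y := Real.rpow_nonneg (by linarith) _
  have hy8 : y ^ 8 = B := Real.rpow_inv_natCast_pow (by linarith) (by norm_num)
  have hyY : Y ≤ y := by
    have h1 : Y ^ 8 ≤ y ^ 8 := by rw [hy8]; exact hcon.le
    exact le_of_pow_le_pow_left₀ (by norm_num) hy0 h1
  have hy1 : 1 ≤ y := hY1.trans hyY
  have hypos : 0 < y := by linarith
  have hyY0 : Y₀ ≤ y := ((le_max_left _ _).trans (le_max_left _ _)).trans hyY
  have hyC : 4 * C₂ ≤ y := ((le_max_right _ _).trans (le_max_left _ _)).trans hyY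
  have hyϑ : 1 / ϑ ≤ y := ((le_max_left _ _).trans (le_max_right _ _)).trans hyY
  have hyT : 2 * Real.pi / T ≤ y := ((le_max_right _ _).trans (le_max_right _ _)).trans hyY
  obtain ⟨P, hPd, hPre, hP0, hPs⟩ := hdisk s hs1
  have hloc := h.local_q hβ0 hβ hs2 hB1 hB.symm hPd hPre hP0 hPs
  rw [← hC₂] at hloc
  have hV : 0 < VV f s := VV_pos h (by linarith)
  set Q : ℝ → ℝ := fun θ => (FF f (s + θ * I) * Complex.exp (-((N + n / 2 : ℝ) * θ * I))).re with hQ
  have hQcast : ∀ θ : ℝ, FF f (s + θ * I) * Complex.exp (-((N + n / 2 : ℝ) * θ * I)) =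
      FF f (s + θ * I) * Complex.exp (-(((KK f (s:ℂ)).re : ℝ) * θ * I)) := by
    intro θ; rw [hKs]
  set y1 : ℝ := y⁻¹ with hy1'
  have hy1pos : 0 < y1 := by positivity
  have hyy : y * y1 = 1 := by rw [hy1']; field_simp
  have hy1le : y1 ≤ 1 := by rw [hy1']; exact inv_le_one_of_one_le₀ hy1
  have hy1C : C₂ * y1 ≤ 1 / 4 := by
    have := mul_le_mul_of_nonneg_right hyC hy1pos.le
    rw [hyy] at this; linarith
  have hy1ϑ : y1 ≤ ϑ := by
    have := mul_le_mul_of_nonneg_right hyϑ (mul_pos hϑ0 hy1pos).le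
    have e1 : 1 / ϑ * (ϑ * y1) = y1 := by field_simp
    have e2 : y * (ϑ * y1) = ϑ := by linear_combination ϑ * hyy
    linarith
  have hy1T : a * y1 ≤ 1 / 2 := by
    have h1 := mul_le_mul_of_nonneg_right hyT hy1pos.le
    rw [hyy] at h1
    have e1 : 2 * Real.pi / T * y1 = 2 * (a * y1) := by rw [ha]; ring
    linarith
  have hy13 : y1 ^ 3 ≤ y1 := by
    calc y1 ^ 3 = y1 * y1 ^ 2 := by ring
      _ ≤ y1 * 1 := mul_le_mul_of_nonneg_left (pow_le_one₀ hy1pos.le hy1le) hy1pos.le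
      _ = y1 := mul_one _
  have hy143 : y1 ^ 4 ≤ y1 ^ 3 := by
    calc y1 ^ 4 = y1 ^ 3 * y1 := by ring
      _ ≤ y1 ^ 3 * 1 := mul_le_mul_of_nonneg_left hy1le (by positivity)
      _ = y1 ^ 3 := mul_one _
  -- representation
  have hrep : ∀ θ : ℝ, 0 ≤ θ → θ ≤ β / 2 → ∃ G : ℂ,
      ‖G + ((B * θ ^ 2 / 2 : ℝ) : ℂ)‖ ≤ C₂ * B * θ ^ 3 ∧ Q θ = VV f s * (Real.exp G.re * Real.cos G.im) ∧
      ‖FF f (s + θ * I)‖ = VV f s * Real.exp G.re := by
    intro θ h1 h2
    obtain ⟨G, hG1, hG2⟩ := hloc θ h1 h2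
    refine ⟨G, hG1, ?_, ?_⟩
    · simp only [hQ]
      rw [hQcast, hG2, Complex.re_ofReal_mul, Complex.exp_re]
    · have h3 := congrArg norm hG2
      rw [norm_mul, norm_mul, Complex.norm_exp, Complex.norm_exp, Complex.norm_real,
        Real.norm_eq_abs, abs_of_pos hV] at h3
      have e1 : (-(((KK f (s:ℂ)).re : ℝ) * (θ:ℂ) * I)).re = 0 := by simp
      rw [e1, Real.exp_zero, mul_one] at h3
      exact h3
  have hexp1 : (1/3 : ℝ) ≤ Real.exp (-1) := by
    rw [Real.exp_neg]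
    have := Real.exp_one_lt_d9
    rw [div_le_iff₀ (by norm_num), ← div_eq_inv_mul, le_div_iff₀ (Real.exp_pos 1)]
    linarith
  -- F1
  have F1 : ∀ θ : ℝ, 0 ≤ θ → θ ≤ y1 ^ 3 → 0 ≤ Q θ := by
    intro θ h1 h2
    obtain ⟨G, hG1, hG2, _⟩ := hrep θ h1 (by linarith)
    rw [hG2]
    apply mul_nonneg hV.le
    apply mul_nonneg (Real.exp_pos _).le
    have h3 := (Complex.abs_im_le_norm _).trans hG1
    have e1 : (G + ((B * θ ^ 2 / 2 : ℝ) : ℂ)).im = G.im := by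
      rw [Complex.add_im, Complex.ofReal_im, add_zero]
    rw [e1] at h3
    have h4 : C₂ * B * θ ^ 3 ≤ 1 := by
      have h5 : θ ^ 3 ≤ (y1 ^ 3) ^ 3 := pow_le_pow_left₀ h1 h2 3
      have h6 : C₂ * B * θ ^ 3 ≤ C₂ * B * (y1 ^ 3) ^ 3 := mul_le_mul_of_nonneg_left h5 (by positivity)
      have h7 : C₂ * B * (y1 ^ 3) ^ 3 = C₂ * y1 := by
        rw [← hy8]
        have : (y * y1) ^ 8 = 1 := by rw [hyy]; ring
        linear_combination (C₂ * y1) * this
      linarith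
    apply Real.cos_nonneg_of_neg_pi_div_two_le_of_le
    · rw [abs_le] at h3; linarith
    · rw [abs_le] at h3; linarith
  have F2 : ∀ θ : ℝ, 0 ≤ θ → θ ≤ y1 ^ 4 → VV f s / 6 ≤ Q θ := by
    intro θ h1 h2
    obtain ⟨G, hG1, hG2, _⟩ := hrep θ h1 (by linarith)
    rw [hG2]
    have h3 := (Complex.abs_im_le_norm _).trans hG1
    have h3' := (Complex.abs_re_le_norm _).trans hG1
    have e1 : (G + ((B * θ ^ 2 / 2 : ℝ) : ℂ)).im = G.im := by
      rw [Complex.add_im, Complex.ofReal_im, add_zero]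
    have e2 : (G + ((B * θ ^ 2 / 2 : ℝ) : ℂ)).re = G.re + B * θ ^ 2 / 2 := by
      rw [Complex.add_re, Complex.ofReal_re]
    rw [e1] at h3
    rw [e2] at h3'
    have hp8 : (y * y1) ^ 8 = 1 := by rw [hyy]; ring
    have h4 : C₂ * B * θ ^ 3 ≤ 1 / 4 := by
      have h5 : θ ^ 3 ≤ (y1 ^ 4) ^ 3 := pow_le_pow_left₀ h1 h2 3
      have h6 : C₂ * B * θ ^ 3 ≤ C₂ * B * (y1 ^ 4) ^ 3 := mul_le_mul_of_nonneg_left h5 (by positivity)
      have h7 : C₂ * B * (y1 ^ 4) ^ 3 = C₂ * y1 ^ 4 := by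
        rw [← hy8]
        linear_combination (C₂ * y1 ^ 4) * hp8
      have h8 : C₂ * y1 ^ 4 ≤ C₂ * y1 := mul_le_mul_of_nonneg_left (hy143.trans hy13) hC₂0.le
      linarith
    have h5 : B * θ ^ 2 ≤ 1 := by
      have h5 : θ ^ 2 ≤ (y1 ^ 4) ^ 2 := pow_le_pow_left₀ h1 h2 2
      have h6 : B * θ ^ 2 ≤ B * (y1 ^ 4) ^ 2 := mul_le_mul_of_nonneg_left h5 (by linarith)
      have h7 : B * (y1 ^ 4) ^ 2 = 1 := by
        rw [← hy8]
        linear_combination hp8
      linarith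
    rw [abs_le] at h3 h3'
    have hcos : 1 / 2 ≤ Real.cos G.im := by
      have h9 := Real.one_sub_sq_div_two_le_cos (x := G.im)
      have h10 : G.im ^ 2 ≤ 1 :=
        (sq_le_one_iff_abs_le_one _).mpr (abs_le.mpr ⟨by linarith, by linarith⟩)
      linarith
    have hexp : (1/3:ℝ) ≤ Real.exp G.re := hexp1.trans (Real.exp_le_exp.mpr (by linarith))
    have h11 : (1/6 : ℝ) ≤ Real.exp G.re * Real.cos G.im := by
      calc (1/6 : ℝ) = 1/3 * (1/2) := by norm_num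
        _ ≤ _ := mul_le_mul hexp hcos (by norm_num) (Real.exp_pos _).le
    calc VV f s / 6 = VV f s * (1/6) := by ring
      _ ≤ _ := mul_le_mul_of_nonneg_left h11 hV.le
  have F3 : ∀ θ : ℝ, y1 ^ 3 ≤ θ → θ ≤ ϑ → ‖FF f (s + θ * I)‖ ≤ VV f s * Real.exp (-(y ^ 2 / 4)) := by
    intro θ h1 h2
    have hθ0 : 0 ≤ θ := le_trans (by positivity) h1
    obtain ⟨G, hG1, _, hG3⟩ := hrep θ hθ0 (by linarith)
    rw [hG3]
    apply mul_le_mul_of_nonneg_left _ hV.le
    apply Real.exp_le_exp.mpr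
    have h3' := (Complex.abs_re_le_norm _).trans hG1
    have e2 : (G + ((B * θ ^ 2 / 2 : ℝ) : ℂ)).re = G.re + B * θ ^ 2 / 2 := by
      rw [Complex.add_re, Complex.ofReal_re]
    rw [e2, abs_le] at h3'
    have h4 : C₂ * B * θ ^ 3 ≤ B * θ ^ 2 / 4 := by
      have h5 : C₂ * θ ≤ 1 / 4 := (mul_le_mul_of_nonneg_left h2 hC₂0.le).trans hϑ3
      have h6 : B * θ ^ 2 * (C₂ * θ) ≤ B * θ ^ 2 * (1 / 4) := mul_le_mul_of_nonneg_left h5 (by positivity)
      linarith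
    have h5 : y ^ 2 ≤ B * θ ^ 2 := by
      have h5 : (y1 ^ 3) ^ 2 ≤ θ ^ 2 := pow_le_pow_left₀ (by positivity) h1 2
      have h6 : B * (y1 ^ 3) ^ 2 ≤ B * θ ^ 2 := mul_le_mul_of_nonneg_left h5 (by linarith)
      have h7 : B * (y1 ^ 3) ^ 2 = y ^ 2 := by
        rw [← hy8]
        have : (y * y1) ^ 6 = 1 := by rw [hyy]; ring
        linear_combination (y ^ 2) * this
      linarith
    linarith
  have F4 : ∀ θ : ℝ, y1 ^ 3 ≤ θ → θ ≤ T → ‖FF f (s + θ * I)‖ ≤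
      VV f s * (Real.exp C * Real.exp (-(y ^ 2 / 4))) := by
    intro θ h1 h2
    have hexpC : 1 ≤ Real.exp C := Real.one_le_exp hC0
    rcases le_total θ ϑ with h3 | h3
    · refine (F3 θ h1 h3).trans ?_
      apply mul_le_mul_of_nonneg_left _ hV.le
      exact le_mul_of_one_le_left (Real.exp_pos _).le hexpC
    · have h4 := hC s ϑ θ hs2 hϑ0.le h3 (by rw [hT] at h2; linarith)
      have h5 := F3 ϑ (hy13.trans hy1ϑ) le_rfl
      have h6 : Real.exp (C * Real.exp (-(1 * s))) ≤ Real.exp C := by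
        apply Real.exp_le_exp.mpr
        have h7 : Real.exp (-(1 * s)) ≤ 1 := Real.exp_le_one_iff.mpr (by linarith)
        calc C * Real.exp (-(1 * s)) ≤ C * 1 := mul_le_mul_of_nonneg_left h7 hC0
          _ = C := mul_one C
      calc _ ≤ _ := h4
        _ ≤ (VV f s * Real.exp (-(y ^ 2 / 4))) * Real.exp C :=
          mul_le_mul h5 h6 (Real.exp_pos _).le (by positivity)
        _ = _ := by ring
  set M4 : ℝ := VV f s * (Wm * (Real.exp C * Real.exp (-(y ^ 2 / 4)))) with hM4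
  have hM40 : 0 ≤ M4 := by positivity
  have hWpos : ∀ θ : ℝ, 0 ≤ θ → θ ≤ y1 ^ 3 → α * T / 2 ≤ WW n T a θ := by
    intro θ h1 h2
    unfold WW
    rw [← hα]
    have h3 : a * θ ≤ 1 / 2 := by
      calc a * θ ≤ a * y1 := mul_le_mul_of_nonneg_left (h2.trans hy13) ha0.le
        _ ≤ 1 / 2 := hy1T
    have h3' : 0 ≤ a * θ := by positivity
    have h4 : 7 / 8 ≤ Real.cos (a * θ) := by
      have h9 := Real.one_sub_sq_div_two_le_cos (x := a * θ)
      have h10 : (a * θ) ^ 2 ≤ (1 / 2) ^ 2 := pow_le_pow_left₀ h3' h3 2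
      linarith
    have h5 : 0 ≤ Real.sin (a * θ) := Real.sin_nonneg_of_nonneg_of_le_pi h3' (by linarith)
    have h6 : T - θ ≥ 5 / 6 * T := by
      have : θ ≤ T / 6 := by
        have h7 : Real.pi * θ ≤ T / 2 := by
          have : a * θ * T ≤ 1 / 2 * T := mul_le_mul_of_nonneg_right h3 hT0.le
          have e : a * θ * T = Real.pi * θ := by rw [← haT]; ring
          linarith
        have h8 : 3 * θ ≤ Real.pi * θ := mul_le_mul_of_nonneg_right hpi3.le h1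
        linarith
      linarith
    have h7 : 0 ≤ ((n:ℝ) ^ 2 / (4 * a) + a) / 2 * Real.sin (a * θ) := by positivity
    have h8 : T / 2 ≤ (T - θ) * Real.cos (a * θ) := by
      calc T / 2 ≤ 5 / 6 * T * (7 / 8) := by linarith
        _ ≤ _ := mul_le_mul h6 h4 (by norm_num) (by linarith)
    have h9 : α * (T / 2) ≤ α * ((T - θ) * Real.cos (a * θ)) := mul_le_mul_of_nonneg_left h8 hα0.le
    linarith
  have hlow : ∀ θ : ℝ, 0 ≤ θ → θ ≤ T → 0 ≤ WW n T a θ * Q θ + M4 := by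
    intro θ h1 h2
    rcases le_total θ (y1 ^ 3) with h3 | h3
    · have := mul_nonneg ((by positivity : (0:ℝ) ≤ α * T / 2).trans (hWpos θ h1 h3)) (F1 θ h1 h3)
      linarith
    · have h4 := WW_abs_le (n := (n:ℝ)) han.le ha0 h1 h2
      have h5 : |Q θ| ≤ VV f s * (Real.exp C * Real.exp (-(y ^ 2 / 4))) := by
        refine le_trans ?_ (F4 θ h3 h2)
        simp only [hQ]
        refine (Complex.abs_re_le_norm _).trans ?_
        rw [norm_mul, Complex.norm_exp]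
        have e1 : (-((N + n / 2 : ℝ) * (θ:ℂ) * I)).re = 0 := by simp
        rw [e1, Real.exp_zero, mul_one]
      have h6 : |WW n T a θ * Q θ| ≤ Wm * (VV f s * (Real.exp C * Real.exp (-(y ^ 2 / 4)))) := by
        rw [abs_mul]
        exact mul_le_mul h4 h5 (abs_nonneg _) hWm0
      have h7 := (abs_le.mp h6).1
      rw [hM4]; linarith
  have hlow2 : ∀ θ : ℝ, 0 ≤ θ → θ ≤ y1 ^ 4 → VV f s * (α * T / 12) ≤ WW n T a θ * Q θ + M4 := by
    intro θ h1 h2
    have h3 := hWpos θ h1 (h2.trans hy143)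
    have h4 := F2 θ h1 h2
    have h5 : (α * T / 2) * (VV f s / 6) ≤ WW n T a θ * Q θ :=
      mul_le_mul h3 h4 (by positivity) (le_trans (by positivity) h3)
    linarith
  have hcont : Continuous (fun θ => WW n T a θ * Q θ) := by
    have h1 := (FF_differentiable h.nn).continuous
    simp only [hQ]
    unfold WW
    fun_prop
  have hcont2 : Continuous (fun θ => WW n T a θ * Q θ + M4) := hcont.add_const _
  have hint := gap_integral h.nn s hgap hT0 hnT
  have hy4T : y1 ^ 4 ≤ T := by linarith [hy143, hy13, hy1ϑ, hϑ1]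
  have e1 : ∫ θ in (0:ℝ)..T, (WW n T a θ * Q θ + M4) =
      (∫ θ in (0:ℝ)..T, WW n T a θ * Q θ) + T * M4 := by
    rw [intervalIntegral.integral_add (hcont.intervalIntegrable _ _) intervalIntegrable_const]
    simp
  have e2 : (∫ θ in (0:ℝ)..(y1 ^ 4), (WW n T a θ * Q θ + M4)) +
      ∫ θ in (y1 ^ 4)..T, (WW n T a θ * Q θ + M4) = ∫ θ in (0:ℝ)..T, (WW n T a θ * Q θ + M4) :=
    intervalIntegral.integral_add_adjacent_intervals (hcont2.intervalIntegrable _ _)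
      (hcont2.intervalIntegrable _ _)
  have e3 : 0 ≤ ∫ θ in (y1 ^ 4)..T, (WW n T a θ * Q θ + M4) := by
    apply intervalIntegral.integral_nonneg hy4T
    intro θ hθ
    exact hlow θ (le_trans (by positivity) hθ.1) hθ.2
  have e4 : y1 ^ 4 * (VV f s * (α * T / 12)) ≤ ∫ θ in (0:ℝ)..(y1 ^ 4), (WW n T a θ * Q θ + M4) := by
    have h1 : ∫ _θ in (0:ℝ)..(y1 ^ 4), (VV f s * (α * T / 12)) = y1 ^ 4 * (VV f s * (α * T / 12)) := by
      rw [intervalIntegral.integral_const, smul_eq_mul, sub_zero]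
    rw [← h1]
    apply intervalIntegral.integral_mono_on (by positivity) intervalIntegrable_const
      (hcont2.intervalIntegrable _ _)
    intro θ hθ
    exact hlow2 θ hθ.1 hθ.2
  have e5 : y1 ^ 4 * (VV f s * (α * T / 12)) ≤ T * M4 := by
    rw [← ha] at hint
    linarith
  have e6 := hY₀ y hyY0
  -- contradiction
  have e7 : y ^ 4 * (y1 ^ 4 * (VV f s * (α * T / 12))) ≤ y ^ 4 * (T * M4) :=
    mul_le_mul_of_nonneg_left e5 (by positivity)
  have e8 : y ^ 4 * (y1 ^ 4 * (VV f s * (α * T / 12))) = VV f s * T / 12 * α := by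
    have : (y * y1) ^ 4 = 1 := by rw [hyy]; ring
    linear_combination (VV f s * (α * T / 12)) * this
  have e9 : y ^ 4 * (T * M4) = VV f s * T / 12 * (12 * Wm * Real.exp C * (y ^ 4 * Real.exp (-(y ^ 2 / 4)))) := by
    rw [hM4]; ring
  rw [e8, e9] at e7
  have e10 : VV f s * T / 12 * (12 * Wm * Real.exp C * (y ^ 4 * Real.exp (-(y ^ 2 / 4)))) <
      VV f s * T / 12 * α := mul_lt_mul_of_pos_left e6 (by positivity)
  linarith

end Pool.Agent.helper38.LacA
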