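import Pool.Agent.helper38.LacPoint

set_option autoImplicit false

namespace Pool.Agent.helper38.LacA

open Filter Topology Complex Metric Pool.Agent.helper38.NNF MeasureTheory Set
open scoped ComplexOrder Nat ComplexConjugate

theorem alt_line {u Bf : ℝ → ℝ} {s₁ σ : ℝ} (hcont : ContinuousOn u (Icc s₁ σ))
    (hsign : ∀ t, s₁ ≤ t → t < σ → ∃ R : ℝ, 0 < R ∧ Bf (Real.exp (t - σ)) = R * Real.sin (u t)) :
    ∀ (M : ℕ) (t θ₀ ε : ℝ), s₁ ≤ t → t < σ → u t = θ₀ → Real.sin θ₀ = ε → (ε = 1 ∨ ε = -1) →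
      θ₀ + M * Real.pi < u σ →
      Alt (fun x : ℝ => 0 < x ∧ x < 1) Bf M ε (Real.exp (t - σ)) := by
  have hpi := Real.pi_pos
  have hP : ∀ t : ℝ, t < σ → 0 < Real.exp (t - σ) ∧ Real.exp (t - σ) < 1 := by
    intro t ht
    exact ⟨Real.exp_pos _, Real.exp_lt_one_iff.mpr (by linarith)⟩
  have hpos : ∀ (t θ₀ ε : ℝ), s₁ ≤ t → t < σ → u t = θ₀ → Real.sin θ₀ = ε → (ε = 1 ∨ ε = -1) →
      0 < ε * Bf (Real.exp (t - σ)) := by
    intro t θ₀ ε h1 h2 h3 h4 h5
    obtain ⟨R, hR, hR2⟩ := hsign t h1 h2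
    rw [hR2, h3, h4]
    rcases h5 with h | h <;> rw [h] <;> linarith
  intro M
  induction M with
  | zero =>
    intro t θ₀ ε h1 h2 h3 h4 h5 _
    exact ⟨hP t h2, hpos t θ₀ ε h1 h2 h3 h4 h5⟩
  | succ M ih =>
    intro t θ₀ ε h1 h2 h3 h4 h5 h6
    have h7 : θ₀ + Real.pi < u σ := by
      push_cast at h6
      have : (0:ℝ) ≤ (M:ℝ) * Real.pi := by positivity
      linarith
    have hc : ContinuousOn u (Icc t σ) := hcont.mono (Icc_subset_Icc_left h1)
    obtain ⟨t', ht', hut'⟩ := intermediate_value_Icc h2.le hc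
      (show θ₀ + Real.pi ∈ Icc (u t) (u σ) from ⟨by rw [h3]; linarith, h7.le⟩)
    have hne1 : t ≠ t' := by
      intro h0; rw [← h0, h3] at hut'; linarith
    have hne2 : t' ≠ σ := by
      intro h0; rw [h0] at hut'; linarith
    have hlt1 : t < t' := lt_of_le_of_ne ht'.1 hne1
    have hlt2 : t' < σ := lt_of_le_of_ne ht'.2 hne2
    refine ⟨hP t h2, hpos t θ₀ ε h1 h2 h3 h4 h5, Real.exp (t' - σ), ?_, ?_⟩
    · exact Real.exp_lt_exp.mpr (by linarith)
    · apply ih t' (θ₀ + Real.pi) (-ε) (by linarith) hlt2 hut'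
      · rw [Real.sin_add_pi, h4]
      · rcases h5 with h | h <;> rw [h] <;> simp
      · push_cast at h6; linarith

theorem sin_sign {n q r : ℕ} (hn : 0 < n) (hr0 : 0 < r) (hr : r < n) :
    0 < (-1 : ℝ) ^ q * Real.sin (((q * n + r : ℕ) : ℝ) * (Real.pi / n)) := by
  have hn0 : (0:ℝ) < n := by exact_mod_cast hn
  have e1 : ((q * n + r : ℕ) : ℝ) * (Real.pi / n) = r * (Real.pi / n) + q * Real.pi := by
    push_cast; field_simp; ring
  rw [e1, Real.sin_add_nat_mul_pi, ← mul_assoc, ← mul_pow]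
  norm_num
  apply Real.sin_pos_of_pos_of_lt_pi
  · have : (0:ℝ) < r := by exact_mod_cast hr0
    positivity
  · have : (r:ℝ) < n := by exact_mod_cast hr
    have h2 : (r:ℝ) * (Real.pi / n) < n * (Real.pi / n) :=
      mul_lt_mul_of_pos_right this (by have := Real.pi_pos; positivity)
    have h3 : (n:ℝ) * (Real.pi / n) = Real.pi := by field_simp
    linarith

theorem rot_im {f : ℂ → ℂ} (hf : NN f) (τ ph : ℝ) (m₀ : ℕ) :
    HasSum (fun k : ℕ => (tc f k).re * Real.exp (k * τ) * Real.sin (((k + m₀ : ℕ) : ℝ) * ph))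
      (Complex.exp ((m₀ * ph : ℝ) * I) * FF f (τ + ph * I)).im := by
  have h1 := hasSum_tc hf.1 (Complex.exp (τ + ph * I))
  have h2 := h1.mul_left (Complex.exp ((m₀ * ph : ℝ) * I))
  have h3 := Complex.hasSum_im h2
  refine h3.congr_fun ?_ |> fun h => h
  intro k
  have e1 : Complex.exp ((m₀ * ph : ℝ) * I) * (tc f k * Complex.exp (τ + ph * I) ^ k) =
      (((tc f k).re * Real.exp (k * τ) : ℝ) : ℂ) * Complex.exp ((((k + m₀ : ℕ) : ℝ) * ph : ℝ) * I) := by
    rw [← Complex.exp_nat_mul]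
    push_cast
    rw [← tc_re hf k, mul_assoc (tc f k), ← Complex.exp_add, mul_left_comm, ← Complex.exp_add]
    congr 2
    ring
  rw [e1, Complex.im_ofReal_mul, Complex.exp_ofReal_mul_I_im]

theorem Hyp.contra {f : ℂ → ℂ} {s₀ b c : ℝ} (h : Hyp f s₀ b c) {β : ℝ} (hβ : β < b)
    (hcβ : c * β < Real.pi) {n : ℕ} (hn : 2 ≤ n) (hnβ : Real.pi / n < β)
    (hinf : {N : ℕ | ∀ k, N < k → k < N + n → tc f k = 0}.Infinite)
    (hinf2 : {k : ℕ | tc f k ≠ 0}.Infinite) : False := by
  have hpi := Real.pi_pos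
  have hf := h.nn
  have hb := h.bpos
  have hn0 : (0:ℝ) < n := by exact_mod_cast (by omega : 0 < n)
  have hnpos : 0 < n := by omega
  -- residue class
  obtain ⟨r, hr, hrinf⟩ : ∃ r < 2 * n,
      {N : ℕ | (∀ k, N < k → k < N + n → tc f k = 0) ∧ N % (2 * n) = r}.Infinite := by
    by_contra hcon
    push Not at hcon
    apply hinf
    have hfin : (⋃ r ∈ (Finset.range (2 * n) : Set ℕ),
        {N : ℕ | (∀ k, N < k → k < N + n → tc f k = 0) ∧ N % (2 * n) = r}).Finite := by
      apply Set.Finite.biUnion (Finset.finite_toSet _)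
      intro r hr
      have := hcon r (by simpa using hr)
      exact this
    apply hfin.subset
    intro N hN
    simp only [Set.mem_iUnion]
    exact ⟨N % (2 * n), by simpa using Nat.mod_lt N (by omega), hN, rfl⟩
  set m₀ : ℕ := 2 * n - r with hm₀
  have hclass : ∀ N : ℕ, N % (2 * n) = r → ∃ t : ℕ, N + m₀ = (2 * t) * n := by
    intro N hN
    refine ⟨N / (2 * n) + 1, ?_⟩
    have h1 := Nat.div_add_mod N (2 * n)
    rw [hN] at h1
    have : N + m₀ = 2 * n * (N / (2 * n)) + 2 * n := by omega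
    rw [this]; ring
  set Z : Set ℕ := {q | Even q ∧ ∀ k, q * n < k + m₀ → k + m₀ < (q + 1) * n → tc f k = 0} with hZ
  have hZeven : ∀ z ∈ Z, Even z := fun z hz => hz.1
  have hZinf : Z.Infinite := by
    have hinj : Set.InjOn (fun N => (N + m₀) / n)
        {N : ℕ | (∀ k, N < k → k < N + n → tc f k = 0) ∧ N % (2 * n) = r} := by
      intro N hN N' hN' hNN
      obtain ⟨t, ht⟩ := hclass N hN.2
      obtain ⟨t', ht'⟩ := hclass N' hN'.2
      simp only [ht, ht', Nat.mul_div_cancel _ hnpos] at hNN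
      rw [hNN] at ht
      omega
    apply Set.infinite_of_injOn_mapsTo hinj _ hrinf
    intro N hN
    obtain ⟨t, ht⟩ := hclass N hN.2
    show (N + m₀) / n ∈ Z
    rw [ht, Nat.mul_div_cancel _ hnpos]
    refine ⟨even_two_mul t, ?_⟩
    intro k hk1 hk2
    apply hN.1 k
    · omega
    · have : (2 * t + 1) * n = 2 * t * n + n := by ring
      omega
  -- constants
  obtain ⟨ρ₁, C₁, c₂, S, hρ, hρb, hC₁, hc₂, hS, hgood⟩ := h.good_gap hβ hcβ hn hnβ
  set ph : ℝ := Real.pi / n with hph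
  have hph0 : 0 < ph := by positivity
  have hphb : ph < b := by linarith
  have hphn : n * ph = Real.pi := by rw [hph]; field_simp
  obtain ⟨v, Cv, hv1, hv2, hv3⟩ := h.phase (s₁ := S) (ph := ph) (by linarith) hph0 hphb
  obtain ⟨ℓ, ε₀, hℓ0, hℓρ, hε₀, hε₁, hpt⟩ := h.good_point hph0 hρ hρb hC₁ hc₂ hv1
  set T' : ℝ := C₁ + (C₁ * ph - Real.log (ε₀ / 2)) / ℓ with hT'
  have hlog : Real.log (ε₀ / 2) < 0 := Real.log_neg (by linarith) (by linarith)
  have hT'0 : 0 ≤ T' := by
    rw [hT']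
    have : 0 ≤ (C₁ * ph - Real.log (ε₀ / 2)) / ℓ := by
      apply div_nonneg _ hℓ0.le
      have : 0 < C₁ * ph := by positivity
      linarith
    linarith
  set C₆ : ℝ := (T' + 1 + m₀ + C₁) / n - (Cv - v S) / Real.pi + 6 with hC₆
  -- many elements of Z
  obtain ⟨F, hFZ, hFcard⟩ := hZinf.exists_subset_card_eq (⌈|C₆|⌉₊ + 1)
  set Q₀ : ℕ := F.sup id + 1 with hQ₀
  -- choice of N
  set Nreq : ℝ := |(KK f (S:ℂ)).re| + n * Q₀ + n * (|C₁ / n - (Cv - v S) / Real.pi| + 5) with hNreq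
  obtain ⟨N, ⟨hgapN, hNr⟩, hNbig⟩ := hrinf.exists_gt (⌈Nreq⌉₊)
  have hNbig' : Nreq < N := (Nat.le_ceil _).trans_lt (by exact_mod_cast hNbig)
  set cN : ℝ := N + n / 2 with hcN
  have hcN0 : (N:ℝ) ≤ cN := by rw [hcN]; linarith
  have habs1 : 0 ≤ |(KK f (S:ℂ)).re| := abs_nonneg _
  have habs2 : 0 ≤ n * (|C₁ / n - (Cv - v S) / Real.pi| + 5) := by positivity
  have hnQ0 : (0:ℝ) ≤ n * Q₀ := by positivity
  obtain ⟨s, hsS, hKs⟩ := h.exists_center hinf2 (R := S) (by linarith) (M := cN)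
    (by linarith [le_abs_self (KK f (S:ℂ)).re])
  obtain ⟨hK, hIm⟩ := hgood s hsS N hgapN hKs
  rw [← hcN] at hK
  obtain ⟨σ, hσ1, hσ2, hsin⟩ := hpt s cN (m₀ * ph) (by linarith) hK hIm
  have hV : 0 < VV f σ := VV_pos h (by linarith)
  have hnormlow := h.norm_low hph0 hphb hℓρ hℓ0 hC₁ (by linarith) hK hσ1 hσ2
  have hgrow := h.growth_step (by linarith) hℓ0 (by linarith) hK hσ1 hσ2
  -- the function B
  set Bf : ℝ → ℝ := fun y => (Complex.exp ((m₀ * ph : ℝ) * I) *
    FF f (((σ + Real.log y : ℝ) : ℂ) + ph * I)).im with hBf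
  set cc : ℕ → ℝ := fun k => (tc f k).re * Real.exp (k * σ) *
    Real.sin (((k + m₀ : ℕ) : ℝ) * ph) with hcc
  have hBsum : ∀ y : ℝ, 0 < y → HasSum (fun k => cc k * y ^ k) (Bf y) := by
    intro y hy
    have h1 := rot_im hf (σ + Real.log y) ph m₀
    refine h1.congr_fun ?_ |> fun h => h
    intro k
    simp only [hcc]
    have e1 : Real.exp ((k:ℝ) * (σ + Real.log y)) = Real.exp (k * σ) * y ^ k := by
      rw [mul_add, Real.exp_add, Real.exp_nat_mul (Real.log y), Real.exp_log hy]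
    rw [e1]; ring
  have hsum1 : HasSum cc (Bf 1) := by
    have := hBsum 1 one_pos
    simpa using this
  have hBval : ∀ t : ℝ, S ≤ t → Bf (Real.exp (t - σ)) =
      ‖FF f (t + ph * I)‖ * Real.sin (m₀ * ph + v t) := by
    intro t ht
    simp only [hBf]
    rw [Real.log_exp, show σ + (t - σ) = t by ring, hv2 t ht, mul_left_comm, ← Complex.exp_add,
      Complex.im_ofReal_mul, ← add_mul, ← Complex.ofReal_add, Complex.exp_ofReal_mul_I_im]
    rw [Complex.norm_mul, Complex.norm_exp_ofReal_mul_I, mul_one, Complex.norm_real, norm_norm]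
  have hBf1 : Bf 1 = ‖FF f (σ + ph * I)‖ * Real.sin (m₀ * ph + v σ) := by
    have := hBval σ (by linarith)
    rwa [sub_self, Real.exp_zero] at this
  have hBf1abs : VV f σ * Real.exp (-(C₁ * ph)) * ε₀ ≤ |Bf 1| := by
    rw [hBf1, abs_mul, abs_of_nonneg (norm_nonneg _)]
    exact mul_le_mul hnormlow hsin hε₀.le (norm_nonneg _)
  set K : ℕ := ⌈cN + T'⌉₊ with hKdef
  have hK1 : cN + T' ≤ K := Nat.le_ceil _
  have hK2 : (K:ℝ) < cN + T' + 1 := Nat.ceil_lt_add_one (by
    have : (0:ℝ) ≤ N := Nat.cast_nonneg N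
    linarith)
  have hccle : ∀ k, |cc k| ≤ (tc f k).re * Real.exp (k * σ) := by
    intro k
    simp only [hcc]
    rw [abs_mul, abs_of_nonneg (mul_nonneg (tc_re_nonneg hf k) (Real.exp_pos _).le)]
    calc _ ≤ (tc f k).re * Real.exp (k * σ) * 1 :=
          mul_le_mul_of_nonneg_left (Real.abs_sin_le_one _)
            (mul_nonneg (tc_re_nonneg hf k) (Real.exp_pos _).le)
      _ = _ := mul_one _
  have hfr : ∀ m, K ≤ m → 0 < Bf 1 * PS cc (m + 1) := by
    intro m hm
    have h1 := tail_bound hf hℓ0 (show K ≤ m + 1 by omega) hccle hsum1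
    have h2 : Real.exp (-(ℓ * K)) * VV f (σ + ℓ) ≤ VV f σ * Real.exp (-(C₁ * ph)) * (ε₀ / 2) := by
      calc Real.exp (-(ℓ * K)) * VV f (σ + ℓ) ≤ Real.exp (-(ℓ * K)) *
            (VV f σ * Real.exp (ℓ * (cN + C₁))) := mul_le_mul_of_nonneg_left hgrow (Real.exp_pos _).le
        _ = VV f σ * Real.exp (-(ℓ * K) + ℓ * (cN + C₁)) := by rw [Real.exp_add]; ring
        _ ≤ VV f σ * Real.exp (-(C₁ * ph) + Real.log (ε₀ / 2)) := by
          apply mul_le_mul_of_nonneg_left _ hV.le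
          apply Real.exp_le_exp.mpr
          have h3 : ℓ * (T' - C₁) = C₁ * ph - Real.log (ε₀ / 2) := by
            rw [hT']; field_simp; ring
          have h4 : ℓ * (cN + T') ≤ ℓ * K := mul_le_mul_of_nonneg_left hK1 hℓ0.le
          linarith
        _ = _ := by rw [Real.exp_add, Real.exp_log (by linarith)]; ring
    have h3 : |Bf 1 - PS cc (m + 1)| ≤ |Bf 1| / 2 := by
      have : VV f σ * Real.exp (-(C₁ * ph)) * (ε₀ / 2) ≤ |Bf 1| / 2 := by linarith
      linarith
    have h4 : 0 < |Bf 1| := lt_of_lt_of_le (by positivity) hBf1abs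
    have h5 : Bf 1 * PS cc (m + 1) = |Bf 1| * |Bf 1| - Bf 1 * (Bf 1 - PS cc (m + 1)) := by
      rw [abs_mul_abs_self]; ring
    have h6 : Bf 1 * (Bf 1 - PS cc (m + 1)) ≤ |Bf 1| * (|Bf 1| / 2) := by
      refine (le_abs_self _).trans ?_
      rw [abs_mul]
      exact mul_le_mul_of_nonneg_left h3 h4.le
    rw [h5]
    have h7 := mul_pos h4 h4
    linarith
  have hc : ∀ k, k < K → cc k ≠ 0 → (k + m₀) / n ∉ Z ∧ 0 < (-1 : ℝ) ^ ((k + m₀) / n) * cc k := by
    intro k _ hk
    have hdm := Nat.div_add_mod (k + m₀) n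
    have hrlt := Nat.mod_lt (k + m₀) hnpos
    set q := (k + m₀) / n with hq
    set r' := (k + m₀) % n with hr'
    have hkq : k + m₀ = q * n + r' := by rw [← hdm]; ring
    have hsk : (tc f k).re ≠ 0 := by
      intro h0; apply hk; simp only [hcc]; rw [h0]; ring
    have hapos : 0 < (tc f k).re := lt_of_le_of_ne (tc_re_nonneg hf k) (Ne.symm hsk)
    have hr0 : 0 < r' := by
      rcases Nat.eq_zero_or_pos r' with h0 | h0
      · exfalso
        apply hk
        simp only [hcc]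
        rw [hkq, h0, add_zero]
        have : ((q * n : ℕ) : ℝ) * ph = q * Real.pi := by
          push_cast; rw [mul_assoc, hphn]
        rw [this, Real.sin_nat_mul_pi, mul_zero]
      · exact h0
    constructor
    · intro hqZ
      have := hqZ.2 k (by omega) (by
        have : (q + 1) * n = q * n + n := by ring
        omega)
      rw [this] at hsk
      simp at hsk
    · have h1 := sin_sign (q := q) hnpos hr0 hrlt
      rw [← hph, ← hkq] at h1
      simp only [hcc]
      have h2 : (-1:ℝ) ^ q * ((tc f k).re * Real.exp (k * σ) * Real.sin (((k + m₀ : ℕ) : ℝ) * ph)) =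
          ((tc f k).re * Real.exp (k * σ)) * ((-1:ℝ) ^ q * Real.sin (((k + m₀ : ℕ) : ℝ) * ph)) := by
        ring
      rw [h2]
      exact mul_pos (mul_pos hapos (Real.exp_pos _)) h1
  -- phase advance
  set u : ℝ → ℝ := fun t => m₀ * ph + v t with hu
  set D : ℝ := u σ - u S with hD
  have hDlow : Cv + ph * (cN - C₁) - v S ≤ D := by
    have h1 := hv3 σ (by linarith)
    have h2 : ph * (cN - C₁) ≤ ∫ y in (0:ℝ)..ph, (KK f (σ + y * I)).re := by
      have h3 : ∫ _y in (0:ℝ)..ph, (cN - C₁) = ph * (cN - C₁) := by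
        rw [intervalIntegral.integral_const, smul_eq_mul, sub_zero]
      rw [← h3]
      have hci : ContinuousOn (fun y : ℝ => (KK f (σ + y * I)).re) (Set.uIcc 0 ph) := by
        intro y hy
        rw [Set.uIcc_of_le hph0.le] at hy
        have h1 : ContinuousAt (KK f) ((σ:ℂ) + y * I) := by
          apply (h.KK_differentiableAt _ _).continuousAt
          · simp; linarith
          · simp only [Complex.add_im, Complex.ofReal_im, Complex.mul_im, Complex.ofReal_re,
              Complex.I_im, mul_one, Complex.I_re, mul_zero, add_zero, zero_add]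
            rw [abs_of_nonneg hy.1]; exact lt_of_le_of_lt hy.2 hphb
        have h2 : ContinuousAt (fun y : ℝ => (σ:ℂ) + y * I) y := by fun_prop
        have h3 := ContinuousAt.comp (f := fun y : ℝ => (σ:ℂ) + y * I) h1 h2
        exact (Complex.continuous_re.continuousAt.comp h3).continuousWithinAt
      apply intervalIntegral.integral_mono_on hph0.le intervalIntegrable_const hci.intervalIntegrable
      intro y hy
      have h4 := hK ((σ:ℂ) + y * I) (by
        have e : (σ:ℂ) + y * I - s = ((σ - s : ℝ) : ℂ) + y * I := by push_cast; ring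
        rw [e]
        refine (norm_add_le _ _).trans ?_
        rw [norm_mul, Complex.norm_I, mul_one, Complex.norm_real, Complex.norm_real,
          Real.norm_eq_abs, Real.norm_eq_abs, abs_of_nonneg (by linarith), abs_of_nonneg hy.1]
        linarith [hy.2])
      have h5 := (Complex.abs_re_le_norm _).trans h4
      rw [Complex.sub_re, Complex.ofReal_re, abs_le] at h5
      linarith [h5.1]
    rw [hD]
    simp only [hu]
    linarith
  have hDpi : cN / n - (C₁ / n - (Cv - v S) / Real.pi) ≤ D / Real.pi := by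
    have h1 : (Cv + ph * (cN - C₁) - v S) / Real.pi ≤ D / Real.pi :=
      div_le_div_of_nonneg_right hDlow hpi.le
    have h2 : (Cv + ph * (cN - C₁) - v S) / Real.pi = cN / n - (C₁ / n - (Cv - v S) / Real.pi) := by
      rw [hph]; field_simp; ring
    linarith
  have hDbig : 5 ≤ D / Real.pi := by
    have h1 : |C₁ / n - (Cv - v S) / Real.pi| + 5 ≤ cN / n := by
      rw [le_div_iff₀ hn0]; linarith
    have h2 := le_abs_self (C₁ / n - (Cv - v S) / Real.pi)
    linarith
  have hDfl : (5:ℕ) ≤ ⌊D / Real.pi⌋₊ := Nat.le_floor (by exact_mod_cast hDbig)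
  set M : ℕ := ⌊D / Real.pi⌋₊ - 4 with hM
  have hM4 : M + 4 = ⌊D / Real.pi⌋₊ := by omega
  have hMle : ((M:ℝ) + 4) * Real.pi ≤ D := by
    have h1 : ((⌊D / Real.pi⌋₊ : ℕ) : ℝ) ≤ D / Real.pi := Nat.floor_le (by linarith)
    rw [← hM4] at h1
    push_cast at h1
    rwa [le_div_iff₀ hpi] at h1
  have hMge : D / Real.pi < (M:ℝ) + 5 := by
    have h1 := Nat.lt_floor_add_one (D / Real.pi)
    rw [← hM4] at h1
    push_cast at h1
    linarith
  -- starting point
  set j : ℤ := ⌈u S / (2 * Real.pi)⌉ with hj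
  have hj1 : u S ≤ j * (2 * Real.pi) := by
    have := Int.le_ceil (u S / (2 * Real.pi))
    rwa [div_le_iff₀ (by positivity)] at this
  have hj2 : j * (2 * Real.pi) < u S + 2 * Real.pi := by
    have := Int.ceil_lt_add_one (u S / (2 * Real.pi))
    rw [← hj] at this
    have h2 : (j:ℝ) * (2 * Real.pi) < (u S / (2 * Real.pi) + 1) * (2 * Real.pi) :=
      mul_lt_mul_of_pos_right this (by positivity)
    have h3 : (u S / (2 * Real.pi) + 1) * (2 * Real.pi) = u S + 2 * Real.pi := by field_simp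
    linarith
  set θ₀ : ℝ := Real.pi / 2 + j * (2 * Real.pi) with hθ₀
  have hsinθ : Real.sin θ₀ = 1 := by
    rw [hθ₀, Real.sin_add_int_mul_two_pi, Real.sin_pi_div_two]
  have hucont : ContinuousOn u (Icc S σ) := by
    intro t ht
    have h1 := (hv1 t (by linarith [ht.1])).continuousAt
    exact (continuousAt_const.add h1).continuousWithinAt
  have huσ : u σ = D + u S := by rw [hD]; ring
  have hSσ : S ≤ σ := by linarith
  obtain ⟨t₀, ht₀, hut₀⟩ := intermediate_value_Icc hSσ hucont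
    (show θ₀ ∈ Icc (u S) (u σ) from ⟨by rw [hθ₀]; linarith, by
      rw [hθ₀, huσ]
      have : (0:ℝ) ≤ M * Real.pi := by positivity
      linarith⟩)
  have hlast : θ₀ + ((M + 1 : ℕ) : ℝ) * Real.pi < u σ := by
    rw [hθ₀, huσ]; push_cast; linarith
  have ht₀lt : t₀ < σ := by
    apply lt_of_le_of_ne ht₀.2
    intro h0
    rw [h0] at hut₀
    have : (0:ℝ) ≤ ((M + 1 : ℕ) : ℝ) * Real.pi := by positivity
    linarith
  have hFpos : ∀ t : ℝ, S ≤ t → 0 < ‖FF f (t + ph * I)‖ := by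
    intro t ht
    rw [norm_pos_iff]
    apply h.zf
    · simp; linarith
    · simp only [Complex.add_im, Complex.ofReal_im, Complex.mul_im, Complex.ofReal_re,
        Complex.I_im, mul_one, Complex.I_re, mul_zero, add_zero, zero_add]
      rw [abs_of_pos hph0]; exact hphb
  have hAlt := alt_line (Bf := Bf) hucont
    (fun t ht1 _ => ⟨‖FF f (t + ph * I)‖, hFpos t ht1, hBval t ht1⟩) (M + 1) t₀ θ₀ 1 ht₀.1 ht₀lt hut₀
    hsinθ (Or.inl rfl) hlast
  have hcount := series_count hZeven hc hsum1.summable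
    (fun y hy0 _ => hBsum y hy0) hfr M (Or.inl rfl) hAlt
  -- numerics
  classical
  have hg0 : -1 ≤ gg Z 0 := by
    unfold gg
    simp only [Nat.cast_zero, Finset.range_zero, Finset.filter_empty, Finset.card_empty]
    split_ifs <;> norm_num
  set Q : ℕ := (K + m₀) / n with hQ
  have hcardQ : gg Z Q ≤ (Q:ℤ) - 2 * ((Finset.range Q).filter (fun z => z ∈ Z)).card := by
    have : gg Z Q = (Q:ℤ) - 2 * ((Finset.range Q).filter (fun z => z ∈ Z)).card -
        (if Q ∈ Z then 1 else 0) := by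
      unfold gg
      congr
    rw [this]
    split_ifs <;> omega
  have hQ₀Q : Q₀ ≤ Q := by
    rw [hQ, Nat.le_div_iff_mul_le hnpos]
    have h1 : (n:ℝ) * Q₀ ≤ K := by linarith
    have h2 : n * Q₀ ≤ K := by exact_mod_cast h1
    have h3 : Q₀ * n = n * Q₀ := Nat.mul_comm _ _
    omega
  have hcardF : F.card ≤ ((Finset.range Q).filter (fun z => z ∈ Z)).card := by
    apply Finset.card_le_card
    intro z hz
    rw [Finset.mem_filter, Finset.mem_range]
    refine ⟨?_, hFZ hz⟩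
    have : z ≤ F.sup id := Finset.le_sup (f := id) hz
    omega
  rw [hFcard] at hcardF
  have hfinal : (M:ℝ) ≤ Q + 1 - 2 * ((⌈|C₆|⌉₊ : ℝ) + 1) := by
    have h1 : (M:ℤ) ≤ Q + 1 - 2 * ((⌈|C₆|⌉₊ : ℤ) + 1) := by
      have : ((⌈|C₆|⌉₊ + 1 : ℕ) : ℤ) ≤ ((Finset.range Q).filter (fun z => z ∈ Z)).card := by
        exact_mod_cast hcardF
      push_cast at this
      linarith
    exact_mod_cast h1
  have hQle : (Q:ℝ) ≤ (K + m₀) / n := by
    rw [le_div_iff₀ hn0]
    have : Q * n ≤ K + m₀ := Nat.div_mul_le_self _ _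
    exact_mod_cast this
  have hQle2 : ((K:ℝ) + m₀) / n ≤ (cN + T' + 1 + m₀) / n := by
    apply div_le_div_of_nonneg_right _ hn0.le; linarith
  have hceil : |C₆| ≤ ⌈|C₆|⌉₊ := Nat.le_ceil _
  have hC6 := le_abs_self C₆
  have e1 : (cN + T' + 1 + m₀) / n = cN / n + (T' + 1 + m₀ + C₁) / n - C₁ / n := by
    field_simp; ring
  rw [e1] at hQle2
  rw [hC₆] at hC6
  have : 0 ≤ |C₆| := abs_nonneg _
  linarith

end Pool.Agent.helper38.LacA
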