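import Pool.Agent.helper38.LacAlt

set_option autoImplicit false

namespace Pool.Agent.helper38.LacA

open Finset

/-- partial sums -/
noncomputable def PS (c : ℕ → ℝ) (m : ℕ) : ℝ := ∑ k ∈ range m, c k

theorem alt_of_partial {K : ℕ} {c : ℕ → ℝ} :
    ∀ (M : ℕ) (ε : ℝ) (m' j : ℕ), m' ≤ j → ε * PS c m' ≤ 0 →
      Alt (fun j => j < K) (fun m => PS c (m + 1)) M ε j →
      ∃ k, m' ≤ k ∧ k ≤ j ∧ Alt (fun j => j < K) c M ε k := by
  have key : ∀ (ε : ℝ) (m' j : ℕ), m' ≤ j → ε * PS c m' ≤ 0 → 0 < ε * PS c (j + 1) →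
      ∃ k, m' ≤ k ∧ k ≤ j ∧ 0 < ε * c k := by
    intro ε m' j hj h1 h2
    by_contra hcon
    push Not at hcon
    have h3 : PS c (j + 1) = PS c m' + ∑ k ∈ Ico m' (j + 1), c k := by
      unfold PS
      rw [Finset.sum_range_add_sum_Ico _ (by omega)]
    have h4 : ε * ∑ k ∈ Ico m' (j + 1), c k ≤ 0 := by
      rw [Finset.mul_sum]
      apply Finset.sum_nonpos
      intro k hk
      rw [Finset.mem_Ico] at hk
      exact hcon k hk.1 (by omega)
    rw [h3, mul_add] at h2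
    linarith
  intro M
  induction M with
  | zero =>
    intro ε m' j hj h1 hA
    obtain ⟨k, hk1, hk2, hk3⟩ := key ε m' j hj h1 hA.2
    exact ⟨k, hk1, hk2, lt_of_le_of_lt hk2 hA.1, hk3⟩
  | succ M ih =>
    intro ε m' j hj h1 hA
    obtain ⟨hP, h2, j', hj', hA'⟩ := hA
    obtain ⟨k, hk1, hk2, hk3⟩ := key ε m' j hj h1 h2
    obtain ⟨k', hk'1, hk'2, hk'3⟩ := ih (-ε) (j + 1) j' (by omega) (by linarith) hA'
    exact ⟨k, hk1, hk2, lt_of_le_of_lt hk2 hP, hk3, k', by omega, hk'3⟩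

theorem alt_freeze {K L : ℕ} {u : ℕ → ℝ} {ε₀ : ℝ} (hfr : ∀ m, K ≤ m → 0 < ε₀ * u m) :
    ∀ (M : ℕ) (ε : ℝ) (j : ℕ), Alt (fun j => j < L) u (M + 1) ε j → Alt (fun j => j < K) u M ε j := by
  have key : ∀ (ε : ℝ) (j j' : ℕ), j < j' → 0 < ε * u j → 0 < -ε * u j' → j < K := by
    intro ε j j' hj h1 h2
    by_contra hcon
    push Not at hcon
    have h3 := hfr j hcon
    have h4 := hfr j' (by omega)
    have h5 := mul_pos h1 h3
    have h6 := mul_pos h2 h4
    have h7 : 0 < ε * ε₀ := by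
      by_contra h0
      push Not at h0
      have : ε * u j * (ε₀ * u j) = (ε * ε₀) * (u j * u j) := by ring
      rw [this] at h5
      nlinarith [mul_self_nonneg (u j)]
    have h8 : -ε * u j' * (ε₀ * u j') = -(ε * ε₀) * (u j' * u j') := by ring
    rw [h8] at h6
    nlinarith [mul_self_nonneg (u j')]
  intro M
  induction M with
  | zero =>
    intro ε j hA
    obtain ⟨_, h1, j', hj', hA'⟩ := hA
    exact ⟨key ε j j' hj' h1 hA'.head.2, h1⟩
  | succ M ih =>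
    intro ε j hA
    obtain ⟨_, h1, j', hj', hA'⟩ := hA
    exact ⟨key ε j j' hj' h1 hA'.head.2, h1, j', hj', ih _ _ hA'⟩

/-- the counting function -/
noncomputable def gg (Z : Set ℕ) (q : ℕ) : ℤ := by
  classical
  exact (q : ℤ) - 2 * ((range q).filter (fun z => z ∈ Z)).card - (if q ∈ Z then 1 else 0)

theorem gg_zero_le {Z : Set ℕ} (q : ℕ) (hq : q ∉ Z) :
    gg Z q % 2 = (q : ℤ) % 2 := by
  classical
  unfold gg
  rw [if_neg hq]
  omega

theorem gg_succ {Z : Set ℕ} (hZ : ∀ z ∈ Z, Even z) (q : ℕ) : gg Z q ≤ gg Z (q + 1) := by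
  classical
  unfold gg
  rw [Finset.range_add_one, Finset.filter_insert]
  by_cases h1 : q ∈ Z
  · have h2 : q + 1 ∉ Z := by
      intro h
      have e1 := hZ q h1
      have e2 := hZ _ h
      rw [Nat.even_add_one] at e2
      exact e2 e1
    rw [if_pos h1, if_pos h1, if_neg h2, Finset.card_insert_of_notMem (by simp)]
    push_cast; omega
  · rw [if_neg h1, if_neg h1]
    split_ifs
    · push_cast; omega
    · push_cast; omega

theorem gg_mono {Z : Set ℕ} (hZ : ∀ z ∈ Z, Even z) : Monotone (gg Z) :=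
  monotone_nat_of_le_succ (gg_succ hZ)

theorem gg_lt {Z : Set ℕ} (hZ : ∀ z ∈ Z, Even z) {q q' : ℕ} (hq : q ∉ Z) (hq' : q' ∉ Z)
    (h : q ≤ q') (hpar : (q : ℤ) % 2 ≠ (q' : ℤ) % 2) : gg Z q + 1 ≤ gg Z q' := by
  have h1 := gg_mono hZ h
  have h2 := gg_zero_le q hq
  have h3 := gg_zero_le q' hq'
  rcases lt_or_eq_of_le h1 with h4 | h4
  · omega
  · exfalso
    rw [h4] at h2
    exact hpar (by rw [← h2, ← h3])

/-- sign of `(-1)^q` -/
theorem alt_count {K n m₀ : ℕ} {c : ℕ → ℝ} {Z : Set ℕ} (hZ : ∀ z ∈ Z, Even z)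
    (hc : ∀ k, k < K → c k ≠ 0 → (k + m₀) / n ∉ Z ∧ 0 < (-1 : ℝ) ^ ((k + m₀) / n) * c k) :
    ∀ (M : ℕ) (ε : ℝ) (k : ℕ), (ε = 1 ∨ ε = -1) → Alt (fun j => j < K) c M ε k →
      (M : ℤ) + gg Z ((k + m₀) / n) ≤ gg Z ((K + m₀) / n) := by
  intro M
  induction M with
  | zero =>
    intro ε k hε hA
    simp only [Nat.cast_zero, zero_add]
    apply gg_mono hZ
    apply Nat.div_le_div_right
    have := hA.1
    omega
  | succ M ih =>
    intro ε k hε hA
    obtain ⟨hP, h1, k', hk', hA'⟩ := hA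
    have h2 := ih (-ε) k' (by rcases hε with h | h <;> rw [h] <;> simp) hA'
    obtain ⟨hP', h3⟩ := hA'.head
    have hck : c k ≠ 0 := by intro h0; rw [h0, mul_zero] at h1; exact lt_irrefl _ h1
    have hck' : c k' ≠ 0 := by intro h0; rw [h0, mul_zero] at h3; exact lt_irrefl _ h3
    obtain ⟨hz, hs⟩ := hc k hP hck
    obtain ⟨hz', hs'⟩ := hc k' hP' hck'
    have hle : (k + m₀) / n ≤ (k' + m₀) / n := Nat.div_le_div_right (by omega)
    have hpar : (((k + m₀) / n : ℕ) : ℤ) % 2 ≠ (((k' + m₀) / n : ℕ) : ℤ) % 2 := by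
      intro h4
      have h5 : (-1 : ℝ) ^ ((k + m₀) / n) = (-1 : ℝ) ^ ((k' + m₀) / n) := by
        rcases Nat.even_or_odd ((k + m₀) / n) with he | he
        · have he' : Even ((k' + m₀) / n) := by
            rw [Nat.even_iff] at he ⊢; omega
          rw [he.neg_one_pow, he'.neg_one_pow]
        · have he' : Odd ((k' + m₀) / n) := by
            rw [Nat.odd_iff] at he ⊢; omega
          rw [he.neg_one_pow, he'.neg_one_pow]
      rw [← h5] at hs'
      -- signs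
      rcases neg_one_pow_eq_or ℝ ((k + m₀) / n) with h6 | h6 <;> rw [h6] at hs hs' <;>
        rcases hε with h7 | h7 <;> rw [h7] at h1 h3 <;> linarith
    have h4 := gg_lt hZ hz hz' hle hpar
    push_cast
    linarith

theorem abel (c : ℕ → ℝ) (y : ℝ) (L : ℕ) :
    (1 - y) * ∑ m ∈ range L, PS c (m + 1) * y ^ m = (∑ k ∈ range L, c k * y ^ k) - PS c L * y ^ L := by
  induction L with
  | zero => simp [PS]
  | succ L ih =>
    rw [Finset.sum_range_succ, mul_add, ih, Finset.sum_range_succ]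
    have : PS c (L + 1) = PS c L + c L := by unfold PS; rw [Finset.sum_range_succ]
    rw [this, pow_succ]
    ring

/-- final form: alternation of a power series versus the counting function -/
theorem series_count {K n m₀ : ℕ} {c : ℕ → ℝ} {Z : Set ℕ} (hZ : ∀ z ∈ Z, Even z)
    (hc : ∀ k, k < K → c k ≠ 0 → (k + m₀) / n ∉ Z ∧ 0 < (-1 : ℝ) ^ ((k + m₀) / n) * c k)
    (hsum : Summable c) {B : ℝ → ℝ}
    (hB : ∀ y : ℝ, 0 < y → y < 1 → HasSum (fun k => c k * y ^ k) (B y)) {ε₀ : ℝ}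
    (hfr : ∀ m, K ≤ m → 0 < ε₀ * PS c (m + 1)) (M : ℕ) {ε y : ℝ} (hε : ε = 1 ∨ ε = -1)
    (hA : Alt (fun x : ℝ => 0 < x ∧ x < 1) B (M + 1) ε y) :
    (M : ℤ) + gg Z 0 ≤ gg Z ((K + m₀) / n) := by
  have hlim : ∀ x : ℝ, (0 < x ∧ x < 1) → Filter.Tendsto
      (fun L : ℕ => (1 - x) * ∑ m ∈ range L, PS c (m + 1) * x ^ m) Filter.atTop (nhds (B x)) := by
    intro x hx
    have h1 := (hB x hx.1 hx.2).tendsto_sum_nat
    have h2 : Filter.Tendsto (fun L : ℕ => PS c L) Filter.atTop (nhds (∑' k, c k)) :=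
      hsum.hasSum.tendsto_sum_nat
    have h3 : Filter.Tendsto (fun L : ℕ => x ^ L) Filter.atTop (nhds 0) :=
      tendsto_pow_atTop_nhds_zero_of_lt_one hx.1.le hx.2
    have h4 := h1.sub (h2.mul h3)
    rw [mul_zero, sub_zero] at h4
    refine h4.congr ?_
    intro L
    rw [abel]
  have h1 := Alt.eventually (P := fun x : ℝ => 0 < x ∧ x < 1) (u := B)
    (v := fun (L : ℕ) x => (1 - x) * ∑ m ∈ range L, PS c (m + 1) * x ^ m) hlim (M + 1) ε y hA
  obtain ⟨L, hL⟩ := h1.exists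
  have hL2 : ∀ (M : ℕ) (ε y : ℝ), Alt (fun x : ℝ => 0 < x ∧ x < 1)
      (fun x => (1 - x) * ∑ m ∈ range L, PS c (m + 1) * x ^ m) M ε y →
      Alt (fun x : ℝ => 0 < x ∧ x < 1) (fun x => ∑ m ∈ range L, PS c (m + 1) * x ^ m) M ε y := by
    have key : ∀ (ε x : ℝ), (0 < x ∧ x < 1) → 0 < ε * ((1 - x) * ∑ m ∈ range L, PS c (m + 1) * x ^ m) →
        0 < ε * ∑ m ∈ range L, PS c (m + 1) * x ^ m := by
      intro ε x hx h
      have e : ε * ((1 - x) * ∑ m ∈ range L, PS c (m + 1) * x ^ m) =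
        (1 - x) * (ε * ∑ m ∈ range L, PS c (m + 1) * x ^ m) := by ring
      rw [e] at h
      exact (mul_pos_iff_of_pos_left (by linarith [hx.2])).mp h
    intro M
    induction M with
    | zero => intro ε y h; exact ⟨h.1, key ε y h.1 h.2⟩
    | succ M ih =>
      intro ε y h
      obtain ⟨h1, h2, y', hy', h3⟩ := h
      exact ⟨h1, key ε y h1 h2, y', hy', ih _ _ h3⟩
  have hL3 := hL2 _ _ _ hL
  obtain ⟨ε', hε', j, hj⟩ := descartes L (M + 1) (fun m => PS c (m + 1)) ε y hε hL3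
  have hj2 := alt_freeze hfr M ε' j hj
  obtain ⟨k, _, _, hk⟩ := alt_of_partial M ε' 0 j (by omega) (by simp [PS]) hj2
  have hfin := alt_count hZ hc M ε' k hε' hk
  have : gg Z 0 ≤ gg Z ((k + m₀) / n) := gg_mono hZ (Nat.zero_le _)
  linarith

end Pool.Agent.helper38.LacA
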