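import Pool.Agent.helper38.LacS

set_option autoImplicit false

namespace Pool.Agent.helper38.LacA

open Filter Topology Complex Metric Pool.Agent.helper38.NNF
open scoped ComplexOrder Nat ComplexConjugate

theorem disk_upper {T P : ℂ → ℂ} {A η ρ : ℝ} (hP : DifferentiableOn ℂ P (ball 0 1))
    (hre : ∀ ζ : ℂ, ‖ζ‖ < 1 → 0 ≤ (P ζ).re) (hA : 0 < A) (hη : 0 ≤ η) (hP0 : P 0 = A)
    (hspec : ∀ ζ : ℂ, ζ * (P ζ - 2 * η) = (1 - ζ ^ 2) * (T ζ - T 0)) (hρ : ρ < 1) {ζ : ℂ}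
    (hζ : ‖ζ‖ ≤ ρ) :
    ‖T ζ - T 0‖ ≤ ‖ζ‖ * ((A * (1 + ρ) / (1 - ρ) + 2 * η) / (1 - ρ ^ 2)) := by
  have hz0 := norm_nonneg ζ
  have hρ0 : 0 ≤ ρ := hz0.trans hζ
  have hlt : ‖ζ‖ < 1 := by linarith
  have h1 := schwarz_upper hP hre hA hP0 hlt
  have hρ1 : 0 < 1 - ρ := by linarith
  have h2 : ‖P ζ - A‖ ≤ 2 * A * ρ / (1 - ρ) := by
    rw [le_div_iff₀ hρ1]
    have e1 : ‖P ζ - A‖ * (1 - ρ) ≤ ‖P ζ - A‖ * (1 - ‖ζ‖) :=
      mul_le_mul_of_nonneg_left (by linarith) (norm_nonneg _)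
    have e2 : 2 * A * ‖ζ‖ ≤ 2 * A * ρ := mul_le_mul_of_nonneg_left hζ (by positivity)
    linarith
  have h3 : ‖P ζ - 2 * η‖ ≤ A * (1 + ρ) / (1 - ρ) + 2 * η := by
    have e : P ζ - 2 * η = (P ζ - A) + (A : ℂ) - ((2 * η : ℝ) : ℂ) := by push_cast; ring
    rw [e]
    refine (norm_sub_le _ _).trans ?_
    have e1 : ‖((2 * η : ℝ) : ℂ)‖ = 2 * η := by
      rw [Complex.norm_real, Real.norm_eq_abs, abs_of_nonneg (by positivity)]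
    have e2 := norm_add_le (P ζ - A) (A : ℂ)
    rw [Complex.norm_real, Real.norm_eq_abs, abs_of_pos hA] at e2
    have e3 : 2 * A * ρ / (1 - ρ) + A = A * (1 + ρ) / (1 - ρ) := by
      field_simp; ring
    rw [e1]; linarith
  have h4 : (1 - ρ ^ 2) ≤ ‖1 - ζ ^ 2‖ := by
    have e1 : ‖(1:ℂ)‖ - ‖ζ ^ 2‖ ≤ ‖1 - ζ ^ 2‖ := norm_sub_norm_le _ _
    rw [norm_one, norm_pow] at e1
    have e2 : ‖ζ‖ ^ 2 ≤ ρ ^ 2 := pow_le_pow_left₀ hz0 hζ 2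
    linarith
  have h5 : 0 < 1 - ρ ^ 2 := by nlinarith
  have h6 := congrArg norm (hspec ζ)
  rw [norm_mul, norm_mul] at h6
  rw [← mul_div_assoc, le_div_iff₀ h5]
  calc ‖T ζ - T 0‖ * (1 - ρ ^ 2) ≤ ‖T ζ - T 0‖ * ‖1 - ζ ^ 2‖ :=
        mul_le_mul_of_nonneg_left h4 (norm_nonneg _)
    _ = ‖ζ‖ * ‖P ζ - 2 * η‖ := by rw [h6]; ring
    _ ≤ _ := mul_le_mul_of_nonneg_left h3 hz0

theorem disk_taylor {T P : ℂ → ℂ} {A η : ℝ} (hP : DifferentiableOn ℂ P (ball 0 1))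
    (hre : ∀ ζ : ℂ, ‖ζ‖ < 1 → 0 ≤ (P ζ).re) (hA : 0 < A) (hη : 0 ≤ η) (hηA : 2 * η ≤ A)
    (hP0 : P 0 = A)
    (hspec : ∀ ζ : ℂ, ζ * (P ζ - 2 * η) = (1 - ζ ^ 2) * (T ζ - T 0)) {ζ : ℂ}
    (hζ : ‖ζ‖ ≤ 1 / 2) :
    ‖T ζ - T 0 - ζ * (A - 2 * η)‖ ≤ 6 * A * ‖ζ‖ ^ 2 := by
  have hz0 := norm_nonneg ζ
  have hlt : ‖ζ‖ < 1 := by linarith
  have h1 := schwarz_upper hP hre hA hP0 hlt
  have h2 : ‖P ζ - A‖ ≤ 4 * A * ‖ζ‖ := by
    have e1 : ‖P ζ - A‖ * (1 / 2) ≤ ‖P ζ - A‖ * (1 - ‖ζ‖) :=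
      mul_le_mul_of_nonneg_left (by linarith) (norm_nonneg _)
    linarith
  have h3 : (1 - ζ ^ 2) * (T ζ - T 0 - ζ * (A - 2 * η)) =
      ζ * ((P ζ - A) + ((A - 2 * η : ℝ) : ℂ) * ζ ^ 2) := by
    have := hspec ζ
    push_cast
    linear_combination -this
  have h4 : (3 / 4 : ℝ) ≤ ‖1 - ζ ^ 2‖ := by
    have e1 : ‖(1:ℂ)‖ - ‖ζ ^ 2‖ ≤ ‖1 - ζ ^ 2‖ := norm_sub_norm_le _ _
    rw [norm_one, norm_pow] at e1
    have e2 : ‖ζ‖ ^ 2 ≤ (1 / 2) ^ 2 := pow_le_pow_left₀ hz0 hζ 2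
    linarith
  have h5 : ‖(P ζ - A) + ((A - 2 * η : ℝ) : ℂ) * ζ ^ 2‖ ≤ 4 * A * ‖ζ‖ + A * ‖ζ‖ ^ 2 := by
    refine (norm_add_le _ _).trans ?_
    rw [norm_mul, norm_pow, Complex.norm_real, Real.norm_eq_abs, abs_of_nonneg (by linarith)]
    have : (A - 2 * η) * ‖ζ‖ ^ 2 ≤ A * ‖ζ‖ ^ 2 := by
      apply mul_le_mul_of_nonneg_right (by linarith) (by positivity)
    linarith
  have h6 := congrArg norm h3
  rw [norm_mul, norm_mul] at h6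
  have h7 : ‖T ζ - T 0 - ζ * (A - 2 * η)‖ * (3 / 4) ≤ ‖ζ‖ * (4 * A * ‖ζ‖ + A * ‖ζ‖ ^ 2) := by
    calc ‖T ζ - T 0 - ζ * (A - 2 * η)‖ * (3 / 4) ≤ ‖T ζ - T 0 - ζ * (A - 2 * η)‖ * ‖1 - ζ ^ 2‖ :=
          mul_le_mul_of_nonneg_left h4 (norm_nonneg _)
      _ = ‖ζ‖ * ‖(P ζ - A) + ((A - 2 * η : ℝ) : ℂ) * ζ ^ 2‖ := by rw [← h6]; ring
      _ ≤ _ := mul_le_mul_of_nonneg_left h5 hz0
  have h8 : ‖ζ‖ * (4 * A * ‖ζ‖ + A * ‖ζ‖ ^ 2) ≤ (9 / 2) * A * ‖ζ‖ ^ 2 := by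
    have : A * ‖ζ‖ ^ 2 * ‖ζ‖ ≤ A * ‖ζ‖ ^ 2 * (1 / 2) := mul_le_mul_of_nonneg_left hζ (by positivity)
    nlinarith
  linarith

theorem disk_lower {T P : ℂ → ℂ} {A η ρ : ℝ} (hP : DifferentiableOn ℂ P (ball 0 1))
    (hre : ∀ ζ : ℂ, ‖ζ‖ < 1 → 0 ≤ (P ζ).re) (hA : 0 < A) (hP0 : P 0 = A)
    (hspec : ∀ ζ : ℂ, ζ * (P ζ - 2 * η) = (1 - ζ ^ 2) * (T ζ - T 0)) (hT0 : (T 0).im = 0)
    (hρ0 : 0 ≤ ρ) (hρ : ρ < 1) :
    ρ / (1 + ρ ^ 2) * (A * (1 - ρ) / (1 + ρ) - 2 * η) ≤ (T (ρ * I)).im := by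
  have hn : ‖(ρ:ℂ) * I‖ = ρ := by
    rw [norm_mul, Complex.norm_I, mul_one, Complex.norm_real, Real.norm_eq_abs, abs_of_nonneg hρ0]
  have h1 := schwarz_lower hP hre hA hP0 (ζ := (ρ:ℂ) * I) (by rw [hn]; exact hρ)
  rw [hn] at h1
  have h2 : A * (1 - ρ) / (1 + ρ) ≤ (P (ρ * I)).re := by
    rw [div_le_iff₀ (by linarith)]; exact h1
  have h3 := hspec ((ρ:ℂ) * I)
  have h4 : (1 - ((ρ:ℂ) * I) ^ 2) = ((1 + ρ ^ 2 : ℝ) : ℂ) := by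
    rw [mul_pow, Complex.I_sq]; push_cast; ring
  rw [h4] at h3
  have h5 := congrArg Complex.im h3
  rw [Complex.im_ofReal_mul, Complex.sub_im, hT0, sub_zero] at h5
  have h6 : ((ρ:ℂ) * I * (P (ρ * I) - 2 * η)).im = ρ * ((P (ρ * I)).re - 2 * η) := by
    rw [mul_assoc, Complex.im_ofReal_mul]
    congr 1
    simp
  rw [h6] at h5
  have h7 : (T (ρ * I)).im = ρ * ((P (ρ * I)).re - 2 * η) / (1 + ρ ^ 2) := by
    rw [eq_div_iff (by positivity)]; linarith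
  rw [h7]
  have h8 : ρ / (1 + ρ ^ 2) * (A * (1 - ρ) / (1 + ρ) - 2 * η) ≤
      ρ / (1 + ρ ^ 2) * ((P (ρ * I)).re - 2 * η) := by
    apply mul_le_mul_of_nonneg_left (by linarith) (by positivity)
  calc _ ≤ _ := h8
    _ = _ := by ring

theorem KK_real {f : ℂ → ℂ} (hf : NN f) (s : ℝ) : (KK f (s:ℂ)).im = 0 := by
  have h := KK_conj hf (s:ℂ)
  rw [Complex.conj_ofReal] at h
  exact Complex.conj_eq_iff_im.mp h.symm

theorem Hyp.deriv_KK_real {f : ℂ → ℂ} {s₀ b c : ℝ} (h : Hyp f s₀ b c) {s : ℝ} (hs : s₀ < s) :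
    (deriv (KK f) (s:ℂ)).im = 0 := by
  have hd : HasDerivAt (KK f) (deriv (KK f) s) s :=
    (h.KK_differentiableAt (by simpa using hs) (by simpa using h.bpos)).hasDerivAt
  have h2 := hd.conj_conj
  have h3 : (conj ∘ KK f ∘ conj : ℂ → ℂ) = KK f := by
    funext z
    show conj (KK f (conj z)) = KK f z
    rw [KK_conj h.nn, Complex.conj_conj]
  rw [h3, Complex.conj_ofReal] at h2
  have h4 := h2.unique hd
  exact Complex.conj_eq_iff_im.mp h4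

/-- The positive harmonic transform of `K` in the disk around a real point. -/
theorem Hyp.disk {f : ℂ → ℂ} {s₀ b c : ℝ} (h : Hyp f s₀ b c) {β κ : ℝ} (hβ0 : 0 < β) (hβ : β < b)
    (hcβ : c * β < Real.pi) (hκ : 0 < κ) (hκβ : κ * β < Real.pi) {η : ℝ} (hη : 0 < η) :
    ∃ S : ℝ, s₀ + b + b + β ≤ S ∧ ∀ s : ℝ, S ≤ s → ∃ P : ℂ → ℂ, DifferentiableOn ℂ P (ball 0 1) ∧
      (∀ ζ : ℂ, ‖ζ‖ < 1 → 0 ≤ (P ζ).re) ∧
      P 0 = ((β * (deriv (KK f) s).re + 2 * η : ℝ) : ℂ) ∧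
      ∀ ζ : ℂ, ζ * (P ζ - 2 * η) = (1 - ζ ^ 2) * (KK f (s + β * ζ) - KK f (s + β * 0)) := by
  set τ : ℝ := min β ((b - β) / 2) with hτ
  have hτ0 : 0 < τ := by rw [hτ]; apply lt_min hβ0; linarith
  have hτb : τ < b - β := by
    have := min_le_right β ((b - β) / 2)
    rw [← hτ] at this; linarith
  obtain ⟨C, hC0, hC⟩ := h.im_KK_ge hβ hcβ hκ hκβ hτ0 (min_le_left _ _) hτb
  obtain ⟨S₁, hS₁⟩ : ∃ S₁ : ℝ, ∀ s : ℝ, S₁ ≤ s → C * Real.exp (-(κ * (s - β))) ≤ η := by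
    have h1 : Tendsto (fun s : ℝ => C * Real.exp (-(κ * (s - β)))) atTop (𝓝 (C * 0)) := by
      apply Tendsto.const_mul
      apply Real.tendsto_exp_atBot.comp
      apply tendsto_neg_atTop_atBot.comp
      apply Tendsto.const_mul_atTop hκ
      exact tendsto_atTop_add_const_right _ (-β) tendsto_id
    rw [mul_zero] at h1
    have h2 := h1.eventually (ge_mem_nhds hη)
    obtain ⟨S₁, h3⟩ := Filter.eventually_atTop.mp h2
    exact ⟨S₁, fun s hs => h3 s hs⟩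
  refine ⟨max (s₀ + b + b + β) S₁, le_max_left _ _, ?_⟩
  intro s hs
  have hs1 : s₀ + b + b + β ≤ s := (le_max_left _ _).trans hs
  have hs2 : C * Real.exp (-(κ * (s - β))) ≤ η := hS₁ s ((le_max_right _ _).trans hs)
  have hb := h.bpos
  set T : ℂ → ℂ := fun ζ => KK f (s + β * ζ) with hT
  set R : ℝ := b / β with hR
  have hR1 : 1 < R := by rw [hR, lt_div_iff₀ hβ0]; linarith
  have hmem : ∀ ζ : ℂ, ‖ζ‖ < R → s₀ < ((s:ℂ) + β * ζ).re ∧ |((s:ℂ) + β * ζ).im| < b := by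
    intro ζ hζ
    rw [hR, lt_div_iff₀ hβ0] at hζ
    have h1 := Complex.abs_re_le_norm ζ
    have h2 := Complex.abs_im_le_norm ζ
    rw [abs_le] at h1
    simp only [Complex.add_re, Complex.ofReal_re, Complex.re_ofReal_mul, Complex.add_im,
      Complex.ofReal_im, Complex.im_ofReal_mul, zero_add]
    constructor
    · nlinarith
    · rw [abs_mul, abs_of_pos hβ0]
      nlinarith
  have hTd : DifferentiableOn ℂ T (ball 0 R) := by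
    intro ζ hζ
    rw [mem_ball_zero_iff] at hζ
    obtain ⟨h1, h2⟩ := hmem ζ hζ
    have h3 := (h.KK_differentiableAt h1 h2)
    have h4 : DifferentiableAt ℂ (fun ζ : ℂ => (s:ℂ) + β * ζ) ζ := by fun_prop
    exact (DifferentiableAt.comp ζ h3 h4).differentiableWithinAt
  have hreal : (T 0).im = 0 := by
    simp only [hT, mul_zero, add_zero]
    exact KK_real h.nn s
  have hge : ∀ ζ : ℂ, ‖ζ‖ = 1 → 0 ≤ ζ.im → -η ≤ (T ζ).im := by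
    intro ζ hζ him
    have h1 := Complex.abs_re_le_norm ζ
    have h2 := Complex.abs_im_le_norm ζ
    rw [hζ, abs_le] at h1 h2
    have h3 := hC (s + β * ζ.re) (β * ζ.im) (by nlinarith) (by positivity) (by nlinarith)
    have h4 : ((s + β * ζ.re : ℝ) : ℂ) + ((β * ζ.im : ℝ) : ℂ) * I = s + β * ζ := by
      apply Complex.ext <;> simp
    rw [h4] at h3
    have h5 : C * Real.exp (-(κ * (s + β * ζ.re))) ≤ C * Real.exp (-(κ * (s - β))) := by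
      apply mul_le_mul_of_nonneg_left _ hC0
      apply Real.exp_le_exp.mpr
      nlinarith [mul_nonneg (mul_pos hκ hβ0).le (by linarith [h1.1] : (0:ℝ) ≤ 1 + ζ.re)]
    simp only [hT]
    linarith
  have hle : ∀ ζ : ℂ, ‖ζ‖ = 1 → ζ.im ≤ 0 → (T ζ).im ≤ η := by
    intro ζ hζ him
    have h1 := hge (conj ζ) (by rw [Complex.norm_conj]; exact hζ) (by simpa using him)
    have h2 : T (conj ζ) = conj (T ζ) := by
      simp only [hT]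
      rw [← KK_conj h.nn]
      congr 1
      rw [map_add, map_mul, Complex.conj_ofReal, Complex.conj_ofReal]
    rw [h2, Complex.conj_im] at h1
    linarith
  obtain ⟨P, hPd, hPre, hP0, hPs⟩ := ptrick hR1 hTd hreal hη.le hge hle
  refine ⟨P, hPd, hPre, ?_, hPs⟩
  rw [hP0]
  have hdT : deriv T 0 = β * deriv (KK f) s := by
    have h1 : HasDerivAt (KK f) (deriv (KK f) s) ((s:ℂ) + β * 0) := by
      rw [mul_zero, add_zero]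
      exact (h.KK_differentiableAt (by simp; linarith) (by simpa using hb)).hasDerivAt
    have h2 : HasDerivAt (fun ζ : ℂ => (s:ℂ) + β * ζ) (β * 1) 0 :=
      ((hasDerivAt_id (0:ℂ)).const_mul (β:ℂ)).const_add (s:ℂ)
    have h3 := h1.comp (0:ℂ) h2
    rw [mul_one] at h3
    have h4 := h3.deriv
    rw [mul_comm] at h4
    exact h4
  rw [hdT]
  have h5 := h.deriv_KK_real (s := s) (by linarith)
  have h6 : deriv (KK f) (s:ℂ) = ((deriv (KK f) (s:ℂ)).re : ℂ) := by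
    apply Complex.ext
    · simp
    · rw [h5]; simp
  rw [h6]
  push_cast
  simp

end Pool.Agent.helper38.LacA
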