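import Pool.Agent.helper38.LacGlue

set_option autoImplicit false

namespace Pool.Agent.helper38.Lac

open Filter Topology Complex Finset Pool.Agent.helper38.NNF Pool.Agent.helper38.LacA
open scoped ComplexOrder Nat

/-- partial products -/
noncomputable def PN (r : ℕ → ℝ) (N : ℕ) (z : ℂ) : ℂ := ∏ k ∈ range N, (1 + z / (r k : ℂ))

/-- the canonical product of genus zero -/
noncomputable def hh (r : ℕ → ℝ) (z : ℂ) : ℂ := ∏' k, (1 + z / (r k : ℂ))

theorem nn_PN {r : ℕ → ℝ} (hr : ∀ k, 0 < r k) (N : ℕ) : NN (PN r N) := by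
  induction N with
  | zero =>
    refine (NN.const (c := 1) zero_le_one).congr ?_
    intro z; simp [PN]
  | succ N ih =>
    refine (ih.mul (nn_linear (hr N))).congr ?_
    intro z; simp [PN, Finset.prod_range_succ]

theorem tc_PN_succ {r : ℕ → ℝ} (hr : ∀ k, 0 < r k) (N k : ℕ) :
    tc (PN r N) k ≤ tc (PN r (N + 1)) k ∧ tc (PN r N) k / (r N : ℂ) ≤ tc (PN r (N + 1)) (k + 1) := by
  have h1 : PN r (N + 1) = fun z => PN r N z + ((r N : ℂ)⁻¹) * (z ^ 1 * PN r N z) := by
    funext z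
    simp only [PN, Finset.prod_range_succ, pow_one]
    ring
  have hd := (nn_PN hr N).1
  have hrn : (0:ℂ) ≤ ((r N : ℂ)⁻¹) := by
    rw [← Complex.ofReal_inv]; exact_mod_cast (inv_pos.mpr (hr N)).le
  have key : ∀ j, tc (PN r (N + 1)) j = tc (PN r N) j +
      (r N : ℂ)⁻¹ * (if 1 ≤ j then tc (PN r N) (j - 1) else 0) := by
    intro j
    rw [h1, tc_add hd (by fun_prop), tc_const_mul, tc_pow_mul hd]
  constructor
  · rw [key]
    apply le_add_of_nonneg_right
    apply mul_nonneg hrn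
    split_ifs
    · exact (nn_PN hr N).2 _
    · exact le_rfl
  · rw [key, if_pos (by omega), Nat.add_sub_cancel, div_eq_mul_inv, mul_comm]
    exact le_add_of_nonneg_left ((nn_PN hr N).2 _)

theorem hh_tlu {r : ℕ → ℝ} (hr : ∀ k, 0 < r k) (hs : Summable (fun k => (r k)⁻¹)) :
    TendstoLocallyUniformlyOn (fun N z => PN r N z) (hh r) atTop Set.univ := by
  have h1 : HasProdLocallyUniformlyOn (fun (k : ℕ) (z : ℂ) => 1 + z / (r k : ℂ)) (hh r) Set.univ := by
    apply hasProdLocallyUniformlyOn_of_forall_compact isOpen_univ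
    intro K _ hK
    obtain ⟨R, hR⟩ := hK.isBounded.exists_norm_le
    apply Summable.hasProdUniformlyOn_nat_one_add (u := fun k => R * (r k)⁻¹) hK (hs.mul_left R)
    · refine Eventually.of_forall ?_
      intro k z hz
      rw [norm_div, Complex.norm_real, Real.norm_eq_abs, abs_of_pos (hr k), div_eq_mul_inv]
      exact mul_le_mul_of_nonneg_right (hR z hz) (inv_pos.mpr (hr k)).le
    · intro k
      fun_prop
  exact h1.tendstoLocallyUniformlyOn_finsetRange

theorem hh_differentiable {r : ℕ → ℝ} (hr : ∀ k, 0 < r k) (hs : Summable (fun k => (r k)⁻¹)) :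
    Differentiable ℂ (hh r) := by
  have := (hh_tlu hr hs).differentiableOn
    (Eventually.of_forall (fun j => (nn_PN hr j).1.differentiableOn)) isOpen_univ
  exact differentiableOn_univ.mp this

theorem tc_PN_pos {r : ℕ → ℝ} (hr : ∀ k, 0 < r k) (k : ℕ) : 0 < tc (PN r k) k := by
  induction k with
  | zero =>
    rw [tc_zero]; simp [PN]
  | succ k ih =>
    refine lt_of_lt_of_le ?_ (tc_PN_succ hr k k).2
    have h1 : (0:ℂ) < (r k : ℂ) := by exact_mod_cast hr k
    rw [div_eq_mul_inv]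
    apply mul_pos ih
    rw [← Complex.ofReal_inv]; exact_mod_cast inv_pos.mpr (hr k)

theorem tc_PN_le {r : ℕ → ℝ} (hr : ∀ k, 0 < r k) (hs : Summable (fun k => (r k)⁻¹)) (N k : ℕ) :
    tc (PN r N) k ≤ tc (hh r) k := by
  have h1 : Tendsto (fun j => tc (PN r j) k) atTop (𝓝 (tc (hh r) k)) :=
    tc_tendsto (fun j => (nn_PN hr j).1) (hh_tlu hr hs) k
  have hmono : Monotone (fun j => tc (PN r j) k) :=
    monotone_nat_of_le_succ (fun j => (tc_PN_succ hr j k).1)
  have h2 : ∀ᶠ j in atTop, tc (PN r N) k ≤ tc (PN r j) k := by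
    filter_upwards [eventually_ge_atTop N] with j hj
    exact hmono hj
  -- closedness of the order
  rw [Complex.le_def]
  have hre : Tendsto (fun j => (tc (PN r j) k).re) atTop (𝓝 (tc (hh r) k).re) :=
    (Complex.continuous_re.tendsto _).comp h1
  have him : Tendsto (fun j => (tc (PN r j) k).im) atTop (𝓝 (tc (hh r) k).im) :=
    (Complex.continuous_im.tendsto _).comp h1
  constructor
  · exact ge_of_tendsto hre (h2.mono (fun j hj => (Complex.le_def.mp hj).1))
  · have h3 : ∀ᶠ j in atTop, (tc (PN r j) k).im = (tc (PN r N) k).im :=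
      h2.mono (fun j hj => ((Complex.le_def.mp hj).2).symm)
    have h4 : Tendsto (fun j => (tc (PN r j) k).im) atTop (𝓝 (tc (PN r N) k).im) :=
      tendsto_const_nhds.congr' (h3.mono (fun j hj => hj.symm))
    exact tendsto_nhds_unique h4 him

theorem tc_hh_pos {r : ℕ → ℝ} (hr : ∀ k, 0 < r k) (hs : Summable (fun k => (r k)⁻¹)) (k : ℕ) :
    0 < tc (hh r) k := lt_of_lt_of_le (tc_PN_pos hr k) (tc_PN_le hr hs k k)

theorem nn_hh {r : ℕ → ℝ} (hr : ∀ k, 0 < r k) (hs : Summable (fun k => (r k)⁻¹)) : NN (hh r) :=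
  ⟨hh_differentiable hr hs, fun k => (tc_hh_pos hr hs k).le⟩

theorem hh_tendsto {r : ℕ → ℝ} (hr : ∀ k, 0 < r k) (hs : Summable (fun k => (r k)⁻¹)) (z : ℂ) :
    Tendsto (fun N => PN r N z) atTop (𝓝 (hh r z)) :=
  (hh_tlu hr hs).tendsto_at (Set.mem_univ z)

theorem hh_zero {r : ℕ → ℝ} (hr : ∀ k, 0 < r k) (hs : Summable (fun k => (r k)⁻¹)) (z : ℂ) :
    hh r z = 0 ↔ ∃ k, z = -(r k : ℂ) := by
  constructor
  · intro h0
    by_contra hcon
    push Not at hcon
    have hne : ∀ k, 1 + z / (r k : ℂ) ≠ 0 := by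
      intro k hk
      have hrk : (r k : ℂ) ≠ 0 := by exact_mod_cast (hr k).ne'
      apply hcon k
      have h1 : z / (r k : ℂ) = -1 := by linear_combination hk
      rw [div_eq_iff hrk] at h1
      rw [h1]; ring
    have hsum : Summable (fun k => ‖z / (r k : ℂ)‖) := by
      refine (hs.mul_left ‖z‖).congr ?_
      intro k
      rw [norm_div, Complex.norm_real, Real.norm_eq_abs, abs_of_pos (hr k), div_eq_mul_inv]
    exact tprod_one_add_ne_zero_of_summable hne hsum h0
  · rintro ⟨k, rfl⟩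
    have h1 := hh_tendsto hr hs (-(r k : ℂ))
    have h2 : ∀ᶠ N in atTop, PN r N (-(r k : ℂ)) = 0 := by
      filter_upwards [eventually_gt_atTop k] with N hN
      unfold PN
      apply Finset.prod_eq_zero (Finset.mem_range.mpr hN)
      have hrk : (r k : ℂ) ≠ 0 := by exact_mod_cast (hr k).ne'
      field_simp; ring
    exact tendsto_nhds_unique h1 (tendsto_const_nhds.congr' (h2.mono (fun _ h => h.symm)))

theorem val_PN {r : ℕ → ℝ} (N : ℕ) (x : ℝ) : val (PN r N) x = ∏ k ∈ range N, (1 + x / r k) := by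
  have h1 : PN r N (x:ℂ) = ((∏ k ∈ range N, (1 + x / r k) : ℝ) : ℂ) := by
    unfold PN; push_cast; rfl
  unfold NNF.val
  rw [h1, Complex.ofReal_re]

theorem val_hh_ge {r : ℕ → ℝ} (hr : ∀ k, 0 < r k) (hs : Summable (fun k => (r k)⁻¹)) {x : ℝ}
    (hx : 0 ≤ x) (N : ℕ) : ∏ k ∈ range N, (1 + x / r k) ≤ val (hh r) x := by
  rw [← val_PN]
  apply hasSum_le _ (hasSum_val (nn_PN hr N) x) (hasSum_val (nn_hh hr hs) x)
  intro k
  apply mul_le_mul_of_nonneg_right _ (pow_nonneg hx k)
  exact (Complex.le_def.mp (tc_PN_le hr hs N k)).1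

theorem log_one_add_le {x s : ℝ} (hx : 0 ≤ x) (hs0 : 0 < s) (hs1 : s ≤ 1) :
    Real.log (1 + x) ≤ x ^ s / s := by
  have h1 : (1 + x) ^ s ≤ 1 ^ s + x ^ s := Real.rpow_add_le_add_rpow zero_le_one hx hs0.le hs1
  rw [Real.one_rpow] at h1
  have h2 : Real.log ((1 + x) ^ s) ≤ x ^ s := by
    refine (Real.log_le_sub_one_of_pos (Real.rpow_pos_of_pos (by linarith) _)).trans ?_
    linarith
  rw [Real.log_rpow (by linarith)] at h2
  rw [le_div_iff₀ hs0]
  linarith

theorem val_hh_le {r : ℕ → ℝ} (hr : ∀ k, 0 < r k) (hs : Summable (fun k => (r k)⁻¹)) {x s : ℝ}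
    (hx : 0 ≤ x) (hs0 : 0 < s) (hs1 : s ≤ 1) (hsum : Summable (fun k => (r k) ^ (-s))) :
    val (hh r) x ≤ Real.exp (x ^ s / s * ∑' k, (r k) ^ (-s)) := by
  have h1 : Tendsto (fun N => val (PN r N) x) atTop (𝓝 (val (hh r) x)) := by
    exact (Complex.continuous_re.tendsto _).comp (hh_tendsto hr hs (x:ℂ))
  refine le_of_tendsto h1 (Eventually.of_forall ?_)
  intro N
  rw [val_PN]
  have hpos : ∀ k, 0 < 1 + x / r k := by
    intro k
    have : 0 ≤ x / r k := div_nonneg hx (hr k).le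
    linarith
  have h2 : ∏ k ∈ range N, (1 + x / r k) = Real.exp (∑ k ∈ range N, Real.log (1 + x / r k)) := by
    rw [Real.exp_sum]
    apply Finset.prod_congr rfl
    intro k _
    rw [Real.exp_log (hpos k)]
  rw [h2]
  apply Real.exp_le_exp.mpr
  calc ∑ k ∈ range N, Real.log (1 + x / r k) ≤ ∑ k ∈ range N, x ^ s / s * (r k) ^ (-s) := by
        apply Finset.sum_le_sum
        intro k _
        refine (log_one_add_le (div_nonneg hx (hr k).le) hs0 hs1).trans (le_of_eq ?_)
        rw [Real.div_rpow hx (hr k).le, Real.rpow_neg (hr k).le]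
        field_simp
    _ = x ^ s / s * ∑ k ∈ range N, (r k) ^ (-s) := by rw [Finset.mul_sum]
    _ ≤ _ := by
        apply mul_le_mul_of_nonneg_left _ (by positivity)
        exact hsum.sum_le_tsum _ (fun k _ => Real.rpow_nonneg (hr k).le _)

end Pool.Agent.helper38.Lac
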