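import Mathlib

set_option autoImplicit false

namespace Pool.Agent.helper38.LacA

open Filter Topology Complex Metric

/-- Phragmen-Lindelof principle in a half-strip -/
theorem half_strip {G : ℂ → ℂ} {s₁ ψ c B : ℝ} (hψ : 0 < ψ) (hc : 0 < c) (hcψ : c * ψ < Real.pi)
    (hd : ∀ w : ℂ, s₁ ≤ w.re → 0 ≤ w.im → w.im ≤ ψ → DifferentiableAt ℂ G w)
    (hleft : ∀ w : ℂ, w.re = s₁ → 0 ≤ w.im → w.im ≤ ψ → ‖G w‖ ≤ 1)
    (hbot : ∀ w : ℂ, s₁ ≤ w.re → w.im = 0 → ‖G w‖ ≤ 1)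
    (htop : ∀ w : ℂ, s₁ ≤ w.re → w.im = ψ → ‖G w‖ ≤ 1)
    (hgrow : ∀ w : ℂ, s₁ ≤ w.re → 0 ≤ w.im → w.im ≤ ψ → ‖G w‖ ≤ Real.exp (B * Real.exp (c * w.re)))
    {w : ℂ} (hw1 : s₁ ≤ w.re) (hw2 : 0 ≤ w.im) (hw3 : w.im ≤ ψ) : ‖G w‖ ≤ 1 := by
  -- choose c'
  obtain ⟨c', hc1, hc2⟩ : ∃ c', c < c' ∧ c' * ψ < Real.pi := by
    refine ⟨(c + Real.pi / ψ) / 2, ?_, ?_⟩
    · have : c < Real.pi / ψ := by rwa [lt_div_iff₀ hψ]
      linarith
    · have h1 : (c + Real.pi / ψ) / 2 * ψ = (c * ψ + Real.pi) / 2 := by field_simp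
      rw [h1]; linarith
  have hc'0 : 0 < c' := hc.trans hc1
  set κ : ℝ := Real.cos (c' * ψ / 2) with hκ
  have hκ0 : 0 < κ := by
    apply Real.cos_pos_of_mem_Ioo
    constructor
    · have : 0 < c' * ψ / 2 := by positivity
      linarith [Real.pi_pos]
    · linarith
  have hcos : ∀ θ : ℝ, 0 ≤ θ → θ ≤ ψ → κ ≤ Real.cos (c' * (θ - ψ / 2)) := by
    intro θ h1 h2
    rw [hκ, ← Real.cos_abs (c' * (θ - ψ / 2))]
    apply Real.cos_le_cos_of_nonneg_of_le_pi (abs_nonneg _)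
    · linarith [Real.pi_pos]
    · rw [abs_mul, abs_of_pos hc'0]
      have : |θ - ψ / 2| ≤ ψ / 2 := by rw [abs_le]; constructor <;> linarith
      calc c' * |θ - ψ / 2| ≤ c' * (ψ / 2) := mul_le_mul_of_nonneg_left this hc'0.le
        _ = c' * ψ / 2 := by ring
  set Ψ : ℂ → ℂ := fun w => Complex.exp (c' * (w - (ψ / 2 : ℝ) * I)) with hΨ
  have hΨre : ∀ w : ℂ, (Ψ w).re = Real.exp (c' * w.re) * Real.cos (c' * (w.im - ψ / 2)) := by
    intro w
    simp only [hΨ]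
    rw [Complex.exp_re]
    congr 1
    · congr 1
      simp
    · congr 1
      simp
  have hΨd : Differentiable ℂ Ψ := by simp only [hΨ]; fun_prop
  -- for each ε
  have key : ∀ ε : ℝ, 0 < ε → ‖G w * Complex.exp (-(ε:ℂ) * Ψ w)‖ ≤ 1 := by
    intro ε hε
    set Gε : ℂ → ℂ := fun w => G w * Complex.exp (-(ε:ℂ) * Ψ w) with hGε
    have hnorm : ∀ w : ℂ, ‖Gε w‖ = ‖G w‖ * Real.exp (-(ε * (Ψ w).re)) := by
      intro w
      simp only [hGε]
      rw [norm_mul, Complex.norm_exp]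
      congr 2
      rw [neg_mul, Complex.neg_re, Complex.re_ofReal_mul]
    have hΨpos : ∀ w : ℂ, 0 ≤ w.im → w.im ≤ ψ → κ * Real.exp (c' * w.re) ≤ (Ψ w).re := by
      intro w h1 h2
      rw [hΨre, mul_comm]
      exact mul_le_mul_of_nonneg_left (hcos w.im h1 h2) (Real.exp_pos _).le
    have hle : ∀ w : ℂ, 0 ≤ w.im → w.im ≤ ψ → ‖G w‖ ≤ 1 → ‖Gε w‖ ≤ 1 := by
      intro w h1 h2 h3
      rw [hnorm]
      have h4 : Real.exp (-(ε * (Ψ w).re)) ≤ 1 := by
        rw [Real.exp_le_one_iff]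
        have := hΨpos w h1 h2
        have h5 : 0 < κ * Real.exp (c' * w.re) := by positivity
        have : 0 ≤ ε * (Ψ w).re := by
          apply mul_nonneg hε.le; linarith
        linarith
      calc ‖G w‖ * Real.exp (-(ε * (Ψ w).re)) ≤ 1 * 1 :=
            mul_le_mul h3 h4 (Real.exp_pos _).le zero_le_one
        _ = 1 := one_mul 1
    -- far right
    have htend : Tendsto (fun s : ℝ => Real.exp ((c' - c) * s)) atTop atTop := by
      apply Real.tendsto_exp_atTop.comp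
      exact tendsto_id.const_mul_atTop (by linarith)
    obtain ⟨T₀, hT₀⟩ := eventually_atTop.mp (htend.eventually_ge_atTop (B / (ε * κ)))
    have hfar : ∀ w : ℂ, s₁ ≤ w.re → T₀ ≤ w.re → 0 ≤ w.im → w.im ≤ ψ → ‖Gε w‖ ≤ 1 := by
      intro w h0 h1 h2 h3
      rw [hnorm]
      have h4 := hgrow w h0 h2 h3
      have h5 := hΨpos w h2 h3
      have h6 := hT₀ w.re h1
      rw [div_le_iff₀ (by positivity)] at h6
      have h7 : B * Real.exp (c * w.re) ≤ ε * (κ * Real.exp (c' * w.re)) := by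
        have e1 : Real.exp (c' * w.re) = Real.exp ((c' - c) * w.re) * Real.exp (c * w.re) := by
          rw [← Real.exp_add]; congr 1; ring
        rw [e1]
        have := mul_le_mul_of_nonneg_right h6 (Real.exp_pos (c * w.re)).le
        linarith
      calc ‖G w‖ * Real.exp (-(ε * (Ψ w).re))
          ≤ Real.exp (B * Real.exp (c * w.re)) * Real.exp (-(ε * (κ * Real.exp (c' * w.re)))) := by
            apply mul_le_mul h4 _ (Real.exp_pos _).le (Real.exp_pos _).le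
            apply Real.exp_le_exp.mpr
            have := mul_le_mul_of_nonneg_left h5 hε.le
            linarith
        _ = Real.exp (B * Real.exp (c * w.re) + -(ε * (κ * Real.exp (c' * w.re)))) := by
            rw [Real.exp_add]
        _ ≤ 1 := by rw [Real.exp_le_one_iff]; linarith
    -- rectangle
    set T : ℝ := max T₀ (w.re) + 1 + |s₁| with hT
    have hTw : w.re < T := by
      have := le_max_right T₀ w.re
      have := abs_nonneg s₁
      linarith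
    have hTT : T₀ ≤ T := by
      have := le_max_left T₀ w.re
      have := abs_nonneg s₁
      linarith
    have hTs : s₁ < T := by linarith
    set U : Set ℂ := Set.Ioo s₁ T ×ℂ Set.Ioo 0 ψ with hU
    have hUb : Bornology.IsBounded U := by
      apply Bornology.IsBounded.reProdIm <;> exact isBounded_Ioo _ _
    have hUcl : closure U = Set.Icc s₁ T ×ℂ Set.Icc 0 ψ := by
      rw [hU, Complex.closure_reProdIm, closure_Ioo hTs.ne, closure_Ioo hψ.ne]
    have hdc : DiffContOnCl ℂ Gε U := by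
      apply DifferentiableOn.diffContOnCl
      rw [hUcl]
      intro z hz
      rw [Complex.mem_reProdIm] at hz
      apply DifferentiableAt.differentiableWithinAt
      have h1 := hd z hz.1.1 hz.2.1 hz.2.2
      have h2 := hΨd z
      simp only [hGε]
      fun_prop
    have hfr : ∀ z ∈ frontier U, ‖Gε z‖ ≤ 1 := by
      intro z hz
      rw [hU, Complex.frontier_reProdIm, closure_Ioo hTs.ne, closure_Ioo hψ.ne, frontier_Ioo hTs,
        frontier_Ioo hψ] at hz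
      rcases hz with hz | hz
      · rw [Complex.mem_reProdIm] at hz
        rcases hz.2 with h | h
        · exact hle z (by rw [h]) (by rw [h]; exact hψ.le) (hbot z hz.1.1 h)
        · have h : z.im = ψ := h
          exact hle z (by rw [h]; exact hψ.le) (by rw [h]) (htop z hz.1.1 h)
      · rw [Complex.mem_reProdIm] at hz
        rcases hz.1 with h | h
        · have h : z.re = s₁ := h
          exact hle z hz.2.1 hz.2.2 (hleft z h hz.2.1 hz.2.2)
        · have h : z.re = T := h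
          exact hfar z (by rw [h]; exact hTs.le) (by rw [h]; exact hTT) hz.2.1 hz.2.2
    have hwU : w ∈ closure U := by
      rw [hUcl, Complex.mem_reProdIm]
      exact ⟨⟨hw1, hTw.le⟩, ⟨hw2, hw3⟩⟩
    exact Complex.norm_le_of_forall_mem_frontier_norm_le hUb hdc hfr hwU
  -- limit ε → 0
  have hlim : Tendsto (fun ε : ℝ => ‖G w * Complex.exp (-(ε:ℂ) * Ψ w)‖) (𝓝[>] 0) (𝓝 ‖G w‖) := by
    have h1 : Continuous (fun ε : ℝ => ‖G w * Complex.exp (-(ε:ℂ) * Ψ w)‖) := by fun_prop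
    have h2 := h1.tendsto 0
    simp only [Complex.ofReal_zero, neg_zero, zero_mul, Complex.exp_zero, mul_one] at h2
    exact h2.mono_left nhdsWithin_le_nhds
  apply le_of_tendsto hlim
  filter_upwards [self_mem_nhdsWithin] with ε hε
  exact key ε hε

/-- analytic functions with nonnegative real part on the unit circle -/
theorem re_nonneg_of_circle {P : ℂ → ℂ} (hP : DiffContOnCl ℂ P (ball 0 1))
    (h : ∀ ζ : ℂ, ‖ζ‖ = 1 → 0 ≤ (P ζ).re) {ζ : ℂ} (hζ : ‖ζ‖ ≤ 1) : 0 ≤ (P ζ).re := by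
  have h1 : DiffContOnCl ℂ (fun z => Complex.exp (-(P z))) (ball 0 1) :=
    Complex.differentiable_exp.comp_diffContOnCl hP.neg
  have h2 : ‖Complex.exp (-(P ζ))‖ ≤ 1 := by
    apply Complex.norm_le_of_forall_mem_frontier_norm_le isBounded_ball h1 (C := 1)
    · intro z hz
      rw [frontier_ball _ one_ne_zero, mem_sphere_zero_iff_norm] at hz
      rw [Complex.norm_exp, Complex.neg_re, Real.exp_le_one_iff]
      have := h z hz
      linarith
    · rw [closure_ball _ one_ne_zero, mem_closedBall_zero_iff]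
      exact hζ
  rw [Complex.norm_exp, Complex.neg_re, Real.exp_le_one_iff] at h2
  linarith

/-- Bounds for functions of nonnegative real part -/
theorem schwarz_re {P : ℂ → ℂ} (hP : DifferentiableOn ℂ P (ball 0 1))
    (h : ∀ ζ : ℂ, ‖ζ‖ < 1 → 0 ≤ (P ζ).re) {A : ℝ} (hA : 0 < A) (hPA : P 0 = A) {ζ : ℂ}
    (hζ : ‖ζ‖ < 1) : ‖P ζ - A‖ ≤ ‖ζ‖ * ‖P ζ + A‖ := by
  set W : ℂ → ℂ := fun z => (P z - A) / (P z + A) with hW
  have hne : ∀ z : ℂ, ‖z‖ < 1 → P z + A ≠ 0 := by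
    intro z hz h0
    have h1 := h z hz
    have h2 := congrArg Complex.re h0
    simp at h2
    linarith
  have hWd : DifferentiableOn ℂ W (ball 0 1) := by
    apply (hP.sub_const _).div (hP.add_const _)
    intro z hz
    rw [mem_ball_zero_iff] at hz
    exact hne z hz
  have hW0 : W 0 = 0 := by simp only [hW]; rw [hPA]; simp
  have hmaps : Set.MapsTo W (ball 0 1) (closedBall (W 0) 1) := by
    intro z hz
    rw [mem_ball_zero_iff] at hz
    rw [hW0, mem_closedBall_zero_iff]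
    simp only [hW]
    rw [norm_div, div_le_one (norm_pos_iff.mpr (hne z hz))]
    have h1 := h z hz
    rw [← sq_le_sq₀ (norm_nonneg _) (norm_nonneg _), Complex.sq_norm, Complex.sq_norm,
      Complex.normSq_apply, Complex.normSq_apply]
    simp only [Complex.sub_re, Complex.ofReal_re, Complex.sub_im, Complex.ofReal_im, sub_zero,
      Complex.add_re, Complex.add_im, add_zero]
    nlinarith
  have h1 := Complex.dist_le_div_mul_dist_of_mapsTo_ball hWd hmaps
    (show ζ ∈ ball 0 1 by rw [mem_ball_zero_iff]; exact hζ)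
  rw [hW0, dist_zero_right, dist_zero_right, div_one, one_mul] at h1
  simp only [hW] at h1
  rw [norm_div, div_le_iff₀ (norm_pos_iff.mpr (hne ζ hζ))] at h1
  exact h1

theorem schwarz_upper {P : ℂ → ℂ} (hP : DifferentiableOn ℂ P (ball 0 1))
    (h : ∀ ζ : ℂ, ‖ζ‖ < 1 → 0 ≤ (P ζ).re) {A : ℝ} (hA : 0 < A) (hPA : P 0 = A) {ζ : ℂ}
    (hζ : ‖ζ‖ < 1) : ‖P ζ - A‖ * (1 - ‖ζ‖) ≤ 2 * A * ‖ζ‖ := by
  have h1 := schwarz_re hP h hA hPA hζ
  have h2 : ‖P ζ + A‖ ≤ ‖P ζ - A‖ + 2 * A := by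
    have e : P ζ + A = (P ζ - A) + ((2 * A : ℝ) : ℂ) := by push_cast; ring
    rw [e]
    refine (norm_add_le _ _).trans ?_
    rw [Complex.norm_real, Real.norm_eq_abs, abs_of_pos (by positivity)]
  have h3 := mul_le_mul_of_nonneg_left h2 (norm_nonneg ζ)
  nlinarith

theorem schwarz_lower {P : ℂ → ℂ} (hP : DifferentiableOn ℂ P (ball 0 1))
    (h : ∀ ζ : ℂ, ‖ζ‖ < 1 → 0 ≤ (P ζ).re) {A : ℝ} (hA : 0 < A) (hPA : P 0 = A) {ζ : ℂ}
    (hζ : ‖ζ‖ < 1) : A * (1 - ‖ζ‖) ≤ (P ζ).re * (1 + ‖ζ‖) := by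
  have h1 := schwarz_re hP h hA hPA hζ
  have h0 := h ζ hζ
  have h2 : ‖P ζ - A‖ ^ 2 ≤ ‖ζ‖ ^ 2 * ‖P ζ + A‖ ^ 2 := by
    rw [← mul_pow]
    exact pow_le_pow_left₀ (norm_nonneg _) h1 2
  rw [Complex.sq_norm, Complex.sq_norm (P ζ + A), Complex.normSq_apply, Complex.normSq_apply] at h2
  simp only [Complex.sub_re, Complex.ofReal_re, Complex.sub_im, Complex.ofReal_im, sub_zero,
      Complex.add_re, Complex.add_im, add_zero] at h2
  have hz0 := norm_nonneg ζ
  have h3 : ((P ζ).re - A) ^ 2 ≤ (‖ζ‖ * ((P ζ).re + A)) ^ 2 := by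
    have h4 : ‖ζ‖ ^ 2 * ((P ζ).im * (P ζ).im) ≤ (P ζ).im * (P ζ).im := by
      have : ‖ζ‖ ^ 2 ≤ 1 := pow_le_one₀ hz0 hζ.le
      nlinarith [mul_self_nonneg (P ζ).im]
    nlinarith
  have h5 := abs_le_of_sq_le_sq h3 (by positivity)
  rw [abs_le] at h5
  have h6 := h5.1
  nlinarith

/-- the typically real transform -/
theorem ptrick {T : ℂ → ℂ} {R : ℝ} (hR : 1 < R) (hT : DifferentiableOn ℂ T (ball 0 R))
    (hreal : (T 0).im = 0) {η : ℝ} (hη : 0 ≤ η)
    (hup : ∀ ζ : ℂ, ‖ζ‖ = 1 → 0 ≤ ζ.im → -η ≤ (T ζ).im)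
    (hdown : ∀ ζ : ℂ, ‖ζ‖ = 1 → ζ.im ≤ 0 → (T ζ).im ≤ η) :
    ∃ P : ℂ → ℂ, DifferentiableOn ℂ P (ball 0 1) ∧ (∀ ζ : ℂ, ‖ζ‖ < 1 → 0 ≤ (P ζ).re) ∧
      P 0 = deriv T 0 + 2 * η ∧
      ∀ ζ : ℂ, ζ * (P ζ - 2 * η) = (1 - ζ ^ 2) * (T ζ - T 0) := by
  have hball : ball (0:ℂ) R ∈ 𝓝 (0:ℂ) := ball_mem_nhds _ (by linarith)
  have hds : DifferentiableOn ℂ (dslope T 0) (ball 0 R) :=
    (Complex.differentiableOn_dslope hball).mpr hT
  set P : ℂ → ℂ := fun ζ => (1 - ζ ^ 2) * dslope T 0 ζ + 2 * η with hP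
  have hPd : DifferentiableOn ℂ P (ball 0 R) := by
    simp only [hP]
    fun_prop
  have hspec : ∀ ζ : ℂ, ζ * (P ζ - 2 * η) = (1 - ζ ^ 2) * (T ζ - T 0) := by
    intro ζ
    have h1 := sub_smul_dslope T 0 ζ
    rw [sub_zero, smul_eq_mul] at h1
    simp only [hP]
    rw [← h1]; ring
  have hcl : closedBall (0:ℂ) 1 ⊆ ball 0 R := closedBall_subset_ball hR
  have hPdc : DiffContOnCl ℂ P (ball 0 1) := by
    apply DifferentiableOn.diffContOnCl
    rw [closure_ball _ one_ne_zero]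
    exact hPd.mono hcl
  have hcirc : ∀ ζ : ℂ, ‖ζ‖ = 1 → 0 ≤ (P ζ).re := by
    intro ζ hζ
    have hζ0 : ζ ≠ 0 := by rw [← norm_pos_iff, hζ]; exact one_pos
    have hconj : (starRingEnd ℂ) ζ * ζ = 1 := by
      rw [mul_comm, Complex.mul_conj, Complex.normSq_eq_norm_sq, hζ]; simp
    -- P ζ = (conj ζ - ζ) (T ζ - T 0) + 2 η
    have h1 : P ζ = ((starRingEnd ℂ) ζ - ζ) * (T ζ - T 0) + 2 * η := by
      have h2 : ζ * (P ζ - 2 * η) = ζ * (((starRingEnd ℂ) ζ - ζ) * (T ζ - T 0)) := by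
        rw [hspec ζ]
        have : (1 - ζ ^ 2) = ζ * ((starRingEnd ℂ) ζ - ζ) := by
          rw [mul_sub, mul_comm ζ ((starRingEnd ℂ) ζ), hconj]; ring
        rw [this]; ring
      have h3 := mul_left_cancel₀ hζ0 h2
      rw [← h3]; ring
    have h4 : (P ζ).re = 2 * ζ.im * (T ζ).im + 2 * η := by
      rw [h1]
      simp only [Complex.add_re, Complex.mul_re, Complex.sub_re, Complex.conj_re, Complex.sub_im,
        Complex.conj_im, Complex.ofReal_re, Complex.ofReal_im, Complex.re_ofNat, Complex.im_ofNat,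
        hreal]
      ring
    rw [h4]
    have him : |ζ.im| ≤ 1 := by rw [← hζ]; exact Complex.abs_im_le_norm ζ
    rw [abs_le] at him
    rcases le_total 0 ζ.im with h | h
    · have := hup ζ hζ h
      nlinarith
    · have := hdown ζ hζ h
      nlinarith
  refine ⟨P, hPd.mono (ball_subset_ball hR.le), ?_, ?_, hspec⟩
  · intro ζ hζ
    exact re_nonneg_of_circle hPdc hcirc hζ.le
  · simp only [hP]
    rw [dslope_same]; ring

end Pool.Agent.helper38.LacA
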