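import Pool.Agent.helper38.NNFun2
import Pool.Agent.helper38.LacPL

set_option autoImplicit false

namespace Pool.Agent.helper38.LacA

open Filter Topology Complex Metric Pool.Agent.helper38.NNF
open scoped ComplexOrder Nat ComplexConjugate

/-- the function in logarithmic coordinates -/
noncomputable def FF (f : ℂ → ℂ) (w : ℂ) : ℂ := f (Complex.exp w)

/-- its values on the real axis -/
noncomputable def VV (f : ℂ → ℂ) (s : ℝ) : ℝ := val f (Real.exp s)

/-- logarithmic derivative -/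
noncomputable def KK (f : ℂ → ℂ) (w : ℂ) : ℂ := deriv (FF f) w / FF f w

structure Hyp (f : ℂ → ℂ) (s₀ b c : ℝ) : Prop where
  nn : NN f
  one_le : ∀ s : ℝ, s₀ ≤ s → 1 ≤ VV f s
  bpos : 0 < b
  bpi : b ≤ Real.pi
  cpos : 0 < c
  zf : ∀ w : ℂ, s₀ < w.re → |w.im| < b → FF f w ≠ 0
  grow : ∀ s : ℝ, s₀ ≤ s → Real.log (VV f s) ≤ Real.exp (c * s)

theorem FF_differentiable {f : ℂ → ℂ} (hf : NN f) : Differentiable ℂ (FF f) :=
  hf.1.comp Complex.differentiable_exp

theorem conj_f {f : ℂ → ℂ} (hf : NN f) (z : ℂ) : f (conj z) = conj (f z) := by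
  have h1 := hasSum_tc hf.1 (conj z)
  have h2 := (hasSum_tc hf.1 z).mapL (Complex.conjCLE : ℂ →L[ℝ] ℂ)
  apply h1.unique
  refine h2.congr_fun ?_ |> fun h => h
  intro k
  show tc f k * (conj z) ^ k = conj (tc f k * z ^ k)
  rw [map_mul, map_pow]
  congr 1
  rw [tc_re hf k, Complex.conj_ofReal]

theorem FF_conj {f : ℂ → ℂ} (hf : NN f) (w : ℂ) : FF f (conj w) = conj (FF f w) := by
  unfold FF
  rw [Complex.exp_conj, conj_f hf]

theorem FF_real {f : ℂ → ℂ} (hf : NN f) (s : ℝ) : FF f (s : ℂ) = (VV f s : ℂ) := by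
  unfold FF VV
  rw [← Complex.ofReal_exp, val_eq hf]

theorem norm_FF_le {f : ℂ → ℂ} (hf : NN f) (w : ℂ) : ‖FF f w‖ ≤ VV f w.re := by
  unfold FF VV
  have h := norm_le_val hf (Complex.exp w)
  rwa [Complex.norm_exp] at h

theorem VV_mono {f : ℂ → ℂ} (hf : NN f) {s t : ℝ} (h : s ≤ t) : VV f s ≤ VV f t :=
  val_mono hf (Real.exp_pos _).le (Real.exp_le_exp.mpr h)

theorem KK_conj {f : ℂ → ℂ} (hf : NN f) (w : ℂ) : KK f (conj w) = conj (KK f w) := by
  unfold KK
  rw [map_div₀, FF_conj hf]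
  congr 1
  have h1 : HasDerivAt (FF f) (deriv (FF f) w) w := (FF_differentiable hf w).hasDerivAt
  have h2 := h1.conj_conj
  have h3 : (conj ∘ FF f ∘ conj : ℂ → ℂ) = FF f := by
    funext z
    show conj (FF f (conj z)) = FF f z
    rw [FF_conj hf, Complex.conj_conj]
  rw [h3] at h2
  exact h2.deriv

theorem Hyp.ball_strip {f : ℂ → ℂ} {s₀ b c : ℝ} (h : Hyp f s₀ b c) {s : ℝ} (hs : s₀ + b ≤ s) {w : ℂ}
    (hw : w ∈ ball (s : ℂ) b) : s₀ < w.re ∧ |w.im| < b := by
  rw [mem_ball, dist_eq_norm] at hw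
  constructor
  · have h1 := (Complex.abs_re_le_norm (w - s)).trans_lt hw
    simp only [Complex.sub_re, Complex.ofReal_re] at h1
    rw [abs_lt] at h1
    linarith
  · have h1 := (Complex.abs_im_le_norm (w - s)).trans_lt hw
    simpa using h1

theorem Hyp.KK_differentiableAt {f : ℂ → ℂ} {s₀ b c : ℝ} (h : Hyp f s₀ b c) {w : ℂ}
    (h1 : s₀ < w.re) (h2 : |w.im| < b) : DifferentiableAt ℂ (KK f) w := by
  unfold KK
  have hd := FF_differentiable h.nn
  have hd2 : Differentiable ℂ (deriv (FF f)) := hd.deriv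
  exact (hd2 w).div (hd w) (h.zf w h1 h2)

theorem Hyp.lift {f : ℂ → ℂ} {s₀ b c : ℝ} (h : Hyp f s₀ b c) {s : ℝ} (hs : s₀ + b ≤ s) :
    ∃ Λ : ℂ → ℂ, Λ s = (Real.log (VV f s) : ℂ) ∧
      (∀ w ∈ ball (s : ℂ) b, HasDerivAt Λ (KK f w) w) ∧
      (∀ w ∈ ball (s : ℂ) b, Complex.exp (Λ w) = FF f w) ∧
      (∀ w ∈ ball (s : ℂ) b, Λ (conj w) = conj (Λ w)) := by
  have hb := h.bpos
  have hKd : DifferentiableOn ℂ (KK f) (ball (s:ℂ) b) := by
    intro w hw
    obtain ⟨h1, h2⟩ := h.ball_strip hs hw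
    exact (h.KK_differentiableAt h1 h2).differentiableWithinAt
  obtain ⟨Λ, h0, hΛ⟩ := hKd.isExactOn_ball.with_val_at (s:ℂ) (Real.log (VV f s) : ℂ)
  have hsb : (s:ℂ) ∈ ball (s:ℂ) b := mem_ball_self hb
  have hpc : IsPreconnected (ball (s:ℂ) b) := (convex_ball (s:ℂ) b).isPreconnected
  refine ⟨Λ, h0, hΛ, ?_, ?_⟩
  · intro w hw
    have hq : ∀ z ∈ ball (s:ℂ) b, HasDerivAt (fun z => FF f z * Complex.exp (-(Λ z))) 0 z := by
      intro z hz
      have hne := h.zf z (h.ball_strip hs hz).1 (h.ball_strip hs hz).2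
      have h1 := (FF_differentiable h.nn z).hasDerivAt
      have h2 := (hΛ z hz).fun_neg.cexp
      have h3 := h1.fun_mul h2
      have h4 : deriv (FF f) z * Complex.exp (-(Λ z)) + FF f z * (Complex.exp (-(Λ z)) * -(KK f z)) = 0 := by
        unfold KK
        field_simp
        ring
      rw [h4] at h3
      exact h3
    have h5 : FF f w * Complex.exp (-(Λ w)) = FF f s * Complex.exp (-(Λ s)) := by
      apply isOpen_ball.is_const_of_deriv_eq_zero hpc
        (f := fun z => FF f z * Complex.exp (-(Λ z)))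
        (fun z hz => (hq z hz).differentiableAt.differentiableWithinAt)
        (fun z hz => (hq z hz).deriv) hw hsb
    have hV : 0 < VV f s := lt_of_lt_of_le one_pos (h.one_le s (by linarith))
    have h6 : FF f s * Complex.exp (-(Λ s)) = 1 := by
      rw [h0, FF_real h.nn, ← Complex.ofReal_neg, ← Complex.ofReal_exp, Real.exp_neg,
        Real.exp_log hV, ← Complex.ofReal_mul, mul_inv_cancel₀ hV.ne', Complex.ofReal_one]
    rw [h6, Complex.exp_neg] at h5
    field_simp at h5
    exact h5.symm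
  · intro w hw
    have hcb : ∀ z ∈ ball (s:ℂ) b, conj z ∈ ball (s:ℂ) b := by
      intro z hz
      rw [mem_ball, dist_eq_norm] at hz ⊢
      have : conj z - (s:ℂ) = conj (z - (s:ℂ)) := by rw [map_sub, Complex.conj_ofReal]
      rw [this, Complex.norm_conj]; exact hz
    have hq : ∀ z ∈ ball (s:ℂ) b, HasDerivAt (fun z => Λ z - conj (Λ (conj z))) 0 z := by
      intro z hz
      have h1 := hΛ z hz
      have h2 := (hΛ (conj z) (hcb z hz)).conj_conj
      rw [Complex.conj_conj, KK_conj h.nn, Complex.conj_conj] at h2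
      have h3 := h1.fun_sub h2
      rw [sub_self] at h3
      exact h3
    have h5 : Λ w - conj (Λ (conj w)) = Λ s - conj (Λ (conj (s:ℂ))) := by
      apply isOpen_ball.is_const_of_deriv_eq_zero hpc
        (f := fun z => Λ z - conj (Λ (conj z)))
        (fun z hz => (hq z hz).differentiableAt.differentiableWithinAt)
        (fun z hz => (hq z hz).deriv) hw hsb
    rw [Complex.conj_ofReal, h0, Complex.conj_ofReal, sub_self, sub_eq_zero] at h5
    rw [h5, Complex.conj_conj]

/-- Borel-Caratheodory bound: lower bound for `F`. -/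
theorem Hyp.lower {f : ℂ → ℂ} {s₀ b c : ℝ} (h : Hyp f s₀ b c) {b' : ℝ} (hb' : b' < b) :
    ∃ B : ℝ, 0 < B ∧ ∀ w : ℂ, s₀ + b ≤ w.re → |w.im| ≤ b' →
      Real.exp (-(B * Real.exp (c * w.re))) ≤ ‖FF f w‖ := by
  have hb := h.bpos
  have hc := h.cpos
  rcases lt_or_ge b' 0 with hneg | hb'0
  · refine ⟨1, one_pos, fun w _ h2 => ?_⟩
    have := abs_nonneg w.im
    linarith
  set E : ℝ := Real.exp (c * b) with hE
  set B : ℝ := 2 * E * b / (b - b') + (b + b) / (b - b') with hB
  have hbb : 0 < b - b' := by linarith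
  have hE0 : 0 < E := Real.exp_pos _
  refine ⟨B, by positivity, ?_⟩
  intro w hw1 hw2
  set s : ℝ := w.re with hs
  obtain ⟨Λ, h0, hΛ, hexp, _⟩ := h.lift hw1
  set g : ℂ → ℂ := fun z => Λ (s + z) with hg
  have hmemb : ∀ z ∈ ball (0:ℂ) b, (s:ℂ) + z ∈ ball (s:ℂ) b := by
    intro z hz
    rw [mem_ball_zero_iff] at hz
    rw [mem_ball, dist_eq_norm]
    simpa using hz
  have hgd : DifferentiableOn ℂ g (ball 0 b) := by
    intro z hz
    have h1 := (hΛ _ (hmemb z hz))
    have h2 : HasDerivAt (fun z : ℂ => (s:ℂ) + z) 1 z := by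
      simpa using (hasDerivAt_id z).const_add (s:ℂ)
    exact (h1.comp z h2).differentiableAt.differentiableWithinAt
  set M : ℝ := E * Real.exp (c * s) with hM
  have hM0 : 0 < M := by positivity
  have hmaps : Set.MapsTo g (ball 0 b) {z | z.re ≤ M} := by
    intro z hz
    have hz' := hmemb z hz
    have hz2 := h.ball_strip hw1 hz'
    have h1 : ‖Complex.exp (g z)‖ = ‖FF f (s + z)‖ := by simp only [hg]; rw [hexp _ hz']
    rw [Complex.norm_exp] at h1
    have h2 := norm_FF_le h.nn ((s:ℂ) + z)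
    have h3 : ((s:ℂ) + z).re ≤ s + b := by
      rw [mem_ball_zero_iff] at hz
      have := (Complex.re_le_norm z)
      simp only [Complex.add_re, Complex.ofReal_re]
      linarith
    have h4 := VV_mono h.nn h3
    have h5 : Real.exp (g z).re ≤ VV f (s + b) := by rw [h1]; exact h2.trans h4
    have h6 : (g z).re ≤ Real.log (VV f (s + b)) := by
      rw [← Real.log_exp (g z).re]
      exact Real.log_le_log (Real.exp_pos _) h5
    have h7 := h.grow (s + b) (by linarith)
    show (g z).re ≤ M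
    have h8 : Real.exp (c * (s + b)) = M := by
      rw [hM, hE, ← Real.exp_add]; congr 1; ring
    linarith
  have hzb : ((w.im : ℂ) * I) ∈ ball (0:ℂ) b := by
    rw [mem_ball_zero_iff, norm_mul, Complex.norm_I, mul_one, Complex.norm_real, Real.norm_eq_abs]
    linarith
  have hbc := Complex.borelCaratheodory hM0 hgd hmaps hb hzb
  have hwz : (s:ℂ) + (w.im : ℂ) * I = w := by rw [hs]; exact Complex.re_add_im w
  have hnormz : ‖((w.im : ℂ) * I)‖ = |w.im| := by
    rw [norm_mul, Complex.norm_I, mul_one, Complex.norm_real, Real.norm_eq_abs]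
  have hg0 : ‖g 0‖ ≤ Real.exp (c * s) := by
    simp only [hg, add_zero]
    rw [h0, Complex.norm_real, Real.norm_eq_abs, abs_of_nonneg
      (Real.log_nonneg (h.one_le s (by linarith)))]
    exact h.grow s (by linarith)
  rw [hnormz] at hbc
  have hgw : ‖g ((w.im : ℂ) * I)‖ ≤ B * Real.exp (c * s) := by
    refine hbc.trans ?_
    have hd1 : b - b' ≤ b - |w.im| := by linarith
    have e1 : 2 * M * |w.im| / (b - |w.im|) ≤ 2 * M * b / (b - b') := by
      apply div_le_div₀ (by positivity) _ hbb hd1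
      apply mul_le_mul_of_nonneg_left _ (by positivity)
      linarith
    have e2 : ‖g 0‖ * (b + |w.im|) / (b - |w.im|) ≤ Real.exp (c * s) * (b + b) / (b - b') := by
      apply div_le_div₀ (by positivity) _ hbb hd1
      apply mul_le_mul hg0 (by linarith) (by positivity) (Real.exp_pos _).le
    have e3 : 2 * M * b / (b - b') + Real.exp (c * s) * (b + b) / (b - b') = B * Real.exp (c * s) := by
      rw [hB, hM]; ring
    linarith
  have hfin : ‖FF f w‖ = Real.exp (g ((w.im : ℂ) * I)).re := by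
    rw [← Complex.norm_exp]
    simp only [hg]
    rw [hexp _ (hmemb _ hzb), hwz]
  rw [hfin]
  apply Real.exp_le_exp.mpr
  have h1 := (Complex.abs_re_le_norm (g ((w.im : ℂ) * I))).trans hgw
  rw [abs_le] at h1
  linarith [h1.1]

end Pool.Agent.helper38.LacA
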