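import Pool.Agent.helper38.LacContra
import Pool.Agent.helper38.LacFinal

set_option autoImplicit false

namespace Pool.Agent.helper38.Lac

open Filter Topology Complex Pool.Agent.helper38.NNF Pool.Agent.helper38.LacA
open scoped ComplexOrder Nat

theorem differentiable_of_hasSum {F : ℂ → ℂ} {c : ℕ → ℂ}
    (h : ∀ z, HasSum (fun k => c k * z ^ k) (F z)) : Differentiable ℂ F := by
  have hps : HasFPowerSeriesOnBall F (FormalMultilinearSeries.ofScalars ℂ c) 0 ⊤ := by
    refine ⟨?_, by simp, ?_⟩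
    · rw [top_le_iff, FormalMultilinearSeries.radius_eq_top_iff_summable_norm]
      intro r
      have h1 := (h (r:ℂ)).summable.norm
      refine h1.congr (fun n => ?_)
      rw [FormalMultilinearSeries.ofScalars_norm, norm_mul, norm_pow]
      simp
    · intro y _
      have h1 := h y
      rw [zero_add]
      refine h1.congr_fun ?_ |> fun h => h
      intro n
      rw [FormalMultilinearSeries.ofScalars_apply_eq]
      simp [smul_eq_mul]
  intro z
  exact (hps.differentiableOn z (by simp)).differentiableAt (by simp)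

/-- Taylor coefficients of a lacunary series -/
theorem IsLac.tc {f : ℂ → ℂ} {a : ℕ → ℝ} {ν : ℕ → ℕ} (h : IsLac f a ν) :
    NN f ∧ (∀ j, tc f (ν j) = (a j : ℂ)) ∧ ∀ k, k ∉ Set.range ν → NNF.tc f k = 0 := by
  classical
  obtain ⟨hmono, hpos, hsum⟩ := h
  set c : ℕ → ℂ := fun k => if hk : ∃ j, ν j = k then (a hk.choose : ℂ) else 0 with hc
  have hcν : ∀ j, c (ν j) = (a j : ℂ) := by
    intro j
    have hk : ∃ i, ν i = ν j := ⟨j, rfl⟩
    simp only [hc]
    rw [dif_pos hk, hmono.injective hk.choose_spec]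
  have hc0 : ∀ k, k ∉ Set.range ν → c k = 0 := by
    intro k hk
    simp only [hc]
    rw [dif_neg]
    rintro ⟨j, hj⟩
    exact hk ⟨j, hj⟩
  have hsum2 : ∀ z : ℂ, HasSum (fun k => c k * z ^ k) (f z) := by
    intro z
    rw [← hmono.injective.hasSum_iff]
    · refine (hsum z).congr_fun ?_ |> fun h => h
      intro j
      simp only [Function.comp]
      rw [hcν]
    · intro k hk
      rw [hc0 k hk, zero_mul]
  have htc := fun k => tc_unique hsum2 k
  refine ⟨⟨differentiable_of_hasSum hsum2, ?_⟩, ?_, ?_⟩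
  · intro k
    rw [htc]
    by_cases hk : k ∈ Set.range ν
    · obtain ⟨j, rfl⟩ := hk
      rw [hcν]
      exact_mod_cast (hpos j).le
    · rw [hc0 k hk]
  · intro j; rw [htc, hcν]
  · intro k hk; rw [htc, hc0 k hk]

theorem delta_le_of_order_lt {n : ℕ} (hn : 2 ≤ n) {f : ℂ → ℂ} (hf : f ∈ G n)
    (hord : order f < ((n : ℝ) : EReal)) : delta f ≤ Real.pi / n := by
  by_contra hcon
  push Not at hcon
  obtain ⟨hzinf, a, ν, hlac, hgapn⟩ := hf
  obtain ⟨hNN, hta, ht0⟩ := hlac.tc
  have hmono := hlac.1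
  have hpi := Real.pi_pos
  have hn0 : (0:ℝ) < n := by exact_mod_cast (by omega : 0 < n)
  -- infinitely many coefficients
  have hinf2 : {k : ℕ | tc f k ≠ 0}.Infinite := by
    apply (Set.infinite_range_of_injective hmono.injective).mono
    rintro k ⟨j, rfl⟩
    show tc f (ν j) ≠ 0
    rw [hta]
    exact_mod_cast (hlac.2.1 j).ne'
  -- infinitely many gaps
  have hfreq : ∃ᶠ j in atTop, n ≤ ν (j + 1) - ν j := by
    have h1 : ((n - 1 : ℕ) : ℕ∞) < limsup (fun k => ((ν (k + 1) - ν k : ℕ) : ℕ∞)) atTop := by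
      have : limsup (fun k => ((ν (k + 1) - ν k : ℕ) : ℕ∞)) atTop = (n : ℕ∞) := hgapn
      rw [this]
      exact_mod_cast (by omega : n - 1 < n)
    have h2 := frequently_lt_of_lt_limsup (by isBoundedDefault) h1
    refine h2.mono (fun j hj => ?_)
    have : n - 1 < ν (j + 1) - ν j := by exact_mod_cast hj
    omega
  have hinf : {N : ℕ | ∀ k, N < k → k < N + n → tc f k = 0}.Infinite := by
    have h1 : {j : ℕ | n ≤ ν (j + 1) - ν j}.Infinite := Nat.frequently_atTop_iff_infinite.mp hfreq
    have h2 : (ν '' {j : ℕ | n ≤ ν (j + 1) - ν j}).Infinite :=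
      h1.image (hmono.injective.injOn)
    apply h2.mono
    rintro N ⟨j, hj, rfl⟩ k hk1 hk2
    apply ht0
    rintro ⟨i, rfl⟩
    have hj' : n ≤ ν (j + 1) - ν j := hj
    have h3 : j < i := hmono.lt_iff_lt.mp hk1
    have h4 : i < j + 1 := hmono.lt_iff_lt.mp (by omega)
    omega
  -- choice of parameters
  obtain ⟨c', hc'1, hc'2⟩ := EReal.lt_iff_exists_real_btwn.mp hord
  have hc'n : c' < n := by exact_mod_cast hc'2
  set c : ℝ := max c' (n / 2) with hc
  have hcn : c < n := max_lt hc'n (by linarith)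
  have hc0 : 0 < c := lt_of_lt_of_le (by positivity) (le_max_right _ _)
  have hordc : order f < (c : EReal) := hc'1.trans_le (by exact_mod_cast le_max_left _ _)
  obtain ⟨b, hb1, hb2⟩ := exists_between hcon
  have hbpi : b ≤ Real.pi := hb2.le.trans (delta_le_pi hzinf)
  have hb0 : 0 < b := lt_trans (by positivity) hb1
  have hmin : Real.pi / n < min b (Real.pi / c) := by
    apply lt_min hb1
    exact div_lt_div_of_pos_left hpi hc0 hcn
  obtain ⟨β, hβ1, hβ2⟩ := exists_between hmin
  have hβb : β < b := hβ2.trans_le (min_le_left _ _)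
  have hcβ : c * β < Real.pi := by
    have h1 : β < Real.pi / c := hβ2.trans_le (min_le_right _ _)
    rw [lt_div_iff₀ hc0] at h1
    linarith
  -- zeros
  have hev : ∀ᶠ z : {z : ℂ // f z = 0} in cofinite, b < |Complex.arg z| := by
    exact eventually_lt_of_lt_liminf (hb2.trans_le le_rfl)
      (isBoundedUnder_of ⟨0, fun z => abs_nonneg _⟩)
  obtain ⟨R, hR⟩ : ∃ R : ℝ, ∀ z : ℂ, f z = 0 → |Complex.arg z| ≤ b → ‖z‖ ≤ R := by
    rw [Filter.eventually_cofinite] at hev
    have h1 : ((fun z : {z : ℂ // f z = 0} => ‖(z:ℂ)‖) '' {z | ¬ b < |Complex.arg (z:ℂ)|}).Finite :=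
      hev.image _
    obtain ⟨R, hR⟩ := h1.bddAbove
    refine ⟨R, fun z hz hz2 => hR ⟨⟨z, hz⟩, not_lt.mpr hz2, rfl⟩⟩
  -- growth
  have hgrow : ∀ᶠ r : ℝ in atTop, Real.log (val f r) ≤ r ^ c := by
    have h1 : ∀ᶠ r : ℝ in atTop,
        ((Real.log (Real.log (maxMod f r)) / Real.log r : ℝ) : EReal) < (c : EReal) :=
      eventually_lt_of_limsup_lt hordc (by isBoundedDefault)
    filter_upwards [h1, eventually_gt_atTop (1:ℝ)] with r hr hr1
    have hr2 : Real.log (Real.log (maxMod f r)) / Real.log r < c := by exact_mod_cast hr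
    have hlr : 0 < Real.log r := Real.log_pos hr1
    rw [div_lt_iff₀ hlr] at hr2
    have hrc : 0 ≤ r ^ c := Real.rpow_nonneg (by linarith) _
    rcases le_or_gt (Real.log (val f r)) 0 with h0 | h0
    · linarith
    · have hval0 : 0 ≤ val f r := val_nonneg hNN (by linarith)
      have hvalpos : 0 < val f r := by
        rcases hval0.eq_or_lt with h2 | h2
        · rw [← h2, Real.log_zero] at h0; exact absurd h0 (lt_irrefl _)
        · exact h2
      have h2 : Real.log (val f r) ≤ Real.log (maxMod f r) :=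
        Real.log_le_log hvalpos (val_le_maxMod hNN (by linarith))
      have h3 : 0 < Real.log (maxMod f r) := lt_of_lt_of_le h0 h2
      refine h2.trans ?_
      rw [← Real.log_rpow (by linarith)] at hr2
      exact ((Real.log_lt_log_iff h3 (Real.rpow_pos_of_pos (by linarith) _)).mp hr2).le
  obtain ⟨R₂, hR₂⟩ := Filter.eventually_atTop.mp hgrow
  -- lower bound one
  obtain ⟨R₃, hR₃⟩ : ∃ R₃ : ℝ, 0 < R₃ ∧ 1 ≤ val f R₃ := by
    obtain ⟨k, hk1, hk2⟩ := hinf2.exists_gt 0
    have hak : 0 < (tc f k).re := by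
      apply lt_of_le_of_ne (tc_re_nonneg hNN k)
      intro h0
      apply hk1
      rw [tc_re hNN k, ← h0, Complex.ofReal_zero]
    refine ⟨max 1 (1 / (tc f k).re), lt_of_lt_of_le one_pos (le_max_left _ _), ?_⟩
    refine le_trans ?_ (coef_le_val hNN (le_trans zero_le_one (le_max_left _ _)) k)
    have h1 : max 1 (1 / (tc f k).re) ≤ (max 1 (1 / (tc f k).re)) ^ k :=
      le_self_pow₀ (le_max_left _ _) (by omega)
    have h2 : 1 / (tc f k).re ≤ (max 1 (1 / (tc f k).re)) ^ k := (le_max_right _ _).trans h1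
    rw [div_le_iff₀ hak] at h2
    linarith
  set R₄ : ℝ := max (max R R₂) (max R₃ 1) with hR₄
  have hR₄0 : 0 < R₄ := lt_of_lt_of_le one_pos ((le_max_right _ _).trans (le_max_right _ _))
  have hexp : ∀ s : ℝ, Real.log R₄ ≤ s → R₄ ≤ Real.exp s := by
    intro s hs
    rw [← Real.exp_log hR₄0]; exact Real.exp_le_exp.mpr hs
  have hyp : Hyp f (Real.log R₄) b c := by
    refine ⟨hNN, ?_, hb0, hbpi, hc0, ?_, ?_⟩
    · intro s hs
      refine hR₃.2.trans (val_mono hNN hR₃.1.le ?_)
      exact ((le_max_left _ _).trans (le_max_right _ _)).trans (hexp s hs)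
    · intro w hw1 hw2 h0
      have h1 : R₄ < ‖Complex.exp w‖ := by
        rw [Complex.norm_exp, ← Real.exp_log hR₄0]
        exact Real.exp_lt_exp.mpr hw1
      have harg : Complex.arg (Complex.exp w) = w.im := by
        rw [Complex.exp_eq_exp_re_mul_sin_add_cos]
        rw [abs_lt] at hw2
        have h2 : Complex.exp w.re * (Complex.cos w.im + Complex.sin w.im * I) =
            ((Real.exp w.re : ℝ) : ℂ) * (Complex.cos (w.im : ℂ) + Complex.sin (w.im : ℂ) * I) := by
          rw [Complex.ofReal_exp]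
        rw [h2]
        apply Complex.arg_mul_cos_add_sin_mul_I (Real.exp_pos _)
        exact ⟨by linarith, by linarith⟩
      have h3 := hR (Complex.exp w) h0 (by rw [harg]; exact hw2.le)
      have h4 : R ≤ R₄ := (le_max_left _ _).trans (le_max_left _ _)
      linarith
    · intro s hs
      have h1 := hR₂ (Real.exp s) (((le_max_right _ _).trans (le_max_left _ _)).trans (hexp s hs))
      have h2 : Real.exp (c * s) = Real.exp s ^ c := by
        rw [← Real.exp_mul]; congr 1; ring
      rw [h2]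
      exact h1
  exact hyp.contra hβb hcβ hn hβ1 hinf hinf2

end Pool.Agent.helper38.Lac
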