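import Pool.Agent.helper38.LacB3
import Pool.Agent.helper38.LacCount

set_option autoImplicit false

namespace Pool.Agent.helper38.LacA

open Filter Topology Complex Metric Pool.Agent.helper38.NNF MeasureTheory
open scoped ComplexOrder Nat ComplexConjugate

theorem Hyp.good_gap {f : ℂ → ℂ} {s₀ b c : ℝ} (h : Hyp f s₀ b c) {β : ℝ} (hβ : β < b)
    (hcβ : c * β < Real.pi) {n : ℕ} (hn : 2 ≤ n) (hnβ : Real.pi / n < β) :
    ∃ ρ₁ C₁ c₂ S : ℝ, Real.pi / n < ρ₁ ∧ ρ₁ < b ∧ 0 < C₁ ∧ 0 < c₂ ∧ s₀ + b + b ≤ S ∧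
      ∀ s : ℝ, S ≤ s → ∀ N : ℕ, (∀ k, N < k → k < N + n → tc f k = 0) →
      (KK f (s:ℂ)).re = N + n / 2 →
      (∀ w : ℂ, ‖w - s‖ ≤ ρ₁ → ‖KK f w - ((N + n / 2 : ℝ) : ℂ)‖ ≤ C₁) ∧
      c₂ ≤ (KK f (s + (Real.pi / n : ℝ) * I)).im := by
  have hpi := Real.pi_pos
  have hn0 : (0:ℝ) < n := by exact_mod_cast (by omega : 0 < n)
  have hn2 : (2:ℝ) ≤ n := by exact_mod_cast hn
  set ph : ℝ := Real.pi / n with hph
  have hph0 : 0 < ph := by positivity
  have hβ0 : 0 < β := hph0.trans hnβ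
  have hκβ : 1 * β < Real.pi := by rw [one_mul]; exact hβ.trans_le h.bpi
  have hb := h.bpos
  set ρ : ℝ := ph / β with hρ
  have hρ0 : 0 < ρ := by positivity
  have hρ1 : ρ < 1 := by rw [hρ, div_lt_one hβ0]; exact hnβ
  set ρ' : ℝ := (ph + β) / 2 / β with hρ'
  have hρ'0 : 0 < ρ' := by positivity
  have hρ'1 : ρ' < 1 := by rw [hρ', div_lt_one hβ0]; linarith
  set c₀ : ℝ := β * (1 - ρ) / (1 + ρ) with hc₀
  have hc₀0 : 0 < c₀ := by
    rw [hc₀]; apply div_pos (mul_pos hβ0 (by linarith)) (by linarith)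
  obtain ⟨S₁, hS₁, hdisk⟩ := h.disk hβ0 hβ hcβ one_pos hκβ (η := c₀ / 4) (by positivity)
  obtain ⟨S₂, Bm, hBm⟩ := h.b_bounded hβ hcβ hn hnβ
  set η : ℝ := c₀ / 4 with hη
  have hη0 : 0 < η := by positivity
  set Am : ℝ := β * max Bm 0 + 2 * η with hAm
  have hAm0 : 0 < Am := by
    have : 0 ≤ max Bm 0 := le_max_right _ _
    positivity
  have hρ'2 : 0 < 1 - ρ' ^ 2 := by nlinarith
  set C₁ : ℝ := (Am * (1 + ρ') / (1 - ρ') + 2 * η) / (1 - ρ' ^ 2) with hC₁
  have hC₁0 : 0 < C₁ := by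
    rw [hC₁]
    apply div_pos _ hρ'2
    have : 0 < Am * (1 + ρ') / (1 - ρ') := div_pos (by positivity) (by linarith)
    linarith
  set c₂ : ℝ := ρ / (1 + ρ ^ 2) * (c₀ / 2) with hc₂
  have hc₂0 : 0 < c₂ := by positivity
  refine ⟨(ph + β) / 2, C₁, c₂, max S₁ S₂, by linarith, by linarith, hC₁0, hc₂0, ?_, ?_⟩
  · have := le_max_left S₁ S₂; linarith
  intro s hs N hgap hK
  have hs1 : S₁ ≤ s := (le_max_left _ _).trans hs
  have hs2 : S₂ ≤ s := (le_max_right _ _).trans hs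
  obtain ⟨P, hPd, hPre, hP0, hPs⟩ := hdisk s hs1
  have hB := hBm s hs2 N hgap hK
  have hvar := h.variance (s := s) (by linarith) hgap
  rw [hK] at hvar
  have hB1 : 1 ≤ (deriv (KK f) (s:ℂ)).re := by nlinarith
  set B : ℝ := (deriv (KK f) (s:ℂ)).re with hBdef
  set A : ℝ := β * B + 2 * η with hA
  have hA0 : 0 < A := by positivity
  have hAle : A ≤ Am := by
    rw [hA, hAm]
    have : B ≤ max Bm 0 := hB.trans (le_max_left _ _)
    nlinarith
  have hKs : KK f (s:ℂ) = ((N + n / 2 : ℝ) : ℂ) := by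
    apply Complex.ext
    · rw [hK, Complex.ofReal_re]
    · rw [KK_real h.nn s, Complex.ofReal_im]
  constructor
  · intro w hw
    have hz : ‖(w - s) / β‖ ≤ ρ' := by
      rw [norm_div, Complex.norm_real, Real.norm_eq_abs, abs_of_pos hβ0, hρ']
      exact div_le_div_of_nonneg_right hw hβ0.le
    have h1 := disk_upper (T := fun ζ => KK f (s + β * ζ)) hPd hPre hA0 hη0.le hP0 hPs hρ'1 hz
    simp only [mul_zero, add_zero] at h1
    have e1 : (s:ℂ) + β * ((w - s) / β) = w := by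
      have : (β:ℂ) ≠ 0 := by exact_mod_cast hβ0.ne'
      field_simp; ring
    rw [e1, hKs] at h1
    refine h1.trans ?_
    have h2 : (A * (1 + ρ') / (1 - ρ') + 2 * η) / (1 - ρ' ^ 2) ≤ C₁ := by
      rw [hC₁]
      apply div_le_div_of_nonneg_right _ hρ'2.le
      have : A * (1 + ρ') / (1 - ρ') ≤ Am * (1 + ρ') / (1 - ρ') := by
        apply div_le_div_of_nonneg_right _ (by linarith)
        exact mul_le_mul_of_nonneg_right hAle (by linarith)
      linarith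
    have h3 : 0 ≤ (A * (1 + ρ') / (1 - ρ') + 2 * η) / (1 - ρ' ^ 2) := by
      apply div_nonneg _ hρ'2.le
      have : 0 ≤ A * (1 + ρ') / (1 - ρ') := div_nonneg (by positivity) (by linarith)
      linarith
    calc _ ≤ 1 * ((A * (1 + ρ') / (1 - ρ') + 2 * η) / (1 - ρ' ^ 2)) :=
          mul_le_mul_of_nonneg_right (hz.trans hρ'1.le) h3
      _ ≤ C₁ := by rw [one_mul]; exact h2
  · have h1 := disk_lower (T := fun ζ => KK f (s + β * ζ)) hPd hPre hA0 hP0 hPs
      (by simp only [mul_zero, add_zero]; exact KK_real h.nn s) hρ0.le hρ1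
    have e1 : (β:ℂ) * ((ρ:ℂ) * I) = ((ph:ℝ):ℂ) * I := by
      rw [hρ]; push_cast
      have : (β:ℂ) ≠ 0 := by exact_mod_cast hβ0.ne'
      field_simp
    rw [e1] at h1
    refine le_trans ?_ h1
    rw [hc₂]
    apply mul_le_mul_of_nonneg_left _ (by positivity)
    have h2 : c₀ ≤ A * (1 - ρ) / (1 + ρ) := by
      rw [hc₀]
      apply div_le_div_of_nonneg_right _ (by linarith)
      apply mul_le_mul_of_nonneg_right _ (by linarith)
      rw [hA]; nlinarith
    rw [hη]; linarith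

end Pool.Agent.helper38.LacA
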