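import Pool.Agent.helper38.LacGood

set_option autoImplicit false

namespace Pool.Agent.helper38.LacA

open Filter Topology Complex Metric Pool.Agent.helper38.NNF MeasureTheory Set
open scoped ComplexOrder Nat ComplexConjugate

theorem Hyp.KK_cont_line {f : ℂ → ℂ} {s₀ b c : ℝ} (h : Hyp f s₀ b c) {ph : ℝ} (hph0 : 0 ≤ ph)
    (hph : ph < b) : ContinuousOn (fun t : ℝ => KK f (t + ph * I)) (Ioi s₀) := by
  intro t ht
  have h1 : ContinuousAt (KK f) ((t:ℂ) + ph * I) :=
    (h.KK_differentiableAt (by simpa using ht) (by simpa [abs_of_nonneg hph0] using hph)).continuousAt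
  have h2 : ContinuousAt (fun t : ℝ => (t:ℂ) + ph * I) t := by fun_prop
  exact (ContinuousAt.comp (f := fun t : ℝ => (t:ℂ) + ph * I) h1 h2).continuousWithinAt

theorem Hyp.phase {f : ℂ → ℂ} {s₀ b c : ℝ} (h : Hyp f s₀ b c) {s₁ ph : ℝ} (hs₁ : s₀ < s₁)
    (hph0 : 0 < ph) (hph : ph < b) :
    ∃ (v : ℝ → ℝ) (C : ℝ), (∀ σ, s₀ < σ → HasDerivAt v (KK f (σ + ph * I)).im σ) ∧
      (∀ σ, s₁ ≤ σ → FF f (σ + ph * I) = (‖FF f (σ + ph * I)‖ : ℂ) * Complex.exp ((v σ : ℂ) * I)) ∧
      (∀ σ, s₁ ≤ σ → v σ = C + ∫ y in (0:ℝ)..ph, (KK f (σ + y * I)).re) := by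
  have hcont := h.KK_cont_line hph0.le hph
  set LL : ℝ → ℂ := fun σ => ∫ t in s₁..σ, KK f (t + ph * I) with hLL
  have hint : ∀ σ, s₀ < σ → IntervalIntegrable (fun t : ℝ => KK f (t + ph * I)) volume s₁ σ := by
    intro σ hσ
    apply ContinuousOn.intervalIntegrable
    apply hcont.mono
    intro x hx
    rw [mem_uIcc] at hx
    rcases hx with hx | hx
    · exact lt_of_lt_of_le hs₁ hx.1
    · exact lt_of_lt_of_le hσ hx.1
  have hLd : ∀ σ, s₀ < σ → HasDerivAt LL (KK f (σ + ph * I)) σ := by
    intro σ hσ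
    apply intervalIntegral.integral_hasDerivAt_right (hint σ hσ)
    · exact ContinuousOn.stronglyMeasurableAtFilter isOpen_Ioi hcont σ hσ
    · exact (hcont σ hσ).continuousAt (isOpen_Ioi.mem_nhds hσ)
  have hFne : ∀ σ, s₀ < σ → FF f (σ + ph * I) ≠ 0 := by
    intro σ hσ
    exact h.zf _ (by simpa using hσ) (by simpa [abs_of_pos hph0] using hph)
  have hrep : ∀ σ, s₁ ≤ σ → FF f (σ + ph * I) = FF f (s₁ + ph * I) * Complex.exp (LL σ) := by
    intro σ hσ
    have hd : ∀ t : ℝ, s₀ < t →
        HasDerivAt (fun t : ℝ => FF f (t + ph * I) * Complex.exp (-(LL t))) 0 t := by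
      intro t ht
      have h1 : HasDerivAt (fun t : ℝ => (t:ℂ) + ph * I) 1 t := by
        have := (hasDerivAt_id (t:ℂ)).add_const ((ph:ℂ) * I)
        simpa using this.comp_ofReal
      have h2 := ((FF_differentiable h.nn ((t:ℂ) + ph * I)).hasDerivAt).scomp t h1
      have h3 := (hLd t ht).fun_neg.cexp
      have h4 := h2.fun_mul h3
      refine h4.congr_deriv ?_
      have hne := hFne t ht
      simp only [Function.comp, smul_eq_mul, one_mul]
      unfold KK
      field_simp
      ring
    have h5 := constant_of_has_deriv_right_zero (a := s₁) (b := σ)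
      (f := fun t : ℝ => FF f (t + ph * I) * Complex.exp (-(LL t)))
      (fun t ht => (hd t (lt_of_lt_of_le hs₁ ht.1)).continuousAt.continuousWithinAt)
      (fun t ht => (hd t (lt_of_lt_of_le hs₁ ht.1)).hasDerivWithinAt) σ ⟨hσ, le_rfl⟩
    have h6 : LL s₁ = 0 := by simp [hLL]
    simp only [h6, neg_zero, Complex.exp_zero, mul_one] at h5
    rw [← h5, mul_assoc, ← Complex.exp_add]
    simp
  set v₁ : ℝ := (FF f (s₁ + ph * I)).arg with hv₁
  refine ⟨fun σ => v₁ + (LL σ).im, v₁ - ∫ y in (0:ℝ)..ph, (KK f (s₁ + y * I)).re, ?_, ?_, ?_⟩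
  · intro σ hσ
    have h1 : HasDerivAt (fun σ => (LL σ).im) ((KK f (σ + ph * I)).im) σ := by
      exact (Complex.imCLM.hasFDerivAt (x := LL σ)).comp_hasDerivAt σ (hLd σ hσ)
    exact h1.const_add v₁
  · intro σ hσ
    have h1 := hrep σ hσ
    have h2 : FF f (s₁ + ph * I) = (‖FF f (s₁ + ph * I)‖ : ℂ) * Complex.exp (v₁ * I) :=
      (Complex.norm_mul_exp_arg_mul_I _).symm
    have h3 : ‖FF f (σ + ph * I)‖ = ‖FF f (s₁ + ph * I)‖ * Real.exp (LL σ).re := by
      rw [h1, norm_mul, Complex.norm_exp]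
    rw [h3, h1]
    nth_rewrite 1 [h2]
    push_cast
    rw [mul_assoc, mul_assoc, ← Complex.exp_add, ← Complex.exp_add]
    congr 2
    have := Complex.re_add_im (LL σ)
    nth_rewrite 1 [← this]
    ring
  · intro σ hσ
    have hrect := Complex.integral_boundary_rect_eq_zero_of_differentiableOn (KK f) (s₁:ℂ)
      ((σ:ℂ) + ph * I) (by
        intro w hw
        rw [mem_reProdIm] at hw
        simp only [Complex.ofReal_re, Complex.add_re, Complex.mul_re, Complex.I_re, mul_zero,
          Complex.ofReal_im, Complex.I_im, mul_one, sub_self, add_zero, Complex.add_im,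
          Complex.mul_im, zero_add] at hw
        rw [uIcc_of_le hσ, uIcc_of_le hph0.le] at hw
        apply (h.KK_differentiableAt _ _).differentiableWithinAt
        · exact lt_of_lt_of_le hs₁ hw.1.1
        · rw [abs_of_nonneg hw.2.1]; exact lt_of_le_of_lt hw.2.2 hph)
    simp only [Complex.ofReal_re, Complex.add_re, Complex.mul_re, Complex.I_re, mul_zero,
      Complex.ofReal_im, Complex.I_im, mul_one, sub_self, add_zero, Complex.add_im,
      Complex.mul_im, zero_add, smul_eq_mul, Complex.ofReal_zero, zero_mul] at hrect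
    have him := congrArg Complex.im hrect
    simp only [Complex.add_im, Complex.sub_im, Complex.I_mul_im, Complex.zero_im] at him
    -- the real integral is real
    have e1 : (∫ x in s₁..σ, KK f (x:ℂ)).im = 0 := by
      have : (fun x : ℝ => KK f (x:ℂ)) = fun x : ℝ => (((KK f (x:ℂ)).re : ℝ) : ℂ) := by
        funext x
        apply Complex.ext
        · simp
        · simp [KK_real h.nn x]
      rw [this, intervalIntegral.integral_ofReal, Complex.ofReal_im]
    have hvert : ∀ τ : ℝ, s₁ ≤ τ → (∫ y in (0:ℝ)..ph, KK f (τ + y * I)).re =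
        ∫ y in (0:ℝ)..ph, (KK f (τ + y * I)).re := by
      intro τ hτ
      have hci : IntervalIntegrable (fun y : ℝ => KK f (τ + y * I)) volume 0 ph := by
        apply ContinuousOn.intervalIntegrable
        intro y hy
        rw [uIcc_of_le hph0.le] at hy
        have h1 : ContinuousAt (KK f) ((τ:ℂ) + y * I) := by
          apply (h.KK_differentiableAt _ _).continuousAt
          · simpa using lt_of_lt_of_le hs₁ hτ
          · simp only [Complex.add_im, Complex.ofReal_im, Complex.mul_im, Complex.ofReal_re,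
              Complex.I_im, mul_one, Complex.I_re, mul_zero, add_zero, zero_add]
            rw [abs_of_nonneg hy.1]; exact lt_of_le_of_lt hy.2 hph
        have h2 : ContinuousAt (fun y : ℝ => (τ:ℂ) + y * I) y := by fun_prop
        exact (ContinuousAt.comp (f := fun y : ℝ => (τ:ℂ) + y * I) h1 h2).continuousWithinAt
      have := Complex.reCLM.intervalIntegral_comp_comm hci
      simp only [Complex.reCLM_apply] at this
      exact this.symm
    rw [e1, hvert σ hσ, hvert s₁ le_rfl] at him
    have e2 : (∫ x in s₁..σ, KK f (x + ph * I)).im = (LL σ).im := rfl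
    rw [e2] at him
    show v₁ + (LL σ).im = _
    linarith

end Pool.Agent.helper38.LacA
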