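import Pool.Agent.helper38.LacPhase

set_option autoImplicit false

namespace Pool.Agent.helper38.LacA

open Filter Topology Complex Metric Pool.Agent.helper38.NNF MeasureTheory Set
open scoped ComplexOrder Nat ComplexConjugate

/-- one of two nearby points has a good phase -/
theorem Hyp.good_point {f : ℂ → ℂ} {s₀ b c : ℝ} (h : Hyp f s₀ b c) {ph ρ₁ C₁ c₂ : ℝ} (hph0 : 0 < ph)
    (hph : ph < ρ₁) (hρ₁ : ρ₁ < b) (hC₁ : 0 < C₁) (hc₂ : 0 < c₂) {v : ℝ → ℝ}
    (hv : ∀ σ, s₀ < σ → HasDerivAt v (KK f (σ + ph * I)).im σ) :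
    ∃ ℓ ε₀ : ℝ, 0 < ℓ ∧ ph + 2 * ℓ ≤ ρ₁ ∧ 0 < ε₀ ∧ ε₀ < 1 ∧ ∀ (s cN m : ℝ), s₀ + b ≤ s →
      (∀ w : ℂ, ‖w - s‖ ≤ ρ₁ → ‖KK f w - (cN : ℂ)‖ ≤ C₁) → c₂ ≤ (KK f (s + ph * I)).im →
      ∃ σ : ℝ, s ≤ σ ∧ σ ≤ s + ℓ ∧ ε₀ ≤ |Real.sin (m + v σ)| := by
  have hpi := Real.pi_pos
  set R : ℝ := ρ₁ - ph with hR
  have hR0 : 0 < R := by rw [hR]; linarith
  set ℓ : ℝ := min (min (R / 4) (c₂ * R / (4 * C₁))) (Real.pi / (2 * C₁)) with hℓ
  have hℓ0 : 0 < ℓ := by rw [hℓ]; apply lt_min (lt_min _ _) _ <;> positivity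
  have hℓ1 : ℓ ≤ R / 4 := (min_le_left _ _).trans (min_le_left _ _)
  have hℓ2 : ℓ ≤ c₂ * R / (4 * C₁) := (min_le_left _ _).trans (min_le_right _ _)
  have hℓ3 : ℓ ≤ Real.pi / (2 * C₁) := min_le_right _ _
  have hC₁ℓ : C₁ * ℓ ≤ Real.pi / 2 := by
    calc C₁ * ℓ ≤ C₁ * (Real.pi / (2 * C₁)) := mul_le_mul_of_nonneg_left hℓ3 hC₁.le
      _ = Real.pi / 2 := by field_simp
  set x : ℝ := min (c₂ * ℓ / 2) (Real.pi / 2) with hx
  have hx0 : 0 < x := by rw [hx]; apply lt_min <;> positivity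
  have hx1 : x ≤ Real.pi / 2 := min_le_right _ _
  have hsx : 0 < Real.sin x := Real.sin_pos_of_pos_of_lt_pi hx0 (by linarith)
  refine ⟨ℓ, Real.sin x / 2, hℓ0, by linarith, by linarith, by linarith [Real.sin_le_one x], ?_⟩
  intro s cN m hs hK hIm
  have hb := h.bpos
  by_contra hcon
  push Not at hcon
  have h1 := hcon s le_rfl (by linarith)
  have h2 := hcon (s + ℓ) (by linarith) le_rfl
  -- derivative of v
  have hdv : ∀ σ ∈ Ioo s (s + ℓ), c₂ / 2 ≤ (KK f (σ + ph * I)).im ∧ (KK f (σ + ph * I)).im ≤ C₁ := by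
    intro σ hσ
    set c0 : ℂ := (s:ℂ) + ph * I with hc0
    have hball : ∀ w ∈ ball c0 R, ‖w - s‖ ≤ ρ₁ := by
      intro w hw
      rw [Metric.mem_ball, dist_eq_norm] at hw
      have e : w - s = (w - c0) + ph * I := by rw [hc0]; ring
      rw [e]
      refine (norm_add_le _ _).trans ?_
      rw [norm_mul, Complex.norm_I, mul_one, Complex.norm_real, Real.norm_eq_abs, abs_of_pos hph0]
      linarith
    have hd : DifferentiableOn ℂ (KK f) (ball c0 R) := by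
      intro w hw
      have h3 := hball w hw
      have h4 : w ∈ ball (s:ℂ) b := by rw [Metric.mem_ball, dist_eq_norm]; linarith
      obtain ⟨h5, h6⟩ := h.ball_strip hs h4
      exact (h.KK_differentiableAt h5 h6).differentiableWithinAt
    have hmaps : MapsTo (KK f) (ball c0 R) (closedBall (KK f c0) (2 * C₁)) := by
      intro w hw
      rw [mem_closedBall, dist_eq_norm]
      have h3 := hK w (hball w hw)
      have h4 := hK c0 (hball c0 (mem_ball_self hR0))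
      have e : KK f w - KK f c0 = (KK f w - (cN:ℂ)) - (KK f c0 - (cN:ℂ)) := by ring
      rw [e]
      refine (norm_sub_le _ _).trans ?_
      linarith
    have hmem : (σ:ℂ) + ph * I ∈ ball c0 R := by
      rw [Metric.mem_ball, dist_eq_norm]
      have e : (σ:ℂ) + ph * I - c0 = ((σ - s : ℝ) : ℂ) := by rw [hc0]; push_cast; ring
      rw [e, Complex.norm_real, Real.norm_eq_abs, abs_of_pos (by linarith [hσ.1])]
      linarith [hσ.2]
    have h3 := Complex.dist_le_div_mul_dist_of_mapsTo_ball hd hmaps hmem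
    have e : dist ((σ:ℂ) + ph * I) c0 = σ - s := by
      rw [dist_eq_norm]
      have e : (σ:ℂ) + ph * I - c0 = ((σ - s : ℝ) : ℂ) := by rw [hc0]; push_cast; ring
      rw [e, Complex.norm_real, Real.norm_eq_abs, abs_of_pos (by linarith [hσ.1])]
    rw [e, dist_eq_norm] at h3
    have h4 : 2 * C₁ / R * (σ - s) ≤ c₂ / 2 := by
      calc 2 * C₁ / R * (σ - s) ≤ 2 * C₁ / R * (c₂ * R / (4 * C₁)) :=
            mul_le_mul_of_nonneg_left (by linarith [hσ.2]) (by positivity)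
        _ = c₂ / 2 := by field_simp; ring
    have h5 := (Complex.abs_im_le_norm _).trans (h3.trans h4)
    rw [Complex.sub_im, abs_le] at h5
    constructor
    · linarith [h5.1]
    · have h6 := (Complex.abs_im_le_norm _).trans (hK _ (hball _ hmem))
      rw [Complex.sub_im, Complex.ofReal_im, sub_zero] at h6
      exact (le_abs_self _).trans h6
  obtain ⟨ξ, hξ, hξ2⟩ := exists_hasDerivAt_eq_slope v (fun σ => (KK f (σ + ph * I)).im)
    (show s < s + ℓ by linarith)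
    (fun t ht => (hv t (by linarith [ht.1])).continuousAt.continuousWithinAt)
    (fun t ht => hv t (by linarith [ht.1]))
  obtain ⟨h3, h4⟩ := hdv ξ hξ
  rw [add_sub_cancel_left, eq_div_iff hℓ0.ne'] at hξ2
  set d : ℝ := v (s + ℓ) - v s with hd
  have hd1 : c₂ * ℓ / 2 ≤ d := by rw [← hξ2]; nlinarith
  have hd2 : d ≤ Real.pi / 2 := by rw [← hξ2]; nlinarith
  have hxd : x ≤ d := (min_le_left _ _).trans hd1
  have hsd : Real.sin x ≤ Real.sin d :=
    Real.sin_le_sin_of_le_of_le_pi_div_two (by linarith) hd2 hxd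
  have hsin : Real.sin d = Real.sin (m + v (s + ℓ)) * Real.cos (m + v s) -
      Real.cos (m + v (s + ℓ)) * Real.sin (m + v s) := by
    rw [← Real.sin_sub]; congr 1; rw [hd]; ring
  have e1 : |Real.sin (m + v (s + ℓ)) * Real.cos (m + v s)| ≤ |Real.sin (m + v (s + ℓ))| := by
    rw [abs_mul]
    calc _ ≤ |Real.sin (m + v (s + ℓ))| * 1 :=
          mul_le_mul_of_nonneg_left (Real.abs_cos_le_one _) (abs_nonneg _)
      _ = _ := mul_one _
  have e2 : |Real.cos (m + v (s + ℓ)) * Real.sin (m + v s)| ≤ |Real.sin (m + v s)| := by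
    rw [abs_mul]
    calc _ ≤ 1 * |Real.sin (m + v s)| :=
          mul_le_mul_of_nonneg_right (Real.abs_cos_le_one _) (abs_nonneg _)
      _ = _ := one_mul _
  have e3 := (abs_le.mp e1).2
  have e4 := (abs_le.mp e2).1
  linarith

theorem Hyp.norm_low {f : ℂ → ℂ} {s₀ b c : ℝ} (h : Hyp f s₀ b c) {ph ρ₁ C₁ ℓ : ℝ} (hph0 : 0 < ph)
    (hphb : ph < b) (hℓ : ph + 2 * ℓ ≤ ρ₁) (hℓ0 : 0 < ℓ) (hC₁ : 0 < C₁) {s cN σ : ℝ} (hs : s₀ + b ≤ s)
    (hK : ∀ w : ℂ, ‖w - s‖ ≤ ρ₁ → ‖KK f w - (cN : ℂ)‖ ≤ C₁) (hσ1 : s ≤ σ) (hσ2 : σ ≤ s + ℓ) :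
    VV f σ * Real.exp (-(C₁ * ph)) ≤ ‖FF f (σ + ph * I)‖ := by
  obtain ⟨Λ, h0, hΛ, hexp, _⟩ := h.lift (s := σ) (by linarith)
  have hb := h.bpos
  have hV : 0 < VV f σ := VV_pos h (by linarith)
  have hmem : ∀ t : ℝ, 0 ≤ t → t ≤ ph → (σ:ℂ) + t * I ∈ ball (σ:ℂ) b := by
    intro t ht0 ht1
    rw [Metric.mem_ball, dist_eq_norm, add_sub_cancel_left, norm_mul, Complex.norm_I, mul_one,
      Complex.norm_real, Real.norm_eq_abs, abs_of_nonneg ht0]
    linarith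
  set g : ℝ → ℂ := fun t => Λ (σ + t * I) - (cN * t * I : ℂ) with hg
  have hd : ∀ t : ℝ, 0 ≤ t → t ≤ ph →
      HasDerivAt g (KK f (σ + t * I) * I - cN * I) t := by
    intro t ht0 ht1
    have h1 : HasDerivAt (fun t : ℝ => (σ:ℂ) + t * I) I t := by
      have := ((hasDerivAt_id (t:ℂ)).mul_const I).const_add (σ:ℂ)
      simpa using this.comp_ofReal
    have h2 := (hΛ _ (hmem t ht0 ht1)).scomp t h1
    have h3 : HasDerivAt (fun t : ℝ => (cN * t * I : ℂ)) (cN * I) t := by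
      have := (((hasDerivAt_id (t:ℂ)).const_mul (cN:ℂ)).mul_const I)
      simpa using this.comp_ofReal
    have h6 := h2.sub h3
    refine h6.congr_deriv ?_
    simp only [smul_eq_mul]; ring
  have hbound : ∀ t : ℝ, 0 ≤ t → t ≤ ph → ‖KK f (σ + t * I) * I - cN * I‖ ≤ C₁ := by
    intro t ht0 ht1
    rw [← sub_mul, norm_mul, Complex.norm_I, mul_one]
    apply hK
    have e : (σ:ℂ) + t * I - s = ((σ - s : ℝ) : ℂ) + t * I := by push_cast; ring
    rw [e]
    refine (norm_add_le _ _).trans ?_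
    rw [norm_mul, Complex.norm_I, mul_one, Complex.norm_real, Complex.norm_real, Real.norm_eq_abs,
      Real.norm_eq_abs, abs_of_nonneg (by linarith), abs_of_nonneg ht0]
    linarith
  have hmv := norm_image_sub_le_of_norm_deriv_le_segment' (f := g) (a := 0) (b := ph)
    (f' := fun t => KK f (σ + t * I) * I - cN * I) (C := C₁)
    (fun x hx => (hd x hx.1 hx.2).hasDerivWithinAt)
    (fun x hx => hbound x hx.1 hx.2.le) ph ⟨hph0.le, le_rfl⟩
  have hg0 : g 0 = (Real.log (VV f σ) : ℂ) := by simp [hg, h0]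
  rw [hg0, sub_zero] at hmv
  have h7 := (Complex.abs_re_le_norm _).trans hmv
  have e1 : (g ph - (Real.log (VV f σ) : ℂ)).re = (Λ (σ + ph * I)).re - Real.log (VV f σ) := by
    simp [hg]
  rw [e1, abs_le] at h7
  rw [← hexp _ (hmem ph hph0.le le_rfl), Complex.norm_exp]
  have e2 : VV f σ * Real.exp (-(C₁ * ph)) = Real.exp (Real.log (VV f σ) + -(C₁ * ph)) := by
    rw [Real.exp_add, Real.exp_log hV]
  rw [e2]
  apply Real.exp_le_exp.mpr
  linarith [h7.1]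

theorem Hyp.growth_step {f : ℂ → ℂ} {s₀ b c : ℝ} (h : Hyp f s₀ b c) {ρ₁ C₁ ℓ : ℝ}
    (hℓ : 2 * ℓ ≤ ρ₁) (hℓ0 : 0 < ℓ) {s cN σ : ℝ} (hs : s₀ ≤ s)
    (hK : ∀ w : ℂ, ‖w - s‖ ≤ ρ₁ → ‖KK f w - (cN : ℂ)‖ ≤ C₁) (hσ1 : s ≤ σ) (hσ2 : σ ≤ s + ℓ) :
    VV f (σ + ℓ) ≤ VV f σ * Real.exp (ℓ * (cN + C₁)) := by
  have hf := h.nn
  set M : ℝ := cN + C₁ with hM
  have hanti : AntitoneOn (fun s => VV f s * Real.exp (-(M * s))) (Icc σ (σ + ℓ)) := by
    have hd : ∀ s : ℝ, HasDerivAt (fun s => VV f s * Real.exp (-(M * s)))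
        (VV (DD f) s * Real.exp (-(M * s)) + VV f s * (Real.exp (-(M * s)) * (-M))) s := by
      intro s
      have h1 : HasDerivAt (fun s : ℝ => -(M * s)) (-M) s := by
        simpa using ((hasDerivAt_id s).const_mul M).fun_neg
      exact (hasDerivAt_VV hf s).fun_mul h1.exp
    apply antitoneOn_of_deriv_nonpos (convex_Icc _ _)
    · intro s _; exact (hd s).continuousAt.continuousWithinAt
    · intro s _; exact (hd s).differentiableAt.differentiableWithinAt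
    · intro t ht
      rw [interior_Icc] at ht
      rw [(hd t).deriv]
      have h2 := hK (t:ℂ) (by
        rw [← Complex.ofReal_sub, Complex.norm_real, Real.norm_eq_abs, abs_of_nonneg (by linarith [ht.1])]
        linarith [ht.2])
      have h3 := (Complex.abs_re_le_norm _).trans h2
      rw [Complex.sub_re, Complex.ofReal_re, abs_le] at h3
      have h4 : (KK f (t:ℂ)).re ≤ M := by linarith [h3.2]
      rw [KK_re_real hf, div_le_iff₀ (VV_pos h (by linarith [ht.1]))] at h4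
      have h5 := Real.exp_pos (-(M * t))
      nlinarith
  have h1 := hanti (left_mem_Icc.mpr (by linarith)) (right_mem_Icc.mpr (by linarith))
    (show σ ≤ σ + ℓ by linarith)
  simp only at h1
  have h2 := mul_le_mul_of_nonneg_right h1 (Real.exp_pos (M * (σ + ℓ))).le
  rw [mul_assoc, ← Real.exp_add, mul_assoc, ← Real.exp_add] at h2
  have e1 : -(M * (σ + ℓ)) + M * (σ + ℓ) = 0 := by ring
  have e2 : -(M * σ) + M * (σ + ℓ) = ℓ * M := by ring
  rw [e1, e2, Real.exp_zero, mul_one] at h2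
  exact h2

/-- tail estimate -/
theorem tail_bound {f : ℂ → ℂ} (hf : NN f) {σ ℓ : ℝ} (hℓ : 0 < ℓ) {K m : ℕ} (hm : K ≤ m) {cc : ℕ → ℝ}
    (hcc : ∀ k, |cc k| ≤ (tc f k).re * Real.exp (k * σ)) {B : ℝ} (hB : HasSum cc B) :
    |B - PS cc m| ≤ Real.exp (-(ℓ * K)) * VV f (σ + ℓ) := by
  have h1 : HasSum (fun k => cc (k + m)) (B - PS cc m) := (hasSum_nat_add_iff' m).mpr hB
  have h2 := (hasSum_VV hf (σ + ℓ)).mul_left (Real.exp (-(ℓ * K)))
  have h3 : HasSum (fun k => Real.exp (-(ℓ * K)) * ((tc f (k + m)).re *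
      Real.exp (((k + m : ℕ) : ℝ) * (σ + ℓ)))) _ := (hasSum_nat_add_iff' m).mpr h2
  have hnn : ∀ k : ℕ, 0 ≤ Real.exp (-(ℓ * K)) * ((tc f k).re * Real.exp ((k : ℝ) * (σ + ℓ))) := by
    intro k
    exact mul_nonneg (Real.exp_pos _).le (mul_nonneg (tc_re_nonneg hf k) (Real.exp_pos _).le)
  have h4 : 0 ≤ ∑ k ∈ Finset.range m, Real.exp (-(ℓ * K)) *
      ((tc f k).re * Real.exp ((k : ℝ) * (σ + ℓ))) := Finset.sum_nonneg (fun k _ => hnn k)
  have hle : ∀ k : ℕ, |cc (k + m)| ≤ Real.exp (-(ℓ * K)) * ((tc f (k + m)).re *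
      Real.exp (((k + m : ℕ) : ℝ) * (σ + ℓ))) := by
    intro k
    refine (hcc (k + m)).trans ?_
    have e1 : Real.exp (-(ℓ * K)) * ((tc f (k + m)).re * Real.exp (((k + m : ℕ) : ℝ) * (σ + ℓ))) =
        (tc f (k + m)).re * Real.exp (-(ℓ * K) + ((k + m : ℕ) : ℝ) * (σ + ℓ)) := by
      rw [Real.exp_add]; ring
    rw [e1]
    apply mul_le_mul_of_nonneg_left _ (tc_re_nonneg hf _)
    apply Real.exp_le_exp.mpr
    have h5 : (K:ℝ) ≤ ((k + m : ℕ) : ℝ) := by exact_mod_cast (by omega : K ≤ k + m)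
    nlinarith
  rw [abs_le]
  constructor
  · have h5 := hasSum_le (fun k => neg_le_of_abs_le (hle k)) h3.neg h1
    linarith
  · have h5 := hasSum_le (fun k => le_of_abs_le (hle k)) h1 h3
    linarith

end Pool.Agent.helper38.LacA
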