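import Pool.Agent.helper38.LacF

set_option autoImplicit false

namespace Pool.Agent.helper38.LacA

open Filter Topology Complex Metric Pool.Agent.helper38.NNF
open scoped ComplexOrder Nat ComplexConjugate

theorem norm_FF_conj {f : ℂ → ℂ} (hf : NN f) (w : ℂ) : ‖FF f (conj w)‖ = ‖FF f w‖ := by
  rw [FF_conj hf, Complex.norm_conj]

/-- reflection inequality -/
theorem Hyp.refl_ineq {f : ℂ → ℂ} {s₀ b c : ℝ} (h : Hyp f s₀ b c) {β κ : ℝ} (hβ : β < b)
    (hcβ : c * β < Real.pi) (hκ : 0 < κ) (hκβ : κ * β < Real.pi) :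
    ∃ C : ℝ, 0 ≤ C ∧ ∀ s θ θ' : ℝ, s₀ + b ≤ s → 0 ≤ θ → θ ≤ θ' → θ + θ' ≤ 2 * β →
      ‖FF f (s + θ' * I)‖ ≤ ‖FF f (s + θ * I)‖ * Real.exp (C * Real.exp (-(κ * s))) := by
  obtain ⟨B, hB0, hB⟩ := h.lower hβ
  set s₁ : ℝ := s₀ + b with hs₁
  have hb := h.bpos
  have hV1 : 1 ≤ VV f s₁ := h.one_le s₁ (by linarith)
  rcases lt_or_ge β 0 with hneg | hβ0
  · refine ⟨0, le_rfl, fun s θ θ' _ h1 h2 h3 => ?_⟩
    linarith
  set L : ℝ := Real.log (VV f s₁) + B * Real.exp (c * s₁) with hL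
  have hL0 : 0 ≤ L := by
    have := Real.log_nonneg hV1
    positivity
  have hcosβ : 0 < Real.cos (κ * β / 2) := by
    apply Real.cos_pos_of_mem_Ioo
    constructor
    · have : 0 ≤ κ * β / 2 := by positivity
      linarith [Real.pi_pos]
    · linarith
  set C₀ : ℝ := L / Real.cos (κ * β / 2) with hC₀
  have hC₀0 : 0 ≤ C₀ := by positivity
  refine ⟨C₀ * Real.exp (κ * s₁), by positivity, ?_⟩
  intro s θ θ' hs hθ hθθ' hsum
  set ψ : ℝ := (θ + θ') / 2 with hψ
  have hψβ : ψ ≤ β := by rw [hψ]; linarith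
  have hψ0 : 0 ≤ ψ := by rw [hψ]; linarith
  rcases eq_or_lt_of_le hψ0 with hzero | hψpos
  · -- trivial case
    have h1 : θ = θ' := by linarith
    rw [← h1]
    have h2 : (1:ℝ) ≤ Real.exp (C₀ * Real.exp (κ * s₁) * Real.exp (-(κ * s))) :=
      Real.one_le_exp (by positivity)
    nlinarith [norm_nonneg (FF f (s + θ * I))]
  have hcos : ∀ t : ℝ, 0 ≤ t → t ≤ ψ → Real.cos (κ * β / 2) ≤ Real.cos (κ * (t - ψ / 2)) := by
    intro t h1 h2
    rw [← Real.cos_abs (κ * (t - ψ / 2))]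
    apply Real.cos_le_cos_of_nonneg_of_le_pi (abs_nonneg _)
    · linarith [Real.pi_pos]
    · rw [abs_mul, abs_of_pos hκ]
      have : |t - ψ / 2| ≤ β / 2 := by rw [abs_le]; constructor <;> linarith
      calc κ * |t - ψ / 2| ≤ κ * (β / 2) := mul_le_mul_of_nonneg_left this hκ.le
        _ = κ * β / 2 := by ring
  set X : ℂ → ℂ := fun w => Complex.exp (-(κ:ℂ) * (w - s₁ - (ψ / 2 : ℝ) * I)) with hX
  have hXre : ∀ w : ℂ, (X w).re = Real.exp (-(κ * (w.re - s₁))) * Real.cos (κ * (w.im - ψ / 2)) := by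
    intro w
    simp only [hX]
    rw [Complex.exp_re]
    congr 1
    · congr 1
      simp
    · rw [← Real.cos_neg]
      congr 1
      simp
  have hXd : Differentiable ℂ X := by simp only [hX]; fun_prop
  set G : ℂ → ℂ := fun w => FF f (w - (2 * ψ : ℝ) * I) / FF f w * Complex.exp (-(C₀:ℂ) * X w) with hG
  have hnorm : ∀ w : ℂ, ‖G w‖ = ‖FF f (w - (2 * ψ : ℝ) * I)‖ / ‖FF f w‖ *
      Real.exp (-(C₀ * (X w).re)) := by
    intro w
    simp only [hG]
    rw [norm_mul, norm_div, Complex.norm_exp, neg_mul, Complex.neg_re, Complex.re_ofReal_mul]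
  have hXpos : ∀ w : ℂ, 0 ≤ w.im → w.im ≤ ψ → 0 ≤ (X w).re := by
    intro w h1 h2
    rw [hXre]
    have := hcos w.im h1 h2
    exact mul_nonneg (Real.exp_pos _).le (by linarith)
  have hne : ∀ w : ℂ, s₁ ≤ w.re → 0 ≤ w.im → w.im ≤ ψ → FF f w ≠ 0 := by
    intro w h1 h2 h3
    apply h.zf w (by linarith)
    rw [abs_of_nonneg h2]; linarith
  have hre : ∀ w : ℂ, (w - (2 * ψ : ℝ) * I).re = w.re := by intro w; simp
  have hle : ∀ w : ℂ, 0 ≤ w.im → w.im ≤ ψ →
      ‖FF f (w - (2 * ψ : ℝ) * I)‖ / ‖FF f w‖ ≤ 1 → ‖G w‖ ≤ 1 := by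
    intro w h1 h2 h3
    rw [hnorm]
    have h4 : Real.exp (-(C₀ * (X w).re)) ≤ 1 := by
      rw [Real.exp_le_one_iff]
      have := mul_nonneg hC₀0 (hXpos w h1 h2)
      linarith
    calc _ ≤ 1 * 1 := mul_le_mul h3 h4 (Real.exp_pos _).le zero_le_one
      _ = 1 := one_mul 1
  have hmain : ∀ w : ℂ, s₁ ≤ w.re → 0 ≤ w.im → w.im ≤ ψ → ‖G w‖ ≤ 1 := by
    intro w hw1 hw2 hw3
    apply half_strip (G := G) (s₁ := s₁) (ψ := ψ) (c := c) (B := 1 + B) hψpos h.cpos
      (by have := h.cpos; nlinarith)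
      _ _ _ _ _ hw1 hw2 hw3
    · intro z h1 h2 h3
      have hF := FF_differentiable h.nn
      have h4 : DifferentiableAt ℂ (fun w => FF f (w - (2 * ψ : ℝ) * I)) z :=
        (hF.comp (differentiable_id.sub_const _)) z
      have h5 : DifferentiableAt ℂ (fun w => Complex.exp (-(C₀:ℂ) * X w)) z := by
        have := hXd z
        fun_prop
      simp only [hG]
      exact (h4.div (hF z) (hne z h1 h2 h3)).mul h5
    · -- left side
      intro z h1 h2 h3
      rw [hnorm]
      have e1 : ‖FF f (z - (2 * ψ : ℝ) * I)‖ ≤ VV f s₁ := by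
        have := norm_FF_le h.nn (z - (2 * ψ : ℝ) * I)
        rwa [hre, h1] at this
      have e2 := hB z h1.ge (by rw [abs_of_nonneg h2]; linarith)
      rw [h1] at e2
      have e3 : ‖FF f (z - (2 * ψ : ℝ) * I)‖ / ‖FF f z‖ ≤ Real.exp L := by
        have hpos : 0 < ‖FF f z‖ := lt_of_lt_of_le (Real.exp_pos _) e2
        rw [div_le_iff₀ hpos]
        calc ‖FF f (z - (2 * ψ : ℝ) * I)‖ ≤ VV f s₁ := e1
          _ = Real.exp L * Real.exp (-(B * Real.exp (c * s₁))) := by
              rw [← Real.exp_add, hL]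
              have : Real.log (VV f s₁) + B * Real.exp (c * s₁) + -(B * Real.exp (c * s₁)) =
                Real.log (VV f s₁) := by ring
              rw [this, Real.exp_log (by linarith)]
          _ ≤ Real.exp L * ‖FF f z‖ := mul_le_mul_of_nonneg_left e2 (Real.exp_pos _).le
      have e4 : L ≤ C₀ * (X z).re := by
        rw [hXre, h1]
        have e5 := hcos z.im h2 h3
        have e6 : Real.exp (-(κ * (s₁ - s₁))) = 1 := by simp
        rw [e6, one_mul]
        calc L = C₀ * Real.cos (κ * β / 2) := by rw [hC₀]; field_simp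
          _ ≤ _ := mul_le_mul_of_nonneg_left e5 hC₀0
      calc ‖FF f (z - (2 * ψ : ℝ) * I)‖ / ‖FF f z‖ * Real.exp (-(C₀ * (X z).re))
          ≤ Real.exp L * Real.exp (-(C₀ * (X z).re)) :=
            mul_le_mul_of_nonneg_right e3 (Real.exp_pos _).le
        _ = Real.exp (L + -(C₀ * (X z).re)) := (Real.exp_add _ _).symm
        _ ≤ 1 := by rw [Real.exp_le_one_iff]; linarith
    · -- bottom
      intro z h1 h2
      apply hle z (by rw [h2]) (by rw [h2]; exact hψ0)
      have hz : z = ((z.re : ℝ) : ℂ) := by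
        apply Complex.ext
        · simp
        · simp [h2]
      have hV : 0 < VV f z.re := lt_of_lt_of_le one_pos (h.one_le z.re (by linarith))
      have e1 : ‖FF f z‖ = VV f z.re := by
        rw [hz, FF_real h.nn, Complex.norm_real, Real.norm_eq_abs, Complex.ofReal_re,
          abs_of_pos hV]
      rw [e1, div_le_one hV]
      have := norm_FF_le h.nn (z - (2 * ψ : ℝ) * I)
      rwa [hre] at this
    · -- top
      intro z h1 h2
      apply hle z (by rw [h2]; exact hψ0) (by rw [h2])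
      have hz : z - (2 * ψ : ℝ) * I = conj z := by
        apply Complex.ext
        · simp
        · simp [h2]; ring
      rw [hz, norm_FF_conj h.nn]
      exact div_self_le_one _
    · -- growth
      intro z h1 h2 h3
      rw [hnorm]
      have h4 : Real.exp (-(C₀ * (X z).re)) ≤ 1 := by
        rw [Real.exp_le_one_iff]
        have := mul_nonneg hC₀0 (hXpos z h2 h3)
        linarith
      have e1 : ‖FF f (z - (2 * ψ : ℝ) * I)‖ ≤ Real.exp (Real.exp (c * z.re)) := by
        have e0 := norm_FF_le h.nn (z - (2 * ψ : ℝ) * I)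
        rw [hre] at e0
        have hV : 0 < VV f z.re := lt_of_lt_of_le one_pos (h.one_le z.re (by linarith))
        calc _ ≤ VV f z.re := e0
          _ = Real.exp (Real.log (VV f z.re)) := (Real.exp_log hV).symm
          _ ≤ _ := Real.exp_le_exp.mpr (h.grow z.re (by linarith))
      have e2 := hB z h1 (by rw [abs_of_nonneg h2]; linarith)
      have hpos : 0 < ‖FF f z‖ := lt_of_lt_of_le (Real.exp_pos _) e2
      have e3 : ‖FF f (z - (2 * ψ : ℝ) * I)‖ / ‖FF f z‖ ≤ Real.exp ((1 + B) * Real.exp (c * z.re)) := by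
        rw [div_le_iff₀ hpos]
        calc ‖FF f (z - (2 * ψ : ℝ) * I)‖ ≤ Real.exp (Real.exp (c * z.re)) := e1
          _ = Real.exp ((1 + B) * Real.exp (c * z.re)) * Real.exp (-(B * Real.exp (c * z.re))) := by
              rw [← Real.exp_add]; congr 1; ring
          _ ≤ _ := mul_le_mul_of_nonneg_left e2 (Real.exp_pos _).le
      calc _ ≤ Real.exp ((1 + B) * Real.exp (c * z.re)) * 1 :=
            mul_le_mul e3 h4 (Real.exp_pos _).le (Real.exp_pos _).le
        _ = _ := mul_one _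
  -- conclusion
  set w : ℂ := (s:ℂ) + θ * I with hw
  have hwre : w.re = s := by simp [hw]
  have hwim : w.im = θ := by simp [hw]
  have hθψ : θ ≤ ψ := by rw [hψ]; linarith
  have h1 := hmain w (by rw [hwre]; exact hs) (by rw [hwim]; exact hθ) (by rw [hwim]; exact hθψ)
  rw [hnorm] at h1
  have hwne : FF f w ≠ 0 := hne w (by rw [hwre]; exact hs) (by rw [hwim]; exact hθ)
    (by rw [hwim]; exact hθψ)
  have hwpos : 0 < ‖FF f w‖ := norm_pos_iff.mpr hwne
  have h2 : ‖FF f (w - (2 * ψ : ℝ) * I)‖ = ‖FF f (s + θ' * I)‖ := by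
    have : w - (2 * ψ : ℝ) * I = conj ((s:ℂ) + θ' * I) := by
      apply Complex.ext
      · simp [hw]
      · simp [hw, hψ]; ring
    rw [this, norm_FF_conj h.nn]
  rw [h2] at h1
  have h3 : (X w).re ≤ Real.exp (κ * s₁) * Real.exp (-(κ * s)) := by
    rw [hXre, hwre]
    calc Real.exp (-(κ * (s - s₁))) * Real.cos (κ * (w.im - ψ / 2))
        ≤ Real.exp (-(κ * (s - s₁))) * 1 :=
          mul_le_mul_of_nonneg_left (Real.cos_le_one _) (Real.exp_pos _).le
      _ = _ := by rw [mul_one, ← Real.exp_add]; congr 1; ring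
  have h4 : ‖FF f (s + θ' * I)‖ ≤ ‖FF f w‖ * Real.exp (C₀ * (X w).re) := by
    have h5 : ‖FF f (s + θ' * I)‖ / ‖FF f w‖ ≤ Real.exp (C₀ * (X w).re) := by
      have h6 := mul_le_mul_of_nonneg_right h1 (Real.exp_pos (C₀ * (X w).re)).le
      rw [one_mul, mul_assoc, ← Real.exp_add, neg_add_cancel, Real.exp_zero, mul_one] at h6
      exact h6
    rw [div_le_iff₀ hwpos] at h5
    linarith
  refine h4.trans (mul_le_mul_of_nonneg_left ?_ (norm_nonneg _))
  apply Real.exp_le_exp.mpr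
  calc C₀ * (X w).re ≤ C₀ * (Real.exp (κ * s₁) * Real.exp (-(κ * s))) :=
        mul_le_mul_of_nonneg_left h3 hC₀0
    _ = _ := by ring

end Pool.Agent.helper38.LacA
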