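import Pool.Agent.helper38.LacR

set_option autoImplicit false

namespace Pool.Agent.helper38.LacA

open Filter Topology Complex Metric Pool.Agent.helper38.NNF
open scoped ComplexOrder Nat ComplexConjugate

theorem norm_FF_abs {f : ℂ → ℂ} (hf : NN f) (w : ℂ) : ‖FF f w‖ = ‖FF f (w.re + |w.im| * I)‖ := by
  rcases le_total 0 w.im with h | h
  · rw [abs_of_nonneg h, Complex.re_add_im]
  · rw [abs_of_nonpos h, ← norm_FF_conj hf w]
    congr 2
    apply Complex.ext
    · simp
    · simp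

/-- the imaginary part of the logarithmic derivative is almost nonnegative in the upper strip -/
theorem Hyp.im_KK_ge {f : ℂ → ℂ} {s₀ b c : ℝ} (h : Hyp f s₀ b c) {β κ τ : ℝ} (hβ : β < b)
    (hcβ : c * β < Real.pi) (hκ : 0 < κ) (hκβ : κ * β < Real.pi) (hτ0 : 0 < τ) (hτβ : τ ≤ β)
    (hτb : τ < b - β) :
    ∃ C : ℝ, 0 ≤ C ∧ ∀ s ψ : ℝ, s₀ + b + b ≤ s → 0 ≤ ψ → ψ ≤ β →
      -(C * Real.exp (-(κ * s))) ≤ (KK f (s + ψ * I)).im := by
  obtain ⟨C, hC0, hC⟩ := h.refl_ineq hβ hcβ hκ hκβ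
  have hb := h.bpos
  refine ⟨C * Real.exp (κ * τ) / τ, by positivity, ?_⟩
  intro s ψ hs hψ0 hψβ
  obtain ⟨Λ, _, hΛ, hexp, hconj⟩ := h.lift (s := s) (by linarith)
  set η : ℝ := C * Real.exp (-(κ * (s - τ))) with hη
  have hη0 : 0 ≤ η := by positivity
  set R : ℝ := (b - β) / τ with hR
  have hR1 : 1 < R := by rw [hR, lt_div_iff₀ hτ0]; linarith
  set T : ℂ → ℂ := fun ζ => -I * (Λ (s - ψ * I - τ * ζ) - Λ (s + ψ * I - τ * ζ)) with hT
  have hmem1 : ∀ ζ : ℂ, ‖ζ‖ < R → (s:ℂ) - ψ * I - τ * ζ ∈ ball (s:ℂ) b := by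
    intro ζ hζ
    rw [Metric.mem_ball, dist_eq_norm]
    have e : (s:ℂ) - ψ * I - τ * ζ - s = -(ψ * I + τ * ζ) := by ring
    rw [e, norm_neg]
    calc ‖(ψ:ℂ) * I + τ * ζ‖ ≤ ‖(ψ:ℂ) * I‖ + ‖(τ:ℂ) * ζ‖ := norm_add_le _ _
      _ = ψ + τ * ‖ζ‖ := by
        rw [norm_mul, norm_mul, Complex.norm_I, mul_one, Complex.norm_real, Complex.norm_real,
          Real.norm_eq_abs, Real.norm_eq_abs, abs_of_nonneg hψ0, abs_of_pos hτ0]
      _ < b := by
        rw [hR, lt_div_iff₀ hτ0] at hζ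
        linarith
  have hmem2 : ∀ ζ : ℂ, ‖ζ‖ < R → (s:ℂ) + ψ * I - τ * ζ ∈ ball (s:ℂ) b := by
    intro ζ hζ
    rw [Metric.mem_ball, dist_eq_norm]
    have e : (s:ℂ) + ψ * I - τ * ζ - s = ψ * I - τ * ζ := by ring
    rw [e]
    calc ‖(ψ:ℂ) * I - τ * ζ‖ ≤ ‖(ψ:ℂ) * I‖ + ‖(τ:ℂ) * ζ‖ := norm_sub_le _ _
      _ = ψ + τ * ‖ζ‖ := by
        rw [norm_mul, norm_mul, Complex.norm_I, mul_one, Complex.norm_real, Complex.norm_real,
          Real.norm_eq_abs, Real.norm_eq_abs, abs_of_nonneg hψ0, abs_of_pos hτ0]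
      _ < b := by
        rw [hR, lt_div_iff₀ hτ0] at hζ
        linarith
  have hderiv : ∀ ζ : ℂ, ‖ζ‖ < R → HasDerivAt T
      (-I * (KK f (s - ψ * I - τ * ζ) * (-(τ:ℂ)) - KK f (s + ψ * I - τ * ζ) * (-(τ:ℂ)))) ζ := by
    intro ζ hζ
    have e1 : HasDerivAt (fun ζ : ℂ => (s:ℂ) - ψ * I - τ * ζ) (-(τ:ℂ)) ζ := by
      have := ((hasDerivAt_id ζ).const_mul (τ:ℂ)).const_sub ((s:ℂ) - ψ * I)
      simpa using this
    have e2 : HasDerivAt (fun ζ : ℂ => (s:ℂ) + ψ * I - τ * ζ) (-(τ:ℂ)) ζ := by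
      have := ((hasDerivAt_id ζ).const_mul (τ:ℂ)).const_sub ((s:ℂ) + ψ * I)
      simpa using this
    have e3 := (hΛ _ (hmem1 ζ hζ)).comp ζ e1
    have e4 := (hΛ _ (hmem2 ζ hζ)).comp ζ e2
    exact (e3.sub e4).const_mul (-I)
  have hTd : DifferentiableOn ℂ T (ball 0 R) := by
    intro ζ hζ
    rw [mem_ball_zero_iff] at hζ
    exact (hderiv ζ hζ).differentiableAt.differentiableWithinAt
  have hconjs : conj ((s:ℂ) + ψ * I) = (s:ℂ) - ψ * I := by
    apply Complex.ext <;> simp
  have hψb : (s:ℂ) + ψ * I ∈ ball (s:ℂ) b := by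
    have := hmem2 0 (by rw [norm_zero]; linarith)
    simpa using this
  have hT0 : (T 0).im = 0 := by
    simp only [hT, mul_zero, sub_zero]
    rw [← hconjs, hconj _ hψb]
    simp
  have hTim : ∀ ζ : ℂ, (T ζ).im = (Λ (s + ψ * I - τ * ζ)).re - (Λ (s - ψ * I - τ * ζ)).re := by
    intro ζ
    simp only [hT]
    simp
  have hTd0 : deriv T 0 = ((2 * τ * (KK f (s + ψ * I)).im : ℝ) : ℂ) := by
    rw [(hderiv 0 (by rw [norm_zero]; linarith)).deriv]
    simp only [mul_zero, sub_zero]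
    rw [← hconjs, KK_conj h.nn]
    apply Complex.ext
    · simp; ring
    · simp
  -- norm comparison
  have hlog : ∀ u v : ℂ, u ∈ ball (s:ℂ) b → v ∈ ball (s:ℂ) b →
      ‖FF f u‖ ≤ ‖FF f v‖ * Real.exp η → (Λ u).re ≤ (Λ v).re + η := by
    intro u v hu hv huv
    rw [← hexp u hu, ← hexp v hv, Complex.norm_exp, Complex.norm_exp, ← Real.exp_add] at huv
    exact Real.exp_le_exp.mp huv
  have hηs : ∀ s' : ℝ, s - τ ≤ s' → Real.exp (C * Real.exp (-(κ * s'))) ≤ Real.exp η := by
    intro s' hs'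
    apply Real.exp_le_exp.mpr
    rw [hη]
    apply mul_le_mul_of_nonneg_left _ hC0
    apply Real.exp_le_exp.mpr
    have := mul_le_mul_of_nonneg_left hs' hκ.le
    linarith
  have hcomp : ∀ u v : ℂ, s - τ ≤ u.re → v.re = u.re → |v.im| ≤ |u.im| → |v.im| + |u.im| ≤ 2 * β →
      ‖FF f u‖ ≤ ‖FF f v‖ * Real.exp η := by
    intro u v h1 h2 h3 h4
    rw [norm_FF_abs h.nn u, norm_FF_abs h.nn v, h2]
    have h5 := hC u.re |v.im| |u.im| (by linarith) (abs_nonneg _) h3 h4
    exact h5.trans (mul_le_mul_of_nonneg_left (hηs _ h1) (norm_nonneg _))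
  obtain ⟨P, _, hPre, hP0, _⟩ := ptrick hR1 hTd hT0 hη0 (by
      intro ζ hζ him
      rw [hTim]
      have hζR : ‖ζ‖ < R := by rw [hζ]; exact hR1
      have hab := hlog _ _ (hmem1 ζ hζR) (hmem2 ζ hζR) (by
        have hre : |ζ.re| ≤ 1 := by rw [← hζ]; exact Complex.abs_re_le_norm ζ
        have him' : |ζ.im| ≤ 1 := by rw [← hζ]; exact Complex.abs_im_le_norm ζ
        rw [abs_le] at hre him'
        have hτi1 : 0 ≤ τ * ζ.im := by positivity
        have hτi2 : τ * ζ.im ≤ τ := by nlinarith [him'.2]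
        apply hcomp
        · simp only [Complex.sub_re, Complex.mul_re, Complex.ofReal_re, Complex.ofReal_im,
            Complex.I_re, Complex.I_im, mul_zero, mul_one, zero_mul, sub_zero]
          nlinarith [hre.2]
        · simp
        · simp only [Complex.sub_im, Complex.add_im, Complex.mul_im, Complex.ofReal_re,
            Complex.ofReal_im, Complex.I_re, Complex.I_im, mul_zero, mul_one, zero_mul, add_zero,
            zero_add, zero_sub]
          have e1 : |(-ψ - τ * ζ.im)| = ψ + τ * ζ.im := by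
            rw [abs_of_nonpos (by linarith)]; ring
          rw [e1, abs_le]
          constructor <;> linarith
        · simp only [Complex.sub_im, Complex.add_im, Complex.mul_im, Complex.ofReal_re,
            Complex.ofReal_im, Complex.I_re, Complex.I_im, mul_zero, mul_one, zero_mul, add_zero,
            zero_add, zero_sub]
          have e1 : |(-ψ - τ * ζ.im)| = ψ + τ * ζ.im := by
            rw [abs_of_nonpos (by linarith)]; ring
          rw [e1]
          rcases le_total 0 (ψ - τ * ζ.im) with h6 | h6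
          · rw [abs_of_nonneg h6]; linarith
          · rw [abs_of_nonpos h6]; linarith)
      linarith) (by
      intro ζ hζ him
      rw [hTim]
      have hζR : ‖ζ‖ < R := by rw [hζ]; exact hR1
      have hab := hlog _ _ (hmem2 ζ hζR) (hmem1 ζ hζR) (by
        have hre : |ζ.re| ≤ 1 := by rw [← hζ]; exact Complex.abs_re_le_norm ζ
        have him' : |ζ.im| ≤ 1 := by rw [← hζ]; exact Complex.abs_im_le_norm ζ
        rw [abs_le] at hre him'
        have hτi1 : τ * ζ.im ≤ 0 := mul_nonpos_of_nonneg_of_nonpos hτ0.le him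
        have hτi2 : -τ ≤ τ * ζ.im := by nlinarith [him'.1]
        apply hcomp
        · simp only [Complex.sub_re, Complex.add_re, Complex.mul_re, Complex.ofReal_re,
            Complex.ofReal_im, Complex.I_re, Complex.I_im, mul_zero, mul_one, zero_mul, sub_zero,
            add_zero]
          nlinarith [hre.2]
        · simp
        · simp only [Complex.sub_im, Complex.add_im, Complex.mul_im, Complex.ofReal_re,
            Complex.ofReal_im, Complex.I_re, Complex.I_im, mul_zero, mul_one, zero_mul, add_zero,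
            zero_add, zero_sub]
          have e1 : |(ψ - τ * ζ.im)| = ψ - τ * ζ.im := abs_of_nonneg (by linarith)
          rw [e1, abs_le]
          constructor <;> linarith
        · simp only [Complex.sub_im, Complex.add_im, Complex.mul_im, Complex.ofReal_re,
            Complex.ofReal_im, Complex.I_re, Complex.I_im, mul_zero, mul_one, zero_mul, add_zero,
            zero_add, zero_sub]
          have e1 : |(ψ - τ * ζ.im)| = ψ - τ * ζ.im := abs_of_nonneg (by linarith)
          rw [e1]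
          rcases le_total 0 (-ψ - τ * ζ.im) with h6 | h6
          · rw [abs_of_nonneg h6]; linarith
          · rw [abs_of_nonpos h6]; linarith)
      linarith)
  have h1 := hPre 0 (by rw [norm_zero]; exact one_pos)
  rw [hP0, hTd0] at h1
  have h2 : (((2 * τ * (KK f (s + ψ * I)).im : ℝ) : ℂ) + 2 * (η:ℂ)).re =
      2 * τ * (KK f (s + ψ * I)).im + 2 * η := by
    rw [Complex.add_re, Complex.ofReal_re]
    simp
  rw [h2] at h1
  have h3 : C * Real.exp (κ * τ) / τ * Real.exp (-(κ * s)) = η / τ := by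
    rw [hη]
    have : Real.exp (-(κ * (s - τ))) = Real.exp (κ * τ) * Real.exp (-(κ * s)) := by
      rw [← Real.exp_add]; congr 1; ring
    rw [this]; ring
  rw [h3, ← neg_div, div_le_iff₀ hτ0]
  linarith

end Pool.Agent.helper38.LacA
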