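import Pool.Agent.helper38.LacD

set_option autoImplicit false

namespace Pool.Agent.helper38.LacA

open Filter Topology Complex Metric Pool.Agent.helper38.NNF
open scoped ComplexOrder Nat ComplexConjugate

/-- Euler derivative `z f'(z)` -/
noncomputable def DD (f : ℂ → ℂ) (z : ℂ) : ℂ := z ^ 1 * deriv f z

theorem tc_DD {f : ℂ → ℂ} (hf : Differentiable ℂ f) (k : ℕ) : tc (DD f) k = (k : ℂ) * tc f k := by
  unfold DD
  rw [tc_pow_mul hf.deriv]
  rcases Nat.eq_zero_or_pos k with rfl | hk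
  · simp
  · rw [if_pos (by omega), tc_deriv]
    have h1 : k - 1 + 1 = k := by omega
    rw [h1]
    congr 1
    rw [Nat.cast_sub (by omega)]
    push_cast; ring

theorem nn_DD {f : ℂ → ℂ} (hf : NN f) : NN (DD f) := by
  refine ⟨?_, fun k => ?_⟩
  · unfold DD
    have := hf.1.deriv
    fun_prop
  · rw [tc_DD hf.1]
    have h1 : (0:ℂ) ≤ (k:ℂ) := by exact_mod_cast Nat.zero_le k
    exact mul_nonneg h1 (hf.2 k)

theorem tc_DD_re {f : ℂ → ℂ} (hf : Differentiable ℂ f) (k : ℕ) :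
    (tc (DD f) k).re = (k : ℝ) * (tc f k).re := by
  rw [tc_DD hf, ← Complex.ofReal_natCast, Complex.re_ofReal_mul]

theorem deriv_FF {f : ℂ → ℂ} (hf : Differentiable ℂ f) (w : ℂ) : deriv (FF f) w = FF (DD f) w := by
  have h1 : HasDerivAt (FF f) (deriv f (Complex.exp w) * Complex.exp w) w :=
    (hf (Complex.exp w)).hasDerivAt.comp w (Complex.hasDerivAt_exp w)
  rw [h1.deriv]
  unfold FF DD
  ring

theorem KK_eq {f : ℂ → ℂ} (hf : Differentiable ℂ f) (w : ℂ) : KK f w = FF (DD f) w / FF f w := by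
  unfold KK; rw [deriv_FF hf]

theorem VV_pos {f : ℂ → ℂ} {s₀ b c : ℝ} (h : Hyp f s₀ b c) {s : ℝ} (hs : s₀ ≤ s) : 0 < VV f s :=
  lt_of_lt_of_le one_pos (h.one_le s hs)

theorem KK_re_real {f : ℂ → ℂ} (hf : NN f) (s : ℝ) : (KK f (s:ℂ)).re = VV (DD f) s / VV f s := by
  rw [KK_eq hf.1, FF_real hf, FF_real (nn_DD hf), ← Complex.ofReal_div, Complex.ofReal_re]

theorem KK_ofReal {f : ℂ → ℂ} (hf : NN f) (s : ℝ) : KK f (s:ℂ) = ((VV (DD f) s / VV f s : ℝ) : ℂ) := by
  rw [KK_eq hf.1, FF_real hf, FF_real (nn_DD hf), ← Complex.ofReal_div]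

theorem Hyp.deriv_KK {f : ℂ → ℂ} {s₀ b c : ℝ} (h : Hyp f s₀ b c) {s : ℝ} (hs : s₀ ≤ s) :
    (deriv (KK f) (s:ℂ)).re = VV (DD (DD f)) s / VV f s - (VV (DD f) s / VV f s) ^ 2 := by
  have hf := h.nn
  have hne : FF f s ≠ 0 := by
    rw [FF_real hf]
    exact_mod_cast (VV_pos h hs).ne'
  have e : KK f = fun w => FF (DD f) w / FF f w := by funext w; exact KK_eq hf.1 w
  have h1 : HasDerivAt (FF f) (FF (DD f) s) s := by
    rw [← deriv_FF hf.1]; exact (FF_differentiable hf s).hasDerivAt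
  have h2 : HasDerivAt (FF (DD f)) (FF (DD (DD f)) s) s := by
    rw [← deriv_FF (nn_DD hf).1]; exact (FF_differentiable (nn_DD hf) s).hasDerivAt
  have h3 := h2.fun_div h1 hne
  rw [e, h3.deriv, FF_real hf, FF_real (nn_DD hf), FF_real (nn_DD (nn_DD hf))]
  rw [← Complex.ofReal_mul, ← Complex.ofReal_mul, ← Complex.ofReal_sub, ← Complex.ofReal_pow,
    ← Complex.ofReal_div, Complex.ofReal_re]
  have := (VV_pos h hs).ne'
  field_simp

theorem hasSum_VV {f : ℂ → ℂ} (hf : NN f) (s : ℝ) :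
    HasSum (fun k : ℕ => (tc f k).re * Real.exp (k * s)) (VV f s) := by
  have h := hasSum_val hf (Real.exp s)
  refine h.congr_fun ?_ |> fun h => h
  intro k
  rw [← Real.exp_nat_mul]

/-- variance bound at a gap -/
theorem Hyp.variance {f : ℂ → ℂ} {s₀ b c : ℝ} (h : Hyp f s₀ b c) {s : ℝ} (hs : s₀ ≤ s) {N n : ℕ}
    (hgap : ∀ k, N < k → k < N + n → tc f k = 0) :
    ((KK f s).re - N) * (N + n - (KK f s).re) ≤ (deriv (KK f) (s:ℂ)).re := by
  have hf := h.nn
  rw [h.deriv_KK hs, KK_re_real hf]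
  set V := VV f s
  set V1 := VV (DD f) s
  set V2 := VV (DD (DD f)) s
  have hV : 0 < V := VV_pos h hs
  have s0 := hasSum_VV hf s
  have s1 := hasSum_VV (nn_DD hf) s
  have s2 := hasSum_VV (nn_DD (nn_DD hf)) s
  have hsum := (s2.sub (s1.mul_left (2 * (N:ℝ) + n))).add (s0.mul_left ((N:ℝ) * (N + n)))
  have hnn : 0 ≤ V2 - (2 * (N:ℝ) + n) * V1 + (N:ℝ) * (N + n) * V := by
    apply hsum.nonneg
    intro k
    rw [tc_DD_re (nn_DD hf).1, tc_DD_re hf.1]
    have e : (k:ℝ) * ((k:ℝ) * (tc f k).re) * Real.exp (k * s) -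
        (2 * (N:ℝ) + n) * ((k:ℝ) * (tc f k).re * Real.exp (k * s)) +
        (N:ℝ) * (N + n) * ((tc f k).re * Real.exp (k * s)) =
        ((tc f k).re * Real.exp (k * s)) * (((k:ℝ) - N) * ((k:ℝ) - (N + n))) := by ring
    rw [e]
    rcases Nat.lt_or_ge N k with h1 | h1
    · rcases Nat.lt_or_ge k (N + n) with h2 | h2
      · rw [hgap k h1 h2]; simp
      · apply mul_nonneg (mul_nonneg (tc_re_nonneg hf k) (Real.exp_pos _).le)
        have e1 : (N:ℝ) ≤ k := by exact_mod_cast h1.le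
        have e2 : (N:ℝ) + n ≤ k := by exact_mod_cast h2
        exact mul_nonneg (by linarith) (by linarith)
    · apply mul_nonneg (mul_nonneg (tc_re_nonneg hf k) (Real.exp_pos _).le)
      have e1 : (k:ℝ) ≤ N := by exact_mod_cast h1
      have e2 : (0:ℝ) ≤ n := Nat.cast_nonneg n
      exact mul_nonneg_of_nonpos_of_nonpos (by linarith) (by linarith)
  have h4 : 0 ≤ (V2 - (2 * (N:ℝ) + n) * V1 + (N:ℝ) * (N + n) * V) / V := div_nonneg hnn hV.le
  have h5 : (V2 - (2 * (N:ℝ) + n) * V1 + (N:ℝ) * (N + n) * V) / V =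
      V2 / V - (2 * (N:ℝ) + n) * (V1 / V) + (N:ℝ) * (N + n) := by field_simp
  rw [h5] at h4
  nlinarith

theorem Hyp.continuousOn_K {f : ℂ → ℂ} {s₀ b c : ℝ} (h : Hyp f s₀ b c) :
    ContinuousOn (fun s : ℝ => (KK f (s:ℂ)).re) (Set.Ioi s₀) := by
  intro s hs
  have h1 : ContinuousAt (KK f) (s:ℂ) :=
    (h.KK_differentiableAt (by simpa using hs) (by simpa using h.bpos)).continuousAt
  have h2 : ContinuousAt (fun s : ℝ => (KK f (s:ℂ))) s :=
    ContinuousAt.comp (f := fun s : ℝ => (s:ℂ)) h1 Complex.continuous_ofReal.continuousAt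
  exact (Complex.continuous_re.continuousAt.comp h2).continuousWithinAt

theorem hasDerivAt_VV {f : ℂ → ℂ} (hf : NN f) (s : ℝ) : HasDerivAt (VV f) (VV (DD f) s) s := by
  have h1 : HasDerivAt (FF f) (FF (DD f) s) (s:ℂ) := by
    rw [← deriv_FF hf.1]; exact (FF_differentiable hf s).hasDerivAt
  have h2 := h1.real_of_complex
  rw [FF_real (nn_DD hf), Complex.ofReal_re] at h2
  have h3 : (fun x : ℝ => (FF f (x:ℂ)).re) = VV f := by
    funext x; rw [FF_real hf, Complex.ofReal_re]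
  rwa [h3] at h2

/-- `K` is unbounded -/
theorem Hyp.exists_K_ge {f : ℂ → ℂ} {s₀ b c : ℝ} (h : Hyp f s₀ b c)
    (hinf : {k : ℕ | tc f k ≠ 0}.Infinite) (M S : ℝ) (hS : s₀ ≤ S) :
    ∃ s : ℝ, S ≤ s ∧ M ≤ (KK f (s:ℂ)).re := by
  by_contra hcon
  push Not at hcon
  have hf := h.nn
  have hanti : AntitoneOn (fun s => VV f s * Real.exp (-(M * s))) (Set.Ici S) := by
    have hd : ∀ s : ℝ, HasDerivAt (fun s => VV f s * Real.exp (-(M * s)))
        (VV (DD f) s * Real.exp (-(M * s)) + VV f s * (Real.exp (-(M * s)) * (-M))) s := by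
      intro s
      have h1 : HasDerivAt (fun s : ℝ => -(M * s)) (-M) s := by
        simpa using ((hasDerivAt_id s).const_mul M).fun_neg
      exact (hasDerivAt_VV hf s).fun_mul h1.exp
    apply antitoneOn_of_deriv_nonpos (convex_Ici S)
    · intro s _; exact (hd s).continuousAt.continuousWithinAt
    · intro s _; exact (hd s).differentiableAt.differentiableWithinAt
    · intro s hs
      rw [interior_Ici] at hs
      have hs' : S < s := hs
      rw [(hd s).deriv]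
      have h2 := hcon s hs'.le
      rw [KK_re_real hf, div_lt_iff₀ (VV_pos h (hS.trans hs'.le))] at h2
      have h3 := Real.exp_pos (-(M * s))
      nlinarith
  obtain ⟨k, hk, hkM⟩ : ∃ k : ℕ, tc f k ≠ 0 ∧ M < k := by
    obtain ⟨k, hk1, hk2⟩ := hinf.exists_gt (⌈M⌉₊)
    exact ⟨k, hk1, (Nat.le_ceil M).trans_lt (by exact_mod_cast hk2)⟩
  set C : ℝ := VV f S * Real.exp (-(M * S)) with hC
  have hak : 0 < (tc f k).re := by
    apply lt_of_le_of_ne (tc_re_nonneg hf k)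
    intro h0
    apply hk
    rw [tc_re hf k, ← h0, Complex.ofReal_zero]
  have hb1 : ∀ s : ℝ, S ≤ s → (tc f k).re * Real.exp (((k:ℝ) - M) * s) ≤ C := by
    intro s hs
    have h1 := hanti (Set.mem_Ici.mpr le_rfl) (Set.mem_Ici.mpr hs) hs
    simp only at h1
    have h2 : (tc f k).re * Real.exp (k * s) ≤ VV f s :=
      le_hasSum (hasSum_VV hf s) k (fun j _ => mul_nonneg (tc_re_nonneg hf j) (Real.exp_pos _).le)
    have h3 : (tc f k).re * Real.exp (((k:ℝ) - M) * s) =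
        (tc f k).re * Real.exp (k * s) * Real.exp (-(M * s)) := by
      rw [mul_assoc, ← Real.exp_add]; congr 2; ring
    rw [h3]
    have h4 := mul_le_mul_of_nonneg_right h2 (Real.exp_pos (-(M * s))).le
    linarith
  have hlim : Tendsto (fun s : ℝ => (tc f k).re * Real.exp (((k:ℝ) - M) * s)) atTop atTop := by
    apply Tendsto.const_mul_atTop hak
    apply Real.tendsto_exp_atTop.comp
    exact Tendsto.const_mul_atTop (by linarith) tendsto_id
  obtain ⟨s, hs1, hs2⟩ := ((hlim.eventually_gt_atTop C).and (eventually_ge_atTop S)).exists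
  exact absurd (hb1 s hs2) (not_le.mpr hs1)

/-- existence of the centres -/
theorem Hyp.exists_center {f : ℂ → ℂ} {s₀ b c : ℝ} (h : Hyp f s₀ b c)
    (hinf : {k : ℕ | tc f k ≠ 0}.Infinite) {R : ℝ} (hR : s₀ < R) {M : ℝ}
    (hM : (KK f (R:ℂ)).re ≤ M) : ∃ s : ℝ, R ≤ s ∧ (KK f (s:ℂ)).re = M := by
  obtain ⟨s', hs', hK⟩ := h.exists_K_ge hinf M R hR.le
  have hcont : ContinuousOn (fun s : ℝ => (KK f (s:ℂ)).re) (Set.Icc R s') :=
    h.continuousOn_K.mono (fun x hx => lt_of_lt_of_le hR hx.1)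
  have h1 := intermediate_value_Icc hs' hcont
  obtain ⟨s, hs, hs2⟩ := h1 ⟨hM, hK⟩
  exact ⟨s, hs.1, hs2⟩

end Pool.Agent.helper38.LacA
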