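import Pool.Agent.helper38.LacV

set_option autoImplicit false

namespace Pool.Agent.helper38.LacA

open Filter Topology Complex Metric Pool.Agent.helper38.NNF MeasureTheory
open scoped ComplexOrder Nat ComplexConjugate

/-- the extremal weight -/
noncomputable def WW (n T a θ : ℝ) : ℝ :=
  (n ^ 2 / 4 - a ^ 2) / 2 * ((T - θ) * Real.cos (a * θ)) + (n ^ 2 / (4 * a) + a) / 2 * Real.sin (a * θ)

theorem WW_integral {n T x : ℝ} (hT : 0 < T) (hn : 2 * Real.pi < n * T)
    (hx : n ^ 2 / 4 ≤ x ^ 2) :
    ∫ θ in (0:ℝ)..T, WW n T (Real.pi / T) θ * Real.cos (x * θ) ≤ 0 := by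
  set a : ℝ := Real.pi / T with ha
  have hpi := Real.pi_pos
  have ha0 : 0 < a := by positivity
  have haT : a * T = Real.pi := by rw [ha]; field_simp
  have han : a ^ 2 < n ^ 2 / 4 := by
    have h1 : 2 * a < n := by
      have : 2 * (a * T) < n * T := by rw [haT]; exact hn
      nlinarith
    nlinarith
  set D : ℝ := x ^ 2 - a ^ 2 with hD
  have hD0 : 0 < D := by rw [hD]; linarith
  set α : ℝ := (n ^ 2 / 4 - a ^ 2) / 2 with hα
  set γ : ℝ := (n ^ 2 / (4 * a) + a) / 2 with hγ
  have hγa : γ * a = α + a ^ 2 := by rw [hγ, hα]; field_simp; ring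
  set p1 : ℝ := -α * a / D with hp1
  set p2 : ℝ := α * x / D with hp2
  set p3 : ℝ := a ^ 2 * (x ^ 2 - n ^ 2 / 4) / D ^ 2 with hp3
  set p4 : ℝ := (p2 + x * p3) / a with hp4
  set Ψ : ℝ → ℝ := fun θ => (T - θ) * (p1 * (Real.sin (a * θ) * Real.cos (x * θ)) +
    p2 * (Real.cos (a * θ) * Real.sin (x * θ))) + p3 * (Real.cos (a * θ) * Real.cos (x * θ)) +
    p4 * (Real.sin (a * θ) * Real.sin (x * θ)) with hΨ
  have hderiv : ∀ θ : ℝ, HasDerivAt Ψ (WW n T a θ * Real.cos (x * θ)) θ := by
    intro θ
    have hsa : HasDerivAt (fun θ => Real.sin (a * θ)) (Real.cos (a * θ) * a) θ := by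
      simpa using ((hasDerivAt_id θ).const_mul a).sin
    have hca : HasDerivAt (fun θ => Real.cos (a * θ)) (-Real.sin (a * θ) * a) θ := by
      simpa using ((hasDerivAt_id θ).const_mul a).cos
    have hsx : HasDerivAt (fun θ => Real.sin (x * θ)) (Real.cos (x * θ) * x) θ := by
      simpa using ((hasDerivAt_id θ).const_mul x).sin
    have hcx : HasDerivAt (fun θ => Real.cos (x * θ)) (-Real.sin (x * θ) * x) θ := by
      simpa using ((hasDerivAt_id θ).const_mul x).cos
    have hl : HasDerivAt (fun θ : ℝ => T - θ) (-1) θ := by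
      simpa using (hasDerivAt_id θ).const_sub T
    have h1 := ((hl.fun_mul (((hsa.fun_mul hcx).const_mul p1).fun_add ((hca.fun_mul hsx).const_mul p2))).fun_add
      ((hca.fun_mul hcx).const_mul p3)).fun_add ((hsa.fun_mul hsx).const_mul p4)
    refine h1.congr_deriv ?_
    unfold WW
    rw [← hα, ← hγ]
    -- coefficient identities
    have e1 : p1 * a + p2 * x = α := by
      rw [hp1, hp2]; field_simp; rw [hD]; ring
    have e2 : p1 * x + p2 * a = 0 := by
      rw [hp1, hp2]; field_simp; ring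
    have e3 : p4 * a = p2 + x * p3 := by rw [hp4]; field_simp
    have e4 : -p1 - p3 * a + p4 * x = γ := by
      have h2 : (-p1 - p3 * a + p4 * x) * a = γ * a := by
        have h3 : p4 * x * a = x * (p2 + x * p3) := by rw [← e3]; ring
        have h4 : (-p1 - p3 * a + p4 * x) * a = -p1 * a + p2 * x + p3 * D := by
          rw [hD]; linear_combination h3
        rw [h4, hγa, hp1, hp2, hp3]
        field_simp
        rw [hD, hα]; ring
      exact mul_right_cancel₀ ha0.ne' h2
    linear_combination ((T - θ) * Real.cos (a * θ) * Real.cos (x * θ)) * e1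
      - ((T - θ) * Real.sin (a * θ) * Real.sin (x * θ)) * e2
      + (Real.cos (a * θ) * Real.sin (x * θ)) * e3
      + (Real.sin (a * θ) * Real.cos (x * θ)) * e4
  have hcont : Continuous (fun θ => WW n T a θ * Real.cos (x * θ)) := by
    unfold WW
    fun_prop
  rw [intervalIntegral.integral_eq_sub_of_hasDerivAt (fun θ _ => hderiv θ)
    (hcont.intervalIntegrable _ _)]
  simp only [hΨ]
  rw [haT, Real.cos_pi, Real.sin_pi]
  simp only [mul_zero, Real.sin_zero, Real.cos_zero, zero_mul]
  have hp30 : 0 ≤ p3 := by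
    rw [hp3]
    apply div_nonneg _ (by positivity)
    apply mul_nonneg (by positivity) (by linarith)
  have hc := Real.neg_one_le_cos (x * T)
  nlinarith

end Pool.Agent.helper38.LacA
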