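import Pool.Agent.helper38.NNFun2

set_option autoImplicit false

namespace Pool.Agent.helper38.NNF

open Finset Filter Topology Complex
open scoped ComplexOrder Nat

theorem NN.congr {F G : ℂ → ℂ} (hF : NN F) (h : ∀ z, G z = F z) : NN G := by
  have : G = F := funext h
  rw [this]; exact hF

theorem half_nonneg : (0:ℂ) ≤ (1/2 : ℂ) := by
  have : (0:ℂ) ≤ ((1/2 : ℝ) : ℂ) := by rw [Complex.zero_le_real]; norm_num
  simpa using this

theorem exp_pm {A N : ℂ → ℂ} (h1 : NN (fun z => A z - N z)) (h2 : NN (fun z => A z + N z)) :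
    NN (fun z => Complex.exp (A z) - Complex.exp (- N z)) ∧
    NN (fun z => Complex.exp (A z) + Complex.exp (- N z)) := by
  have hP : NN (fun z => (1/2 : ℂ) * (A z - N z)) := h1.const_mul half_nonneg
  have hM : NN (fun z => (1/2 : ℂ) * (A z + N z)) := h2.const_mul half_nonneg
  have hEP := nn_exp.comp hP
  have hs := nn_sinh2.comp hM
  have hc := nn_cosh2.comp hM
  have e1 : ∀ z, Complex.exp (A z) = Complex.exp ((1/2 : ℂ) * (A z - N z)) *
      Complex.exp ((1/2 : ℂ) * (A z + N z)) := by
    intro z; rw [← Complex.exp_add]; congr 1; ring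
  have e2 : ∀ z, Complex.exp (- N z) = Complex.exp ((1/2 : ℂ) * (A z - N z)) *
      Complex.exp (-((1/2 : ℂ) * (A z + N z))) := by
    intro z; rw [← Complex.exp_add]; congr 1; ring
  constructor
  · refine (hEP.mul hs).congr (fun z => ?_)
    rw [e1, e2]; ring
  · refine (hEP.mul hc).congr (fun z => ?_)
    rw [e1, e2]; ring

theorem tc_bounds {Y g : ℂ → ℂ} (hY : Differentiable ℂ Y) (hg : Differentiable ℂ g)
    (h1 : NN (fun z => Y z - g z)) (h2 : NN (fun z => Y z + g z)) (k : ℕ) :
    - tc Y k ≤ tc g k ∧ tc g k ≤ tc Y k := by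
  have a1 := h1.2 k
  have a2 := h2.2 k
  rw [tc_sub hY hg] at a1
  rw [tc_add hY hg] at a2
  constructor
  · have : 0 ≤ tc g k - (- tc Y k) := by rw [sub_neg_eq_add, add_comm]; exact a2
    exact sub_nonneg.mp this
  · exact sub_nonneg.mp a1

theorem ofReal_im_zero {x y : ℂ} (hy : 0 ≤ y) (h1 : -y ≤ x) (h2 : x ≤ y) :
    x = (x.re : ℂ) ∧ |x.re| ≤ y.re := by
  rw [Complex.nonneg_iff] at hy
  rw [Complex.le_def] at h1 h2
  constructor
  · apply Complex.ext
    · simp
    · simp only [Complex.ofReal_im]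
      rw [h2.2]; exact hy.2.symm
  · rw [abs_le]
    exact ⟨by simpa using h1.1, h2.1⟩

theorem cancel (m : ℕ) : ∀ (f : ℂ → ℂ), NN f → f 0 = 1 → ∀ (ρ : ℝ), 0 < ρ → ∀ ε : ℝ, 0 < ε →
    ∃ P : ℕ, ∀ p, P ≤ p → ∃ N A : ℂ → ℂ, Differentiable ℂ N ∧ NN A ∧ N 0 = 0 ∧
      NN (fun z => A z - N z) ∧ NN (fun z => A z + N z) ∧ val A ρ ≤ ε ∧
      (∀ k, k ≤ p → tc (fun z => f z * Complex.exp (- N z)) k = tc f k) ∧
      (∀ k, p < k → k ≤ p + m → tc (fun z => f z * Complex.exp (- N z)) k = 0) := by
  induction m with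
  | zero =>
    intro f hf hf0 ρ hρ ε hε
    refine ⟨0, fun p _ => ⟨fun _ => 0, fun _ => 0, by fun_prop, NN.const le_rfl, rfl, ?_, ?_, ?_,
      ?_, ?_⟩⟩
    · exact (NN.const (le_refl (0:ℂ))).congr (fun z => by simp)
    · exact (NN.const (le_refl (0:ℂ))).congr (fun z => by simp)
    · simp [val]; exact hε.le
    · intro k _; simp
    · intro k h1 h2; omega
  | succ m ih =>
    intro f hf hf0 ρ hρ ε hε
    obtain ⟨P₁, hP₁⟩ := ih f hf hf0 (2 * ρ) (by positivity) (min 1 (ε / 2)) (by positivity)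
    -- geometric decay
    set K : ℝ := val f (2 * ρ) * Real.exp 1 with hK
    have hK0 : 0 ≤ K := by
      have := val_nonneg hf (r := 2 * ρ) (by positivity)
      positivity
    obtain ⟨L, hL⟩ := exists_pow_lt_of_lt_one (show (0:ℝ) < ε / 2 / (K + 1) by positivity)
      (show (1/2 : ℝ) < 1 by norm_num)
    refine ⟨max P₁ L, fun p hp => ?_⟩
    obtain ⟨N, A, hNd, hA, hN0, h1, h2, hval, hlow, hzero⟩ := hP₁ p (le_trans (le_max_left _ _) hp)
    set l : ℕ := p + m + 1 with hl
    set g : ℂ → ℂ := fun z => f z * Complex.exp (- N z) with hg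
    set Y : ℂ → ℂ := fun z => f z * Complex.exp (A z) with hY
    have hYNN : NN Y := hf.mul (nn_exp.comp hA)
    have hgd : Differentiable ℂ g := hf.1.mul (Complex.differentiable_exp.comp hNd.neg)
    obtain ⟨e1, e2⟩ := exp_pm h1 h2
    have hYg1 : NN (fun z => Y z - g z) := (hf.mul e1).congr (fun z => by simp only [hY, hg]; ring)
    have hYg2 : NN (fun z => Y z + g z) := (hf.mul e2).congr (fun z => by simp only [hY, hg]; ring)
    obtain ⟨b1, b2⟩ := tc_bounds hYNN.1 hgd hYg1 hYg2 l
    obtain ⟨hcre, hcabs⟩ := ofReal_im_zero (hYNN.2 l) b1 b2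
    set c : ℝ := (tc g l).re with hc
    -- size of c
    have hvalA2 : val A (2 * ρ) ≤ 1 := hval.trans (min_le_left _ _)
    have hvalY : val Y (2 * ρ) ≤ K := by
      rw [hY, val_mul hf (nn_exp.comp hA), val_exp_comp hA, hK]
      apply mul_le_mul_of_nonneg_left _ (val_nonneg hf (by positivity))
      exact Real.exp_le_exp.mpr hvalA2
    have hcρ : |c| * ρ ^ l ≤ ε / 2 := by
      have h3 := coef_le_val hYNN (r := 2 * ρ) (by positivity) l
      have h4 : |c| * (2 * ρ) ^ l ≤ K :=
        (mul_le_mul_of_nonneg_right hcabs (by positivity)).trans (h3.trans hvalY)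
      rw [mul_pow] at h4
      have h5 : (1/2 : ℝ) ^ l ≤ (1/2 : ℝ) ^ L :=
        pow_le_pow_of_le_one (by norm_num) (by norm_num) (by
          have := le_trans (le_max_right P₁ L) hp
          omega)
      have h6 : (1/2 : ℝ) ^ l * 2 ^ l = 1 := by rw [← mul_pow]; norm_num
      have h7 : |c| * ρ ^ l = (1/2 : ℝ) ^ l * (|c| * (2 ^ l * ρ ^ l)) := by
        calc |c| * ρ ^ l = ((1/2 : ℝ) ^ l * 2 ^ l) * (|c| * ρ ^ l) := by rw [h6, one_mul]
          _ = _ := by ring
      rw [h7]
      have h8 : (1/2 : ℝ) ^ l * (|c| * (2 ^ l * ρ ^ l)) ≤ (1/2 : ℝ) ^ l * K :=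
        mul_le_mul_of_nonneg_left h4 (by positivity)
      have h9 : (1/2 : ℝ) ^ l * K ≤ (ε / 2 / (K + 1)) * K :=
        mul_le_mul_of_nonneg_right (h5.trans hL.le) hK0
      have h10 : (ε / 2 / (K + 1)) * K ≤ ε / 2 := by
        rw [div_mul_eq_mul_div, div_le_iff₀ (by positivity)]
        nlinarith
      linarith
    -- the new functions
    have hcabs' : (0:ℂ) ≤ ((|c| : ℝ) : ℂ) := by rw [Complex.zero_le_real]; positivity
    have hcm : (0:ℂ) ≤ ((|c| - c : ℝ) : ℂ) := by
      rw [Complex.zero_le_real]; have := le_abs_self c; linarith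
    have hcp : (0:ℂ) ≤ ((|c| + c : ℝ) : ℂ) := by
      rw [Complex.zero_le_real]; have := neg_abs_le c; linarith
    have hval' : val A ρ ≤ ε / 2 :=
      (val_mono hA hρ.le (by linarith)).trans (hval.trans (min_le_right _ _))
    refine ⟨fun z => N z + (c : ℂ) * z ^ l, fun z => A z + ((|c| : ℝ) : ℂ) * z ^ l, by fun_prop,
      hA.add ((NN.pow_id l).const_mul hcabs'), ?_, ?_, ?_, ?_, ?_⟩
    · show N 0 + (c : ℂ) * 0 ^ l = 0
      rw [hN0, zero_pow (by omega)]; simp
    · refine (h1.add ((NN.pow_id l).const_mul hcm)).congr (fun z => ?_)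
      push_cast; ring
    · refine (h2.add ((NN.pow_id l).const_mul hcp)).congr (fun z => ?_)
      push_cast; ring
    · rw [val_add]
      have : val (fun z => ((|c| : ℝ) : ℂ) * z ^ l) ρ = |c| * ρ ^ l := by
        show (((|c| : ℝ) : ℂ) * (ρ:ℂ) ^ l).re = _
        rw [← Complex.ofReal_pow, ← Complex.ofReal_mul, Complex.ofReal_re]
      rw [this]; linarith
    · -- coefficients
      set Kf : ℂ → ℂ := fun z => g z * ((-c : ℂ) * phi ((-c : ℂ) * z ^ l)) with hKf
      have hphi : Differentiable ℂ phi := nn_phi.1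
      have hKd : Differentiable ℂ Kf := by
        apply hgd.mul
        apply Differentiable.const_mul
        exact hphi.comp (by fun_prop)
      have hnew : (fun z => f z * Complex.exp (-(N z + (c:ℂ) * z ^ l))) =
          fun z => g z + z ^ l * Kf z := by
        funext z
        have : Complex.exp (-(N z + (c:ℂ) * z ^ l)) =
            Complex.exp (- N z) * Complex.exp ((-c : ℂ) * z ^ l) := by
          rw [← Complex.exp_add]; congr 1; ring
        rw [this, phi_spec ((-c : ℂ) * z ^ l)]
        simp only [hg, hKf]; ring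
      have htc : ∀ k, tc (fun z => f z * Complex.exp (-(N z + (c:ℂ) * z ^ l))) k =
          tc g k + if l ≤ k then tc Kf (k - l) else 0 := by
        intro k
        rw [hnew, tc_add hgd (by fun_prop), tc_pow_mul hKd]
      constructor
      · intro k hk
        rw [htc, if_neg (by omega), add_zero]
        exact hlow k hk
      · intro k hk1 hk2
        rw [htc]
        rcases lt_or_ge k l with hkl | hkl
        · rw [if_neg (by omega), add_zero]
          exact hzero k hk1 (by omega)
        · have hkl' : k = l := by omega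
          rw [if_pos hkl, hkl', Nat.sub_self, tc_zero]
          have h0 : phi 0 = 1 := by
            have := tc_sh Complex.differentiable_exp 0
            rw [tc_zero, tc_exp] at this
            simpa [phi] using this
          have hg0 : g 0 = 1 := by
            simp only [hg]
            rw [hf0, hN0]; simp
          simp only [hKf]
          rw [zero_pow (by omega), mul_zero, h0, hg0, hcre]
          ring

end Pool.Agent.helper38.NNF
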