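import Mathlib

set_option autoImplicit false

namespace Pool.Agent.helper38.NNF

open Finset Filter Topology Complex
open scoped ComplexOrder Nat

/-- Taylor coefficient at `0`. -/
noncomputable def tc (F : ℂ → ℂ) (k : ℕ) : ℂ := ((k ! : ℕ) : ℂ)⁻¹ * iteratedDeriv k F 0

theorem hasSum_tc {F : ℂ → ℂ} (hF : Differentiable ℂ F) (z : ℂ) :
    HasSum (fun k => tc F k * z ^ k) (F z) := by
  have h := Complex.hasSum_taylorSeries_of_entire hF 0 z
  refine h.congr_fun ?_ |> fun h => h
  intro k
  simp only [tc, smul_eq_mul, sub_zero]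
  ring

theorem tc_zero (F : ℂ → ℂ) : tc F 0 = F 0 := by simp [tc]

theorem tc_deriv (F : ℂ → ℂ) (k : ℕ) : tc (deriv F) k = (k + 1) * tc F (k + 1) := by
  unfold tc
  rw [iteratedDeriv_succ', Nat.factorial_succ]
  push_cast
  have h1 : ((k ! : ℕ) : ℂ) ≠ 0 := by exact_mod_cast Nat.factorial_ne_zero k
  have h2 : ((k : ℂ) + 1) ≠ 0 := by exact_mod_cast Nat.succ_ne_zero k
  field_simp

theorem tc_mul {F G : ℂ → ℂ} (hF : Differentiable ℂ F) (hG : Differentiable ℂ G) (k : ℕ) :
    tc (fun z => F z * G z) k = ∑ i ∈ range (k + 1), tc F i * tc G (k - i) := by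
  unfold tc
  have h := iteratedDeriv_fun_mul (n := k) (x := (0:ℂ)) (f := F) (g := G)
    (hF.contDiff.contDiffAt) (hG.contDiff.contDiffAt)
  rw [h, Finset.mul_sum]
  apply Finset.sum_congr rfl
  intro i hi
  rw [Finset.mem_range] at hi
  have h1 : (k.choose i : ℂ) = (k ! : ℕ) / ((i ! : ℕ) * ((k - i)! : ℕ)) := by
    rw [Nat.choose_eq_factorial_div_factorial (by omega), Nat.cast_div]
    · push_cast; rfl
    · exact Nat.factorial_mul_factorial_dvd_factorial (by omega)
    · have := Nat.factorial_ne_zero i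
      have := Nat.factorial_ne_zero (k - i)
      positivity
  rw [h1]
  have h2 : ((k ! : ℕ) : ℂ) ≠ 0 := by exact_mod_cast Nat.factorial_ne_zero k
  have h3 : ((i ! : ℕ) : ℂ) ≠ 0 := by exact_mod_cast Nat.factorial_ne_zero i
  have h4 : (((k - i)! : ℕ) : ℂ) ≠ 0 := by exact_mod_cast Nat.factorial_ne_zero (k - i)
  field_simp

theorem tc_add {F G : ℂ → ℂ} (hF : Differentiable ℂ F) (hG : Differentiable ℂ G) (k : ℕ) :
    tc (fun z => F z + G z) k = tc F k + tc G k := by
  unfold tc
  rw [iteratedDeriv_fun_add hF.contDiff.contDiffAt hG.contDiff.contDiffAt]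
  ring

theorem tc_neg (F : ℂ → ℂ) (k : ℕ) : tc (fun z => - F z) k = - tc F k := by
  unfold tc
  rw [iteratedDeriv_fun_neg]; ring

theorem tc_sub {F G : ℂ → ℂ} (hF : Differentiable ℂ F) (hG : Differentiable ℂ G) (k : ℕ) :
    tc (fun z => F z - G z) k = tc F k - tc G k := by
  unfold tc
  rw [iteratedDeriv_fun_sub hF.contDiff.contDiffAt hG.contDiff.contDiffAt]
  ring

theorem tc_const_mul {F : ℂ → ℂ} (c : ℂ) (k : ℕ) :
    tc (fun z => c * F z) k = c * tc F k := by
  unfold tc
  rw [iteratedDeriv_const_mul_field]; ring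

theorem tc_const (c : ℂ) (k : ℕ) : tc (fun _ => c) k = if k = 0 then c else 0 := by
  unfold tc
  rw [iteratedDeriv_const]
  split_ifs with h
  · subst h; simp
  · simp

theorem tc_pow (l k : ℕ) : tc (fun z => z ^ l) k = if k = l then 1 else 0 := by
  unfold tc
  rw [iteratedDeriv_fun_pow_zero]
  split_ifs with h
  · subst h
    have : ((k ! : ℕ) : ℂ) ≠ 0 := by exact_mod_cast Nat.factorial_ne_zero k
    field_simp
  · simp

theorem tc_pow_mul {F : ℂ → ℂ} (hF : Differentiable ℂ F) (l k : ℕ) :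
    tc (fun z => z ^ l * F z) k = if l ≤ k then tc F (k - l) else 0 := by
  rw [tc_mul (by fun_prop) hF]
  split_ifs with h
  · rw [Finset.sum_eq_single l]
    · rw [tc_pow, if_pos rfl, one_mul]
    · intro b _ hb
      rw [tc_pow, if_neg hb, zero_mul]
    · intro h'; exact absurd (Finset.mem_range.mpr (by omega)) h'
  · apply Finset.sum_eq_zero
    intro b hb
    rw [Finset.mem_range] at hb
    rw [tc_pow, if_neg (by omega), zero_mul]

/-- entire with nonnegative Taylor coefficients at `0` -/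
def NN (F : ℂ → ℂ) : Prop := Differentiable ℂ F ∧ ∀ k, 0 ≤ tc F k

theorem NN.mul {F G : ℂ → ℂ} (hF : NN F) (hG : NN G) : NN (fun z => F z * G z) := by
  refine ⟨hF.1.mul hG.1, fun k => ?_⟩
  rw [tc_mul hF.1 hG.1]
  exact Finset.sum_nonneg (fun i _ => mul_nonneg (hF.2 _) (hG.2 _))

theorem NN.add {F G : ℂ → ℂ} (hF : NN F) (hG : NN G) : NN (fun z => F z + G z) := by
  refine ⟨hF.1.add hG.1, fun k => ?_⟩
  rw [tc_add hF.1 hG.1]
  exact add_nonneg (hF.2 _) (hG.2 _)

theorem NN.const {c : ℂ} (hc : 0 ≤ c) : NN (fun _ => c) := by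
  refine ⟨differentiable_const _, fun k => ?_⟩
  rw [tc_const]
  split_ifs
  · exact hc
  · exact le_rfl

theorem NN.pow_id (l : ℕ) : NN (fun z => z ^ l) := by
  refine ⟨by fun_prop, fun k => ?_⟩
  rw [tc_pow]
  split_ifs
  · exact zero_le_one
  · exact le_rfl

theorem NN.id : NN (fun z => z) := by
  have := NN.pow_id 1
  simpa using this

theorem NN.const_mul {c : ℂ} (hc : 0 ≤ c) {F : ℂ → ℂ} (hF : NN F) : NN (fun z => c * F z) :=
  (NN.const hc).mul hF

theorem NN.derivNN {F : ℂ → ℂ} (hF : NN F) : NN (deriv F) := by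
  refine ⟨hF.1.deriv, fun k => ?_⟩
  rw [tc_deriv]
  exact mul_nonneg (by positivity) (hF.2 _)

theorem NN.iteratedDeriv_nonneg {F : ℂ → ℂ} (hF : NN F) (k : ℕ) : 0 ≤ iteratedDeriv k F 0 := by
  have h := hF.2 k
  unfold tc at h
  have h2 : ((k ! : ℕ) : ℂ) ≠ 0 := by exact_mod_cast Nat.factorial_ne_zero k
  have h3 : iteratedDeriv k F 0 = ((k ! : ℕ) : ℂ) * (((k ! : ℕ) : ℂ)⁻¹ * iteratedDeriv k F 0) := by
    field_simp
  rw [h3]
  exact mul_nonneg (by positivity) h

theorem nn_of_iteratedDeriv {F : ℂ → ℂ} (hF : Differentiable ℂ F)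
    (h : ∀ k, 0 ≤ iteratedDeriv k F 0) : NN F := by
  refine ⟨hF, fun k => ?_⟩
  unfold tc
  apply mul_nonneg _ (h k)
  have : (0:ℂ) ≤ (((k ! : ℕ) : ℝ)⁻¹ : ℝ) := by
    rw [Complex.zero_le_real]; positivity
  rw [Complex.ofReal_inv, Complex.ofReal_natCast] at this
  exact this

theorem NN.apply_nonneg {F : ℂ → ℂ} (hF : NN F) {x : ℂ} (hx : 0 ≤ x) : 0 ≤ F x := by
  have h := hasSum_tc hF.1 x
  exact h.nonneg (fun k => mul_nonneg (hF.2 k) (pow_nonneg hx k))

theorem NN.comp {F G : ℂ → ℂ} (hF : NN F) (hG : NN G) : NN (fun z => F (G z)) := by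
  apply nn_of_iteratedDeriv (hF.1.comp hG.1)
  intro k
  induction k using Nat.strong_induction_on generalizing F with
  | _ k ih =>
    rcases k with _ | k
    · simp only [iteratedDeriv_zero]
      apply hF.apply_nonneg
      have := hG.2 0
      rwa [tc_zero] at this
    · rw [iteratedDeriv_succ']
      have h1 : deriv (F ∘ G) = fun z => (deriv F ∘ G) z * deriv G z := by
        funext z
        exact ((hF.1 (G z)).hasDerivAt.comp z (hG.1 z).hasDerivAt).deriv
      rw [h1, iteratedDeriv_fun_mul ((hF.1.deriv.comp hG.1).contDiff.contDiffAt)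
        (hG.1.deriv.contDiff.contDiffAt)]
      apply Finset.sum_nonneg
      intro i hi
      rw [Finset.mem_range] at hi
      apply mul_nonneg
      · apply mul_nonneg (by positivity)
        exact ih i (by omega) hF.derivNN
      · exact (hG.derivNN).iteratedDeriv_nonneg _


/-- uniqueness of Taylor coefficients -/
theorem tc_unique {F : ℂ → ℂ} {c : ℕ → ℂ} (h : ∀ z, HasSum (fun k => c k * z ^ k) (F z)) (k : ℕ) :
    tc F k = c k := by
  have hps : HasFPowerSeriesOnBall F (FormalMultilinearSeries.ofScalars ℂ c) 0 ⊤ := by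
    refine ⟨?_, by simp, ?_⟩
    · rw [top_le_iff, FormalMultilinearSeries.radius_eq_top_iff_summable_norm]
      intro r
      have h1 := (h (r:ℂ)).summable.norm
      refine h1.congr (fun n => ?_)
      rw [FormalMultilinearSeries.ofScalars_norm, norm_mul, norm_pow]
      simp
    · intro y _
      have h1 := h y
      rw [zero_add]
      refine h1.congr_fun ?_ |> fun h => h
      intro n
      rw [FormalMultilinearSeries.ofScalars_apply_eq]
      simp [smul_eq_mul]
  have hd : Differentiable ℂ F := by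
    intro z
    exact (hps.differentiableOn.differentiableAt (by simp))
  have h2 := hps.hasFPowerSeriesAt
  have h3 : HasFPowerSeriesAt F (FormalMultilinearSeries.ofScalars ℂ (tc F)) 0 := by
    have hps' : HasFPowerSeriesOnBall F (FormalMultilinearSeries.ofScalars ℂ (tc F)) 0 ⊤ := by
      refine ⟨?_, by simp, ?_⟩
      · rw [top_le_iff, FormalMultilinearSeries.radius_eq_top_iff_summable_norm]
        intro r
        have h1 := (hasSum_tc hd (r:ℂ)).summable.norm
        refine h1.congr (fun n => ?_)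
        rw [FormalMultilinearSeries.ofScalars_norm, norm_mul, norm_pow]
        simp
      · intro y _
        have h1 := hasSum_tc hd y
        rw [zero_add]
        refine h1.congr_fun ?_ |> fun h => h
        intro n
        rw [FormalMultilinearSeries.ofScalars_apply_eq]
        simp [smul_eq_mul]
    exact hps'.hasFPowerSeriesAt
  have h4 := h3.eq_formalMultilinearSeries h2
  have h5 := congrArg (fun p => FormalMultilinearSeries.coeff p k) h4
  simpa using h5

end Pool.Agent.helper38.NNF
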