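import Pool.Agent.helper38.NNFun

set_option autoImplicit false

namespace Pool.Agent.helper38.NNF

open Finset Filter Topology Complex
open scoped ComplexOrder Nat

theorem iteratedDeriv_cexp (k : ℕ) (z : ℂ) : iteratedDeriv k Complex.exp z = Complex.exp z := by
  rw [iteratedDeriv_eq_iterate, Complex.iter_deriv_exp]

theorem nn_exp : NN Complex.exp := by
  apply nn_of_iteratedDeriv Complex.differentiable_exp
  intro k
  rw [iteratedDeriv_cexp]; simp

theorem tc_exp (k : ℕ) : tc Complex.exp k = ((k ! : ℕ) : ℂ)⁻¹ := by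
  unfold tc
  rw [iteratedDeriv_cexp]; simp

theorem tc_exp_neg (k : ℕ) : tc (fun z => Complex.exp (-z)) k = (-1) ^ k * ((k ! : ℕ) : ℂ)⁻¹ := by
  unfold tc
  rw [iteratedDeriv_comp_neg, iteratedDeriv_cexp]; simp [mul_comm]

theorem fact_inv_nonneg (k : ℕ) : (0:ℂ) ≤ ((k ! : ℕ) : ℂ)⁻¹ := by
  have : (0:ℂ) ≤ (((k ! : ℕ) : ℝ)⁻¹ : ℝ) := by
    rw [Complex.zero_le_real]; positivity
  rwa [Complex.ofReal_inv, Complex.ofReal_natCast] at this

theorem nn_sinh2 : NN (fun z => Complex.exp z - Complex.exp (-z)) := by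
  refine ⟨by fun_prop, fun k => ?_⟩
  rw [tc_sub (by fun_prop) (by fun_prop), tc_exp_neg, tc_exp]
  have h := fact_inv_nonneg k
  rcases neg_one_pow_eq_or ℂ k with h1 | h1
  · rw [h1]; simp
  · rw [h1]
    have : ((k ! : ℕ) : ℂ)⁻¹ - -1 * ((k ! : ℕ) : ℂ)⁻¹ = ((k ! : ℕ) : ℂ)⁻¹ + ((k ! : ℕ) : ℂ)⁻¹ := by ring
    rw [this]; exact add_nonneg h h

theorem nn_cosh2 : NN (fun z => Complex.exp z + Complex.exp (-z)) := by
  refine ⟨by fun_prop, fun k => ?_⟩
  rw [tc_add (by fun_prop) (by fun_prop), tc_exp_neg, tc_exp]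
  have h := fact_inv_nonneg k
  rcases neg_one_pow_eq_or ℂ k with h1 | h1
  · rw [h1, one_mul]; exact add_nonneg h h
  · rw [h1]; simp

/-- division by `z` after removing the constant term -/
noncomputable def sh (F : ℂ → ℂ) : ℂ → ℂ := dslope F 0

theorem sh_differentiable {F : ℂ → ℂ} (hF : Differentiable ℂ F) : Differentiable ℂ (sh F) := by
  have h : DifferentiableOn ℂ (dslope F 0) Set.univ :=
    (Complex.differentiableOn_dslope Filter.univ_mem).mpr hF.differentiableOn
  exact differentiableOn_univ.mp h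

theorem sh_spec (F : ℂ → ℂ) (z : ℂ) : F z = F 0 + z * sh F z := by
  have := sub_smul_dslope F 0 z
  rw [sub_zero, smul_eq_mul] at this
  unfold sh
  rw [this]; ring

theorem tc_sh {F : ℂ → ℂ} (hF : Differentiable ℂ F) (k : ℕ) : tc (sh F) k = tc F (k + 1) := by
  have h1 : F = fun z => F 0 + z ^ 1 * sh F z := by
    funext z; rw [pow_one]; exact sh_spec F z
  have h2 := sh_differentiable hF
  conv_rhs => rw [h1]
  rw [tc_add (by fun_prop) (by fun_prop), tc_const, tc_pow_mul h2, if_neg (by omega),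
    if_pos (by omega)]
  simp

theorem sh_iter_differentiable {F : ℂ → ℂ} (hF : Differentiable ℂ F) (a : ℕ) :
    Differentiable ℂ (sh^[a] F) := by
  induction a generalizing F with
  | zero => exact hF
  | succ a ih => rw [Function.iterate_succ_apply]; exact ih (sh_differentiable hF)

theorem tc_sh_iter {F : ℂ → ℂ} (hF : Differentiable ℂ F) (a k : ℕ) :
    tc (sh^[a] F) k = tc F (k + a) := by
  induction a generalizing F with
  | zero => rfl
  | succ a ih =>
    rw [Function.iterate_succ_apply, ih (sh_differentiable hF), tc_sh hF]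
    congr 1

theorem NN.shiter {F : ℂ → ℂ} (hF : NN F) (a : ℕ) : NN (sh^[a] F) :=
  ⟨sh_iter_differentiable hF.1 a, fun k => by rw [tc_sh_iter hF.1]; exact hF.2 _⟩

/-- value on the nonnegative reals -/
noncomputable def val (F : ℂ → ℂ) (r : ℝ) : ℝ := (F (r : ℂ)).re

theorem tc_re {F : ℂ → ℂ} (hF : NN F) (k : ℕ) : tc F k = ((tc F k).re : ℂ) := by
  have h := hF.2 k
  rw [Complex.nonneg_iff] at h
  apply Complex.ext <;> simp [h.2]

theorem tc_re_nonneg {F : ℂ → ℂ} (hF : NN F) (k : ℕ) : 0 ≤ (tc F k).re :=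
  (Complex.nonneg_iff.mp (hF.2 k)).1

theorem hasSum_val {F : ℂ → ℂ} (hF : NN F) (r : ℝ) :
    HasSum (fun k => (tc F k).re * r ^ k) (val F r) := by
  have h := Complex.hasSum_re (hasSum_tc hF.1 (r:ℂ))
  refine h.congr_fun ?_ |> fun h => h
  intro k
  have h1 : (tc F k * (r:ℂ) ^ k) = (((tc F k).re * r ^ k : ℝ) : ℂ) := by
    rw [Complex.ofReal_mul, ← tc_re hF k, Complex.ofReal_pow]
  rw [h1, Complex.ofReal_re]

theorem val_eq {F : ℂ → ℂ} (hF : NN F) (r : ℝ) : F (r:ℂ) = (val F r : ℂ) := by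
  have h := (Complex.hasSum_ofReal.mpr (hasSum_val hF r))
  have h2 := hasSum_tc hF.1 (r:ℂ)
  apply h2.unique
  refine h.congr_fun ?_ |> fun h => h
  intro k
  push_cast
  rw [← tc_re hF k]

theorem coef_le_val {F : ℂ → ℂ} (hF : NN F) {r : ℝ} (hr : 0 ≤ r) (k : ℕ) :
    (tc F k).re * r ^ k ≤ val F r := by
  have h := hasSum_val hF r
  exact le_hasSum h k (fun j _ => mul_nonneg (tc_re_nonneg hF j) (pow_nonneg hr j))

theorem partial_le_val {F : ℂ → ℂ} (hF : NN F) {r : ℝ} (hr : 0 ≤ r) (s : Finset ℕ) :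
    ∑ k ∈ s, (tc F k).re * r ^ k ≤ val F r := by
  have h := hasSum_val hF r
  exact sum_le_hasSum s (fun j _ => mul_nonneg (tc_re_nonneg hF j) (pow_nonneg hr j)) h

theorem val_mono {F : ℂ → ℂ} (hF : NN F) {r s : ℝ} (hr : 0 ≤ r) (hrs : r ≤ s) :
    val F r ≤ val F s := by
  apply hasSum_le _ (hasSum_val hF r) (hasSum_val hF s)
  intro k
  apply mul_le_mul_of_nonneg_left _ (tc_re_nonneg hF k)
  exact pow_le_pow_left₀ hr hrs k

theorem val_nonneg {F : ℂ → ℂ} (hF : NN F) {r : ℝ} (hr : 0 ≤ r) : 0 ≤ val F r :=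
  (hasSum_val hF r).nonneg (fun j => mul_nonneg (tc_re_nonneg hF j) (pow_nonneg hr j))

theorem norm_le_val {F : ℂ → ℂ} (hF : NN F) (z : ℂ) : ‖F z‖ ≤ val F ‖z‖ := by
  have h := hasSum_tc hF.1 z
  have h2 := hasSum_val hF ‖z‖
  have h3 : ∀ k, ‖tc F k * z ^ k‖ = (tc F k).re * ‖z‖ ^ k := by
    intro k
    rw [norm_mul, norm_pow, tc_re hF k]
    rw [Complex.norm_real, Real.norm_eq_abs, abs_of_nonneg (tc_re_nonneg hF k)]
    simp
  have h4 : Summable (fun k => ‖tc F k * z ^ k‖) := by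
    simp only [h3]; exact h2.summable
  rw [← h.tsum_eq, ← h2.tsum_eq]
  refine (norm_tsum_le_tsum_norm h4).trans (le_of_eq ?_)
  exact tsum_congr h3

theorem norm_le_val' {F : ℂ → ℂ} (hF : NN F) {z : ℂ} {r : ℝ} (hz : ‖z‖ ≤ r) : ‖F z‖ ≤ val F r :=
  (norm_le_val hF z).trans (val_mono hF (norm_nonneg z) hz)

theorem val_sh (F : ℂ → ℂ) (r : ℝ) : val F r = (tc F 0).re + r * val (sh F) r := by
  unfold val
  conv_lhs => rw [sh_spec F (r:ℂ)]
  rw [tc_zero, Complex.add_re, Complex.re_ofReal_mul]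

theorem val_shiter_le {F : ℂ → ℂ} (hF : NN F) (a : ℕ) {r : ℝ} (hr : 0 ≤ r) :
    r ^ a * val (sh^[a] F) r ≤ val F r := by
  induction a generalizing F with
  | zero => simp
  | succ a ih =>
    rw [Function.iterate_succ_apply]
    have h1 := ih (hF.shiter 1)
    simp only [Function.iterate_one] at h1
    have h2 := val_sh F r
    have h3 := tc_re_nonneg hF 0
    have h4 : r ^ (a + 1) * val (sh^[a] (sh F)) r = r * (r ^ a * val (sh^[a] (sh F)) r) := by ring
    rw [h4]
    have h5 := mul_le_mul_of_nonneg_left h1 hr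
    linarith

theorem val_mul {F G : ℂ → ℂ} (hF : NN F) (hG : NN G) (r : ℝ) :
    val (fun z => F z * G z) r = val F r * val G r := by
  have h : F (r:ℂ) * G (r:ℂ) = ((val F r * val G r : ℝ) : ℂ) := by
    rw [val_eq hF, val_eq hG, Complex.ofReal_mul]
  show (F (r:ℂ) * G (r:ℂ)).re = _
  rw [h, Complex.ofReal_re]

theorem val_add (F G : ℂ → ℂ) (r : ℝ) : val (fun z => F z + G z) r = val F r + val G r := by
  unfold val
  rw [Complex.add_re]

theorem val_exp_comp {G : ℂ → ℂ} (hG : NN G) (r : ℝ) :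
    val (fun z => Complex.exp (G z)) r = Real.exp (val G r) := by
  have h : Complex.exp (G (r:ℂ)) = ((Real.exp (val G r) : ℝ) : ℂ) := by
    rw [val_eq hG, Complex.ofReal_exp]
  show (Complex.exp (G (r:ℂ))).re = _
  rw [h, Complex.ofReal_re]

/-- the function `(e^u - 1)/u` -/
noncomputable def phi : ℂ → ℂ := sh Complex.exp

theorem phi_spec (u : ℂ) : Complex.exp u = 1 + u * phi u := by
  have := sh_spec Complex.exp u
  rw [Complex.exp_zero] at this
  exact this

theorem nn_phi : NN phi := nn_exp.shiter 1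

theorem nn_phi_sub_one : NN (fun z => phi z - 1) := by
  refine ⟨nn_phi.1.sub_const 1, fun k => ?_⟩
  have h := tc_sub (F := phi) (G := fun _ => (1:ℂ)) nn_phi.1 (by fun_prop) k
  rw [h, tc_const]
  split_ifs with hk
  · subst hk
    have : tc phi 0 = 1 := by
      unfold phi
      rw [tc_sh Complex.differentiable_exp, tc_exp]; simp
    rw [this]; simp
  · rw [sub_zero]; exact nn_phi.2 k

theorem nn_exp_sub_one : NN (fun z => Complex.exp z - 1) := by
  refine ⟨by fun_prop, fun k => ?_⟩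
  have h := tc_sub (F := Complex.exp) (G := fun _ => (1:ℂ)) nn_exp.1 (by fun_prop) k
  rw [h, tc_const]
  split_ifs with hk
  · subst hk
    rw [tc_exp]; simp
  · rw [sub_zero]; exact nn_exp.2 k

theorem nn_exp_sub_id : NN (fun z => Complex.exp z - z) := by
  refine ⟨by fun_prop, fun k => ?_⟩
  have h1 : (fun z : ℂ => Complex.exp z - z) = fun z => Complex.exp z - z ^ 1 := by
    funext z; rw [pow_one]
  rw [h1, tc_sub (by fun_prop) (by fun_prop), tc_pow]
  split_ifs with hk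
  · subst hk
    rw [tc_exp]; simp
  · rw [sub_zero]; exact nn_exp.2 k

end Pool.Agent.helper38.NNF
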