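import Pool.Agent.helper38.NNStep3

set_option autoImplicit false

namespace Pool.Agent.helper38.NNF

open Finset Filter Topology Complex
open scoped ComplexOrder Nat

/-- Locally uniform limits of entire functions: Taylor coefficients converge. -/
theorem tc_tendsto {f : ℕ → ℂ → ℂ} {F : ℂ → ℂ} (hf : ∀ j, Differentiable ℂ (f j))
    (h : TendstoLocallyUniformlyOn f F atTop Set.univ) (k : ℕ) :
    Tendsto (fun j => tc (f j) k) atTop (𝓝 (tc F k)) := by
  have key : ∀ k, ∀ (f : ℕ → ℂ → ℂ) (F : ℂ → ℂ), (∀ j, Differentiable ℂ (f j)) →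
      TendstoLocallyUniformlyOn f F atTop Set.univ →
      Tendsto (fun j => iteratedDeriv k (f j) 0) atTop (𝓝 (iteratedDeriv k F 0)) := by
    intro k
    induction k with
    | zero =>
      intro f F _ h
      simp only [iteratedDeriv_zero]
      exact h.tendsto_at (Set.mem_univ _)
    | succ k ih =>
      intro f F hf h
      simp only [iteratedDeriv_succ']
      have h2 : TendstoLocallyUniformlyOn (deriv ∘ f) (deriv F) atTop Set.univ :=
        h.deriv (Eventually.of_forall (fun j => (hf j).differentiableOn)) isOpen_univ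
      exact ih (fun j => deriv (f j)) (deriv F) (fun j => (hf j).deriv) h2
  unfold tc
  exact (key k f F hf h).const_mul _

theorem limit_exists {f : ℕ → ℂ → ℂ} (hf : ∀ j, Differentiable ℂ (f j))
    (h : ∀ j : ℕ, ∀ z : ℂ, ‖z‖ ≤ (j:ℝ) + 1 → ‖f (j + 1) z - f j z‖ ≤ (1/2) ^ (j + 2)) :
    ∃ F : ℂ → ℂ, TendstoLocallyUniformlyOn f F atTop Set.univ ∧ Differentiable ℂ F := by
  have hd : ∀ (J : ℕ) (z : ℂ), ‖z‖ ≤ (J:ℝ) + 1 → ∀ i : ℕ,
      dist (f (i + J) z) (f (i + 1 + J) z) ≤ (1/2) ^ J / 2 / 2 ^ i := by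
    intro J z hz i
    have h1 := h (i + J) z (by push_cast; have : (0:ℝ) ≤ i := by positivity
                               linarith)
    rw [dist_comm, dist_eq_norm]
    have h2 : i + 1 + J = i + J + 1 := by ring
    rw [h2]
    refine h1.trans ?_
    have h3 : ((1:ℝ)/2) ^ J / 2 / 2 ^ i = (1/2) ^ (i + J + 1) := by
      rw [pow_add, pow_add, pow_one, div_pow, div_pow]; field_simp; rw [one_pow]
    rw [h3]
    exact pow_le_pow_of_le_one (by norm_num) (by norm_num) (by omega)
  have hlim : ∀ z : ℂ, ∃ a, Tendsto (fun j => f j z) atTop (𝓝 a) := by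
    intro z
    obtain ⟨J, hJ⟩ := exists_nat_gt ‖z‖
    have hc := cauchySeq_of_le_geometric_two (f := fun i => f (i + J) z) (hd J z (by linarith))
    obtain ⟨a, ha⟩ := cauchySeq_tendsto_of_complete hc
    exact ⟨a, (tendsto_add_atTop_iff_nat J).mp ha⟩
  choose F hF using hlim
  have hdist : ∀ (J : ℕ) (z : ℂ), ‖z‖ ≤ (J:ℝ) + 1 → dist (f J z) (F z) ≤ (1/2) ^ J := by
    intro J z hz
    have h1 := dist_le_of_le_geometric_two_of_tendsto₀ (f := fun i => f (i + J) z) (hd J z hz)
      ((tendsto_add_atTop_iff_nat J).mpr (hF z))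
    simpa using h1
  have hu : TendstoLocallyUniformlyOn f F atTop Set.univ := by
    rw [Metric.tendstoLocallyUniformlyOn_iff]
    intro ε hε x _
    refine ⟨Metric.ball x 1, mem_nhdsWithin_of_mem_nhds (Metric.ball_mem_nhds x one_pos), ?_⟩
    obtain ⟨J0, hJ0⟩ := exists_nat_gt ‖x‖
    obtain ⟨J1, hJ1⟩ := exists_pow_lt_of_lt_one hε (show (1/2 : ℝ) < 1 by norm_num)
    filter_upwards [eventually_ge_atTop (max J0 J1)] with J hJ y hy
    have h1 : ‖y‖ ≤ (J:ℝ) + 1 := by
      have h2 : ‖y‖ ≤ ‖x‖ + ‖y - x‖ := by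
        calc ‖y‖ = ‖x + (y - x)‖ := by congr 1; ring
          _ ≤ _ := norm_add_le _ _
      rw [mem_ball_iff_norm] at hy
      have h3 : (J0:ℝ) ≤ J := by exact_mod_cast le_trans (le_max_left _ _) hJ
      linarith
    rw [dist_comm]
    refine (hdist J y h1).trans_lt (lt_of_le_of_lt ?_ hJ1)
    exact pow_le_pow_of_le_one (by norm_num) (by norm_num) (le_trans (le_max_right _ _) hJ)
  refine ⟨F, hu, ?_⟩
  have := hu.differentiableOn (Eventually.of_forall (fun j => (hf j).differentiableOn)) isOpen_univ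
  exact differentiableOn_univ.mp this

structure Stage (n : ℕ) where
  f : ℂ → ℂ
  p : ℕ
  R : ℝ
  nn : NN f
  f0 : f 0 = 1
  coefp : 0 < tc f p
  gap : ∀ k, p < k → k < p + n → tc f k = 0
  pos : ∀ k, p + n ≤ k → 0 < tc f k
  Rpos : 0 < R
  grow : ∀ m : ℕ, ∀ᶠ r : ℝ in atTop, Real.exp (r ^ m) < val f r

/-- relation between consecutive stages -/
structure Nxt {n : ℕ} (j : ℕ) (s t : Stage n) : Prop where
  hp : s.p + n ≤ t.p
  hR : s.R + 1 < t.R
  zeros : ∀ z, t.f z = 0 ↔ (s.f z = 0 ∨ z = -(t.R:ℂ))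
  close : ∀ z : ℂ, ‖z‖ ≤ (j:ℝ) + 1 → ‖t.f z - s.f z‖ ≤ (1/2) ^ (j + 2)
  close' : ∀ z : ℂ, ‖z‖ ≤ (j:ℝ) + 1 → ‖t.f z - s.f z‖ ≤ (1/2) ^ (j + 2) * ‖s.f z‖
  low : ∀ k, k ≤ t.p → tc t.f k = tc s.f k
  big : ∃ r : ℝ, (j:ℝ) ≤ r ∧ Real.exp (r ^ j) < ∑ k ∈ range (t.p + 1), (tc s.f k).re * r ^ k

theorem exists_nxt {n : ℕ} (hn : 1 ≤ n) (j : ℕ) (s : Stage n) : ∃ t : Stage n, Nxt j s t := by
  obtain ⟨r, hr1, hr2⟩ := ((s.grow j).and (eventually_ge_atTop (j:ℝ))).exists
  have hs := (hasSum_val s.nn r).tendsto_sum_nat.eventually (lt_mem_nhds hr1)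
  obtain ⟨B0, hB0⟩ := eventually_atTop.mp hs
  set V : ℝ := val s.f ((j:ℝ) + 1) with hV
  have hj0 : (0:ℝ) ≤ j := by positivity
  have hV0 : 0 ≤ V := val_nonneg s.nn (by positivity)
  set η : ℝ := (1/2) ^ (j + 2) / (1 + V) with hη
  have hη0 : 0 < η := by positivity
  have hη1 : η ≤ (1/2) ^ (j + 2) := div_le_self (by positivity) (by linarith)
  have hη2 : η ≤ 1 := hη1.trans (pow_le_one₀ (by norm_num) (by norm_num))
  obtain ⟨p, R, D, hpB, hRR, hR0, hDd, hD0, hDclose, hD00, hlow, hgap, hpos, hgrow⟩ :=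
    step hn s.nn s.f0 (ρ := (j:ℝ) + 1) (by linarith) hη0 hη2 (max B0 (s.p + n)) (s.R + 1)
  have hpB0 : B0 ≤ p := le_trans (le_max_left _ _) hpB
  have hps : s.p + n ≤ p := le_trans (le_max_right _ _) hpB
  have hnn : NN (fun z => s.f z * D z) := by
    refine ⟨s.nn.1.mul hDd, fun k => ?_⟩
    rcases le_or_gt k p with h | h
    · rw [hlow k h]; exact s.nn.2 k
    · rcases lt_or_ge k (p + n) with h' | h'
      · rw [hgap k h h']
      · exact (hpos k h').le
  refine ⟨⟨fun z => s.f z * D z, p, R, hnn, ?_, ?_, hgap, hpos, hR0, hgrow⟩, ?_⟩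
  · rw [s.f0, hD00, one_mul]
  · rw [hlow p le_rfl]; exact s.pos p hps
  · refine ⟨hps, hRR, ?_, ?_, ?_, hlow, ⟨r, hr2, ?_⟩⟩
    · intro z
      show s.f z * D z = 0 ↔ _
      rw [mul_eq_zero, hD0]
    · intro z hz
      show ‖s.f z * D z - s.f z‖ ≤ _
      have e1 : s.f z * D z - s.f z = s.f z * (D z - 1) := by ring
      rw [e1, norm_mul]
      have e2 : ‖s.f z‖ ≤ V := norm_le_val' s.nn hz
      calc ‖s.f z‖ * ‖D z - 1‖ ≤ (1 + V) * η := by
            apply mul_le_mul (by linarith) (hDclose z hz) (norm_nonneg _) (by linarith)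
        _ = (1/2) ^ (j + 2) := by rw [hη]; field_simp
    · intro z hz
      show ‖s.f z * D z - s.f z‖ ≤ _
      have e1 : s.f z * D z - s.f z = (D z - 1) * s.f z := by ring
      rw [e1, norm_mul]
      exact mul_le_mul_of_nonneg_right ((hDclose z hz).trans hη1) (norm_nonneg _)
    · exact hB0 (p + 1) (by omega)

theorem exists_init {n : ℕ} (hn : 1 ≤ n) : ∃ s : Stage n, (∀ z, s.f z = 0 ↔ z = -(s.R:ℂ)) ∧
    (∀ k, k ≤ s.p → 0 < tc s.f k) := by
  obtain ⟨p, R, D, hpB, hRR, hR0, hDd, hD0, hDclose, hD00, hlow, hgap, hpos, hgrow⟩ :=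
    step hn nn_exp Complex.exp_zero (ρ := 1) le_rfl one_pos le_rfl 0 0
  have hexp : ∀ k, 0 < tc Complex.exp k := by
    intro k
    rw [tc_exp]
    have : (0:ℂ) < ((((k ! : ℕ) : ℝ)⁻¹ : ℝ) : ℂ) := by
      rw [Complex.zero_lt_real]; positivity
    rwa [Complex.ofReal_inv, Complex.ofReal_natCast] at this
  have hnn : NN (fun z => Complex.exp z * D z) := by
    refine ⟨nn_exp.1.mul hDd, fun k => ?_⟩
    rcases le_or_gt k p with h | h
    · rw [hlow k h]; exact nn_exp.2 k
    · rcases lt_or_ge k (p + n) with h' | h'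
      · rw [hgap k h h']
      · exact (hpos k h').le
  refine ⟨⟨fun z => Complex.exp z * D z, p, R, hnn, ?_, ?_, hgap, hpos, hR0, hgrow⟩, ?_, ?_⟩
  · rw [Complex.exp_zero, hD00, one_mul]
  · rw [hlow p le_rfl]; exact hexp p
  · intro z
    show Complex.exp z * D z = 0 ↔ _
    rw [mul_eq_zero, hD0]
    constructor
    · rintro (h | h)
      · exact absurd h (Complex.exp_ne_zero _)
      · exact h
    · intro h; exact Or.inr h
  · intro k hk
    show 0 < tc (fun z => Complex.exp z * D z) k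
    rw [hlow k hk]; exact hexp k

theorem exists_seq {n : ℕ} (hn : 1 ≤ n) : ∃ S : ℕ → Stage n, (∀ j, Nxt j (S j) (S (j + 1))) ∧
    (∀ z, (S 0).f z = 0 ↔ z = -((S 0).R:ℂ)) ∧ (∀ k, k ≤ (S 0).p → 0 < tc (S 0).f k) := by
  obtain ⟨s0, h1, h2⟩ := exists_init (n := n) hn
  choose nx hnx using fun (j : ℕ) (s : Stage n) => exists_nxt hn j s
  exact ⟨fun j => Nat.rec s0 (fun j s => nx j s) j, fun j => hnx j _, h1, h2⟩

/-- the main construction -/
theorem main_construction {n : ℕ} (hn : 1 ≤ n) : ∃ (F : ℂ → ℂ) (p : ℕ → ℕ) (R : ℕ → ℝ),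
    NN F ∧ (∀ j, p j + n ≤ p (j + 1)) ∧ (∀ j, R j + 1 < R (j + 1)) ∧ (∀ j, 0 < R j) ∧
    (∀ z, F z = 0 ↔ ∃ j, z = -(R j : ℂ)) ∧
    (∀ j k, p j < k → k < p j + n → tc F k = 0) ∧
    (∀ k, (∀ j, ¬ (p j < k ∧ k < p j + n)) → 0 < tc F k) ∧
    (∀ j : ℕ, ∃ r : ℝ, (j:ℝ) ≤ r ∧ Real.exp (r ^ j) < val F r) := by
  obtain ⟨S, hS, hz0, hc0⟩ := exists_seq (n := n) hn
  have hd : ∀ j, Differentiable ℂ (S j).f := fun j => (S j).nn.1
  obtain ⟨F, hu, hF⟩ := limit_exists (f := fun j => (S j).f) hd (fun j z hz => (hS j).close z hz)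
  set p : ℕ → ℕ := fun j => (S j).p with hp
  set R : ℕ → ℝ := fun j => (S j).R with hR
  have hpn : ∀ j, p j + n ≤ p (j + 1) := fun j => (hS j).hp
  have hpmono : ∀ i j, i ≤ j → p i ≤ p j := by
    intro i j hij
    exact monotone_nat_of_le_succ (fun j => by have := hpn j; omega) hij
  have hRmono : ∀ i j, i ≤ j → R i ≤ R j := by
    intro i j hij
    exact monotone_nat_of_le_succ (fun j => by have := (hS j).hR; simp only [hR]; linarith) hij
  -- stabilisation
  have hstab : ∀ J k, k ≤ p (J + 1) → ∀ i, tc (S (J + i)).f k = tc (S J).f k := by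
    intro J k hk i
    induction i with
    | zero => rfl
    | succ i ih =>
      rw [← ih, ← Nat.add_assoc]
      exact (hS (J + i)).low k (hk.trans (hpmono _ _ (by omega)))
  have htcF : ∀ J k, k ≤ p (J + 1) → tc F k = tc (S J).f k := by
    intro J k hk
    have h1 := tc_tendsto hd hu k
    have h2 : Tendsto (fun i => tc (S (i + J)).f k) atTop (𝓝 (tc F k)) :=
      (tendsto_add_atTop_iff_nat J).mpr h1
    have h3 : (fun i => tc (S (i + J)).f k) = fun _ => tc (S J).f k := by
      funext i; rw [Nat.add_comm]; exact hstab J k hk i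
    rw [h3] at h2
    exact tendsto_nhds_unique h2 tendsto_const_nhds
  have hpj : ∀ j, j ≤ p j := by
    intro j
    induction j with
    | zero => exact Nat.zero_le _
    | succ j ih => have := hpn j; omega
  have hzj : ∀ i z, (S i).f z = 0 ↔ ∃ j, j ≤ i ∧ z = -(R j : ℂ) := by
    intro i z
    induction i with
    | zero =>
      rw [hz0]
      constructor
      · intro h; exact ⟨0, le_rfl, h⟩
      · rintro ⟨j, hj, h⟩
        have : j = 0 := by omega
        rw [this] at h; exact h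
    | succ i ih =>
      rw [(hS i).zeros, ih]
      constructor
      · rintro (⟨j, hj, h⟩ | h)
        · exact ⟨j, by omega, h⟩
        · exact ⟨i + 1, le_rfl, h⟩
      · rintro ⟨j, hj, h⟩
        rcases Nat.lt_or_ge i j with h' | h'
        · have : j = i + 1 := by omega
          right; rw [this] at h; exact h
        · left; exact ⟨j, h', h⟩
  have hNNF : NN F := by
    refine ⟨hF, fun k => ?_⟩
    rw [htcF k k ((hpj k).trans (hpmono _ _ (by omega)))]
    exact (S k).nn.2 k
  have hFlim : ∀ z, Tendsto (fun j => (S j).f z) atTop (𝓝 (F z)) :=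
    fun z => hu.tendsto_at (Set.mem_univ _)
  refine ⟨F, p, R, hNNF, hpn, fun j => (hS j).hR, fun j => (S j).Rpos, ?_, ?_, ?_, ?_⟩
  · intro z
    constructor
    · intro h0
      by_contra hcon
      push Not at hcon
      obtain ⟨J, hJ⟩ := exists_nat_gt ‖z‖
      have hc : 0 < ‖(S J).f z‖ := by
        rw [norm_pos_iff]
        intro h
        obtain ⟨j, _, hj⟩ := (hzj J z).mp h
        exact hcon j hj
      have hlow : ∀ i : ℕ, ‖(S J).f z‖ * (1/2 + (1/2) ^ (i + 1)) ≤ ‖(S (J + i)).f z‖ := by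
        intro i
        induction i with
        | zero => norm_num
        | succ i ih =>
          have h1 := (hS (J + i)).close' z (by push_cast; have : (0:ℝ) ≤ i := by positivity
                                               linarith)
          have h2 : ‖(S (J + i)).f z‖ - ‖(S (J + i + 1)).f z - (S (J + i)).f z‖ ≤
              ‖(S (J + i + 1)).f z‖ := by
            have := norm_sub_norm_le ((S (J + i)).f z) ((S (J + i + 1)).f z)
            rw [norm_sub_rev] at this
            linarith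
          have h3 : ((1:ℝ)/2) ^ (J + i + 2) ≤ (1/2) ^ (i + 1) / 2 := by
            calc ((1:ℝ)/2) ^ (J + i + 2) ≤ (1/2) ^ (i + 2) :=
                  pow_le_pow_of_le_one (by norm_num) (by norm_num) (by omega)
              _ = (1/2) ^ (i + 1) / 2 := by rw [pow_succ]; ring
          set x : ℝ := (1/2) ^ (i + 1) with hx
          have hx0 : 0 < x := by positivity
          have hx1 : x ≤ 1 / 2 := by
            calc x ≤ (1/2) ^ 1 := pow_le_pow_of_le_one (by norm_num) (by norm_num) (by omega)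
              _ = 1/2 := by norm_num
          have h4 : ((1:ℝ)/2) ^ (i + 1 + 1) = x / 2 := by rw [pow_succ, ← hx]; ring
          rw [h4]
          have h5 : ‖(S (J + i + 1)).f z - (S (J + i)).f z‖ ≤ x / 2 * ‖(S (J + i)).f z‖ :=
            h1.trans (mul_le_mul_of_nonneg_right h3 (norm_nonneg _))
          have h6 : (1 - x / 2) * (‖(S J).f z‖ * (1/2 + x)) ≤ (1 - x / 2) * ‖(S (J + i)).f z‖ :=
            mul_le_mul_of_nonneg_left ih (by linarith)
          have h7 : ‖(S J).f z‖ * (1/2 + x / 2) ≤ (1 - x / 2) * (‖(S J).f z‖ * (1/2 + x)) := by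
            have : (1 - x / 2) * (‖(S J).f z‖ * (1/2 + x)) =
              ‖(S J).f z‖ * ((1 - x / 2) * (1/2 + x)) := by ring
            rw [this]
            apply mul_le_mul_of_nonneg_left _ hc.le
            nlinarith
          have h8 : J + (i + 1) = J + i + 1 := by ring
          rw [h8]
          linarith
      have h1 : Tendsto (fun i => ‖(S (J + i)).f z‖) atTop (𝓝 ‖F z‖) := by
        have : Tendsto (fun i => (S (i + J)).f z) atTop (𝓝 (F z)) :=
          (tendsto_add_atTop_iff_nat J).mpr (hFlim z)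
        refine (this.norm).congr (fun i => ?_)
        rw [Nat.add_comm]
      have h2 : ‖(S J).f z‖ * (1/2) ≤ ‖F z‖ := by
        apply ge_of_tendsto h1
        filter_upwards with i
        refine le_trans ?_ (hlow i)
        apply mul_le_mul_of_nonneg_left _ hc.le
        have : (0:ℝ) ≤ (1/2) ^ (i + 1) := by positivity
        linarith
      rw [h0, norm_zero] at h2
      linarith
    · rintro ⟨j, hj⟩
      have h1 : Tendsto (fun i => (S i).f z) atTop (𝓝 0) := by
        apply tendsto_const_nhds.congr'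
        filter_upwards [eventually_ge_atTop j] with i hi
        exact ((hzj i z).mpr ⟨j, hi, hj⟩).symm
      exact tendsto_nhds_unique (hFlim z) h1
  · intro j k h1 h2
    rw [htcF j k (by have := hpn j; omega)]
    exact (S j).gap k h1 h2
  · intro k hk
    rcases le_or_gt k (p 0) with h0 | h0
    · rw [htcF 0 k (h0.trans (hpmono _ _ (by omega)))]
      exact hc0 k h0
    · have hex : ∀ J, k ≤ p (J + 1) → ∃ j, p j < k ∧ k ≤ p (j + 1) := by
        intro J
        induction J with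
        | zero => intro h; exact ⟨0, h0, h⟩
        | succ J ih =>
          intro h
          rcases le_or_gt k (p (J + 1)) with h' | h'
          · exact ih h'
          · exact ⟨J + 1, h', h⟩
      obtain ⟨j, hj1, hj2⟩ := hex k ((hpj k).trans (hpmono _ _ (by omega)))
      rw [htcF j k hj2]
      apply (S j).pos
      by_contra hlt
      exact hk j ⟨hj1, by simpa [hp] using hlt⟩
  · intro j
    obtain ⟨r, hr1, hr2⟩ := (hS j).big
    refine ⟨r, hr1, hr2.trans_le ?_⟩
    have hr0 : 0 ≤ r := le_trans (by positivity) hr1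
    refine le_trans (le_of_eq ?_) (partial_le_val hNNF hr0 (range ((S (j + 1)).p + 1)))
    apply Finset.sum_congr rfl
    intro k hk
    rw [Finset.mem_range] at hk
    rw [htcF j k (by simp only [hp]; omega)]

end Pool.Agent.helper38.NNF
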