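import Pool.Agent.helper38.NNCancel

set_option autoImplicit false

namespace Pool.Agent.helper38.NNF

open Finset Filter Topology Complex
open scoped ComplexOrder Nat

/-- truncated logarithm of `1 + z/R` -/
noncomputable def N1 (R : ℝ) (m : ℕ) (z : ℂ) : ℂ :=
  ∑ i ∈ range m, ((((-1:ℝ)) ^ i * (1 / R) ^ (i + 1) / (i + 1) : ℝ) : ℂ) * z ^ (i + 1)

noncomputable def A1 (R : ℝ) (m : ℕ) (z : ℂ) : ℂ :=
  ∑ i ∈ range m, (((1 / R) ^ (i + 1) / (i + 1) : ℝ) : ℂ) * z ^ (i + 1)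

theorem nn_sum {m : ℕ} (c : ℕ → ℝ) (hc : ∀ i, 0 ≤ c i) :
    NN (fun z => ∑ i ∈ range m, ((c i : ℝ) : ℂ) * z ^ (i + 1)) := by
  induction m with
  | zero => simpa using NN.const (le_refl (0:ℂ))
  | succ m ih =>
    refine (ih.add ((NN.pow_id (m + 1)).const_mul (c := ((c m : ℝ) : ℂ)) ?_)).congr (fun z => ?_)
    · rw [Complex.zero_le_real]; exact hc m
    · rw [Finset.sum_range_succ]

theorem nn_A1 {R : ℝ} (hR : 0 < R) (m : ℕ) : NN (A1 R m) :=
  nn_sum (fun i => (1 / R) ^ (i + 1) / (i + 1)) (fun i => by positivity)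

theorem nn_A1_sub {R : ℝ} (hR : 0 < R) (m : ℕ) : NN (fun z => A1 R m z - N1 R m z) := by
  refine (nn_sum (m := m) (fun i => (1 / R) ^ (i + 1) / (i + 1) -
    (-1) ^ i * (1 / R) ^ (i + 1) / (i + 1)) (fun i => ?_)).congr (fun z => ?_)
  · have h1 : (0:ℝ) ≤ (1 / R) ^ (i + 1) / (i + 1) := by positivity
    rcases neg_one_pow_eq_or ℝ i with h | h
    · rw [h]; simp
    · rw [h]
      have : (1 / R) ^ (i + 1) / ((i:ℝ) + 1) - -1 * (1 / R) ^ (i + 1) / (i + 1) =
        2 * ((1 / R) ^ (i + 1) / (i + 1)) := by ring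
      rw [this]; positivity
  · unfold A1 N1
    rw [← Finset.sum_sub_distrib]
    apply Finset.sum_congr rfl
    intro i _
    push_cast; ring

theorem nn_A1_add {R : ℝ} (hR : 0 < R) (m : ℕ) : NN (fun z => A1 R m z + N1 R m z) := by
  refine (nn_sum (m := m) (fun i => (1 / R) ^ (i + 1) / (i + 1) +
    (-1) ^ i * (1 / R) ^ (i + 1) / (i + 1)) (fun i => ?_)).congr (fun z => ?_)
  · have h1 : (0:ℝ) ≤ (1 / R) ^ (i + 1) / (i + 1) := by positivity
    rcases neg_one_pow_eq_or ℝ i with h | h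
    · rw [h]
      have : (1 / R) ^ (i + 1) / ((i:ℝ) + 1) + 1 * (1 / R) ^ (i + 1) / (i + 1) =
        2 * ((1 / R) ^ (i + 1) / (i + 1)) := by ring
      rw [this]; positivity
    · rw [h]
      have : (1 / R) ^ (i + 1) / ((i:ℝ) + 1) + -1 * (1 / R) ^ (i + 1) / (i + 1) = 0 := by ring
      rw [this]
  · unfold A1 N1
    rw [← Finset.sum_add_distrib]
    apply Finset.sum_congr rfl
    intro i _
    push_cast; ring

theorem N1_differentiable (R : ℝ) (m : ℕ) : Differentiable ℂ (N1 R m) := by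
  unfold N1; fun_prop

theorem N1_zero (R : ℝ) (m : ℕ) : N1 R m 0 = 0 := by
  unfold N1
  apply Finset.sum_eq_zero
  intro i _
  rw [zero_pow (by omega), mul_zero]

theorem N1_deriv {R : ℝ} (hR : 0 < R) (m : ℕ) (z : ℂ) :
    (1 + z / R) * deriv (N1 R m) z = 1 / R * (1 - (-(z / R)) ^ m) := by
  have h1 : HasDerivAt (N1 R m) (∑ i ∈ range m,
      (((((-1:ℝ)) ^ i * (1 / R) ^ (i + 1) / (i + 1) : ℝ) : ℂ)) * (((i + 1 : ℕ) : ℂ) * z ^ i)) z := by
    unfold N1
    apply HasDerivAt.fun_sum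
    intro i _
    have := (hasDerivAt_pow (i + 1) z).const_mul
      (((((-1:ℝ)) ^ i * (1 / R) ^ (i + 1) / (i + 1) : ℝ) : ℂ))
    simpa using this
  rw [h1.deriv]
  have hRc : (R : ℂ) ≠ 0 := by exact_mod_cast hR.ne'
  have h2 : ∑ i ∈ range m,
      (((((-1:ℝ)) ^ i * (1 / R) ^ (i + 1) / (i + 1) : ℝ) : ℂ)) * (((i + 1 : ℕ) : ℂ) * z ^ i) =
      1 / R * ∑ i ∈ range m, (-(z / R)) ^ i := by
    rw [Finset.mul_sum]
    apply Finset.sum_congr rfl
    intro i _
    have hi : ((i:ℂ) + 1) ≠ 0 := by exact_mod_cast Nat.succ_ne_zero i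
    have h3 : (-(z / (R:ℂ))) ^ i = (-1) ^ i * (z ^ i / (R:ℂ) ^ i) := by
      rw [neg_pow, div_pow]
    rw [h3]
    push_cast
    have hRi : (R:ℂ) ^ i ≠ 0 := pow_ne_zero i hRc
    have h6 : (1 / (R:ℂ)) ^ (i + 1) = 1 / (R * R ^ i) := by
      rw [div_pow, one_pow, pow_succ, mul_comm]
    rw [h6]
    field_simp
  rw [h2]
  have h4 := geom_sum_mul (-(z / (R:ℂ))) m
  have h5 : (1 + z / R) * (1 / R * ∑ i ∈ range m, (-(z / R)) ^ i) =
      -(1 / R) * ((∑ i ∈ range m, (-(z / (R:ℂ))) ^ i) * (-(z / R) - 1)) := by ring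
  rw [h5, h4]; ring

theorem weier {R : ℝ} (hR : 0 < R) (m : ℕ) (k : ℕ) (hk : k ≤ m) :
    tc (fun z => (1 + z / R) * Complex.exp (- N1 R m z)) k = if k = 0 then 1 else 0 := by
  rcases k with _ | k
  · rw [tc_zero, N1_zero]; simp
  · rw [if_neg (by omega)]
    have hRc : (R : ℂ) ≠ 0 := by exact_mod_cast hR.ne'
    set E : ℂ → ℂ := fun z => (1 + z / R) * Complex.exp (- N1 R m z) with hE
    have hN := N1_differentiable R m
    have hd : deriv E = fun z => z ^ m * (((-1 / R) ^ m / R) * Complex.exp (- N1 R m z)) := by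
      funext z
      have h1 : HasDerivAt (fun z : ℂ => 1 + z / (R:ℂ)) (1 / R) z := by
        have := ((hasDerivAt_id z).div_const (R:ℂ)).const_add 1
        simpa using this
      have h2 : HasDerivAt (fun z => Complex.exp (- N1 R m z))
          (Complex.exp (- N1 R m z) * (- deriv (N1 R m) z)) z :=
        ((hN z).hasDerivAt.fun_neg).cexp
      have h3 := (h1.mul h2).deriv
      have h4 := N1_deriv hR m z
      have h5 : deriv E z = 1 / R * Complex.exp (- N1 R m z) +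
          (1 + z / R) * (Complex.exp (- N1 R m z) * (- deriv (N1 R m) z)) := h3
      rw [h5]
      have h6 : (1 + z / (R:ℂ)) * (Complex.exp (- N1 R m z) * (- deriv (N1 R m) z)) =
        - Complex.exp (- N1 R m z) * ((1 + z / R) * deriv (N1 R m) z) := by ring
      rw [h6, h4]
      have h7 : (-(z / (R:ℂ))) ^ m = z ^ m * (-1 / R) ^ m := by
        rw [← mul_pow]; congr 1; ring
      rw [h7]
      ring
    have h8 := tc_deriv E k
    rw [hd, tc_pow_mul (by fun_prop), if_neg (by omega)] at h8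
    have h9 : ((k:ℂ) + 1) ≠ 0 := by exact_mod_cast Nat.succ_ne_zero k
    rcases mul_eq_zero.mp h8.symm with h | h
    · exact absurd h h9
    · exact h

theorem val_A1_le {R : ℝ} (hR : 0 < R) (m : ℕ) {ρ : ℝ} (hρ : 0 ≤ ρ) (h : 2 * ρ ≤ R) :
    val (A1 R m) ρ ≤ 2 * (ρ / R) := by
  have h1 : val (A1 R m) ρ = ∑ i ∈ range m, (1 / R) ^ (i + 1) / (i + 1) * ρ ^ (i + 1) := by
    unfold val A1
    rw [Complex.re_sum]
    apply Finset.sum_congr rfl
    intro i _
    rw [← Complex.ofReal_pow, ← Complex.ofReal_mul, Complex.ofReal_re]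
  rw [h1]
  have h2 : ∀ i ∈ range m, (1 / R) ^ (i + 1) / ((i:ℝ) + 1) * ρ ^ (i + 1) ≤ (ρ / R) * (1 / 2) ^ i := by
    intro i _
    have h3 : (1 / R) ^ (i + 1) / ((i:ℝ) + 1) * ρ ^ (i + 1) = (ρ / R) ^ (i + 1) / (i + 1) := by
      rw [div_pow, div_pow]; ring
    rw [h3]
    have h4 : ρ / R ≤ 1 / 2 := by rw [div_le_iff₀ hR]; linarith
    have h5 : 0 ≤ ρ / R := by positivity
    calc (ρ / R) ^ (i + 1) / ((i:ℝ) + 1) ≤ (ρ / R) ^ (i + 1) := by
          apply div_le_self (by positivity)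
          have : (0:ℝ) ≤ i := by positivity
          linarith
      _ = (ρ / R) * (ρ / R) ^ i := by ring
      _ ≤ (ρ / R) * (1 / 2) ^ i := by
          apply mul_le_mul_of_nonneg_left _ h5
          exact pow_le_pow_left₀ h5 h4 i
  refine (Finset.sum_le_sum h2).trans ?_
  rw [← Finset.mul_sum]
  have h6 : ∑ i ∈ range m, (1 / 2 : ℝ) ^ i ≤ 2 := by
    have := (summable_geometric_two).sum_le_tsum (range m) (fun i _ => by positivity)
    rwa [tsum_geometric_two] at this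
  have h7 : 0 ≤ ρ / R := by positivity
  nlinarith

theorem nn_sub_one {F : ℂ → ℂ} (hF : NN F) (h : F 0 = 1) : NN (fun z => F z - 1) := by
  refine ⟨hF.1.sub_const 1, fun k => ?_⟩
  have h1 := tc_sub (F := F) (G := fun _ => (1:ℂ)) hF.1 (by fun_prop) k
  rw [h1, tc_const]
  split_ifs with hk
  · subst hk
    rw [tc_zero, h]; simp
  · rw [sub_zero]; exact hF.2 k

theorem nn_linear {R : ℝ} (hR : 0 < R) : NN (fun z => 1 + z / (R:ℂ)) := by
  have h : (0:ℂ) ≤ ((1 / R : ℝ) : ℂ) := by rw [Complex.zero_le_real]; positivity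
  refine ((NN.const zero_le_one).add (NN.id.const_mul h)).congr (fun z => ?_)
  push_cast; ring

end Pool.Agent.helper38.NNF
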