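import Pool.Agent.helper38.NNStep

set_option autoImplicit false

namespace Pool.Agent.helper38.NNF

open Finset Filter Topology Complex
open scoped ComplexOrder Nat

theorem norm_le_half {A N : ℂ → ℂ} (h1 : NN (fun z => A z - N z)) (h2 : NN (fun z => A z + N z))
    {z : ℂ} {r : ℝ} (hz : ‖z‖ ≤ r) : ‖N z‖ ≤ val A r := by
  have e1 := norm_le_val' h1 hz
  have e2 := norm_le_val' h2 hz
  have e3 : N z = ((A z + N z) - (A z - N z)) / 2 := by ring
  have e4 : val (fun z => A z - N z) r + val (fun z => A z + N z) r = 2 * val A r := by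
    unfold val; simp only [Complex.sub_re, Complex.add_re]; ring
  have e5 : ‖N z‖ = ‖(A z + N z) - (A z - N z)‖ / 2 := by
    conv_lhs => rw [e3]
    rw [norm_div]; norm_num
  have e6 : ‖(A z + N z) - (A z - N z)‖ ≤ ‖A z + N z‖ + ‖A z - N z‖ := norm_sub_le _ _
  rw [e5]
  linarith

noncomputable def QQ (A Y : ℂ → ℂ) (κ : ℝ) (a : ℕ) (z : ℂ) : ℂ :=
  A z + ((κ⁻¹ : ℝ) : ℂ) * (sh^[a] Y) z + Complex.exp z

noncomputable def UU (A Y : ℂ → ℂ) (κ : ℝ) (a : ℕ) (z : ℂ) : ℂ :=
  (κ : ℂ) * (z ^ a * Complex.exp (QQ A Y κ a z + QQ A Y κ a z))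

theorem real_nonneg_cast {x : ℝ} (h : 0 ≤ x) : (0:ℂ) ≤ (x : ℂ) := by
  rwa [Complex.zero_le_real]

theorem nn_QQ {A Y : ℂ → ℂ} {κ : ℝ} (hA : NN A) (hY : NN Y) (hκ : 0 < κ) (a : ℕ) :
    NN (QQ A Y κ a) :=
  (hA.add ((hY.shiter a).const_mul (real_nonneg_cast (inv_nonneg.mpr hκ.le)))).add nn_exp

theorem nn_UU {A Y : ℂ → ℂ} {κ : ℝ} (hA : NN A) (hY : NN Y) (hκ : 0 < κ) (a : ℕ) :
    NN (UU A Y κ a) :=
  NN.const_mul (real_nonneg_cast hκ.le) ((NN.pow_id a).mul
    (nn_exp.comp ((nn_QQ hA hY hκ a).add (nn_QQ hA hY hκ a))))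

theorem phi_zero : phi 0 = 1 := by
  have := tc_sh Complex.differentiable_exp 0
  rw [tc_zero, tc_exp] at this
  simpa [phi] using this

theorem core {f N A : ℂ → ℂ} {R κ : ℝ} {a : ℕ} (hf : NN f) (hf0 : f 0 = 1) (hR : 0 < R)
    (hκ : 0 < κ) (ha : 0 < a) (hN : Differentiable ℂ N) (hA : NN A)
    (h1 : NN (fun z => A z - N z)) (h2 : NN (fun z => A z + N z))
    (F Y : ℂ → ℂ) (hF : F = fun z => f z * (1 + z / R)) (hY : Y = fun z => F z * Complex.exp (A z)) :
    (∀ k, k < a → tc (fun z => F z * Complex.exp (- N z + UU A Y κ a z)) k =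
      tc (fun z => F z * Complex.exp (- N z)) k) ∧
    (∀ k, a ≤ k → 0 < tc (fun z => F z * Complex.exp (- N z + UU A Y κ a z)) k) := by
  have hFN : NN F := by rw [hF]; exact hf.mul (nn_linear hR)
  have hF0 : F 0 = 1 := by rw [hF]; simp [hf0]
  have hYN : NN Y := by rw [hY]; exact hFN.mul (nn_exp.comp hA)
  have hQ := nn_QQ hA hYN hκ a
  have hU := nn_UU hA hYN hκ a
  have hκ0 : (κ:ℂ) ≠ 0 := by exact_mod_cast hκ.ne'
  set Q := QQ A Y κ a with hQdef
  set U := UU A Y κ a with hUdef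
  set Ξ : ℂ → ℂ := sh^[a] Y with hΞ
  have hΞN : NN Ξ := hYN.shiter a
  set W : ℂ → ℂ := fun z => F z * Complex.exp (- N z) with hW
  have hWd : Differentiable ℂ W := hFN.1.mul (Complex.differentiable_exp.comp hN.neg)
  -- X
  set X : ℂ → ℂ := fun z => Q z + Q z - N z with hX
  have hXN : NN X := by
    refine ((h1.add (hΞN.const_mul (real_nonneg_cast (inv_nonneg.mpr hκ.le)))).add
      (nn_exp.add hQ)).congr (fun z => ?_)
    simp only [hX, hQdef, QQ]
    ring
  set T : ℂ → ℂ := fun z => (κ:ℂ) * (F z * phi (U z) * Complex.exp (X z)) with hT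
  have hTd : Differentiable ℂ T := by
    have := nn_phi.1
    have h3 : Differentiable ℂ (fun z => phi (U z)) := this.comp hU.1
    have h4 : Differentiable ℂ (fun z => Complex.exp (X z)) := Complex.differentiable_exp.comp hXN.1
    exact ((hFN.1.mul h3).mul h4).const_mul _
  have hU0 : U 0 = 0 := by
    simp only [hUdef, UU]
    rw [zero_pow ha.ne']; simp
  have hFphi : NN (fun z => F z * phi (U z)) := hFN.mul (nn_phi.comp hU)
  have hFphi1 : NN (fun z => F z * phi (U z) - 1) := by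
    apply nn_sub_one hFphi
    rw [hF0, hU0, phi_zero, one_mul]
  -- T minus Ξ minus κ exp is NN
  have hTΞ : NN (fun z => T z - (Ξ z + (κ:ℂ) * Complex.exp z)) := by
    have e1 : NN (fun z => (F z * phi (U z) - 1) * Complex.exp (X z)) :=
      hFphi1.mul (nn_exp.comp hXN)
    have e2 : NN (fun z => Complex.exp (X z) - X z) := nn_exp_sub_id.comp hXN
    have e3 := (e1.add e2).const_mul (real_nonneg_cast hκ.le)
    have e4 := (h1.add (hA.add nn_exp)).const_mul (real_nonneg_cast hκ.le)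
    refine ((e3.add e4).add hΞN).congr (fun z => ?_)
    simp only [hT, hX, hQdef, QQ]
    push_cast
    field_simp
    ring
  have hdecomp : (fun z => F z * Complex.exp (- N z + U z)) = fun z => W z + z ^ a * T z := by
    funext z
    simp only [hW, hT, hX]
    rw [Complex.exp_add, phi_spec (U z)]
    have e5 : U z = (κ:ℂ) * (z ^ a * Complex.exp (Q z + Q z)) := rfl
    have e6 : Complex.exp (Q z + Q z - N z) = Complex.exp (Q z + Q z) * Complex.exp (- N z) := by
      rw [← Complex.exp_add]; congr 1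
    rw [e6]
    have e7 : F z * (Complex.exp (- N z) * (1 + U z * phi (U z))) =
      F z * Complex.exp (- N z) + U z * (F z * (Complex.exp (- N z) * phi (U z))) := by ring
    rw [e7]
    conv_lhs => rw [show U z * (F z * (Complex.exp (- N z) * phi (U z))) =
      ((κ:ℂ) * (z ^ a * Complex.exp (Q z + Q z))) * (F z * (Complex.exp (- N z) * phi (U z))) by
        rw [← e5]]
    ring
  have htc : ∀ k, tc (fun z => F z * Complex.exp (- N z + U z)) k =
      tc W k + if a ≤ k then tc T (k - a) else 0 := by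
    intro k
    rw [hdecomp, tc_add hWd (by fun_prop), tc_pow_mul hTd]
  constructor
  · intro k hk
    rw [htc, if_neg (by omega), add_zero]
  · intro k hk
    rw [htc, if_pos hk]
    obtain ⟨e1, e2⟩ := exp_pm h1 h2
    have hYg1 : NN (fun z => Y z - W z) := (hFN.mul e1).congr (fun z => by simp only [hY, hW]; ring)
    have hYg2 : NN (fun z => Y z + W z) := (hFN.mul e2).congr (fun z => by simp only [hY, hW]; ring)
    obtain ⟨b1, b2⟩ := tc_bounds hYN.1 hWd hYg1 hYg2 k
    have b3 := hTΞ.2 (k - a)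
    have hexpd : Differentiable ℂ (fun z => (κ:ℂ) * Complex.exp z) :=
      Complex.differentiable_exp.const_mul _
    have hsum : Differentiable ℂ (fun z => Ξ z + (κ:ℂ) * Complex.exp z) := hΞN.1.add hexpd
    rw [tc_sub hTd hsum, tc_add hΞN.1 hexpd,
      tc_const_mul (F := Complex.exp) (κ:ℂ), tc_exp, hΞ,
      tc_sh_iter hYN.1, Nat.sub_add_cancel hk] at b3
    have b4 : (0:ℂ) < (κ:ℂ) * (((k - a)! : ℕ) : ℂ)⁻¹ := by
      have : (0:ℂ) < ((κ * (((k - a)! : ℕ) : ℝ)⁻¹ : ℝ) : ℂ) := by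
        rw [Complex.zero_lt_real]; positivity
      rwa [Complex.ofReal_mul, Complex.ofReal_inv, Complex.ofReal_natCast] at this
    have b5 : tc W k + tc T (k - a) = (tc W k - (- tc Y k)) +
      (tc T (k - a) - (tc Y k + (κ:ℂ) * (((k - a)! : ℕ) : ℂ)⁻¹)) +
      (κ:ℂ) * (((k - a)! : ℕ) : ℂ)⁻¹ := by ring
    rw [b5]
    exact add_pos_of_nonneg_of_pos (add_nonneg (sub_nonneg.mpr b1) b3) b4

end Pool.Agent.helper38.NNF
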