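import Pool.Agent.helper38.NNStep2

set_option autoImplicit false

namespace Pool.Agent.helper38.NNF

open Finset Filter Topology Complex
open scoped ComplexOrder Nat

theorem low_coefs {f N2 : ℂ → ℂ} (hf : Differentiable ℂ f) (hN2 : Differentiable ℂ N2) {R : ℝ}
    (hR : 0 < R) (m k : ℕ) (hk : k ≤ m) :
    tc (fun z => (f z * (1 + z / R)) * Complex.exp (-(N1 R m z + N2 z))) k =
      tc (fun z => f z * Complex.exp (- N2 z)) k := by
  have hE : Differentiable ℂ (fun z : ℂ => (1 + z / (R:ℂ)) * Complex.exp (- N1 R m z)) := by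
    have := N1_differentiable R m
    fun_prop
  have hg : Differentiable ℂ (fun z => f z * Complex.exp (- N2 z)) := by fun_prop
  have h1 : (fun z => (f z * (1 + z / (R:ℂ))) * Complex.exp (-(N1 R m z + N2 z))) =
      fun z => ((1 + z / (R:ℂ)) * Complex.exp (- N1 R m z)) * (f z * Complex.exp (- N2 z)) := by
    funext z
    rw [neg_add, Complex.exp_add]; ring
  rw [h1, tc_mul hE hg, Finset.sum_eq_single 0]
  · rw [weier hR m 0 (Nat.zero_le _), if_pos rfl, one_mul, Nat.sub_zero]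
  · intro b hb hb0
    rw [Finset.mem_range] at hb
    rw [weier hR m b (by omega), if_neg hb0, zero_mul]
  · intro h; exact absurd (Finset.mem_range.mpr (by omega)) h

theorem one_le_val {F : ℂ → ℂ} (hF : NN F) (h0 : F 0 = 1) {r : ℝ} (hr : 0 ≤ r) : 1 ≤ val F r := by
  have h1 := val_mono hF le_rfl hr
  have h2 : val F 0 = 1 := by simp [val, h0]
  linarith

theorem growth_aux {F N A Y : ℂ → ℂ} {κ : ℝ} {a : ℕ} (hF : NN F) (hF0 : F 0 = 1) (hκ : 0 < κ)
    (hA : NN A) (hY : NN Y)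
    (h1 : NN (fun z => A z - N z)) (h2 : NN (fun z => A z + N z)) (m : ℕ) :
    ∀ᶠ r : ℝ in atTop, Real.exp (r ^ m) <
      val (fun z => F z * Complex.exp (- N z + UU A Y κ a z)) r := by
  have t1 := (Real.tendsto_exp_div_pow_atTop m).eventually_gt_atTop (1 / κ)
  have t2 := Real.tendsto_exp_atTop.eventually_gt_atTop (1 / κ)
  filter_upwards [t1, t2, eventually_ge_atTop (1:ℝ)] with r ht1 ht2 hr1
  have hr0 : 0 ≤ r := by linarith
  have hrm : 0 < r ^ m := by positivity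
  have hU := nn_UU hA hY hκ a
  have hQ := nn_QQ hA hY hκ a
  -- value at r
  have hNr : N (r:ℂ) = (((val (fun z => A z + N z) r - val (fun z => A z - N z) r) / 2 : ℝ) : ℂ) := by
    have e1 := val_eq h1 r
    have e2 := val_eq h2 r
    push_cast
    rw [← e1, ← e2]; ring
  set ν : ℝ := (val (fun z => A z + N z) r - val (fun z => A z - N z) r) / 2 with hν
  have hνle : ν ≤ val A r := by
    have e3 : val (fun z => A z - N z) r + val (fun z => A z + N z) r = 2 * val A r := by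
      unfold val; simp only [Complex.sub_re, Complex.add_re]; ring
    have e4 := val_nonneg h1 hr0
    rw [hν]; linarith
  have hval : val (fun z => F z * Complex.exp (- N z + UU A Y κ a z)) r =
      val F r * Real.exp (- ν + val (UU A Y κ a) r) := by
    have : F (r:ℂ) * Complex.exp (- N (r:ℂ) + UU A Y κ a (r:ℂ)) =
        ((val F r * Real.exp (- ν + val (UU A Y κ a) r) : ℝ) : ℂ) := by
      rw [hNr, val_eq hF, val_eq hU]
      push_cast; rfl
    show (F (r:ℂ) * Complex.exp (- N (r:ℂ) + UU A Y κ a (r:ℂ))).re = _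
    rw [this, Complex.ofReal_re]
  rw [hval]
  have hF1 := one_le_val hF hF0 hr0
  have hUval : val (UU A Y κ a) r = κ * (r ^ a * Real.exp (val (QQ A Y κ a) r + val (QQ A Y κ a) r)) := by
    have : UU A Y κ a (r:ℂ) =
      ((κ * (r ^ a * Real.exp (val (QQ A Y κ a) r + val (QQ A Y κ a) r)) : ℝ) : ℂ) := by
      unfold UU
      rw [val_eq hQ]
      push_cast; rfl
    show (UU A Y κ a (r:ℂ)).re = _
    rw [this, Complex.ofReal_re]
  have hQval : val A r + Real.exp r ≤ val (QQ A Y κ a) r := by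
    have e5 : val (QQ A Y κ a) r = val A r + κ⁻¹ * val (sh^[a] Y) r + Real.exp r := by
      unfold QQ val
      rw [Complex.add_re, Complex.add_re, Complex.re_ofReal_mul]
      congr 1
    have e6 : 0 ≤ κ⁻¹ * val (sh^[a] Y) r :=
      mul_nonneg (inv_nonneg.mpr hκ.le) (val_nonneg (hY.shiter a) hr0)
    linarith
  set x := val A r with hx
  have hx0 : 0 ≤ x := val_nonneg hA hr0
  have hexp1 : Real.exp r ≤ Real.exp (2 * Real.exp r) := by
    apply Real.exp_le_exp.mpr
    have := Real.add_one_le_exp r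
    linarith
  have hU1 : κ * ((1 + 2 * x) * Real.exp (2 * Real.exp r)) ≤ val (UU A Y κ a) r := by
    rw [hUval]
    apply mul_le_mul_of_nonneg_left _ hκ.le
    have e7 : (1 + 2 * x) * Real.exp (2 * Real.exp r) ≤ Real.exp (2 * x + 2 * Real.exp r) := by
      rw [Real.exp_add]
      apply mul_le_mul_of_nonneg_right _ (Real.exp_pos _).le
      have := Real.add_one_le_exp (2 * x); linarith
    have e8 : Real.exp (2 * x + 2 * Real.exp r) ≤
      Real.exp (val (QQ A Y κ a) r + val (QQ A Y κ a) r) := Real.exp_le_exp.mpr (by linarith)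
    have e9 : (1:ℝ) ≤ r ^ a := one_le_pow₀ hr1
    have e10 : 0 < Real.exp (val (QQ A Y κ a) r + val (QQ A Y κ a) r) := Real.exp_pos _
    nlinarith
  have hκe : 1 ≤ κ * Real.exp (2 * Real.exp r) := by
    have : 1 < κ * Real.exp r := by rwa [div_lt_iff₀ hκ, mul_comm] at ht2
    have := mul_le_mul_of_nonneg_left hexp1 hκ.le
    linarith
  have hrm2 : r ^ m < κ * Real.exp (2 * Real.exp r) := by
    rw [lt_div_iff₀ hrm, div_mul_eq_mul_div, one_mul, div_lt_iff₀ hκ, mul_comm] at ht1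
    have := mul_le_mul_of_nonneg_left hexp1 hκ.le
    linarith
  have hfinal : r ^ m < - ν + val (UU A Y κ a) r := by
    have : κ * ((1 + 2 * x) * Real.exp (2 * Real.exp r)) =
      κ * Real.exp (2 * Real.exp r) + 2 * x * (κ * Real.exp (2 * Real.exp r)) := by ring
    nlinarith
  calc Real.exp (r ^ m) < Real.exp (- ν + val (UU A Y κ a) r) := Real.exp_lt_exp.mpr hfinal
    _ = 1 * Real.exp (- ν + val (UU A Y κ a) r) := (one_mul _).symm
    _ ≤ val F r * Real.exp (- ν + val (UU A Y κ a) r) :=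
      mul_le_mul_of_nonneg_right hF1 (Real.exp_pos _).le

theorem step {n : ℕ} (hn : 1 ≤ n) {f : ℂ → ℂ} (hf : NN f) (hf0 : f 0 = 1) {ρ : ℝ} (hρ : 1 ≤ ρ)
    {η : ℝ} (hη : 0 < η) (hη1 : η ≤ 1) (B : ℕ) (Rm : ℝ) :
    ∃ (p : ℕ) (R : ℝ) (D : ℂ → ℂ), B ≤ p ∧ Rm < R ∧ 0 < R ∧ Differentiable ℂ D ∧
      (∀ z, D z = 0 ↔ z = -(R:ℂ)) ∧ (∀ z, ‖z‖ ≤ ρ → ‖D z - 1‖ ≤ η) ∧ D 0 = 1 ∧
      (∀ k, k ≤ p → tc (fun z => f z * D z) k = tc f k) ∧
      (∀ k, p < k → k < p + n → tc (fun z => f z * D z) k = 0) ∧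
      (∀ k, p + n ≤ k → 0 < tc (fun z => f z * D z) k) ∧
      ∀ m : ℕ, ∀ᶠ r : ℝ in atTop, Real.exp (r ^ m) < val (fun z => f z * D z) r := by
  have hρ0 : 0 < ρ := by linarith
  set η' : ℝ := η / 9 with hη'
  have hη'0 : 0 < η' := by positivity
  have hη'1 : η' ≤ 1 / 9 := by rw [hη']; linarith
  set R : ℝ := |Rm| + 1 + 8 * ρ / η' with hRdef
  have h8 : 8 * ρ ≤ 8 * ρ / η' := by
    rw [le_div_iff₀ hη'0]; nlinarith
  have hR0 : 0 < R := by positivity
  have hRm : Rm < R := by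
    have := le_abs_self Rm
    have : 0 < 8 * ρ / η' := by positivity
    linarith
  have hR8 : 8 * ρ / η' ≤ R := by
    have := abs_nonneg Rm
    linarith
  have hRρ : 8 * ρ ≤ η' * R := by
    rw [div_le_iff₀ hη'0] at hR8; linarith
  obtain ⟨P, hP⟩ := cancel (n - 1) f hf hf0 (2 * ρ) (by positivity) (η' / 2) (by positivity)
  set τ : ℝ := η' * Real.exp (-(4 + 2 * Real.exp ρ)) with hτ
  have hτ0 : 0 < τ := by positivity
  set K : ℝ := val f (2 * ρ) * 2 * Real.exp 1 with hK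
  have hK0 : 0 ≤ K := by
    have := val_nonneg hf (r := 2 * ρ) (by positivity)
    positivity
  obtain ⟨L, hL⟩ := exists_pow_lt_of_lt_one (show (0:ℝ) < τ / (K + 1) by positivity)
    (show (1/2 : ℝ) < 1 by norm_num)
  set p : ℕ := max B (max P L) with hp
  have hpB : B ≤ p := le_max_left _ _
  have hpP : P ≤ p := le_trans (le_max_left _ _) (le_max_right _ _)
  have hpL : L ≤ p := le_trans (le_max_right _ _) (le_max_right _ _)
  obtain ⟨N2, A2, hN2d, hA2, hN20, g1, g2, hvalA2, hlow, hzero⟩ := hP p hpP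
  set a : ℕ := p + n with ha
  have ha0 : 0 < a := by omega
  set N : ℂ → ℂ := fun z => N1 R (a - 1) z + N2 z with hN
  set A : ℂ → ℂ := fun z => A1 R (a - 1) z + A2 z with hA
  have hNd : Differentiable ℂ N := (N1_differentiable R (a - 1)).add hN2d
  have hAN : NN A := (nn_A1 hR0 (a - 1)).add hA2
  have h1 : NN (fun z => A z - N z) :=
    ((nn_A1_sub hR0 (a - 1)).add g1).congr (fun z => by simp only [hA, hN]; ring)
  have h2 : NN (fun z => A z + N z) :=
    ((nn_A1_add hR0 (a - 1)).add g2).congr (fun z => by simp only [hA, hN]; ring)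
  have hN0 : N 0 = 0 := by simp only [hN]; rw [N1_zero, hN20, add_zero]
  set F : ℂ → ℂ := fun z => f z * (1 + z / R) with hF
  set Y : ℂ → ℂ := fun z => F z * Complex.exp (A z) with hY
  have hFN : NN F := hf.mul (nn_linear hR0)
  have hF0 : F 0 = 1 := by simp only [hF]; simp [hf0]
  have hYN : NN Y := hFN.mul (nn_exp.comp hAN)
  set κ : ℝ := τ / ρ ^ a with hκ
  have hκ0 : 0 < κ := by positivity
  obtain ⟨c1, c2⟩ := core hf hf0 hR0 hκ0 ha0 hNd hAN h1 h2 F Y hF hY
  have hgr := growth_aux (a := a) hFN hF0 hκ0 hAN hYN h1 h2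
  set D : ℂ → ℂ := fun z => (1 + z / R) * Complex.exp (- N z + UU A Y κ a z) with hD
  have hfD : (fun z => f z * D z) = fun z => F z * Complex.exp (- N z + UU A Y κ a z) := by
    funext z; simp only [hD, hF]; ring
  have hQ := nn_QQ hAN hYN hκ0 a
  have hU := nn_UU hAN hYN hκ0 a
  have hRc : (R:ℂ) ≠ 0 := by exact_mod_cast hR0.ne'
  -- estimates
  have hvA : val A (2 * ρ) ≤ η' := by
    rw [hA, val_add]
    have e1 := val_A1_le hR0 (a - 1) (ρ := 2 * ρ) (by positivity) (by nlinarith)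
    have e2 : 2 * (2 * ρ / R) ≤ η' / 2 := by
      rw [mul_div_assoc', div_le_iff₀ hR0]; linarith
    linarith
  have hvAρ : val A ρ ≤ η' := (val_mono hAN hρ0.le (by linarith)).trans hvA
  have hvY : val Y (2 * ρ) ≤ K := by
    rw [hY, val_mul hFN (nn_exp.comp hAN), val_exp_comp hAN, hF, val_mul hf (nn_linear hR0), hK]
    have e1 : val (fun z => 1 + z / (R:ℂ)) (2 * ρ) ≤ 2 := by
      have : (1 + ((2 * ρ : ℝ) : ℂ) / (R:ℂ)) = ((1 + 2 * ρ / R : ℝ) : ℂ) := by push_cast; ring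
      show (1 + ((2 * ρ : ℝ) : ℂ) / (R:ℂ)).re ≤ 2
      rw [this, Complex.ofReal_re]
      have : 2 * ρ / R ≤ 1 := by rw [div_le_one hR0]; nlinarith
      linarith
    have e2 : Real.exp (val A (2 * ρ)) ≤ Real.exp 1 := Real.exp_le_exp.mpr (by linarith)
    have e3 := val_nonneg hf (r := 2 * ρ) (by positivity)
    have e4 := val_nonneg (nn_linear hR0) (r := 2 * ρ) (by positivity)
    gcongr
  have hΞ : ρ ^ a * val (sh^[a] Y) ρ ≤ τ := by
    have e1 := val_shiter_le hYN a (r := 2 * ρ) (by positivity)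
    have e2 : val (sh^[a] Y) ρ ≤ val (sh^[a] Y) (2 * ρ) :=
      val_mono (hYN.shiter a) hρ0.le (by linarith)
    have e3 : ρ ^ a * val (sh^[a] Y) ρ ≤ ρ ^ a * val (sh^[a] Y) (2 * ρ) :=
      mul_le_mul_of_nonneg_left e2 (by positivity)
    have e4 : ρ ^ a * val (sh^[a] Y) (2 * ρ) =
      (1/2 : ℝ) ^ a * ((2 * ρ) ^ a * val (sh^[a] Y) (2 * ρ)) := by
      rw [mul_pow]
      have : (1/2 : ℝ) ^ a * 2 ^ a = 1 := by rw [← mul_pow]; norm_num
      calc ρ ^ a * val (sh^[a] Y) (2 * ρ) = ((1/2 : ℝ) ^ a * 2 ^ a) * (ρ ^ a * val (sh^[a] Y) (2 * ρ)) := by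
            rw [this, one_mul]
        _ = _ := by ring
    have e5 : (1/2 : ℝ) ^ a * ((2 * ρ) ^ a * val (sh^[a] Y) (2 * ρ)) ≤ (1/2 : ℝ) ^ a * K :=
      mul_le_mul_of_nonneg_left (e1.trans hvY) (by positivity)
    have e6 : (1/2 : ℝ) ^ a ≤ (1/2 : ℝ) ^ L :=
      pow_le_pow_of_le_one (by norm_num) (by norm_num) (by omega)
    have e7 : (1/2 : ℝ) ^ a * K ≤ τ / (K + 1) * K :=
      mul_le_mul_of_nonneg_right (e6.trans hL.le) hK0
    have e8 : τ / (K + 1) * K ≤ τ := by
      rw [div_mul_eq_mul_div, div_le_iff₀ (by positivity)]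
      nlinarith
    linarith
  have hvQ : val (QQ A Y κ a) ρ ≤ 2 + Real.exp ρ := by
    have e5 : val (QQ A Y κ a) ρ = val A ρ + κ⁻¹ * val (sh^[a] Y) ρ + Real.exp ρ := by
      unfold QQ val
      rw [Complex.add_re, Complex.add_re, Complex.re_ofReal_mul]
      congr 1
    have e6 : κ⁻¹ * val (sh^[a] Y) ρ ≤ 1 := by
      rw [hκ, inv_div, div_mul_eq_mul_div, div_le_one hτ0]
      exact hΞ
    linarith
  have hvU : val (UU A Y κ a) ρ ≤ η' := by
    have hUval : val (UU A Y κ a) ρ = κ * (ρ ^ a * Real.exp (val (QQ A Y κ a) ρ + val (QQ A Y κ a) ρ)) := by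
      have : UU A Y κ a (ρ:ℂ) =
        ((κ * (ρ ^ a * Real.exp (val (QQ A Y κ a) ρ + val (QQ A Y κ a) ρ)) : ℝ) : ℂ) := by
        unfold UU
        rw [val_eq hQ]
        push_cast; rfl
      show (UU A Y κ a (ρ:ℂ)).re = _
      rw [this, Complex.ofReal_re]
    rw [hUval, hκ, ← mul_assoc, div_mul_cancel₀ _ (by positivity), hτ, mul_assoc, ← Real.exp_add]
    have : Real.exp (-(4 + 2 * Real.exp ρ) + (val (QQ A Y κ a) ρ + val (QQ A Y κ a) ρ)) ≤ 1 := by
      rw [Real.exp_le_one_iff]; linarith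
    nlinarith
  refine ⟨p, R, D, hpB, hRm, hR0, ?_, ?_, ?_, ?_, ?_, ?_, ?_, ?_⟩
  · have := hU.1
    simp only [hD]
    fun_prop
  · intro z
    simp only [hD]
    rw [mul_eq_zero]
    constructor
    · rintro (h | h)
      · have : z / (R:ℂ) = -1 := by linear_combination h
        rw [div_eq_iff hRc] at this
        rw [this]; ring
      · exact absurd h (Complex.exp_ne_zero _)
    · intro h
      left
      rw [h, neg_div, div_self hRc]; ring
  · intro z hz
    set w : ℂ := - N z + UU A Y κ a z with hw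
    have e1 : ‖N z‖ ≤ η' := (norm_le_half h1 h2 hz).trans hvAρ
    have e2 : ‖UU A Y κ a z‖ ≤ η' := (norm_le_val' hU hz).trans hvU
    have e3 : ‖w‖ ≤ 2 * η' := by
      calc ‖w‖ ≤ ‖- N z‖ + ‖UU A Y κ a z‖ := norm_add_le _ _
        _ ≤ 2 * η' := by rw [norm_neg]; linarith
    have e4 : ‖Complex.exp w - 1‖ ≤ 2 * ‖w‖ := Complex.norm_exp_sub_one_le (by linarith)
    have e5 : ‖z / (R:ℂ)‖ ≤ η' := by
      rw [norm_div, Complex.norm_real, Real.norm_eq_abs, abs_of_pos hR0, div_le_iff₀ hR0]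
      nlinarith
    have e6 : D z - 1 = (Complex.exp w - 1) * (1 + z / R) + z / R := by
      simp only [hD, ← hw]; ring
    rw [e6]
    have e7 : ‖(1:ℂ) + z / R‖ ≤ 2 := by
      calc ‖(1:ℂ) + z / R‖ ≤ ‖(1:ℂ)‖ + ‖z / (R:ℂ)‖ := norm_add_le _ _
        _ ≤ 2 := by rw [norm_one]; linarith
    calc ‖(Complex.exp w - 1) * (1 + z / R) + z / R‖
        ≤ ‖Complex.exp w - 1‖ * ‖(1:ℂ) + z / R‖ + ‖z / (R:ℂ)‖ := by
          refine (norm_add_le _ _).trans ?_
          rw [norm_mul]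
      _ ≤ (2 * (2 * η')) * 2 + η' := by
          gcongr
          linarith
      _ = η := by rw [hη']; ring
  · simp only [hD]
    have : UU A Y κ a 0 = 0 := by
      unfold UU; rw [zero_pow ha0.ne']; simp
    rw [hN0, this]; simp
  · intro k hk
    rw [hfD, c1 k (by omega)]
    rw [← hlow k hk]
    exact low_coefs hf.1 hN2d hR0 (a - 1) k (by omega)
  · intro k hk1 hk2
    rw [hfD, c1 k (by omega)]
    rw [← hzero k hk1 (by omega)]
    exact low_coefs hf.1 hN2d hR0 (a - 1) k (by omega)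
  · intro k hk
    rw [hfD]
    exact c2 k hk
  · rw [hfD]
    exact hgr

end Pool.Agent.helper38.NNF
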