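import Mathlib

set_option autoImplicit false

namespace Pool.Agent.helper38.NullSeries

open Finset Filter Topology

/-- One block of the construction: adding `l` pairs. -/
theorem pairs_step (e : ℕ → ℕ → ℝ) (m : ℕ → ℝ) (he : ∀ n j, |e n j| ≤ 1) (he0 : ∀ n, e n 0 = 1)
    (k : ℕ) (z : ℕ → ℝ)
    (hz : ∀ ε > (0:ℝ), ∀ N : ℕ, ∃ n n' : ℕ, N ≤ n ∧ n < n' ∧ |m n| ≤ ε ∧ |m n'| ≤ ε ∧
      ∀ j ≤ k, |e n j - e n' j - z j| ≤ ε)
    (N : ℕ) (α : ℕ → ℝ) (hα : ∀ n, N ≤ n → α n = 0) (hα0 : ∑ n ∈ range N, α n * e n 0 = 0)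
    (β δ : ℝ) (hβ : 0 < β) (hδ : 0 < δ) (M : ℕ)
    (hM : ∀ j ≤ k, ∀ l : ℕ, l ≤ M →
      |∑ n ∈ range N, α n * e n j + l * β * z j| ≤ |∑ n ∈ range N, α n * e n j|) :
    ∀ l : ℕ, l ≤ M → ∃ (N' : ℕ) (α' : ℕ → ℝ), N + l ≤ N' ∧ (∀ n, n < N → α' n = α n) ∧
      (∀ n, N' ≤ n → α' n = 0) ∧ (∀ n, N ≤ n → |α' n| ≤ β) ∧
      (∑ n ∈ Ico N N', |α' n| * |m n| ≤ 2 * l * β * δ) ∧
      (∑ n ∈ range N', α' n * e n 0 = 0) ∧
      (∀ j ≤ k, |∑ n ∈ range N', α' n * e n j - (∑ n ∈ range N, α n * e n j + l * β * z j)|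
        ≤ l * β * δ) ∧
      (∀ j ≤ k, ∀ N'', N ≤ N'' → |∑ n ∈ range N'', α' n * e n j| ≤
        |∑ n ∈ range N, α n * e n j| + l * β * δ + β) := by
  intro l
  induction l with
  | zero =>
    intro _
    refine ⟨N, α, by simp, fun _ _ => rfl, hα, ?_, ?_, hα0, ?_, ?_⟩
    · intro n hn; rw [hα n hn]; simpa using hβ.le
    · simp
    · intro j hj; simp
    · intro j hj N'' hN''
      have : ∑ n ∈ range N'', α n * e n j = ∑ n ∈ range N, α n * e n j := by
        symm
        apply Finset.sum_subset (Finset.range_mono hN'')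
        intro n _ hn
        rw [hα n (by simpa using hn)]; simp
      rw [this]; simp; exact hβ.le
  | succ l ih =>
    intro hl
    obtain ⟨N₁, α₁, hN₁, hagree, hzero, hsmall, hm, h0, hS, hpart⟩ := ih (by omega)
    obtain ⟨n, n', hn, hnn', hmn, hmn', hez⟩ := hz δ hδ N₁
    have hNn : N ≤ n := by omega
    refine ⟨n' + 1, fun i => α₁ i + (if i = n then β else 0) + (if i = n' then -β else 0),
      by omega, ?_, ?_, ?_, ?_, ?_, ?_, ?_⟩
    · intro i hi
      have h1 : i ≠ n := by omega
      have h2 : i ≠ n' := by omega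
      simp [h1, h2, hagree i hi]
    · intro i hi
      have h1 : i ≠ n := by omega
      have h2 : i ≠ n' := by omega
      simp [h1, h2, hzero i (by omega)]
    · intro i hi
      by_cases h1 : i = n
      · have h2 : i ≠ n' := by omega
        subst h1
        have : α₁ i = 0 := hzero i (by omega)
        simp [this, h2, abs_of_pos hβ]
      · by_cases h2 : i = n'
        · subst h2
          have : α₁ i = 0 := hzero i (by omega)
          simp [this, h1, abs_of_pos hβ]
        · simpa [h1, h2] using hsmall i hi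
    · -- the m-sum
      have key : ∀ i ∈ Ico N (n' + 1), |α₁ i + (if i = n then β else 0) + (if i = n' then -β else 0)|
          * |m i| ≤ |α₁ i| * |m i| + (if i = n then β * |m n| else 0) +
            (if i = n' then β * |m n'| else 0) := by
        intro i _
        by_cases h1 : i = n
        · have h2 : i ≠ n' := by omega
          subst h1
          have : α₁ i = 0 := hzero i (by omega)
          simp [this, h2, abs_of_pos hβ]
        · by_cases h2 : i = n'
          · subst h2
            have : α₁ i = 0 := hzero i (by omega)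
            simp [this, h1, abs_of_pos hβ]
          · simp [h1, h2]
      refine (Finset.sum_le_sum key).trans ?_
      rw [Finset.sum_add_distrib, Finset.sum_add_distrib, Finset.sum_ite_eq', Finset.sum_ite_eq',
        if_pos (by rw [Finset.mem_Ico]; omega), if_pos (by rw [Finset.mem_Ico]; omega)]
      have h3 : ∑ i ∈ Ico N (n' + 1), |α₁ i| * |m i| = ∑ i ∈ Ico N N₁, |α₁ i| * |m i| := by
        symm
        apply Finset.sum_subset (Finset.Ico_subset_Ico le_rfl (by omega))
        intro i hi hi'
        rw [Finset.mem_Ico] at hi hi'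
        rw [hzero i (by omega)]; simp
      rw [h3]
      have h4 : β * |m n| ≤ β * δ := mul_le_mul_of_nonneg_left hmn hβ.le
      have h5 : β * |m n'| ≤ β * δ := mul_le_mul_of_nonneg_left hmn' hβ.le
      push_cast
      nlinarith
    · -- the zero-sum at j = 0
      have h1 : ∑ i ∈ range (n' + 1), (α₁ i + (if i = n then β else 0) + (if i = n' then -β else 0))
          * e i 0 = ∑ i ∈ range (n' + 1), α₁ i * e i 0 +
            ∑ i ∈ range (n' + 1), (if i = n then β * e n 0 else 0) +
            ∑ i ∈ range (n' + 1), (if i = n' then -β * e n' 0 else 0) := by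
        rw [← Finset.sum_add_distrib, ← Finset.sum_add_distrib]
        apply Finset.sum_congr rfl
        intro i _
        by_cases h1 : i = n
        · have h2 : i ≠ n' := by omega
          subst h1; simp [h2]; ring
        · by_cases h2 : i = n'
          · subst h2; simp [h1]; ring
          · simp [h1, h2]
      rw [h1, Finset.sum_ite_eq', Finset.sum_ite_eq', if_pos (by rw [Finset.mem_range]; omega),
        if_pos (by rw [Finset.mem_range]; omega)]
      have h3 : ∑ i ∈ range (n' + 1), α₁ i * e i 0 = ∑ i ∈ range N₁, α₁ i * e i 0 := by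
        symm
        apply Finset.sum_subset (Finset.range_mono (by omega))
        intro i _ hi
        rw [hzero i (by simpa using hi)]; simp
      rw [h3, h0, he0, he0]; ring
    · -- the values at N'
      intro j hj
      have h1 : ∑ i ∈ range (n' + 1), (α₁ i + (if i = n then β else 0) + (if i = n' then -β else 0))
          * e i j = ∑ i ∈ range (n' + 1), α₁ i * e i j +
            ∑ i ∈ range (n' + 1), (if i = n then β * e n j else 0) +
            ∑ i ∈ range (n' + 1), (if i = n' then -β * e n' j else 0) := by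
        rw [← Finset.sum_add_distrib, ← Finset.sum_add_distrib]
        apply Finset.sum_congr rfl
        intro i _
        by_cases h1 : i = n
        · have h2 : i ≠ n' := by omega
          subst h1; simp [h2]; ring
        · by_cases h2 : i = n'
          · subst h2; simp [h1]; ring
          · simp [h1, h2]
      have h3 : ∑ i ∈ range (n' + 1), α₁ i * e i j = ∑ i ∈ range N₁, α₁ i * e i j := by
        symm
        apply Finset.sum_subset (Finset.range_mono (by omega))
        intro i _ hi
        rw [hzero i (by simpa using hi)]; simp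
      rw [h1, Finset.sum_ite_eq', Finset.sum_ite_eq', if_pos (by rw [Finset.mem_range]; omega),
        if_pos (by rw [Finset.mem_range]; omega), h3]
      have h4 := hS j hj
      have h5 := hez j hj
      have h6 : β * |e n j - e n' j - z j| ≤ β * δ := mul_le_mul_of_nonneg_left h5 hβ.le
      have h7 : β * |e n j - e n' j - z j| = |β * (e n j - e n' j - z j)| := by
        rw [abs_mul, abs_of_pos hβ]
      rw [h7] at h6
      push_cast
      have h8 : (∑ i ∈ range N₁, α₁ i * e i j) + β * e n j + -β * e n' j -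
          (∑ n ∈ range N, α n * e n j + (↑l + 1) * β * z j) =
          ((∑ i ∈ range N₁, α₁ i * e i j) - (∑ n ∈ range N, α n * e n j + ↑l * β * z j)) +
            β * (e n j - e n' j - z j) := by ring
      rw [h8]
      refine (abs_add_le _ _).trans ?_
      linarith
    · -- all the partial sums
      intro j hj N'' hN''
      have h1 : ∑ i ∈ range N'', (α₁ i + (if i = n then β else 0) + (if i = n' then -β else 0))
          * e i j = ∑ i ∈ range N'', α₁ i * e i j +
            ∑ i ∈ range N'', (if i = n then β * e n j else 0) +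
            ∑ i ∈ range N'', (if i = n' then -β * e n' j else 0) := by
        rw [← Finset.sum_add_distrib, ← Finset.sum_add_distrib]
        apply Finset.sum_congr rfl
        intro i _
        by_cases h1 : i = n
        · have h2 : i ≠ n' := by omega
          subst h1; simp [h2]; ring
        · by_cases h2 : i = n'
          · subst h2; simp [h1]; ring
          · simp [h1, h2]
      rw [h1, Finset.sum_ite_eq', Finset.sum_ite_eq']
      have hβδ : 0 < β * δ := mul_pos hβ hδ
      by_cases hc1 : N'' ≤ n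
      · rw [if_neg (by rw [Finset.mem_range]; omega), if_neg (by rw [Finset.mem_range]; omega)]
        have := hpart j hj N'' hN''
        push_cast
        rw [add_zero, add_zero]
        nlinarith
      · have hconst : ∑ i ∈ range N'', α₁ i * e i j = ∑ i ∈ range N₁, α₁ i * e i j := by
          symm
          apply Finset.sum_subset (Finset.range_mono (by omega))
          intro i _ hi
          rw [hzero i (by simpa using hi)]; simp
        rw [hconst, if_pos (by rw [Finset.mem_range]; omega)]
        by_cases hc2 : N'' ≤ n'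
        · rw [if_neg (by rw [Finset.mem_range]; omega), add_zero]
          have h4 := hS j hj
          have h5 := hM j hj l (by omega)
          have h6 : |β * e n j| ≤ β := by
            rw [abs_mul, abs_of_pos hβ]
            have := he n j
            nlinarith
          have h9 : ∑ i ∈ range N₁, α₁ i * e i j + β * e n j =
            ((∑ i ∈ range N₁, α₁ i * e i j) - (∑ n ∈ range N, α n * e n j + ↑l * β * z j)) +
            (∑ n ∈ range N, α n * e n j + ↑l * β * z j) + β * e n j := by ring
          rw [h9]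
          refine (abs_add_le _ _).trans ?_
          have h10 := abs_add_le ((∑ i ∈ range N₁, α₁ i * e i j) -
            (∑ n ∈ range N, α n * e n j + ↑l * β * z j)) (∑ n ∈ range N, α n * e n j + ↑l * β * z j)
          push_cast
          nlinarith
        · rw [if_pos (by rw [Finset.mem_range]; omega)]
          have h4 := hS j hj
          have h5 := hM j hj (l + 1) (by omega)
          have h5' := hez j hj
          have h6 : β * |e n j - e n' j - z j| ≤ β * δ := mul_le_mul_of_nonneg_left h5' hβ.le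
          have h7 : β * |e n j - e n' j - z j| = |β * (e n j - e n' j - z j)| := by
            rw [abs_mul, abs_of_pos hβ]
          rw [h7] at h6
          push_cast at h5 ⊢
          have h8 : (∑ i ∈ range N₁, α₁ i * e i j) + β * e n j + -β * e n' j =
              (((∑ i ∈ range N₁, α₁ i * e i j) - (∑ n ∈ range N, α n * e n j + ↑l * β * z j)) +
                β * (e n j - e n' j - z j)) +
              (∑ n ∈ range N, α n * e n j + (↑l + 1) * β * z j) := by ring
          rw [h8]
          refine (abs_add_le _ _).trans ?_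
          have h10 := abs_add_le ((∑ i ∈ range N₁, α₁ i * e i j) -
            (∑ n ∈ range N, α n * e n j + ↑l * β * z j)) (β * (e n j - e n' j - z j))
          nlinarith

/-- The hypothesis of the abstract construction. -/
def PairProp (e : ℕ → ℕ → ℝ) (m c : ℕ → ℝ) : Prop :=
  ∀ (k : ℕ) (z : ℕ → ℝ), z 0 = 0 → (∀ j, |z j| ≤ 1) → ∑ j ∈ range (k + 2), c j * z j = 0 →
    ∀ ε > (0:ℝ), ∀ N : ℕ, ∃ n n' : ℕ, N ≤ n ∧ n < n' ∧ |m n| ≤ ε ∧ |m n'| ≤ ε ∧
      ∀ j ≤ k, |e n j - e n' j - z j| ≤ ε

theorem block_step (e : ℕ → ℕ → ℝ) (m c : ℕ → ℝ) (he : ∀ n j, |e n j| ≤ 1) (he0 : ∀ n, e n 0 = 1)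
    (hc : ∀ k, c (k + 1) ≠ 0) (hK : PairProp e m c)
    (k : ℕ) (ε : ℝ) (hε : 0 < ε)
    (N : ℕ) (α : ℕ → ℝ) (hα : ∀ n, N ≤ n → α n = 0) (hα0 : ∑ n ∈ range N, α n * e n 0 = 0) :
    ∃ (N' : ℕ) (α' : ℕ → ℝ), N < N' ∧ (∀ n, n < N → α' n = α n) ∧
      (∀ n, N' ≤ n → α' n = 0) ∧ (∀ n, N ≤ n → |α' n| ≤ ε) ∧
      (∑ n ∈ Ico N N', |α' n| * |m n| ≤ ε) ∧
      (∑ n ∈ range N', α' n * e n 0 = 0) ∧
      (∀ j ≤ k, |∑ n ∈ range N', α' n * e n j| ≤ ε) ∧
      (∀ j ≤ k, ∀ N'', N ≤ N'' → |∑ n ∈ range N'', α' n * e n j| ≤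
        |∑ n ∈ range N, α n * e n j| + ε) := by
  set s : ℕ → ℝ := fun j => ∑ n ∈ range N, α n * e n j with hs
  set v : ℕ → ℝ := fun j => if j = k + 1 then (∑ j ∈ range (k + 1), c j * s j) / c (k + 1)
    else if j ≤ k then - s j else 0 with hv
  set lam : ℝ := 1 + ∑ j ∈ range (k + 2), |v j| with hlam
  have hlam1 : 1 ≤ lam := by
    have : 0 ≤ ∑ j ∈ range (k + 2), |v j| := Finset.sum_nonneg (fun _ _ => abs_nonneg _)
    linarith
  have hlam0 : 0 < lam := by linarith
  have hvle : ∀ j, |v j| ≤ lam := by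
    intro j
    by_cases hj : j ∈ range (k + 2)
    · have : |v j| ≤ ∑ j ∈ range (k + 2), |v j| :=
        Finset.single_le_sum (f := fun j => |v j|) (fun i _ => abs_nonneg _) hj
      linarith
    · rw [Finset.mem_range] at hj
      have : v j = 0 := by
        simp only [hv]
        rw [if_neg (by omega), if_neg (by omega)]
      rw [this, abs_zero]; exact hlam0.le
  set z : ℕ → ℝ := fun j => v j / lam with hzdef
  have hz0 : z 0 = 0 := by
    simp only [hzdef, hv]
    rw [if_neg (by omega), if_pos (by omega)]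
    have : s 0 = 0 := hα0
    rw [this]; simp
  have hz1 : ∀ j, |z j| ≤ 1 := by
    intro j
    simp only [hzdef]
    rw [abs_div, abs_of_pos hlam0]
    exact div_le_one_of_le₀ (hvle j) hlam0.le
  have hzs : ∑ j ∈ range (k + 2), c j * z j = 0 := by
    have h1 : ∑ j ∈ range (k + 2), c j * z j = (∑ j ∈ range (k + 2), c j * v j) / lam := by
      rw [Finset.sum_div]
      apply Finset.sum_congr rfl
      intro j _
      simp only [hzdef]; ring
    rw [h1, Finset.sum_range_succ]
    have h2 : ∑ j ∈ range (k + 1), c j * v j = - ∑ j ∈ range (k + 1), c j * s j := by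
      rw [← Finset.sum_neg_distrib]
      apply Finset.sum_congr rfl
      intro j hj
      rw [Finset.mem_range] at hj
      simp only [hv]
      rw [if_neg (by omega), if_pos (by omega)]
      ring
    have h3 : c (k + 1) * v (k + 1) = ∑ j ∈ range (k + 1), c j * s j := by
      have hvk : v (k + 1) = (∑ j ∈ range (k + 1), c j * s j) / c (k + 1) := if_pos rfl
      rw [hvk]
      exact mul_div_cancel₀ _ (hc k)
    rw [h2, h3]; simp
  obtain ⟨M, hM⟩ := exists_nat_gt (2 * lam / ε)
  have hMpos : (0:ℝ) < M := lt_trans (by positivity) hM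
  have hMpos' : 0 < M := by exact_mod_cast hMpos
  set β : ℝ := lam / M with hβ
  have hβpos : 0 < β := by positivity
  have hβle : β ≤ ε / 2 := by
    rw [hβ, div_le_iff₀ hMpos]
    rw [div_lt_iff₀ hε] at hM
    linarith
  set δ : ℝ := ε / (2 * lam) with hδ
  have hδpos : 0 < δ := by positivity
  have hMβ : (M:ℝ) * β = lam := by rw [hβ]; field_simp
  have hlamδ : lam * δ = ε / 2 := by rw [hδ]; field_simp
  have hMβδ : (M:ℝ) * β * δ = ε / 2 := by rw [hMβ, hlamδ]
  obtain ⟨N', α', h1, h2, h3, h4, h5, h6, h7, h8⟩ :=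
    pairs_step e m he he0 k z (fun ε' hε' N' => hK k z hz0 hz1 hzs ε' hε' N') N α hα hα0 β δ hβpos
      hδpos M (by
        intro j hj l hl
        have hzj : z j = - s j / lam := by
          simp only [hzdef, hv]
          rw [if_neg (by omega), if_pos hj]
        have : ∑ n ∈ range N, α n * e n j = s j := rfl
        rw [this, hzj]
        have hl' : (l:ℝ) ≤ M := by exact_mod_cast hl
        have h9 : s j + l * β * (- s j / lam) = s j * (1 - l / M) := by
          rw [hβ]; field_simp; ring
        rw [h9, abs_mul]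
        have h10 : |1 - (l:ℝ) / M| ≤ 1 := by
          rw [abs_le]
          have h11 : (l:ℝ) / M ≤ 1 := div_le_one_of_le₀ hl' hMpos.le
          have h12 : 0 ≤ (l:ℝ) / M := by positivity
          constructor <;> linarith
        have := abs_nonneg (s j)
        nlinarith) M le_rfl
  refine ⟨N', α', by omega, h2, h3, fun n hn => (h4 n hn).trans (by linarith), ?_, h6, ?_, ?_⟩
  · refine h5.trans ?_
    have : 2 * (M:ℝ) * β * δ = 2 * ((M:ℝ) * β * δ) := by ring
    rw [this, hMβδ]; linarith
  · intro j hj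
    have h9 := h7 j hj
    have hzj : z j = - s j / lam := by
      simp only [hzdef, hv]
      rw [if_neg (by omega), if_pos hj]
    have h10 : ∑ n ∈ range N, α n * e n j + M * β * z j = 0 := by
      have : ∑ n ∈ range N, α n * e n j = s j := rfl
      rw [this, hzj, hMβ]; field_simp; ring
    rw [h10, sub_zero, hMβδ] at h9
    linarith
  · intro j hj N'' hN''
    refine (h8 j hj N'' hN'').trans ?_
    rw [hMβδ]; linarith

/-- The abstract construction: a sequence `α` tending to `0`, all of whose point evaluations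
vanish, but whose pairing with `m` is absolutely convergent with nonzero sum. -/
theorem abstract_null (e : ℕ → ℕ → ℝ) (m c : ℕ → ℝ) (he : ∀ n j, |e n j| ≤ 1)
    (he0 : ∀ n, e n 0 = 1) (hc : ∀ k, c (k + 1) ≠ 0) (hK : PairProp e m c)
    (n₀ n₁ : ℕ) (hn : n₀ < n₁) (hn₀ : 0 < n₀) (hm : m n₀ ≠ m n₁) :
    ∃ α : ℕ → ℝ, α 0 = 0 ∧ Tendsto α atTop (𝓝 0) ∧
      (∀ j, Tendsto (fun N => ∑ n ∈ range N, α n * e n j) atTop (𝓝 0)) ∧
      Summable (fun n => |α n| * |m n|) ∧ ∑' n, α n * m n ≠ 0 := by
  set L : ℝ := |m n₀ - m n₁| with hL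
  have hLpos : 0 < L := abs_pos.mpr (sub_ne_zero.mpr hm)
  set ε : ℕ → ℝ := fun k => L / 4 * (1 / 2) ^ k with hε
  have hεpos : ∀ k, 0 < ε k := fun k => by simp only [hε]; positivity
  have hεanti : ∀ k, ε (k + 1) ≤ ε k := fun k => by
    simp only [hε, pow_succ]
    have : (0:ℝ) < (1/2) ^ k := by positivity
    nlinarith
  have hεsum : ∀ k, ∑ i ∈ range k, ε i ≤ L / 2 := by
    intro k
    have h : ∑ i ∈ range k, ε i = L / 2 * (1 - (1/2)^k) := by
      induction k with
      | zero => simp
      | succ k ih =>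
        rw [Finset.sum_range_succ, ih]; simp only [hε]; ring
    rw [h]
    have : (0:ℝ) < (1/2) ^ k := by positivity
    nlinarith
  -- states
  let Inv : ℕ × (ℕ → ℝ) → Prop := fun s =>
    (∀ n, s.1 ≤ n → s.2 n = 0) ∧ ∑ n ∈ range s.1, s.2 n * e n 0 = 0
  let R : ℕ → ℕ × (ℕ → ℝ) → ℕ × (ℕ → ℝ) → Prop := fun k s t =>
    s.1 < t.1 ∧ (∀ n, n < s.1 → t.2 n = s.2 n) ∧ (∀ n, s.1 ≤ n → |t.2 n| ≤ ε k) ∧
      (∑ n ∈ Ico s.1 t.1, |t.2 n| * |m n| ≤ ε k) ∧
      (∀ j ≤ k, |∑ n ∈ range t.1, t.2 n * e n j| ≤ ε k) ∧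
      (∀ j ≤ k, ∀ N'', s.1 ≤ N'' → |∑ n ∈ range N'', t.2 n * e n j| ≤
        |∑ n ∈ range s.1, s.2 n * e n j| + ε k)
  have hstep : ∀ (k : ℕ) (s : {s // Inv s}), ∃ t : {t // Inv t}, R k s.1 t.1 := by
    rintro k ⟨⟨N, α⟩, h1, h2⟩
    obtain ⟨N', α', g1, g2, g3, g4, g5, g6, g7, g8⟩ :=
      block_step e m c he he0 hc hK k (ε k) (hεpos k) N α h1 h2
    exact ⟨⟨(N', α'), g3, g6⟩, g1, g2, g4, g5, g7, g8⟩
  let α₀ : ℕ → ℝ := fun n => (if n = n₀ then 1 else 0) + (if n = n₁ then -1 else 0)
  have hα₀ : Inv (n₁ + 1, α₀) := by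
    constructor
    · intro n hn'
      have h1 : n ≠ n₀ := by simp only at hn'; omega
      have h2 : n ≠ n₁ := by simp only at hn'; omega
      simp [α₀, h1, h2]
    · have h1 : ∑ i ∈ range (n₁ + 1), α₀ i * e i 0 =
            ∑ i ∈ range (n₁ + 1), (if i = n₀ then (1:ℝ) else 0) +
            ∑ i ∈ range (n₁ + 1), (if i = n₁ then (-1:ℝ) else 0) := by
        rw [← Finset.sum_add_distrib]
        apply Finset.sum_congr rfl
        intro i _
        simp [α₀, he0]
      show ∑ i ∈ range (n₁ + 1), α₀ i * e i 0 = 0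
      rw [h1, Finset.sum_ite_eq', Finset.sum_ite_eq', if_pos (by rw [Finset.mem_range]; omega),
        if_pos (by rw [Finset.mem_range]; omega)]
      ring
  choose nxt hnxt using hstep
  let st : ℕ → {s // Inv s} := fun k => Nat.rec ⟨(n₁ + 1, α₀), hα₀⟩ (fun k s => nxt k s) k
  have hst : ∀ k, R k (st k).1 (st (k + 1)).1 := fun k => hnxt k (st k)
  set Nn : ℕ → ℕ := fun k => (st k).1.1 with hNn
  set A : ℕ → ℕ → ℝ := fun k => (st k).1.2 with hA
  have hN0 : Nn 0 = n₁ + 1 := rfl
  have hA0 : A 0 = α₀ := rfl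
  have hNlt : ∀ k, Nn k < Nn (k + 1) := fun k => (hst k).1
  have hNmono : StrictMono Nn := strictMono_nat_of_lt_succ hNlt
  have hNge : ∀ k, k < Nn k := by
    intro k
    induction k with
    | zero => rw [hN0]; omega
    | succ k ih => have := hNlt k; omega
  have hagree : ∀ k d n, n < Nn k → A (k + d) n = A k n := by
    intro k d
    induction d with
    | zero => intro n _; rfl
    | succ d ih =>
      intro n hn'
      have h1 : Nn k ≤ Nn (k + d) := hNmono.monotone (by omega)
      have h2 := (hst (k + d)).2.1 n (lt_of_lt_of_le hn' h1)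
      have h3 : A (k + (d + 1)) n = A (k + d) n := h2
      rw [h3, ih n hn']
  let α : ℕ → ℝ := fun n => A n n
  have hαA : ∀ k n, n < Nn k → α n = A k n := by
    intro k n hn'
    rcases le_total n k with h | h
    · obtain ⟨d, rfl⟩ := Nat.exists_eq_add_of_le h
      exact (hagree n d n (hNge n)).symm
    · obtain ⟨d, rfl⟩ := Nat.exists_eq_add_of_le h
      exact hagree k d _ hn'
  have hsumA : ∀ k N j, N ≤ Nn k → ∑ n ∈ range N, α n * e n j = ∑ n ∈ range N, A k n * e n j := by
    intro k N j hN
    apply Finset.sum_congr rfl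
    intro n hn'
    rw [Finset.mem_range] at hn'
    rw [hαA k n (lt_of_lt_of_le hn' hN)]
  -- smallness
  have hεle : ∀ k d, ε (k + d) ≤ ε k := by
    intro k d
    induction d with
    | zero => exact le_rfl
    | succ d ih => exact (hεanti _).trans ih
  have hsmall : ∀ k d n, Nn k ≤ n → n < Nn (k + d) → |α n| ≤ ε k := by
    intro k d
    induction d with
    | zero => intro n h1 h2; simp only [add_zero] at h2; omega
    | succ d ih =>
      intro n h1 h2
      by_cases h3 : n < Nn (k + d)
      · exact ih n h1 h3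
      · have h4 := (hst (k + d)).2.2.1 n (by simpa [hNn] using h3)
        have h5 : α n = A (k + d + 1) n := hαA (k + d + 1) n h2
        rw [h5]
        exact h4.trans (hεle k d)
  have hεtend : Tendsto ε atTop (𝓝 0) := by
    have h1 : Tendsto (fun k : ℕ => (1/2 : ℝ) ^ k) atTop (𝓝 0) :=
      tendsto_pow_atTop_nhds_zero_of_lt_one (by norm_num) (by norm_num)
    have h2 := h1.const_mul (L / 4)
    simpa [hε] using h2
  have hαtend : Tendsto α atTop (𝓝 0) := by
    rw [Metric.tendsto_atTop]
    intro η hη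
    obtain ⟨k, hk⟩ := ((Metric.tendsto_atTop.mp hεtend) η hη)
    refine ⟨Nn k, fun n hn' => ?_⟩
    have h1 := hsmall k n n hn' (lt_of_lt_of_le (hNge n) (hNmono.monotone (by omega)))
    have h2 := hk k le_rfl
    rw [Real.dist_eq, sub_zero, abs_of_pos (hεpos k)] at h2
    rw [Real.dist_eq, sub_zero]
    linarith
  -- value at the block ends
  have hend : ∀ j k, j ≤ k → |∑ n ∈ range (Nn (k + 1)), α n * e n j| ≤ ε k := by
    intro j k hjk
    rw [hsumA (k + 1) _ j le_rfl]
    exact (hst k).2.2.2.2.1 j hjk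
  have hpart : ∀ j k, j ≤ k → ∀ d N, Nn (k + 1) ≤ N → N ≤ Nn (k + 1 + d) →
      |∑ n ∈ range N, α n * e n j| ≤ 2 * ε k := by
    intro j k hjk d
    induction d with
    | zero =>
      intro N h1 h2
      have h3 : N = Nn (k + 1) := le_antisymm h2 h1
      rw [h3]
      have := hend j k hjk
      have := hεpos k
      linarith
    | succ d ih =>
      intro N h1 h2
      by_cases h3 : N ≤ Nn (k + 1 + d)
      · exact ih N h1 h3
      · rw [hsumA (k + 1 + d + 1) N j h2]
        have h4 := (hst (k + 1 + d)).2.2.2.2.2 j (by omega) N (by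
          have : Nn (k + 1 + d) = (st (k + 1 + d)).1.1 := rfl
          omega)
        have h5 : |∑ n ∈ range (Nn (k + 1 + d)), A (k + 1 + d) n * e n j| ≤ ε (k + d) := by
          rw [← hsumA (k + 1 + d) _ j le_rfl]
          have h6 : k + 1 + d = k + d + 1 := by omega
          rw [h6]
          exact hend j (k + d) (by omega)
        have h7 : ε (k + 1 + d) ≤ ε k := by
          have := hεle k (1 + d)
          rwa [← add_assoc] at this
        have h8 := hεle k d
        refine h4.trans ?_
        have h9 : |∑ n ∈ range (st (k + 1 + d)).1.1, (st (k + 1 + d)).1.2 n * e n j| ≤ ε (k + d) := h5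
        linarith
  have hconv : ∀ j, Tendsto (fun N => ∑ n ∈ range N, α n * e n j) atTop (𝓝 0) := by
    intro j
    rw [Metric.tendsto_atTop]
    intro η hη
    obtain ⟨k, hk⟩ := ((Metric.tendsto_atTop.mp hεtend) (η / 2) (by linarith))
    refine ⟨Nn (max j k + 1), fun N hN => ?_⟩
    have h1 := hpart j (max j k) (le_max_left _ _) N N hN
      ((hNge N).le.trans (hNmono.monotone (by omega)))
    have h2 := hk (max j k) (le_max_right _ _)
    rw [Real.dist_eq, sub_zero, abs_of_pos (hεpos _)] at h2
    rw [Real.dist_eq, sub_zero]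
    linarith
  -- the pairing
  have hblock : ∀ k, ∑ n ∈ Ico (Nn k) (Nn (k + 1)), |α n| * |m n| ≤ ε k := by
    intro k
    have h1 : ∑ n ∈ Ico (Nn k) (Nn (k + 1)), |α n| * |m n| =
        ∑ n ∈ Ico (Nn k) (Nn (k + 1)), |A (k + 1) n| * |m n| := by
      apply Finset.sum_congr rfl
      intro n hn'
      rw [Finset.mem_Ico] at hn'
      rw [hαA (k + 1) n hn'.2]
    rw [h1]
    exact (hst k).2.2.2.1
  have hblocks : ∀ k, ∑ n ∈ Ico (Nn 0) (Nn k), |α n| * |m n| ≤ L / 2 := by
    intro k
    have h : ∑ n ∈ Ico (Nn 0) (Nn k), |α n| * |m n| ≤ ∑ i ∈ range k, ε i := by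
      induction k with
      | zero => simp
      | succ k ih =>
        rw [← Finset.sum_Ico_consecutive _ (hNmono.monotone (Nat.zero_le k)) (hNlt k).le,
          Finset.sum_range_succ]
        exact add_le_add ih (hblock k)
    exact h.trans (hεsum k)
  have hnonneg : ∀ n, 0 ≤ |α n| * |m n| := fun n => by positivity
  have htail : ∀ N, ∑ n ∈ range N, |α (n + Nn 0)| * |m (n + Nn 0)| ≤ L / 2 := by
    intro N
    have h1 : ∑ n ∈ range N, |α (n + Nn 0)| * |m (n + Nn 0)| =
        ∑ n ∈ Ico (Nn 0) (N + Nn 0), |α n| * |m n| := by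
      rw [Finset.range_eq_Ico, Finset.sum_Ico_add' (fun n => |α n| * |m n|) 0 N (Nn 0)]
      simp
    rw [h1]
    refine le_trans ?_ (hblocks (N + Nn 0))
    apply Finset.sum_le_sum_of_subset_of_nonneg
    · apply Finset.Ico_subset_Ico le_rfl (hNge _).le
    · intro n _ _; exact hnonneg n
  have htailsum : Summable (fun n => |α (n + Nn 0)| * |m (n + Nn 0)|) :=
    summable_of_sum_range_le (fun n => hnonneg (n + Nn 0)) htail
  have hsum : Summable (fun n => |α n| * |m n|) :=
    (summable_nat_add_iff (f := fun n => |α n| * |m n|) (Nn 0)).mp htailsum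
  have hsum' : Summable (fun n => α n * m n) := by
    apply Summable.of_norm
    refine hsum.congr (fun n => ?_)
    rw [Real.norm_eq_abs, abs_mul]
  refine ⟨α, ?_, hαtend, hconv, hsum, ?_⟩
  · have h1 : α 0 = A 0 0 := rfl
    have h2 : (0:ℕ) ≠ n₀ := by omega
    have h3 : (0:ℕ) ≠ n₁ := by omega
    rw [h1, hA0]
    simp [α₀, h2, h3]
  · have h1 : ∑' n, α n * m n = ∑ n ∈ range (Nn 0), α n * m n + ∑' n, α (n + Nn 0) * m (n + Nn 0) :=
      (hsum'.sum_add_tsum_nat_add (Nn 0)).symm
    have h2 : ∑ n ∈ range (Nn 0), α n * m n = m n₀ - m n₁ := by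
      have h3 : ∑ n ∈ range (Nn 0), α n * m n = ∑ n ∈ range (n₁ + 1), α₀ n * m n := by
        rw [hN0]
        apply Finset.sum_congr rfl
        intro n hn'
        rw [Finset.mem_range] at hn'
        rw [hαA 0 n (by rw [hN0]; exact hn'), hA0]
      rw [h3]
      have h1 : ∑ i ∈ range (n₁ + 1), α₀ i * m i =
            ∑ i ∈ range (n₁ + 1), (if i = n₀ then m n₀ else 0) +
            ∑ i ∈ range (n₁ + 1), (if i = n₁ then - m n₁ else 0) := by
        rw [← Finset.sum_add_distrib]
        apply Finset.sum_congr rfl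
        intro i _
        by_cases hi1 : i = n₀
        · have hi2 : i ≠ n₁ := by omega
          simp only [α₀]
          rw [if_pos hi1, if_neg hi2, if_pos hi1, if_neg hi2, hi1]; ring
        · by_cases hi2 : i = n₁
          · simp only [α₀]
            rw [if_neg hi1, if_pos hi2, if_neg hi1, if_pos hi2, hi2]; ring
          · simp only [α₀]
            rw [if_neg hi1, if_neg hi2, if_neg hi1, if_neg hi2]; ring
      rw [h1, Finset.sum_ite_eq', Finset.sum_ite_eq', if_pos (by rw [Finset.mem_range]; omega),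
        if_pos (by rw [Finset.mem_range]; omega)]
      ring
    have h4 : |∑' n, α (n + Nn 0) * m (n + Nn 0)| ≤ L / 2 := by
      have h5 : ‖∑' n, α (n + Nn 0) * m (n + Nn 0)‖ ≤ ∑' n, ‖α (n + Nn 0) * m (n + Nn 0)‖ := by
        apply norm_tsum_le_tsum_norm
        refine htailsum.congr (fun n => ?_)
        rw [Real.norm_eq_abs, abs_mul]
      rw [Real.norm_eq_abs] at h5
      refine h5.trans ?_
      have h6 : ∑' n, ‖α (n + Nn 0) * m (n + Nn 0)‖ =
          ∑' n, |α (n + Nn 0)| * |m (n + Nn 0)| := by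
        apply tsum_congr
        intro n
        rw [Real.norm_eq_abs, abs_mul]
      rw [h6]
      exact Real.tsum_le_of_sum_range_le (fun n => hnonneg (n + Nn 0)) htail
    rw [h1, h2]
    intro h0
    have h7 : m n₀ - m n₁ = - ∑' n, α (n + Nn 0) * m (n + Nn 0) := by linarith
    have h8 : L ≤ L / 2 := by
      rw [hL, h7, abs_neg]
      rw [hL] at h4
      rw [h7, abs_neg] at h4
      exact h4
    linarith

end Pool.Agent.helper38.NullSeries
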