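import Pool.Agent.helper38.NullSeriesAbstract
import Pool.Agent.helper38.FactorialDigits

set_option autoImplicit false

namespace Pool.Agent.helper38.NullSeries

open Finset Filter Topology

/-- evaluation at the points: index `0` is the limit point, `j+1` is `tt j` -/
noncomputable def ee (n j : ℕ) : ℝ := if j = 0 then 1 else Real.cos (n * tt (j - 1))

noncomputable def cc (j : ℕ) : ℝ := if j = 0 then 0 else (1 / 2) ^ (j - 1)

noncomputable def mm (n : ℕ) : ℝ := ∑' j : ℕ, (1 / 2 : ℝ) ^ j * Real.cos (n * tt j)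

theorem summable_geo_bdd (f : ℕ → ℝ) (C : ℝ) (hf : ∀ j, |f j| ≤ C) :
    Summable (fun j : ℕ => (1 / 2 : ℝ) ^ j * f j) := by
  have hg : Summable (fun j : ℕ => (1 / 2 : ℝ) ^ j * C) :=
    (summable_geometric_of_lt_one (by norm_num) (by norm_num)).mul_right C
  apply Summable.of_norm_bounded hg
  intro j
  rw [Real.norm_eq_abs, abs_mul, abs_of_pos (by positivity : (0:ℝ) < (1/2)^j)]
  exact mul_le_mul_of_nonneg_left (hf j) (by positivity)

theorem mm_approx (n J : ℕ) (y : ℕ → ℝ) (hy : ∀ j, |y j| ≤ 1) (δ : ℝ) (hδ : 0 ≤ δ)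
    (h : ∀ j < J, |Real.cos (n * tt j) - y j| ≤ δ) :
    |mm n - ∑' j : ℕ, (1 / 2 : ℝ) ^ j * y j| ≤ 2 * δ + 4 * (1 / 2) ^ J := by
  have hs1 : Summable (fun j : ℕ => (1 / 2 : ℝ) ^ j * Real.cos (n * tt j)) :=
    summable_geo_bdd _ 1 (fun j => Real.abs_cos_le_one _)
  have hs2 : Summable (fun j : ℕ => (1 / 2 : ℝ) ^ j * y j) := summable_geo_bdd _ 1 hy
  have hd : ∀ j, |Real.cos (n * tt j) - y j| ≤ 2 := by
    intro j
    have h1 := Real.abs_cos_le_one (n * tt j)
    have h2 := hy j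
    have h3 := abs_sub (Real.cos (n * tt j)) (y j)
    linarith
  have hs3 : Summable (fun j : ℕ => (1 / 2 : ℝ) ^ j * |Real.cos (n * tt j) - y j|) :=
    summable_geo_bdd _ 2 (fun j => by rw [abs_abs]; exact hd j)
  have h1 : mm n - ∑' j : ℕ, (1 / 2 : ℝ) ^ j * y j =
      ∑' j : ℕ, ((1 / 2 : ℝ) ^ j * Real.cos (n * tt j) - (1 / 2 : ℝ) ^ j * y j) := by
    unfold mm
    rw [hs1.tsum_sub hs2]
  have h2 : |mm n - ∑' j : ℕ, (1 / 2 : ℝ) ^ j * y j| ≤
      ∑' j : ℕ, (1 / 2 : ℝ) ^ j * |Real.cos (n * tt j) - y j| := by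
    rw [h1]
    have h3 : ∀ j : ℕ, ‖(1 / 2 : ℝ) ^ j * Real.cos (n * tt j) - (1 / 2 : ℝ) ^ j * y j‖ =
        (1 / 2 : ℝ) ^ j * |Real.cos (n * tt j) - y j| := by
      intro j
      rw [← mul_sub, Real.norm_eq_abs, abs_mul, abs_of_pos (by positivity : (0:ℝ) < (1/2)^j)]
    have h4 := norm_tsum_le_tsum_norm (f := fun j : ℕ =>
      (1 / 2 : ℝ) ^ j * Real.cos (n * tt j) - (1 / 2 : ℝ) ^ j * y j) (by
        refine hs3.congr (fun j => ?_); rw [h3 j])
    rw [Real.norm_eq_abs] at h4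
    refine h4.trans (le_of_eq ?_)
    exact tsum_congr h3
  refine h2.trans ?_
  rw [← hs3.sum_add_tsum_nat_add J]
  have hgeo : ∑' j : ℕ, (1 / 2 : ℝ) ^ j = 2 := tsum_geometric_two
  have h5 : ∑ j ∈ range J, (1 / 2 : ℝ) ^ j * |Real.cos (n * tt j) - y j| ≤ 2 * δ := by
    calc ∑ j ∈ range J, (1 / 2 : ℝ) ^ j * |Real.cos (n * tt j) - y j|
        ≤ ∑ j ∈ range J, (1 / 2 : ℝ) ^ j * δ := by
          apply Finset.sum_le_sum
          intro j hj
          rw [Finset.mem_range] at hj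
          exact mul_le_mul_of_nonneg_left (h j hj) (by positivity)
      _ = (∑ j ∈ range J, (1 / 2 : ℝ) ^ j) * δ := by rw [Finset.sum_mul]
      _ ≤ 2 * δ := by
          apply mul_le_mul_of_nonneg_right _ hδ
          refine le_trans ?_ hgeo.le
          exact (summable_geometric_two).sum_le_tsum _ (fun j _ => by positivity)
  have h6 : ∑' j : ℕ, (1 / 2 : ℝ) ^ (j + J) * |Real.cos (n * tt (j + J)) - y (j + J)| ≤
      4 * (1 / 2) ^ J := by
    have h7 : ∀ j : ℕ, (1 / 2 : ℝ) ^ (j + J) * |Real.cos (n * tt (j + J)) - y (j + J)| ≤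
        (1 / 2 : ℝ) ^ j * (2 * (1 / 2) ^ J) := by
      intro j
      rw [pow_add]
      have := hd (j + J)
      have h8 : (0:ℝ) < (1/2) ^ j * (1/2) ^ J := by positivity
      nlinarith
    have h8 : Summable (fun j : ℕ => (1 / 2 : ℝ) ^ j * (2 * (1 / 2) ^ J)) :=
      summable_geometric_two.mul_right _
    have h9 := Summable.tsum_le_tsum h7 ((summable_nat_add_iff J).mpr hs3) h8
    refine h9.trans (le_of_eq ?_)
    rw [tsum_mul_right, hgeo]; ring
  linarith

theorem pairProp : PairProp ee mm cc := by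
  intro k z hz0 hz1 hzs ε hε N
  obtain ⟨J₀, hJ₀⟩ := exists_pow_lt_of_lt_one (show (0:ℝ) < ε / 8 by positivity)
    (show (1/2 : ℝ) < 1 by norm_num)
  set J := max J₀ (k + 1) with hJ
  have hJpow : (1/2 : ℝ) ^ J < ε / 8 := by
    refine lt_of_le_of_lt ?_ hJ₀
    exact pow_le_pow_of_le_one (by norm_num) (by norm_num) (le_max_left _ _)
  set y : ℕ → ℝ := fun j => if j < k + 1 then z (j + 1) else 0 with hy
  have hy1 : ∀ j, |y j| ≤ 1 := by
    intro j
    simp only [hy]
    split_ifs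
    · exact hz1 _
    · simp
  have hysum : ∑' j : ℕ, (1 / 2 : ℝ) ^ j * y j = 0 := by
    rw [tsum_eq_sum (s := range (k + 1))]
    · rw [← hzs, Finset.sum_range_succ' (fun j => cc j * z j) (k + 1)]
      have : cc 0 * z 0 = 0 := by rw [hz0]; ring
      rw [this, add_zero]
      apply Finset.sum_congr rfl
      intro j hj
      rw [Finset.mem_range] at hj
      simp only [hy, cc]
      rw [if_pos hj, if_neg (by omega)]
      simp
    · intro j hj
      rw [Finset.mem_range] at hj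
      simp only [hy]
      rw [if_neg hj]; ring
  set δ : ℝ := ε / 4 with hδ
  have hδpos : 0 < δ := by positivity
  obtain ⟨n, hnN, hn⟩ := kronecker J y hy1 δ hδpos N
  obtain ⟨n', hnn', hn'⟩ := kronecker J (fun _ => 0) (by simp) δ hδpos (n + 1)
  refine ⟨n, n', hnN, by omega, ?_, ?_, ?_⟩
  · have := mm_approx n J y hy1 δ hδpos.le hn
    rw [hysum, sub_zero] at this
    linarith
  · have := mm_approx n' J (fun _ => 0) (by simp) δ hδpos.le hn'
    simp only [mul_zero, tsum_zero, sub_zero] at this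
    linarith
  · intro j hj
    rcases Nat.eq_zero_or_pos j with h0 | h0
    · subst h0
      simp only [ee, if_true, hz0]
      simp; linarith
    · have h1 := hn (j - 1) (by omega)
      have h2 := hn' (j - 1) (by omega)
      have h3 : y (j - 1) = z j := by
        simp only [hy]
        rw [if_pos (by omega)]
        congr 1
        omega
      simp only [ee]
      rw [if_neg (by omega), if_neg (by omega)]
      rw [h3] at h1
      rw [sub_zero] at h2
      have h4 : Real.cos (n * tt (j - 1)) - Real.cos (n' * tt (j - 1)) - z j =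
        (Real.cos (n * tt (j - 1)) - z j) - Real.cos (n' * tt (j - 1)) := by ring
      rw [h4]
      have h5 := abs_sub (Real.cos (n * tt (j - 1)) - z j) (Real.cos (n' * tt (j - 1)))
      linarith

theorem ee_abs_le (n j : ℕ) : |ee n j| ≤ 1 := by
  unfold ee
  split_ifs
  · simp
  · exact Real.abs_cos_le_one _

theorem exists_mm_ne : ∃ n₀ n₁ : ℕ, 0 < n₀ ∧ n₀ < n₁ ∧ mm n₀ ≠ mm n₁ := by
  -- targets all `1` and then all `0`
  obtain ⟨n₀, h1, h2⟩ := kronecker 5 (fun _ => 1) (by simp) (1/8) (by norm_num) 1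
  obtain ⟨n₁, h3, h4⟩ := kronecker 5 (fun _ => 0) (by simp) (1/8) (by norm_num) (n₀ + 1)
  refine ⟨n₀, n₁, by omega, by omega, ?_⟩
  have h5 := mm_approx n₀ 5 (fun _ => 1) (by simp) (1/8) (by norm_num) h2
  have h6 := mm_approx n₁ 5 (fun _ => 0) (by simp) (1/8) (by norm_num) h4
  simp only [mul_one, mul_zero, tsum_zero, sub_zero] at h5 h6
  rw [tsum_geometric_two, abs_le] at h5
  rw [abs_le] at h6
  intro h7
  rw [h7] at h5
  norm_num at h5 h6
  linarith [h5.1, h6.2]

theorem main_sequence : ∃ α : ℕ → ℝ, α 0 = 0 ∧ Tendsto α atTop (𝓝 0) ∧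
      (Tendsto (fun N => ∑ n ∈ range N, α n) atTop (𝓝 0)) ∧
      (∀ j, Tendsto (fun N => ∑ n ∈ range N, α n * Real.cos (n * tt j)) atTop (𝓝 0)) ∧
      Summable (fun n => |α n| * |mm n|) ∧ ∑' n, α n * mm n ≠ 0 := by
  obtain ⟨n₀, n₁, h1, h2, h3⟩ := exists_mm_ne
  obtain ⟨α, g1, g2, g3, g4, g5⟩ := abstract_null ee mm cc ee_abs_le (fun n => by simp [ee])
    (fun k => by simp [cc]) pairProp n₀ n₁ h2 h1 h3
  refine ⟨α, g1, g2, ?_, ?_, g4, g5⟩
  · have := g3 0
    simpa [ee] using this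
  · intro j
    have := g3 (j + 1)
    simpa [ee] using this

end Pool.Agent.helper38.NullSeries
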